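import Pool.Agent.Lib.MP_9b2593_an.Uq.StarC

/-!
The image of a circularly symmetric function.
-/

open Complex Metric Set MeasureTheory Filter Topology

noncomputable section

namespace Pool.Agent.Lib.MP_9b2593_an.Uq

/-- A continuous function that is antitone on an open interval is antitone on the closed one. -/
theorem circ_antitone_Icc {φ : ℝ → ℝ} (hφ : Continuous φ) {a b : ℝ} (hab : a < b)
    (h : AntitoneOn φ (Ioo a b)) : AntitoneOn φ (Icc a b) := by
  intro x hx y hy hxy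
  have t1 : ∀ u : ℝ, Tendsto (fun e : ℝ => φ ((1 - e) * u + e * ((a + b) / 2))) (𝓝[>] 0)
      (𝓝 (φ u)) := by
    intro u
    have hc : Continuous (fun e : ℝ => φ ((1 - e) * u + e * ((a + b) / 2))) := by fun_prop
    have := hc.tendsto 0
    simp only [sub_zero, one_mul, zero_mul, add_zero] at this
    exact this.mono_left nhdsWithin_le_nhds
  have hm : ∀ u ∈ Icc a b, ∀ e ∈ Ioo (0 : ℝ) 1, (1 - e) * u + e * ((a + b) / 2) ∈ Ioo a b := by
    intro u hu e he
    obtain ⟨h1, h2⟩ := hu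
    obtain ⟨h3, h4⟩ := he
    constructor <;> nlinarith
  refine le_of_tendsto_of_tendsto (t1 y) (t1 x) ?_
  filter_upwards [Ioo_mem_nhdsGT (zero_lt_one' ℝ)] with e he
  refine h (hm x hx e he) (hm y hy e he) ?_
  have := he.2
  nlinarith

theorem circ_mem {r : ℝ} (hr : r ∈ Ioo (0 : ℝ) 1) (w : ℂ) (hw : ‖w‖ = 1) :
    (r : ℂ) * w ∈ ball (0 : ℂ) 1 := by
  rw [mem_ball_zero_iff, norm_mul, hw, mul_one, Complex.norm_real, Real.norm_of_nonneg hr.1.le]
  exact hr.2

theorem circ_norm_neg (θ : ℝ) : ‖exp (-(θ * I))‖ = 1 := by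
  have := Complex.norm_exp_ofReal_mul_I (-θ)
  rwa [Complex.ofReal_neg, neg_mul] at this

theorem circ_cont {f : ℂ → ℂ} (hf : InS f) {r : ℝ} (hr : r ∈ Ioo (0 : ℝ) 1) :
    Continuous (fun θ : ℝ => f (r * exp (θ * I))) :=
  hf.1.continuousOn.comp_continuous (by fun_prop)
    (fun θ => circ_mem hr _ (Complex.norm_exp_ofReal_mul_I θ))

theorem circ_anti {f : ℂ → ℂ} (hf : InS f) (hc : Circ f) {r : ℝ} (hr : r ∈ Ioo (0 : ℝ) 1) :
    AntitoneOn (fun θ : ℝ => ‖f (r * exp (θ * I))‖) (Icc 0 Real.pi) :=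
  circ_antitone_Icc (circ_cont hf hr).norm Real.pi_pos (hc r hr).1

theorem circ_anti' {f : ℂ → ℂ} (hf : InS f) (hc : Circ f) {r : ℝ} (hr : r ∈ Ioo (0 : ℝ) 1) :
    AntitoneOn (fun θ : ℝ => ‖f (r * exp (-(θ * I)))‖) (Icc 0 Real.pi) :=
  circ_antitone_Icc (hf.1.continuousOn.comp_continuous (by fun_prop)
    (fun θ => circ_mem hr _ (circ_norm_neg θ))).norm Real.pi_pos (hc r hr).2

theorem circ_real_mem {x : ℝ} (hx : x ∈ Ioo (-1 : ℝ) 1) : (x : ℂ) ∈ ball (0 : ℂ) 1 := by
  rw [mem_ball_zero_iff, Complex.norm_real, Real.norm_eq_abs, abs_lt]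
  exact hx

theorem circ_hasDerivAt {f : ℂ → ℂ} (hf : InS f) {z : ℂ} (hz : z ∈ ball (0 : ℂ) 1) :
    HasDerivAt f (deriv f z) z :=
  (hf.1.differentiableAt (isOpen_ball.mem_nhds hz)).hasDerivAt

/-- On the positive radius `conj f * f'` is real. -/
theorem circ_im {f : ℂ → ℂ} (hf : InS f) (hc : Circ f) {x : ℝ} (hx : x ∈ Ioo (0 : ℝ) 1) :
    (deriv f x * starRingEnd ℂ (f x)).im = 0 := by
  have hx' : (x : ℂ) ∈ ball (0 : ℂ) 1 := circ_real_mem ⟨by linarith [hx.1], hx.2⟩
  have hmax : IsLocalMax (fun θ : ℝ => ‖f (x * exp (θ * I))‖ ^ 2) 0 := by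
    filter_upwards [Ioo_mem_nhds (neg_lt_zero.2 Real.pi_pos) Real.pi_pos] with θ hθ
    refine pow_le_pow_left₀ (norm_nonneg _) ?_ 2
    rcases le_total 0 θ with h | h
    · exact circ_anti hf hc hx ⟨le_rfl, Real.pi_pos.le⟩ ⟨h, hθ.2.le⟩ h
    · have := circ_anti' hf hc hx (a := 0) (b := -θ) ⟨le_rfl, Real.pi_pos.le⟩
        ⟨by linarith, by linarith [hθ.1]⟩ (by linarith)
      simpa using this
  have h1 : HasDerivAt (fun t : ℂ => (x : ℂ) * exp (t * I)) (x * I) ((0 : ℝ) : ℂ) := by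
    have := ((hasDerivAt_id ((0 : ℝ) : ℂ)).mul_const I).cexp.const_mul (x : ℂ)
    simpa using this
  have h2 : HasDerivAt f (deriv f x) ((x : ℂ) * exp (((0 : ℝ) : ℂ) * I)) := by
    simpa using circ_hasDerivAt hf hx'
  have h3 := ((h2.comp ((0 : ℝ) : ℂ) h1).comp_ofReal).norm_sq
  have h4 := hmax.hasDerivAt_eq_zero h3
  rw [Complex.inner] at h4
  simp only [Function.comp, ofReal_zero, zero_mul, Complex.exp_zero, mul_one] at h4
  have h5 : deriv f x * (x * I) * starRingEnd ℂ (f x) =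
      (x * I) * (deriv f x * starRingEnd ℂ (f x)) := by ring
  rw [h5] at h4
  have h6 : ∀ u : ℂ, ((x : ℂ) * I * u).re = -(x * u.im) := by
    intro u
    simp
  rw [h6] at h4
  have := hx.1
  have h7 : x * (deriv f x * starRingEnd ℂ (f x)).im = 0 := by linarith
  rcases mul_eq_zero.1 h7 with h | h
  · linarith
  · exact h

theorem circ_slope {f : ℂ → ℂ} (hf : InS f) :
    Tendsto (fun t : ℝ => f t / t) (𝓝[>] 0) (𝓝 1) := by
  have h0 : HasDerivAt f 1 ((0 : ℝ) : ℂ) := by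
    have := circ_hasDerivAt hf (mem_ball_self one_pos)
    rw [hf.2.2.2] at this
    simpa using this
  have := h0.comp_ofReal.tendsto_slope_zero_right
  refine this.congr fun t => ?_
  simp [hf.2.2.1, div_eq_inv_mul]

theorem circ_ne_zero {f : ℂ → ℂ} (hf : InS f) {z : ℂ} (hz : z ∈ ball (0 : ℂ) 1) (h0 : z ≠ 0) :
    f z ≠ 0 := fun h =>
  h0 (hf.2.1 hz (mem_ball_self one_pos) (h.trans hf.2.2.1.symm))

theorem circ_pos_real {f : ℂ → ℂ} (hf : InS f) (hc : Circ f) {x : ℝ} (hx : x ∈ Ioo (0 : ℝ) 1) :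
    starRingEnd ℂ (f x) = f x := by
  have hmem : ∀ y ∈ Ioo (0 : ℝ) 1, (y : ℂ) ∈ ball (0 : ℂ) 1 := fun y hy =>
    circ_real_mem ⟨by linarith [hy.1], hy.2⟩
  have hne : ∀ y ∈ Ioo (0 : ℝ) 1, f y ≠ 0 := fun y hy =>
    circ_ne_zero hf (hmem y hy) (by exact_mod_cast hy.1.ne')
  have hd : ∀ y ∈ Ioo (0 : ℝ) 1, HasDerivAt (fun t : ℝ => star (f t) / f t) 0 y := by
    intro y hy
    have h1 := (circ_hasDerivAt hf (hmem y hy)).comp_ofReal
    have h2 := h1.star.div h1 (hne y hy)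
    have h3 := Complex.conj_eq_iff_im.2 (circ_im hf hc hy)
    rw [map_mul, Complex.conj_conj] at h3
    have h4 : (star (deriv f y) * f y - star (f y) * deriv f y) / f y ^ 2 = 0 := by
      have : star (deriv f y) * f y - star (f y) * deriv f y = 0 := by
        simp only [Complex.star_def]
        rw [h3]
        ring
      rw [this, zero_div]
    rw [h4] at h2
    exact h2
  obtain ⟨c, hcst⟩ := isOpen_Ioo.exists_is_const_of_deriv_eq_zero (𝕜 := ℝ)
    (f := fun t : ℝ => star (f t) / f t) isPreconnected_Ioo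
    (fun y hy => (hd y hy).differentiableAt.differentiableWithinAt)
    (fun y hy => (hd y hy).deriv)
  have hl : Tendsto (fun t : ℝ => star (f t / t) / (f t / t)) (𝓝[>] 0) (𝓝 (star 1 / 1)) :=
    (circ_slope hf).star.div (circ_slope hf) one_ne_zero
  have hl2 : Tendsto (fun t : ℝ => star (f t / t) / (f t / t)) (𝓝[>] 0) (𝓝 c) := by
    refine tendsto_const_nhds.congr' ?_
    filter_upwards [Ioo_mem_nhdsGT (zero_lt_one' ℝ)] with t ht
    have ht0 : (t : ℂ) ≠ 0 := by exact_mod_cast ht.1.ne'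
    have := hne t ht
    rw [← hcst t ht]
    simp only [Complex.star_def, map_div₀, Complex.conj_ofReal]
    field_simp
  have hc1 : c = 1 := by
    have := tendsto_nhds_unique hl2 hl
    simpa using this
  have := hcst x hx
  rw [hc1, div_eq_one_iff_eq (hne x hx)] at this
  exact this

theorem circ_conj_mem {z : ℂ} {s : ℝ} (hz : z ∈ ball (0 : ℂ) s) :
    starRingEnd ℂ z ∈ ball (0 : ℂ) s := by
  rw [mem_ball_zero_iff] at hz ⊢
  rwa [Complex.norm_conj]

theorem circ_conj {f : ℂ → ℂ} (hf : InS f) (hc : Circ f) :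
    ∀ z ∈ ball (0 : ℂ) 1, f (starRingEnd ℂ z) = starRingEnd ℂ (f z) := by
  have hg : DifferentiableOn ℂ (starRingEnd ℂ ∘ f ∘ starRingEnd ℂ) (ball 0 1) := by
    intro z hz
    have := (circ_hasDerivAt hf (circ_conj_mem hz)).conj_conj
    rw [Complex.conj_conj] at this
    exact this.differentiableAt.differentiableWithinAt
  have ht : Tendsto (fun t : ℝ => (t : ℂ)) (𝓝[>] 0) (𝓝[≠] 0) := by
    refine tendsto_nhdsWithin_iff.2 ⟨?_, ?_⟩
    · have := Complex.continuous_ofReal.tendsto 0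
      exact this.mono_left nhdsWithin_le_nhds
    · filter_upwards [self_mem_nhdsWithin] with t ht
      have : (0 : ℝ) < t := ht
      simpa using this.ne'
  have hfr : ∃ᶠ z in 𝓝[≠] (0 : ℂ), (starRingEnd ℂ ∘ f ∘ starRingEnd ℂ) z = f z := by
    refine ht.frequently (Eventually.frequently ?_)
    filter_upwards [Ioo_mem_nhdsGT (zero_lt_one' ℝ)] with t ht
    simp only [Function.comp, Complex.conj_ofReal]
    exact circ_pos_real hf hc ht
  have := (hg.analyticOnNhd isOpen_ball).eqOn_of_preconnected_of_frequently_eq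
    (hf.1.analyticOnNhd isOpen_ball) (convex_ball (0 : ℂ) 1).isPreconnected
    (mem_ball_self one_pos) hfr
  intro z hz
  have h := this hz
  simp only [Function.comp] at h
  rw [← h, Complex.conj_conj]

/-- Real points have real images. -/
theorem circ_real_val {f : ℂ → ℂ} (hf : InS f) (hc : Circ f) {x : ℝ} (hx : x ∈ Ioo (-1 : ℝ) 1) :
    (((f x).re : ℝ) : ℂ) = f x := by
  have := circ_conj hf hc x (circ_real_mem hx)
  rw [Complex.conj_ofReal] at this
  exact Complex.conj_eq_iff_re.1 this.symm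

/-- Points with real images are real. -/
theorem circ_real_pre {f : ℂ → ℂ} (hf : InS f) (hc : Circ f) {z : ℂ} (hz : z ∈ ball (0 : ℂ) 1)
    {t : ℝ} (h : f z = t) : ((z.re : ℝ) : ℂ) = z := by
  have h1 := circ_conj hf hc z hz
  rw [h, Complex.conj_ofReal, ← h] at h1
  exact Complex.conj_eq_iff_re.1 (hf.2.1 (circ_conj_mem hz) hz h1)

theorem circ_re_cont {f : ℂ → ℂ} (hf : InS f) :
    ContinuousOn (fun x : ℝ => (f x).re) (Ioo (-1) 1) :=
  Complex.continuous_re.comp_continuousOn (hf.1.continuousOn.comp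
    Complex.continuous_ofReal.continuousOn (fun _ hx => circ_real_mem hx))

theorem circ_strictMono {f : ℂ → ℂ} (hf : InS f) (hc : Circ f) :
    StrictMonoOn (fun x : ℝ => (f x).re) (Ioo (-1) 1) := by
  have hinj : InjOn (fun x : ℝ => (f x).re) (Ioo (-1) 1) := by
    intro x hx y hy hxy
    have h : f x = f y := by
      rw [← circ_real_val hf hc hx, ← circ_real_val hf hc hy]
      exact congrArg _ hxy
    exact_mod_cast hf.2.1 (circ_real_mem hx) (circ_real_mem hy) h
  rcases (circ_re_cont hf).strictMonoOn_of_injOn_Ioo (by norm_num) hinj with h | h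
  · exact h
  · exfalso
    have h1 : Tendsto (fun t : ℝ => (f t / t).re) (𝓝[>] 0) (𝓝 (1 : ℂ).re) :=
      (Complex.continuous_re.tendsto 1).comp (circ_slope hf)
    have h2 : (1 : ℂ).re ≤ 0 := by
      refine le_of_tendsto h1 ?_
      filter_upwards [Ioo_mem_nhdsGT (zero_lt_one' ℝ)] with t ht
      have h3 := h (a := 0) (b := t) ⟨by norm_num, by norm_num⟩ ⟨by linarith [ht.1], ht.2⟩ ht.1
      simp only [ofReal_zero, hf.2.2.1, zero_re] at h3
      rw [Complex.div_ofReal_re]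
      exact div_nonpos_of_nonpos_of_nonneg h3.le ht.1.le
    norm_num at h2

theorem circ_isOpen {f : ℂ → ℂ} (hf : InS f) {s : Set ℂ} (hs : s ⊆ ball 0 1) (ho : IsOpen s) :
    IsOpen (f '' s) := by
  rcases (hf.1.analyticOnNhd isOpen_ball).is_constant_or_isOpen
    (convex_ball (0 : ℂ) 1).isPreconnected with ⟨w, hw⟩ | h
  · exfalso
    have hm : ((1 / 2 : ℝ) : ℂ) ∈ ball (0 : ℂ) 1 := circ_real_mem ⟨by norm_num, by norm_num⟩
    refine circ_ne_zero hf hm (by norm_num) ?_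
    rw [hw _ hm, ← hw 0 (mem_ball_self one_pos), hf.2.2.1]
  · exact h s hs ho

/-- A connected set that meets `f (ball s)` and avoids `f (sphere s)` lies in `f (ball s)`. -/
theorem circ_trap {f : ℂ → ℂ} (hf : InS f) {s : ℝ} (hs : s < 1) {P : Set ℂ}
    (hP : IsPreconnected P) (h1 : (P ∩ f '' ball 0 s).Nonempty)
    (h2 : ∀ w ∈ P, w ∉ f '' sphere 0 s) : P ⊆ f '' ball 0 s := by
  refine hP.subset_of_closure_inter_subset
    (circ_isOpen hf (ball_subset_ball hs.le) isOpen_ball) h1 ?_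
  have hcl : IsClosed (f '' closedBall 0 s) :=
    ((isCompact_closedBall (0 : ℂ) s).image_of_continuousOn
      (hf.1.continuousOn.mono (closedBall_subset_ball hs))).isClosed
  rintro w ⟨hw1, hw2⟩
  obtain ⟨z, hz, rfl⟩ := closure_minimal (image_mono ball_subset_closedBall) hcl hw1
  rcases (mem_closedBall.1 hz).lt_or_eq with h | h
  · exact ⟨z, h, rfl⟩
  · exact absurd ⟨z, h, rfl⟩ (h2 _ hw2)

/-- The point of the upper half circle of radius `r` with real part `x`. -/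
def circArc (r x : ℝ) : ℂ := x + (Real.sqrt (r ^ 2 - x ^ 2) : ℝ) * I

theorem circArc_cont (r : ℝ) : Continuous (circArc r) := by
  unfold circArc
  fun_prop

theorem circArc_re (r x : ℝ) : (circArc r x).re = x := by simp [circArc]

theorem circArc_im (r x : ℝ) : (circArc r x).im = Real.sqrt (r ^ 2 - x ^ 2) := by simp [circArc]

theorem circArc_norm {r x : ℝ} (h1 : -r ≤ x) (h2 : x ≤ r) : ‖circArc r x‖ = r := by
  have h0 : 0 ≤ r := by linarith
  have h : ‖circArc r x‖ ^ 2 = r ^ 2 := by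
    rw [Complex.sq_norm, Complex.normSq_apply, circArc_re, circArc_im,
      Real.mul_self_sqrt (by nlinarith)]
    ring
  exact (pow_left_inj₀ (norm_nonneg _) h0 two_ne_zero).1 h

theorem circArc_cases (w : ℂ) : w = circArc ‖w‖ w.re ∨ w = starRingEnd ℂ (circArc ‖w‖ w.re) := by
  have h : Real.sqrt (‖w‖ ^ 2 - w.re ^ 2) = |w.im| := by
    rw [Complex.sq_norm, Complex.normSq_apply, ← Real.sqrt_sq_eq_abs]
    congr 1
    ring
  rcases le_total 0 w.im with h1 | h1
  · left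
    apply Complex.ext
    · rw [circArc_re]
    · rw [circArc_im, h, abs_of_nonneg h1]
  · right
    apply Complex.ext
    · rw [Complex.conj_re, circArc_re]
    · rw [Complex.conj_im, circArc_im, h, abs_of_nonpos h1, neg_neg]

theorem circ_image_conj {f : ℂ → ℂ} (hf : InS f) (hc : Circ f) {s : ℝ} (hs : s ≤ 1) {w : ℂ}
    (hw : w ∈ f '' ball 0 s) : starRingEnd ℂ w ∈ f '' ball 0 s := by
  obtain ⟨z, hz, rfl⟩ := hw
  exact ⟨_, circ_conj_mem hz, circ_conj hf hc z (ball_subset_ball hs hz)⟩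

theorem circ_image_arc {f : ℂ → ℂ} (hf : InS f) (hc : Circ f) {s : ℝ} (hs : s ≤ 1) (w : ℂ) :
    w ∈ f '' ball 0 s ↔ circArc ‖w‖ w.re ∈ f '' ball 0 s := by
  rcases circArc_cases w with h | h
  · rw [← h]
  · constructor
    · intro hw
      have := circ_image_conj hf hc hs hw
      rw [h, Complex.conj_conj] at this
      exact this
    · intro hw
      rw [h]
      exact circ_image_conj hf hc hs hw

/-- The main step: inside `f (ball s)` one can move along a circle towards the positive axis. -/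
theorem circ_move {f : ℂ → ℂ} (hf : InS f) (hc : Circ f) {s : ℝ} (hs : s ∈ Ioo (0 : ℝ) 1)
    {r x y : ℝ} (hx : -r ≤ x) (hxy : x ≤ y) (hy : y ≤ r) (h : circArc r x ∈ f '' ball 0 s) :
    circArc r y ∈ f '' ball 0 s := by
  set J : Set ℝ := {θ | θ ∈ Icc 0 Real.pi ∧ ‖f (s * exp (θ * I))‖ = r} with hJ
  set R : Set ℝ := (fun θ : ℝ => (f (s * exp (θ * I))).re) '' J with hR
  have hanti := circ_anti hf hc hs
  have hJo : J.OrdConnected := by
    refine ⟨fun a ha b hb c hc' => ?_⟩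
    have hcI : c ∈ Icc 0 Real.pi := ⟨ha.1.1.trans hc'.1, hc'.2.trans hb.1.2⟩
    refine ⟨hcI, le_antisymm ?_ ?_⟩
    · rw [← ha.2]
      exact hanti ha.1 hcI hc'.1
    · rw [← hb.2]
      exact hanti hcI hb.1 hc'.2
  have hRo : R.OrdConnected :=
    (hJo.isPreconnected.image _
      (Complex.continuous_re.comp (circ_cont hf hs)).continuousOn).ordConnected
  have hsm : ∀ θ : ℝ, (s : ℂ) * exp (θ * I) ∈ ball (0 : ℂ) 1 := fun θ =>
    circ_mem hs _ (Complex.norm_exp_ofReal_mul_I θ)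
  -- a point of the arc on the curve has its real part in `R`
  have hA : ∀ u, -r ≤ u → u ≤ r → circArc r u ∈ f '' sphere 0 s → u ∈ R := by
    rintro u hu1 hu2 ⟨z, hz, hzu⟩
    have hzn : ‖z‖ = s := by simpa using hz
    have hz1 : (s : ℂ) * exp (arg z * I) = z := by
      rw [← hzn]
      exact Complex.norm_mul_exp_arg_mul_I z
    rcases le_total 0 (arg z) with h0 | h0
    · refine ⟨arg z, ⟨⟨h0, arg_le_pi z⟩, ?_⟩, ?_⟩
      · rw [hz1, hzu, circArc_norm hu1 hu2]
      · simp only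
        rw [hz1, hzu, circArc_re]
    · have hz2 : (s : ℂ) * exp ((-arg z : ℝ) * I) = starRingEnd ℂ z := by
        conv_rhs => rw [← hz1]
        rw [map_mul, Complex.conj_ofReal, ← Complex.exp_conj, map_mul, Complex.conj_ofReal,
          Complex.conj_I]
        push_cast
        ring_nf
      have hz3 : z ∈ ball (0 : ℂ) 1 := by
        rw [mem_ball_zero_iff, hzn]
        exact hs.2
      refine ⟨-arg z, ⟨⟨by linarith, by linarith [neg_pi_lt_arg z]⟩, ?_⟩, ?_⟩
      · rw [hz2, circ_conj hf hc z hz3, Complex.norm_conj, hzu, circArc_norm hu1 hu2]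
      · simp only
        rw [hz2, circ_conj hf hc z hz3, Complex.conj_re, hzu, circArc_re]
  have hxR : x ∉ R := by
    rintro ⟨θ, ⟨-, hθ⟩, hθx⟩
    simp only at hθx
    have h1 := (circ_image_arc hf hc hs.2.le (f (s * exp (θ * I)))).2 (by rw [hθ, hθx]; exact h)
    obtain ⟨z, hz, hzz⟩ := h1
    have h2 := hf.2.1 (ball_subset_ball hs.2.le hz) (hsm θ) hzz
    rw [h2, mem_ball_zero_iff, norm_mul, Complex.norm_exp_ofReal_mul_I, mul_one,
      Complex.norm_real, Real.norm_of_nonneg hs.1.le] at hz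
    exact lt_irrefl _ hz
  have htrap : ∀ a b, -r ≤ a → b ≤ r → x ∈ Icc a b → (∀ u ∈ Icc a b, u ∉ R) →
      ∀ u ∈ Icc a b, circArc r u ∈ f '' ball 0 s := by
    intro a b ha hb hxab hno u hu
    refine circ_trap hf hs.2 (isPreconnected_Icc.image _ (circArc_cont r).continuousOn)
      ⟨_, ⟨x, hxab, rfl⟩, h⟩ ?_ ⟨u, hu, rfl⟩
    rintro _ ⟨v, hv, rfl⟩ hv2
    exact hno v hv (hA v (ha.trans hv.1) (hv.2.trans hb) hv2)
  by_cases hcase : ∀ u ∈ Icc x y, u ∉ R
  · exact htrap x y hx hy ⟨le_rfl, hxy⟩ hcase y ⟨hxy, le_rfl⟩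
  · exfalso
    push Not at hcase
    obtain ⟨u, hu, huR⟩ := hcase
    have hr : -r ≤ r := by linarith
    have h1 := htrap (-r) x le_rfl (hxy.trans hy) ⟨hx, le_rfl⟩
      (fun v hv hvR => hxR (hRo.out hvR huR ⟨hv.2, hu.1⟩)) (-r) ⟨le_rfl, hx⟩
    have h2 : circArc r (-r) = ((-r : ℝ) : ℂ) := by simp [circArc]
    rw [h2] at h1
    obtain ⟨z, hz, hzr⟩ := h1
    have hz1 : z ∈ ball (0 : ℂ) 1 := ball_subset_ball hs.2.le hz
    have hz2 := circ_real_pre hf hc hz1 hzr
    have hz3 : |z.re| < s := lt_of_le_of_lt (Complex.abs_re_le_norm z) (mem_ball_zero_iff.1 hz)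
    rw [abs_lt] at hz3
    have hsI : -s ∈ Ioo (-1 : ℝ) 1 := ⟨by linarith [hs.2], by linarith [hs.1]⟩
    have h3 := circ_strictMono hf hc hsI ⟨by linarith [hs.2], by linarith [hs.2]⟩ hz3.1
    simp only at h3
    rw [hz2, hzr, Complex.ofReal_re] at h3
    obtain ⟨θ, ⟨hθ1, hθ2⟩, -⟩ := huR
    have h4 := hanti hθ1 ⟨Real.pi_pos.le, le_rfl⟩ hθ1.2
    simp only [Complex.exp_pi_mul_I, mul_neg, mul_one] at h4
    rw [hθ2] at h4
    have h5 := Complex.abs_re_le_norm (f (-s))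
    rw [Complex.ofReal_neg] at h3
    have h6 := neg_abs_le (f (-s)).re
    linarith

theorem circ_symK {f : ℂ → ℂ} (hf : InS f) (hc : Circ f) : SymK (f '' ball 0 1)ᶜ := by
  rintro w hw w' hn hre ⟨z, hz, rfl⟩
  apply hw
  obtain ⟨s, hs1, hs2⟩ := exists_between (mem_ball_zero_iff.1 hz)
  have hs : s ∈ Ioo (0 : ℝ) 1 := ⟨(norm_nonneg z).trans_lt hs1, hs2⟩
  have h1 : f z ∈ f '' ball 0 s := ⟨z, mem_ball_zero_iff.2 hs1, rfl⟩
  rw [circ_image_arc hf hc hs2.le, hn] at h1
  have h2 : -‖w‖ ≤ (f z).re := by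
    rw [← hn]
    exact neg_le_of_abs_le (Complex.abs_re_le_norm _)
  have h3 := circ_move hf hc hs h2 hre (Complex.re_le_norm w) h1
  exact image_mono (ball_subset_ball hs2.le) ((circ_image_arc hf hc hs2.le w).2 h3)

/-- The omitted part of the negative axis is a ray. -/
theorem circ_neg_ray {f : ℂ → ℂ} (hf : InS f) (hc : Circ f) {m t : ℝ} (hm : 0 ≤ m) (hmt : m ≤ t)
    (h : -(m : ℂ) ∉ f '' ball 0 1) : -(t : ℂ) ∉ f '' ball 0 1 := by
  rintro ⟨z, hz, hzt⟩
  apply h
  have hzt' : f z = ((-t : ℝ) : ℂ) := by rw [hzt, Complex.ofReal_neg]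
  have hz2 := circ_real_pre hf hc hz hzt'
  have hz3 : |z.re| < 1 := lt_of_le_of_lt (Complex.abs_re_le_norm z) (mem_ball_zero_iff.1 hz)
  rw [abs_lt] at hz3
  have h0 : (0 : ℝ) ∈ Ioo (-1 : ℝ) 1 := ⟨by norm_num, by norm_num⟩
  have h1 := isPreconnected_Ioo.intermediate_value (a := z.re) (b := 0) hz3 h0 (circ_re_cont hf)
  have h2 : -m ∈ Icc ((fun x : ℝ => (f x).re) z.re) ((fun x : ℝ => (f x).re) 0) := by
    simp only [ofReal_zero, hf.2.2.1, zero_re]
    rw [hz2, hzt', Complex.ofReal_re]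
    exact ⟨by linarith, by linarith⟩
  obtain ⟨y, hy, hym⟩ := h1 h2
  refine ⟨y, circ_real_mem hy, ?_⟩
  simp only at hym
  rw [← circ_real_val hf hc hy, hym, Complex.ofReal_neg]

/-- If a whole circle of radius at most one is omitted then nothing is omitted in the disc. -/
theorem circ_full {f : ℂ → ℂ} (hf : InS f) {t : ℝ} (ht : 0 < t) (ht1 : t ≤ 1)
    (h : ∀ w : ℂ, ‖w‖ = t → w ∉ f '' ball 0 1) : om f = 0 := by
  have hP : IsPreconnected (f '' ball 0 1) :=
    (convex_ball (0 : ℂ) 1).isPreconnected.image _ hf.1.continuousOn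
  have hsub : f '' ball 0 1 ⊆ ball 0 t := by
    refine hP.subset_of_closure_inter_subset isOpen_ball
      ⟨0, ⟨0, mem_ball_self one_pos, hf.2.2.1⟩, mem_ball_self ht⟩ ?_
    rintro w ⟨hw1, hw2⟩
    have h1 := mem_closedBall_zero_iff.1 (closure_ball_subset_closedBall hw1)
    rcases h1.lt_or_eq with h2 | h2
    · exact mem_ball_zero_iff.2 h2
    · exact absurd hw2 (h w h2)
  have hm : MapsTo f (ball 0 1) (ball 0 1) := fun z hz =>
    ball_subset_ball ht1 (hsub ⟨z, hz, rfl⟩)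
  have h1 := (schwarz_eq hf.1 hm hf.2.2.1 (by rw [hf.2.2.2]; simp)).2
  have h2 : ball (0 : ℂ) 1 \ f '' ball 0 1 = ∅ := by
    rw [sdiff_eq_empty]
    intro z hz
    exact ⟨z, hz, by rw [h1 z hz, hf.2.2.2, one_mul]⟩
  rw [om, h2, measure_empty]

theorem circ_symD {f : ℂ → ℂ} (hf : InS f) (hc : Circ f) (ha : om f ≠ 0) :
    ∃ (D : Set ℂ) (m : ℝ), SymD D m ∧ m < 1 ∧
      (∀ w : ℂ, 1 < ‖w‖ → (0 < w.re ∨ w.im ≠ 0) → w ∈ D) ∧ f '' ball 0 1 ⊆ D ∧
      ball 0 1 \ f '' ball 0 1 ⊆ Dᶜ := by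
  set K : Set ℂ := (f '' ball 0 1)ᶜ with hK
  have hKc : IsClosed K := (circ_isOpen hf subset_rfl isOpen_ball).isClosed_compl
  have hsym : SymK K := circ_symK hf hc
  have hcomp : IsCompact (closedBall (0 : ℂ) 1 ∩ K) := (isCompact_closedBall 0 1).inter_right hKc
  obtain ⟨w1, hw1⟩ : (ball (0 : ℂ) 1 \ f '' ball 0 1).Nonempty := nonempty_of_measure_ne_zero ha
  obtain ⟨w0, hw0, hmin⟩ := hcomp.exists_isMinOn ⟨w1, ball_subset_closedBall hw1.1, hw1.2⟩
    continuous_norm.continuousOn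
  have hm1 : ‖w0‖ < 1 :=
    lt_of_le_of_lt (hmin ⟨ball_subset_closedBall hw1.1, hw1.2⟩) (mem_ball_zero_iff.1 hw1.1)
  have hm0 : 0 < ‖w0‖ := by
    rw [norm_pos_iff]
    rintro rfl
    exact hw0.2 ⟨0, mem_ball_self one_pos, hf.2.2.1⟩
  have hneg : ∀ t : ℝ, ‖w0‖ ≤ t → -(t : ℂ) ∈ K := by
    intro t ht
    refine circ_neg_ray hf hc hm0.le ht (hsym w0 hw0.2 _ (by simp) ?_)
    simpa using neg_le_of_abs_le (Complex.abs_re_le_norm w0)
  set L : Set ℂ := {w | w.im = 0 ∧ w.re ≤ -1} with hL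
  have hLc : IsClosed L :=
    (isClosed_eq Complex.continuous_im continuous_const).inter
      (isClosed_le Complex.continuous_re continuous_const)
  have hLn : ∀ w ∈ L, ‖w‖ = -w.re := by
    intro w hw
    have h1 : w = (w.re : ℂ) := Complex.ext (by simp) (by simpa using hw.1)
    have h2 := hw.2
    rw [h1, Complex.norm_real, Complex.ofReal_re, Real.norm_of_nonpos (by linarith)]
  refine ⟨(closedBall (0 : ℂ) 1 ∩ K ∪ L)ᶜ, ‖w0‖, ⟨?_, hm0, ?_, ?_, ?_, ?_⟩, hm1, ?_, ?_, ?_⟩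
  · exact (hcomp.isClosed.union hLc).isOpen_compl
  · rintro w hw (h | h)
    · exact absurd (mem_ball_zero_iff.1 hw) (not_lt.2 (hmin h))
    · have h1 := hLn w h
      have h2 := h.2
      have h3 := mem_ball_zero_iff.1 hw
      linarith
  · rw [compl_compl]
    rintro w (h | h) w' hn hre
    · left
      refine ⟨?_, hsym w h.2 w' hn hre⟩
      rw [mem_closedBall_zero_iff, hn]
      exact mem_closedBall_zero_iff.1 h.1
    · right
      refine ⟨?_, hre.trans h.2⟩
      have h1 := hLn w h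
      have h2 : ‖w'‖ ^ 2 = w'.re ^ 2 + w'.im ^ 2 := by
        rw [Complex.sq_norm, Complex.normSq_apply]
        ring
      have h3 := h.2
      rw [hn, h1] at h2
      have h4 : w'.im ^ 2 ≤ 0 := by nlinarith
      exact pow_eq_zero_iff two_ne_zero |>.1 (le_antisymm h4 (sq_nonneg _))
  · rintro t ht (h | h)
    · have hn : ‖(t : ℂ)‖ = t := by rw [Complex.norm_real, Real.norm_of_nonneg ht.le]
      have ht1 : t ≤ 1 := by
        rw [← hn]
        exact mem_closedBall_zero_iff.1 h.1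
      refine ha (circ_full hf ht ht1 fun w hw => hsym _ h.2 w (by rw [hw, hn]) ?_)
      rw [Complex.ofReal_re, ← hw]
      exact Complex.re_le_norm w
    · have h2 := h.2
      rw [Complex.ofReal_re] at h2
      linarith
  · intro t ht hD
    apply hD
    rcases le_total t 1 with h | h
    · left
      refine ⟨?_, hneg t ht⟩
      rw [mem_closedBall_zero_iff, norm_neg, Complex.norm_real,
        Real.norm_of_nonneg (hm0.le.trans ht)]
      exact h
    · right
      exact ⟨by simp, by simpa using h⟩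
  · rintro w hw hw2 (h | h)
    · exact absurd (mem_closedBall_zero_iff.1 h.1) (not_le.2 hw)
    · have h1 := h.1
      have h2 := h.2
      rcases hw2 with h3 | h3
      · linarith
      · exact h3 h1
  · rintro w hw (h | h)
    · exact h.2 hw
    · have h1 : w = -((-w.re : ℝ) : ℂ) := Complex.ext (by simp) (by simpa using h.1)
      have h2 := h.2
      have h3 := hneg (-w.re) (by linarith)
      rw [← h1] at h3
      exact h3 hw
  · intro w hw
    rw [compl_compl]
    exact Or.inl ⟨ball_subset_closedBall hw.1, hw.2⟩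

end Pool.Agent.Lib.MP_9b2593_an.Uq
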