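import Pool.Agent.Lib.MP_9b2593_an.Uq.Node

-- part Pool.Agent.Lib.MP_9b2593_an.Uq.Chain
section

/-!
Localisation of the maximisers of the relaxed problem from a chain of certificates, and the
checker of the primal certificate.
-/

open Complex Metric Set MeasureTheory

namespace Pool.Agent.Lib.MP_9b2593_an.Uq

structure Iv where
  X : ℚ
  c1 : ℚ
  c2 : ℚ
  c3 : ℚ
  xc : ℚ

def rlo : ℚ := 0.73414
def rhi : ℚ := 0.73514
def eps : ℚ := 0.002
def eps0 : ℚ := 0.0012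
def qup : ℚ := 0.238582
def gam : ℚ := 0.698

def phi2 (A C : Sm) (I : Iv) : ℚ :=
  2 * (|C.ν1 - A.ν1| / (C.ρ - A.ρ)) * (1 + I.c1 * I.X) +
    (max |A.ν1| |C.ν1| + 2 * (|C.ν2 - A.ν2| / (C.ρ - A.ρ))) * (I.c2 * I.X) +
    2 * (|C.ν2 - A.ν2| / (C.ρ - A.ρ)) * (1 / (2 * (1 - C.ρ) ^ 2)) +
    max |A.ν2| |C.ν2| * (I.c3 * I.X + 1 / (1 - C.ρ) ^ 3)

def mq (A C : Sm) (I : Iv) : ℚ := max A.b C.b + phi2 A C I * (C.ρ - A.ρ) ^ 2 / 16

def et (P : List ℤ) (A C : Sm) (I : Iv) : ℚ :=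
  (mq A C I ^ 2 - qlow ^ 2) / qlow / (sq P 0 - max A.r0 C.r0)

def chkIv (P : List ℤ) (A C : Sm) (I : Iv) : Bool :=
  decide (A.ρ < C.ρ ∧ 0 ≤ I.X ∧ C.ρ ^ 2 - qlow ≤ I.X ^ 2 ∧ 0 ≤ I.c1 ∧ 0 ≤ I.c2 ∧ 0 ≤ I.c3 ∧
    2 * (1 / (1 - C.ρ ^ 2) ^ 2 - 1) ≤ I.c1 ^ 2 ∧ (4 + 2 * C.ρ ^ 2) / (1 - C.ρ ^ 2) ^ 4 ≤ I.c2 ^ 2 ∧
    120 / (1 - C.ρ ^ 2) ^ 6 - 120 / (1 - C.ρ ^ 2) ^ 5 + 18 / (1 - C.ρ ^ 2) ^ 4 ≤ I.c3 ^ 2) &&
  (decide (mq A C I < qlow) ||
    decide (rlo ≤ A.ρ ∧ C.ρ ≤ rhi ∧ mq A C I ^ 2 / qlow ≤ qup ∧ max A.r0 C.r0 < sq P 0 ∧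
      (1 - gam ^ 2) * (sq P 0 + max A.r0 C.r0) ^ 2 ≤ qlow ∧ et P A C I ≤ (1 - gam) * I.xc ∧
      2 * (mq A C I - qlow) + (et P A C I + gam * I.xc) ^ 2 < I.xc ^ 2 ∧
      I.xc + max A.r C.r ≤ eps ∧ et P A C I + gam * I.xc + max A.r0 C.r0 ≤ eps0))

def chkChain (P : List ℤ) : Sm → List (Iv × Sm) → Bool
  | _, [] => true
  | A, p :: l => chkIv P A p.2 p.1 && chkChain P p.2 l

def lastR : Sm → List (Iv × Sm) → ℚ
  | A, [] => A.ρ
  | _, p :: l => lastR p.2 l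

def hornerQ (x : ℚ) : List ℤ → ℚ
  | [] => 0
  | a :: as => a / 10 ^ 11 + x * hornerQ x as

def derL (n : ℕ) : List ℤ → List ℤ
  | [] => []
  | a :: as => n * a :: derL (n + 1) as

def absSum : List ℤ → List ℤ → ℤ
  | a :: as, b :: bs => |a + b| + absSum as bs
  | _, _ => 0

def chkPrimal (P S : List ℤ) (ρ : ℚ) : Bool :=
  decide (0 < ρ ∧ ρ < 1 ∧ P.length = S.length ∧ |hornerQ ρ P| ≤ 1 ∧ 0 < sq P 0 - hornerQ ρ P ∧
    kapq ρ ≤ -hornerQ ρ (derL 1 P.tail)) &&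
  decide (((2 * absSum (corr P P) (corr S S) - dot P P - dot S S : ℤ) : ℚ) / 10 ^ 22 ≤
    (1 - |hornerQ ρ P|) ^ 2) &&
  decide (qlow ≤ (sq P 0 - hornerQ ρ P) ^ 2 -
    ∑ k ∈ Finset.range P.length, (k : ℚ) * sq P (k + 1) ^ 2)

noncomputable section

variable {g h : ℕ → ℝ} {ρ : ℝ}

def Loc (P : List ℤ) (ρ : ℝ) (g : ℕ → ℝ) : Prop :=
  (rlo : ℝ) ≤ ρ ∧ ρ ≤ rhi ∧ nrm (g - sr P) ≤ eps ∧ |g 0 - sr P 0| ≤ eps0 ∧ q g ≤ qup

theorem qlow_pos : (0 : ℝ) < qlow := by norm_num [qlow]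

theorem q_eq (g : ℕ → ℝ) : q g = g 0 ^ 2 - nrm g ^ 2 := by rw [nrm_sq, q, B]; ring

theorem le_B (hg : D2 g) (hh : D2 h) (g0 : 0 < g 0) (h0 : 0 < h 0) {c : ℝ} (hc : 0 ≤ c)
    (h1 : c ≤ q g) (h2 : c ≤ q h) : c ≤ B g h := by
  have := reverse_cs hg hh g0 h0 (Real.sqrt_nonneg c) (Real.sqrt_nonneg c)
    (by rwa [Real.sq_sqrt hc]) (by rwa [Real.sq_sqrt hc])
  rwa [Real.mul_self_sqrt hc] at this

theorem q_mul_le (hg : D2 g) (hh : D2 h) (g0 : 0 < g 0) (h0 : 0 < h 0) (h1 : 0 ≤ q g)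
    (h2 : 0 ≤ q h) : q g * q h ≤ B g h ^ 2 := by
  have := reverse_cs hg hh g0 h0 (Real.sqrt_nonneg (q g)) (Real.sqrt_nonneg (q h))
    (Real.sq_sqrt h1).le (Real.sq_sqrt h2).le
  have h3 := pow_le_pow_left₀ (by positivity) this 2
  rwa [mul_pow, Real.sq_sqrt h1, Real.sq_sqrt h2] at h3

theorem interp_le {f f' f'' : ℝ → ℝ} {a b x M : ℝ} (hab : a < b) (hx : x ∈ Icc a b) (hM : 0 ≤ M)
    (h1 : ∀ y ∈ Icc a b, HasDerivAt f (f' y) y) (h2 : ∀ y ∈ Icc a b, HasDerivAt f' (f'' y) y)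
    (h3 : ∀ y ∈ Icc a b, f'' y ≤ M) :
    (1 - (x - a) / (b - a)) * f a + (x - a) / (b - a) * f b ≤ f x + M * (b - a) ^ 2 / 8 := by
  have d1 : ∀ y ∈ Icc a b, HasDerivAt (fun y => f y - M / 2 * y ^ 2) (f' y - M * y) y :=
    fun y hy => ((h1 y hy).sub ((hasDerivAt_pow 2 y).const_mul (M / 2))).congr_deriv (by
      simp; ring)
  have hc : ConcaveOn ℝ (Icc a b) fun y => f y - M / 2 * y ^ 2 :=
    concaveOn_of_hasDerivWithinAt2_nonpos (f' := fun y => f' y - M * y)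
      (f'' := fun y => f'' y - M) (convex_Icc a b)
      (fun y hy => (d1 y hy).continuousAt.continuousWithinAt)
      (fun y hy => (d1 y (interior_subset hy)).hasDerivWithinAt)
      (fun y hy => (((h2 y (interior_subset hy)).sub
        ((hasDerivAt_id' y).const_mul M)).congr_deriv (by simp)).hasDerivWithinAt)
      (fun y hy => sub_nonpos.2 (h3 y (interior_subset hy)))
  have hba : 0 < b - a := by linarith
  obtain ⟨t, ht⟩ : ∃ t, t = (x - a) / (b - a) := ⟨_, rfl⟩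
  have t0 : 0 ≤ t := ht ▸ div_nonneg (by linarith [hx.1]) hba.le
  have t1 : t ≤ 1 := ht ▸ (div_le_one hba).2 (by linarith [hx.2])
  have hxt : x = (1 - t) * a + t * b := by rw [ht]; field_simp; ring
  have := hc.2 (left_mem_Icc.2 hab.le) (right_mem_Icc.2 hab.le) (by linarith : 0 ≤ 1 - t) t0
    (by ring)
  simp only [smul_eq_mul] at this
  rw [← ht, hxt]
  nlinarith [mul_nonneg (mul_nonneg hM (sq_nonneg (b - a))) (sq_nonneg (t - 1 / 2))]

theorem abs_interp {u v t : ℝ} (t0 : 0 ≤ t) (t1 : t ≤ 1) : |(1 - t) * u + t * v| ≤ max |u| |v| := by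
  have h1 := le_max_left |u| |v|
  have h2 := le_max_right |u| |v|
  refine (abs_add_le _ _).trans ?_
  rw [abs_mul, abs_mul, abs_of_nonneg t0, abs_of_nonneg (by linarith : 0 ≤ 1 - t)]
  nlinarith

theorem interval {P : List ℤ} {A C : Sm} {I : Iv} (hA : NodeOK P A) (hC : NodeOK P C)
    (hf : Feas ρ g) (hs : rv (der g) ρ = -kap ρ) (ha : (A.ρ : ℝ) ≤ ρ)
    (hb : ρ ≤ C.ρ) (hab : A.ρ < C.ρ) (hX : nrm g ≤ I.X) (c1 : 0 ≤ I.c1) (c2 : 0 ≤ I.c2)
    (c3 : 0 ≤ I.c3) (e1 : 2 * (1 / (1 - C.ρ ^ 2) ^ 2 - 1) ≤ I.c1 ^ 2)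
    (e2 : (4 + 2 * C.ρ ^ 2) / (1 - C.ρ ^ 2) ^ 4 ≤ I.c2 ^ 2)
    (e3 : 120 / (1 - C.ρ ^ 2) ^ 6 - 120 / (1 - C.ρ ^ 2) ^ 5 + 18 / (1 - C.ρ ^ 2) ^ 4 ≤ I.c3 ^ 2) :
    ∃ gt, D2 gt ∧ 0 < gt 0 ∧ (qlow : ℝ) ≤ q gt ∧ nrm (gt - sr P) ≤ max (A.r : ℝ) C.r ∧
      |gt 0 - sr P 0| ≤ max (A.r0 : ℝ) C.r0 ∧ B gt g ≤ mq A C I := by
  obtain ⟨a0, -, ga, da, pa, qa, ra, sa, ia⟩ := hA
  obtain ⟨-, b1, gb, db, pb, qb, rb, sb, ib⟩ := hC
  have a0' : (0 : ℝ) < A.ρ := by exact_mod_cast a0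
  have b1' : (C.ρ : ℝ) < 1 := by exact_mod_cast b1
  have hab' : (A.ρ : ℝ) < C.ρ := by exact_mod_cast hab
  have hba : (0 : ℝ) < C.ρ - A.ρ := by linarith
  have hp := hf.schur.1
  have c1' : (0 : ℝ) ≤ I.c1 := by exact_mod_cast c1
  have c2' : (0 : ℝ) ≤ I.c2 := by exact_mod_cast c2
  have c3' : (0 : ℝ) ≤ I.c3 := by exact_mod_cast c3
  have X0 := (nrm_nonneg g).trans hX
  obtain ⟨s1, hs1⟩ : ∃ s : ℝ, s = (C.ν1 - A.ν1) / (C.ρ - A.ρ) := ⟨_, rfl⟩
  obtain ⟨s2, hs2⟩ : ∃ s : ℝ, s = (C.ν2 - A.ν2) / (C.ρ - A.ρ) := ⟨_, rfl⟩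
  have hphi : (phi2 A C I : ℝ) = 2 * |s1| * (1 + I.c1 * I.X) +
      (max |(A.ν1 : ℝ)| |(C.ν1 : ℝ)| + 2 * |s2|) * (I.c2 * I.X) + 2 * |s2| * kap1 C.ρ +
      max |(A.ν2 : ℝ)| |(C.ν2 : ℝ)| * (I.c3 * I.X + kap2 C.ρ) := by
    rw [hs1, hs2, abs_div, abs_div, abs_of_pos hba]
    simp only [phi2, kap1, kap2]; push_cast; ring
  have hb1 : (0 : ℝ) < 1 - C.ρ := by linarith
  have hM : (0 : ℝ) ≤ phi2 A C I := by rw [hphi, kap1, kap2]; positivity
  have key := interp_le (x := ρ)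
    (f := fun x => (A.ν1 + s1 * (x - A.ρ)) * rv g x +
      (A.ν2 + s2 * (x - A.ρ)) * (rv (der g) x + kap x))
    (f' := fun x => s1 * rv g x + (A.ν1 + s1 * (x - A.ρ)) * rv (der g) x +
      (s2 * (rv (der g) x + kap x) + (A.ν2 + s2 * (x - A.ρ)) * (rv (der (der g)) x + kap1 x)))
    (f'' := fun x => 2 * s1 * rv (der g) x + (A.ν1 + s1 * (x - A.ρ)) * rv (der (der g)) x +
      2 * s2 * (rv (der (der g)) x + kap1 x) +
      (A.ν2 + s2 * (x - A.ρ)) * (rv (der (der (der g))) x + kap2 x))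
    hab' ⟨ha, hb⟩ hM (fun y hy => ?_) (fun y hy => ?_) (fun y hy => ?_)
  · obtain ⟨t, ht⟩ : ∃ t : ℝ, t = (ρ - A.ρ) / (C.ρ - A.ρ) := ⟨_, rfl⟩
    have t0 : 0 ≤ t := ht ▸ div_nonneg (by linarith) hba.le
    have t1 : t ≤ 1 := ht ▸ (div_le_one hba).2 (by linarith)
    have da' := da.smul (1 - t)
    have hB := le_B da db pa pb qlow_pos.le qa qb
    refine ⟨(1 - t) • ga + t • gb, da'.add (db.smul t), ?_, ?_, ?_, ?_, ?_⟩
    · simp only [Pi.add_apply, Pi.smul_apply, smul_eq_mul]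
      rcases t1.eq_or_lt with h | h
      · simpa [h] using pb
      · have := mul_pos (sub_pos.2 h) pa
        have := mul_nonneg t0 pb.le
        linarith
    · rw [q_add_smul da' db, q_smul, B_comm, B_smul, B_comm]
      linarith [mul_nonneg (sq_nonneg (1 - t)) (sub_nonneg.2 qa),
        mul_nonneg (sq_nonneg t) (sub_nonneg.2 qb),
        mul_nonneg (mul_nonneg t0 (sub_nonneg.2 t1)) (sub_nonneg.2 hB)]
    · have : (1 - t) • ga + t • gb - sr P = (1 - t) • (ga - sr P) + t • (gb - sr P) := by module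
      rw [this]
      refine (nrm_add_le ((da.sub (sr_d2 P)).smul _) ((db.sub (sr_d2 P)).smul _)).trans ?_
      rw [nrm_smul, nrm_smul, abs_of_nonneg t0, abs_of_nonneg (by linarith : 0 ≤ 1 - t)]
      linarith [mul_le_mul_of_nonneg_left (ra.trans (le_max_left (A.r : ℝ) C.r)) (sub_nonneg.2 t1),
        mul_le_mul_of_nonneg_left (rb.trans (le_max_right (A.r : ℝ) C.r)) t0]
    · have : ((1 - t) • ga + t • gb) 0 - sr P 0 =
          (1 - t) * (ga 0 - sr P 0) + t * (gb 0 - sr P 0) := by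
        simp only [Pi.add_apply, Pi.smul_apply, smul_eq_mul]; ring
      rw [this]
      exact (abs_interp t0 t1).trans (max_le_max sa sb)
    · have i1 := ia g hf.schur hf.d2
      have i2 := ib g hf.schur hf.d2
      have e1 : (A.ν1 : ℝ) + s1 * (C.ρ - A.ρ) = C.ν1 := by rw [hs1]; field_simp; ring
      have e2 : (A.ν2 : ℝ) + s2 * (C.ρ - A.ρ) = C.ν2 := by rw [hs2]; field_simp; ring
      simp only [← ht, sub_self, mul_zero, add_zero, e1, e2, hf.zero, hs, neg_add_cancel] at key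
      rw [B_comm, B_add hf.d2 da' (db.smul t), B_smul, B_smul, B_comm g, B_comm g]
      simp only [mq]; push_cast
      linarith [mul_le_mul_of_nonneg_left (le_max_left (A.b : ℝ) C.b) (sub_nonneg.2 t1),
        mul_le_mul_of_nonneg_left (le_max_right (A.b : ℝ) C.b) t0,
        mul_le_mul_of_nonneg_left i1 (sub_nonneg.2 t1), mul_le_mul_of_nonneg_left i2 t0]
  all_goals have hy1 : |y| < 1 := by rw [abs_of_pos (by linarith [hy.1])]; linarith [hy.2]
  all_goals have hy2 : y < 1 := by linarith [hy.2]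
  all_goals have l1 : ∀ a s : ℝ, HasDerivAt (fun x : ℝ => a + s * (x - A.ρ)) s y := fun a s =>
    ((((hasDerivAt_id' y).sub_const _).const_mul s).const_add a).congr_deriv (by simp)
  · exact (((l1 _ s1).mul (hasDerivAt_rv hp hy1)).add ((l1 _ s2).mul
      ((hasDerivAt_rv hp.der hy1).add (kap_hasDerivAt hy2)))).congr_deriv (by simp)
  · exact ((((hasDerivAt_rv hp hy1).const_mul s1).add ((l1 _ s1).mul
      (hasDerivAt_rv hp.der hy1))).add
      ((((hasDerivAt_rv hp.der hy1).add (kap_hasDerivAt hy2)).const_mul s2).add ((l1 _ s2).mul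
      ((hasDerivAt_rv hp.der.der hy1).add (kap1_hasDerivAt hy2))))).congr_deriv (by simp; ring)
  · have hyb : |y| ≤ C.ρ := by rw [abs_of_pos (by linarith [hy.1])]; exact hy.2
    have d1 := bound_d1 hf.d2 hyb b1' c1' (by exact_mod_cast e1)
    have d2 := (bound_d2 hf.d2 hyb b1' c2' (by exact_mod_cast e2)).trans
      (mul_le_mul_of_nonneg_left hX c2')
    have d3 := (bound_d3 hf.d2 hyb b1' c3' (by exact_mod_cast e3)).trans
      (mul_le_mul_of_nonneg_left hX c3')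
    have d1' : |rv (der g) y| ≤ 1 + I.c1 * I.X := by
      have := abs_add_le (rv (der g) y - g 1) (g 1)
      rw [sub_add_cancel] at this
      linarith [hf.schur.abs_le 1, mul_le_mul_of_nonneg_left hX c1']
    have k1 : |kap1 y| ≤ kap1 C.ρ := by
      rw [abs_of_pos (by unfold kap1; have := sub_pos.2 hy2; positivity)]
      unfold kap1; gcongr; exact hy.2
    have k2 : |kap2 y| ≤ kap2 C.ρ := by
      rw [abs_of_pos (by unfold kap2; have := sub_pos.2 hy2; positivity)]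
      unfold kap2; gcongr; exact hy.2
    have t0 : 0 ≤ (y - A.ρ) / (C.ρ - A.ρ) := div_nonneg (by linarith [hy.1]) hba.le
    have t1 : (y - A.ρ) / (C.ρ - A.ρ) ≤ 1 := (div_le_one hba).2 (by linarith [hy.2])
    have n1 : |A.ν1 + s1 * (y - A.ρ)| ≤ max |(A.ν1 : ℝ)| |(C.ν1 : ℝ)| := by
      convert abs_interp t0 t1 using 2; rw [hs1]; ring
    have n2 : |A.ν2 + s2 * (y - A.ρ)| ≤ max |(A.ν2 : ℝ)| |(C.ν2 : ℝ)| := by
      convert abs_interp t0 t1 using 2; rw [hs2]; ring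
    have m : ∀ {a b c d : ℝ}, |a| ≤ c → |b| ≤ d → a * b ≤ c * d := fun h1 h2 =>
      (le_abs_self _).trans (by rw [abs_mul]; gcongr; exact (abs_nonneg _).trans h1)
    rw [hphi]
    linarith [m (le_refl |s1|) d1', m n1 d2, m (le_refl |s2|) d2, m (le_refl |s2|) k1, m n2 d3,
      m n2 k2]

theorem central {gt p : ℕ → ℝ} (hg : D2 g) (g0 : 0 < g 0) (hq : (qlow : ℝ) ≤ q g) (dt : D2 gt)
    (t0 : 0 < gt 0) (qt : (qlow : ℝ) ≤ q gt) (dp : D2 p) {M r r0 η xc γ : ℝ}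
    (hr : nrm (gt - p) ≤ r) (hr0 : |gt 0 - p 0| ≤ r0) (hM : B gt g ≤ M) (h0 : r0 < p 0)
    (hη : η = (M ^ 2 - qlow ^ 2) / qlow / (p 0 - r0)) (γ0 : 0 ≤ γ) (γ1 : γ < 1)
    (hγ : (1 - γ ^ 2) * (p 0 + r0) ^ 2 ≤ qlow) (h1 : η ≤ (1 - γ) * xc)
    (h2 : 2 * (M - qlow) + (η + γ * xc) ^ 2 < xc ^ 2) :
    nrm (g - p) ≤ xc + r ∧ |g 0 - p 0| ≤ η + γ * xc + r0 ∧ q g ≤ M ^ 2 / qlow := by
  have ql := qlow_pos
  have hB := le_B dt hg t0 g0 ql.le qt hq
  have hm := q_mul_le dt hg t0 g0 (ql.le.trans qt) (ql.le.trans hq)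
  have hM2 : B gt g ^ 2 ≤ M ^ 2 := pow_le_pow_left₀ (ql.le.trans hB) hM 2
  have u1 : q g ≤ M ^ 2 / qlow := by
    rw [le_div_iff₀ ql]; linarith [mul_le_mul_of_nonneg_right qt (ql.le.trans hq)]
  have u2 : q gt ≤ M ^ 2 / qlow := by
    rw [le_div_iff₀ ql]; linarith [mul_le_mul_of_nonneg_left hq (ql.le.trans qt)]
  have de := hg.sub dt
  set x := nrm (g - gt) with hx
  have x0 : 0 ≤ x := nrm_nonneg _
  have e1 : B gt (g - gt) = B gt g - q gt := by rw [B_sub dt hg dt]; rfl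
  have e2 : q (g - gt) = q g + q gt - 2 * B gt g := by
    have := q_add_smul hg dt (-1)
    rw [neg_one_smul, ← sub_eq_add_neg, B_comm] at this; linarith
  have e3 : (M ^ 2 - qlow ^ 2) / qlow = M ^ 2 / qlow - qlow := by field_simp
  have e4 : M ≤ M ^ 2 / qlow := by
    rw [le_div_iff₀ ql]
    linarith [mul_le_mul_of_nonneg_left (hB.trans hM) (ql.le.trans (hB.trans hM))]
  have e5 : |B gt (g - gt)| ≤ (M ^ 2 - qlow ^ 2) / qlow := by
    rw [e1, e3, abs_le]; constructor <;> linarith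
  obtain ⟨l1, l2⟩ := abs_le.1 hr0
  have e6 : nrm gt ≤ γ * gt 0 := by
    refine abs_le_of_sq_le_sq' ?_ (by positivity) |>.2
    have : gt 0 ^ 2 ≤ (p 0 + r0) ^ 2 := pow_le_pow_left₀ t0.le (by linarith) 2
    have h3 : (1 - γ ^ 2) * gt 0 ^ 2 ≤ (1 - γ ^ 2) * (p 0 + r0) ^ 2 :=
      mul_le_mul_of_nonneg_left this (sub_nonneg.2 (pow_le_one₀ γ0 γ1.le))
    have := q_eq gt
    linarith
  have η0 : 0 ≤ η := by rw [hη]; exact div_nonneg ((abs_nonneg _).trans e5) (by linarith)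
  have e7 : |(g - gt) 0| ≤ η + γ * x := by
    have h3 : gt 0 * (g - gt) 0 = B gt (g - gt) + ip gt (g - gt) := by simp only [B]; ring
    have h4 := abs_ip_le dt de
    have h5 : (M ^ 2 - qlow ^ 2) / qlow = η * (p 0 - r0) := by
      rw [hη, div_mul_cancel₀ _ (by linarith)]
    have h6 : gt 0 * |(g - gt) 0| ≤ gt 0 * (η + γ * x) := by
      have := abs_add_le (B gt (g - gt)) (ip gt (g - gt))
      rw [← h3, abs_mul, abs_of_pos t0] at this
      linarith [mul_le_mul_of_nonneg_right e6 x0,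
        mul_le_mul_of_nonneg_left (by linarith : p 0 - r0 ≤ gt 0) η0]
    exact le_of_mul_le_mul_left h6 t0
  have e8 : x ≤ xc := by
    by_contra hc
    push Not at hc
    have h3 := q_eq (g - gt)
    have h4 : (g - gt) 0 ^ 2 ≤ (η + γ * x) ^ 2 := sq_le_sq' (abs_le.1 e7).1 (abs_le.1 e7).2
    have xc0 : 0 ≤ xc := nonneg_of_mul_nonneg_right (η0.trans h1) (by linarith)
    have h6 := mul_le_mul_of_nonneg_left hc.le (sub_nonneg.2 γ1.le)
    have h7 := mul_le_mul_of_nonneg_left hc.le γ0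
    have h8 := mul_nonneg γ0 xc0
    have h5 : ((1 - γ) * xc - η) * ((1 + γ) * xc + η) ≤ ((1 - γ) * x - η) * ((1 + γ) * x + η) :=
      mul_le_mul (by linarith) (by linarith) (by linarith) (by linarith)
    linarith
  refine ⟨?_, ?_, u1⟩
  · have : g - p = (g - gt) + (gt - p) := by ring
    rw [this]; linarith [nrm_add_le de (dt.sub dp)]
  · have := abs_add_le ((g - gt) 0) (gt 0 - p 0)
    simp only [Pi.sub_apply, sub_add_sub_cancel] at this e7
    linarith [mul_le_mul_of_nonneg_left e8 γ0]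

theorem chkIv_sound {P : List ℤ} {A C : Sm} {I : Iv} (hc : chkIv P A C I = true)
    (hA : NodeOK P A) (hC : NodeOK P C) (hf : Feas ρ g) (hs : rv (der g) ρ = -kap ρ)
    (hq : (qlow : ℝ) ≤ q g) (ha : (A.ρ : ℝ) ≤ ρ) (hb : ρ ≤ C.ρ) : Loc P ρ g := by
  simp only [chkIv, Bool.and_eq_true, Bool.or_eq_true, decide_eq_true_eq] at hc
  obtain ⟨⟨hab, X0, hX, c1, c2, c3, e1, e2, e3⟩, hc⟩ := hc
  have hX' : nrm g ≤ I.X := by
    refine abs_le_of_sq_le_sq' ?_ (by exact_mod_cast X0) |>.2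
    have h1 : (C.ρ : ℝ) ^ 2 - qlow ≤ (I.X : ℝ) ^ 2 := by exact_mod_cast hX
    have h2 := q_eq g
    have h3 : g 0 ^ 2 ≤ (C.ρ : ℝ) ^ 2 := pow_le_pow_left₀ hf.g0.le (hf.g0_le.trans hb) 2
    linarith
  obtain ⟨gt, dt, t0, qt, hr, hr0, hM⟩ := interval hA hC hf hs ha hb hab hX' c1 c2 c3 e1 e2 e3
  rcases hc with hc | ⟨k1, k2, k3, k4, k5, k6, k7, k8, k9⟩
  · have h1 := le_B dt hf.d2 t0 hf.g0 qlow_pos.le qt hq
    have h2 : (mq A C I : ℝ) < qlow := by exact_mod_cast hc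
    linarith
  · obtain ⟨j1, j2, j3⟩ := central (η := et P A C I) (xc := I.xc) (γ := gam) hf.d2 hf.g0 hq dt t0 qt
      (sr_d2 P) hr hr0 hM (by simp only [sr]; exact_mod_cast k4)
      (by simp only [et, sr]; push_cast; rfl) (by norm_num [gam]) (by norm_num [gam])
      (by simp only [sr]; exact_mod_cast k5) (by exact_mod_cast k6) (by exact_mod_cast k7)
    exact ⟨le_trans (by exact_mod_cast k1) ha, hb.trans (by exact_mod_cast k2),
      j1.trans (by exact_mod_cast k8), j2.trans (by exact_mod_cast k9),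
      j3.trans (by exact_mod_cast k3)⟩

theorem chkChain_sound {P : List ℤ} (hf : Feas ρ g) (hs : rv (der g) ρ = -kap ρ)
    (hq : (qlow : ℝ) ≤ q g) (l : List (Iv × Sm)) : ∀ A : Sm, chkChain P A l = true →
      NodeOK P A → (∀ p ∈ l, NodeOK P p.2) → (A.ρ : ℝ) < ρ → ρ ≤ lastR A l → Loc P ρ g := by
  induction l with
  | nil => intro A _ _ _ h1 h2; exact absurd h2 (not_le.2 h1)
  | cons p l ih =>
    intro A hc hA hl h1 h2
    simp only [chkChain, Bool.and_eq_true] at hc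
    have hp := hl p (List.mem_cons_self ..)
    rcases le_or_gt ρ p.2.ρ with h | h
    · exact chkIv_sound hc.1 hA hp hf hs hq h1.le h
    · exact ih p.2 hc.2 hp (fun p' hp' => hl p' (List.mem_cons_of_mem _ hp')) h h2

theorem low_range (hf : Feas ρ g) (hq : (qlow : ℝ) ≤ q g) : 0.488 < ρ := by
  by_contra h
  push Not at h
  have h2 := q_eq g
  have h3 : g 0 ^ 2 ≤ 0.488 ^ 2 := pow_le_pow_left₀ hf.g0.le (hf.g0_le.trans h) 2
  norm_num [qlow] at hq h3
  nlinarith [sq_nonneg (nrm g)]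

theorem high_range (hf : Feas ρ g) (hq : (qlow : ℝ) ≤ q g) : ρ ≤ 0.87 := by
  by_contra h
  push Not at h
  have r1 := hf.lt
  have hx : |ρ| < 1 := by rw [abs_of_pos hf.pos]; exact r1
  have y1 : 0 < 1 - ρ ^ 2 := by nlinarith
  have hw : HasSum (fun k : ℕ => (((k : ℝ) + 1) * ρ ^ (k + 2)) ^ 2 / (k + 1))
      ((ρ ^ 2 / (1 - ρ ^ 2)) ^ 2) :=
    hs_eq ((hasSum_tail1 (y := ρ ^ 2) (by positivity) (by linarith) 0).mul_left (ρ ^ 4))
      (fun k => by field_simp; push_cast; ring) (by field_simp; ring)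
  obtain ⟨-, hb⟩ := abs_tsum_le (c := ρ ^ 2 / (1 - ρ ^ 2)) hf.d2 (by positivity) hw.summable
    hw.tsum_eq.le
  have s1 := (hasSum_nat_add_iff' 2).2
    (((hasSum_der hf.schur.1 hx).mul_left ρ).sub (hf.schur.1.summable_rv hx).hasSum)
  have s2 : HasSum (fun k : ℕ => ((k : ℝ) + 1) * ρ ^ (k + 2) * g (k + 2)) (g 0 + ρ * rv (der g) ρ) :=
    hs_eq s1 (fun k => by simp; ring) (by
      have := hf.zero
      simp only [rv] at this
      simp [Finset.sum_range_succ, this]; ring)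
  rw [s2.tsum_eq, div_mul_eq_mul_div, le_div_iff₀ y1] at hb
  have k1 : kap ρ * (1 - ρ ^ 2) = (1 + ρ) ^ 2 / 4 := by
    have : 1 - ρ ≠ 0 := by linarith
    unfold kap; field_simp; ring
  have h3 := mul_le_mul_of_nonneg_right (neg_le_abs (g 0 + ρ * rv (der g) ρ)) y1.le
  have h3' := mul_le_mul_of_nonneg_right (mul_le_mul_of_nonneg_left hf.slope hf.pos.le) y1.le
  have h4 := mul_le_mul_of_nonneg_right hf.g0_le y1.le
  have h5 : ρ * ((5 * ρ - 3) * (1 + ρ) / 4) ≤ ρ * (ρ * nrm g) := by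
    have : ρ * (kap ρ * (1 - ρ ^ 2)) = ρ * ((1 + ρ) ^ 2 / 4) := by rw [k1]
    linarith
  have h6 := le_of_mul_le_mul_left h5 hf.pos
  have h7 : ((5 * ρ - 3) * (1 + ρ) / 4) ^ 2 ≤ (ρ * nrm g) ^ 2 :=
    pow_le_pow_left₀ (by nlinarith) h6 2
  have h8 : g 0 ^ 2 ≤ ρ ^ 2 := pow_le_pow_left₀ hf.g0.le hf.g0_le 2
  have h9 : nrm g ^ 2 ≤ ρ ^ 2 - 0.2385 := by
    have := q_eq g
    norm_num [qlow] at hq ⊢; linarith
  have h10 := mul_le_mul_of_nonneg_left h9 (sq_nonneg ρ)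
  obtain ⟨t, rfl⟩ : ∃ t, ρ = 0.87 + t := ⟨ρ - 0.87, by ring⟩
  have t0 : 0 < t := by linarith
  nlinarith [pow_pos t0 2, pow_pos t0 3, pow_pos t0 4]

theorem rv_sr (l : List ℤ) {x : ℚ} (hx : |(x : ℝ)| < 1) : rv (sr l) x = hornerQ x l := by
  induction l with
  | nil => simp [rv, sr, sq, hornerQ]
  | cons a l ih =>
    rw [rv_shift (sr_d2 _).pow hx, shift_sr, ih, sr_cons_zero, hornerQ]; push_cast; rfl

theorem sr_derL (l : List ℤ) (n k : ℕ) : sr (derL n l) k = ((k : ℝ) + n) * sr l k := by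
  induction l generalizing n k with
  | nil => simp [derL, sr, sq]
  | cons a l ih =>
    cases k with
    | zero => simp [derL, sr_cons_zero]; ring
    | succ k =>
      have h1 := congrFun (shift_sr (n * a) (derL (n + 1) l)) k
      have h2 := congrFun (shift_sr a l) k
      simp only [shift] at h1 h2
      rw [derL, h1, h2, ih]; push_cast; ring

theorem der_sr (l : List ℤ) : der (sr l) = sr (derL 1 l.tail) := by
  funext k
  rw [sr_derL, ← shift_sr']; simp [der, shift]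

/-- Complex evaluation of an integer list. -/
def lev (s : ℂ) : List ℤ → ℂ
  | [] => 0
  | a :: as => a + s * lev s as

theorem lev_diff (l : List ℤ) : Differentiable ℂ fun s => lev s l := by
  induction l with
  | nil => simp [lev]
  | cons a l ih => simp only [lev]; fun_prop

theorem ev_sr (l : List ℤ) {s : ℂ} (hs : ‖s‖ < 1) : ev (sr l) s = lev s l / 10 ^ 11 := by
  induction l with
  | nil => simp [ev, sr, sq, lev]
  | cons a l ih =>
    rw [ev_shift (sr_d2 _).pow hs, shift_sr, ih, sr_cons_zero, lev]; push_cast; ring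

theorem lev_corr (s : ℂ) (a : ℤ) (v : List ℤ) (u : List ℤ) (b : ℤ) :
    lev s (corr (a :: v) (b :: u)) = a * lev s (b :: u) + lev s (corr v u) := by
  induction u generalizing b with
  | nil => cases v <;> simp [corr, lev, dot]
  | cons c u ih =>
    rw [corr, lev, ih c, corr]; simp only [lev, dot]; push_cast; ring

theorem normSq_lev {s : ℂ} (hs : ‖s‖ = 1) (l : List ℤ) :
    ‖lev s l‖ ^ 2 = 2 * (lev s (corr l l)).re - dot l l := by
  induction l with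
  | nil => simp [lev, corr, dot]
  | cons a l ih =>
    have h1 : ‖s * lev s l‖ ^ 2 = ‖lev s l‖ ^ 2 := by rw [norm_mul, hs, one_mul]
    rw [lev_corr, lev, dot]
    rw [← h1] at ih
    generalize s * lev s l = z at ih ⊢
    simp only [Complex.sq_norm, normSq_apply, add_re, add_im, mul_re, intCast_re, intCast_im]
      at ih ⊢
    push_cast; linarith

theorem lev_absSum {s : ℂ} (hs : ‖s‖ = 1) (u v : List ℤ) (h : u.length = v.length) :
    ‖lev s u + lev s v‖ ≤ absSum u v := by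
  induction u generalizing v with
  | nil => cases v <;> simp_all [lev, absSum]
  | cons a u ih =>
    cases v with
    | nil => simp at h
    | cons b v =>
      have := ih v (by simpa using h)
      have e : lev s (a :: u) + lev s (b :: v) = ((a + b : ℤ) : ℂ) + s * (lev s u + lev s v) := by
        simp only [lev]; push_cast; ring
      rw [e, absSum]
      refine (norm_add_le _ _).trans ?_
      rw [norm_mul, hs, one_mul, Complex.norm_intCast]; push_cast; linarith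

theorem chkPrimal_sound {P S : List ℤ} {r : ℚ} (hc : chkPrimal P S r = true) :
    ∃ ρ g, Feas ρ g ∧ (qlow : ℝ) ≤ q g := by
  simp only [chkPrimal, Bool.and_eq_true, decide_eq_true_eq] at hc
  obtain ⟨⟨⟨r0, r1, hl, h1, h2, h3⟩, h4⟩, h5⟩ := hc
  have r0' : (0 : ℝ) < r := by exact_mod_cast r0
  have r1' : (r : ℝ) < 1 := by exact_mod_cast r1
  have hx : |(r : ℝ)| < 1 := by rwa [abs_of_pos r0']
  obtain ⟨η, hη⟩ : ∃ η : ℝ, η = hornerQ r P := ⟨_, rfl⟩
  have d1 := sr_d2 P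
  have d2 := D2.single 0 η
  have hd : der (sr P - Pi.single 0 η) = der (sr P) := by funext k; simp [der]
  have h1' : |η| ≤ 1 := by rw [hη]; exact_mod_cast h1
  have dg := d1.sub d2
  refine ⟨r, _, Feas.mk r0' r1' (And.intro dg.pow fun s hs => ?_) dg ?_ ?_ ?_, ?_⟩
  · have hb : ‖lev s P‖ ≤ (1 - |η|) * 10 ^ 11 := by
      refine Complex.norm_le_of_forall_mem_frontier_norm_le (f := fun s => lev s P)
        (U := ball 0 1) isBounded_ball (lev_diff P).diffContOnCl (fun z hz => ?_)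
        (subset_closure (mem_ball_zero_iff.2 hs))
      rw [frontier_ball _ one_ne_zero, mem_sphere_zero_iff_norm] at hz
      have e1 := normSq_lev hz P
      have e2 := normSq_lev hz S
      have e3 := (re_le_norm _).trans
        (lev_absSum hz (corr P P) (corr S S) (by rw [corr_length, corr_length, hl]))
      have e4 : _ ≤ (((1 - |hornerQ r P|) ^ 2 : ℚ) : ℝ) := Rat.cast_le.2 h4
      push_cast at e4
      rw [← hη, div_le_iff₀ (by positivity)] at e4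
      rw [add_re] at e3
      refine abs_le_of_sq_le_sq' ?_ (mul_nonneg (by linarith) (by positivity)) |>.2
      linarith [sq_nonneg ‖lev z S‖]
    rw [ev_sub d1.pow d2.pow hs, ev_single, ev_sr P hs]
    refine (norm_sub_le _ _).trans ?_
    rw [norm_div, norm_mul, Complex.norm_real, Real.norm_eq_abs]
    simp only [norm_pow, Complex.norm_ofNat, pow_zero, norm_one, mul_one]
    rw [← le_sub_iff_add_le, div_le_iff₀ (by positivity)]; exact hb
  · simp only [Pi.sub_apply, Pi.single_eq_same, sr, hη]; exact_mod_cast h2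
  · rw [rv_sub d1.pow d2.pow hx, rv_single, rv_sr P hx, hη]; simp
  · rw [hd, der_sr, rv_sr _ hx, ← kapq_cast]; exact_mod_cast h3
  · have e : ip (sr P - Pi.single 0 η) (sr P - Pi.single 0 η) =
        ∑ k ∈ Finset.range P.length, (k : ℝ) * sr P (k + 1) ^ 2 := by
      rw [ip, tsum_eq_sum (s := Finset.range P.length)]
      · simp [pow_two]
      · intro k hk
        simp [sr_zero (l := P) (n := k + 1) (by simp at hk; omega)]
    have e5 : ((qlow : ℚ) : ℝ) ≤ _ := Rat.cast_le.2 h5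
    push_cast at e5
    rw [q, B, e]
    simp only [Pi.sub_apply, Pi.single_eq_same, sr, hη]; linarith

end

end Pool.Agent.Lib.MP_9b2593_an.Uq
end

-- part Pool.Agent.Lib.MP_9b2593_an.Uq.Compact
section

/-!
Existence of a maximiser of the relaxed problem.
-/

open Complex Metric Set MeasureTheory

noncomputable section

namespace Pool.Agent.Lib.MP_9b2593_an.Uq

namespace CompactAux

/-- The compact box of parameters. -/
def box : Set (ℝ × (ℕ → ℝ)) := Icc 0.488 0.87 ×ˢ univ.pi fun _ => Icc (-1) 1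

/-- Superlevel sets. -/
def upLev (c : ℝ) : Set (ℝ × (ℕ → ℝ)) := {z | Feas z.1 z.2 ∧ c ≤ q z.2}

theorem isCompact_box : IsCompact box :=
  isCompact_Icc.prod (isCompact_univ_pi fun _ => isCompact_Icc)

theorem box_abs {z : ℝ × (ℕ → ℝ)} (hz : z ∈ box) (n : ℕ) : |z.2 n| ≤ 1 :=
  abs_le.2 (hz.2 n trivial)

theorem box_pow {z : ℝ × (ℕ → ℝ)} (hz : z ∈ box) (n : ℕ) : |z.1 ^ n| ≤ 0.87 ^ n := by
  rw [abs_pow]
  exact pow_le_pow_left₀ (abs_nonneg _) (abs_le.2 ⟨by linarith [hz.1.1], hz.1.2⟩) n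

theorem upLev_subset {c : ℝ} (hc : (qlow : ℝ) ≤ c) : upLev c ⊆ box := fun _ hz =>
  ⟨⟨(low_range hz.1 (hc.trans hz.2)).le, high_range hz.1 (hc.trans hz.2)⟩,
    fun n _ => abs_le.1 (hz.1.schur.abs_le n)⟩

theorem cont_ev {s : ℂ} (hs : ‖s‖ < 1) : ContinuousOn (fun z : ℝ × (ℕ → ℝ) => ev z.2 s) box :=
  continuousOn_tsum (u := fun n => ‖s‖ ^ n) (fun n => by fun_prop)
    (summable_geometric_of_lt_one (norm_nonneg _) hs) fun n z hz => by
      rw [norm_mul, norm_pow, norm_real]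
      exact mul_le_of_le_one_left (by positivity) (box_abs hz n)

theorem cont_rv : ContinuousOn (fun z : ℝ × (ℕ → ℝ) => rv z.2 z.1) box :=
  continuousOn_tsum (u := fun n => (0.87 : ℝ) ^ n) (fun n => by fun_prop)
    (summable_geometric_of_lt_one (by norm_num) (by norm_num)) fun n z hz => by
      rw [norm_mul]
      exact (mul_le_of_le_one_left (norm_nonneg _) (box_abs hz n)).trans (box_pow hz n)

theorem cont_der : ContinuousOn (fun z : ℝ × (ℕ → ℝ) => rv (der z.2) z.1) box :=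
  continuousOn_tsum (u := fun n => |der (fun _ => 1) n| * (0.87 : ℝ) ^ n)
    (fun n => by unfold der; fun_prop)
    ((Pow.of_bdd 1 fun _ => abs_one.le).der _ (by norm_num) (by norm_num)) fun n z hz => by
      rw [norm_mul]
      refine mul_le_mul ?_ (box_pow hz n) (norm_nonneg _) (abs_nonneg _)
      simp only [der, Real.norm_eq_abs, abs_mul, abs_one]
      exact mul_le_mul_of_nonneg_left (box_abs hz _) (abs_nonneg _)

theorem cont_kap : ContinuousOn (fun z : ℝ × (ℕ → ℝ) => kap z.1) box :=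
  ContinuousOn.div (by fun_prop) (by fun_prop) fun z hz => by
    have := hz.1.2
    exact ne_of_gt (by linarith)

theorem q_eq' (g : ℕ → ℝ) : q g = g 0 ^ 2 - ∑' k : ℕ, (k : ℝ) * g (k + 1) ^ 2 := by
  rw [q_eq, nrm_sq, s3_ip_self_eq]

theorem isClosed_upLev {c : ℝ} (hc : (qlow : ℝ) ≤ c) : IsClosed (upLev c) := by
  refine isClosed_of_closure_subset fun z hz => ?_
  have hb : z ∈ box := closure_minimal (upLev_subset hc) isCompact_box.isClosed hz
  have key : ∀ {f f' : ℝ × (ℕ → ℝ) → ℝ}, ContinuousOn f box → ContinuousOn f' box →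
      (∀ y ∈ upLev c, f y ≤ f' y) → f z ≤ f' z := fun h h' H =>
    ContinuousWithinAt.closure_le hz ((h z hb).mono (upLev_subset hc))
      ((h' z hb).mono (upLev_subset hc)) H
  have h1 : ∀ N, ∑ k ∈ Finset.range N, (k : ℝ) * z.2 (k + 1) ^ 2 ≤ z.2 0 ^ 2 - c := fun N =>
    key (f := fun y => ∑ k ∈ Finset.range N, (k : ℝ) * y.2 (k + 1) ^ 2)
      (f' := fun y => y.2 0 ^ 2 - c) (by fun_prop) (by fun_prop) fun y hy => by
        have h2 := Summable.sum_le_tsum (Finset.range N) (fun k _ => by positivity) hy.1.d2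
        have h3 := hy.2
        rw [q_eq'] at h3
        linarith
  have h2 : 0 ≤ z.2 0 := key (f := fun _ => 0) (f' := fun y => y.2 0) (by fun_prop) (by fun_prop)
    fun y hy => hy.1.g0.le
  have h3 : z.2 0 ≠ 0 := fun h => by
    have := h1 0
    rw [h] at this
    simp only [Finset.range_zero, Finset.sum_empty] at this
    linarith [qlow_pos]
  refine ⟨⟨by linarith [hb.1.1], by linarith [hb.1.2], ⟨Pow.of_bdd 1 (box_abs hb), fun s hs =>
    key (cont_ev hs).norm continuousOn_const fun y hy => hy.1.schur.2 s hs⟩,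
    summable_of_sum_range_le (fun k => by positivity) h1, h2.lt_of_ne' h3,
    le_antisymm (key cont_rv continuousOn_const fun y hy => hy.1.zero.le)
      (key continuousOn_const cont_rv fun y hy => hy.1.zero.ge),
    key cont_kap cont_der.neg fun y hy => hy.1.slope⟩, ?_⟩
  rw [q_eq']
  linarith [Real.tsum_le_of_sum_range_le (fun k => by positivity) h1]

end CompactAux

open CompactAux in
theorem exists_isMax (h0 : ∃ ρ g, Feas ρ g ∧ (qlow : ℝ) ≤ q g) : ∃ ρ g, IsMax ρ g := by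
  obtain ⟨ρ, g, h⟩ := h0
  have : Nonempty (upLev qlow) := ⟨⟨(ρ, g), h⟩⟩
  obtain ⟨z, hz⟩ := IsCompact.nonempty_iInter_of_directed_nonempty_isCompact_isClosed
    (fun y : upLev qlow => upLev (q y.1.2))
    (fun x y => (le_total (q x.1.2) (q y.1.2)).elim
      (fun h => ⟨y, fun _ hw => ⟨hw.1, h.trans hw.2⟩, subset_rfl⟩)
      fun h => ⟨x, subset_rfl, fun _ hw => ⟨hw.1, h.trans hw.2⟩⟩)
    (fun y => ⟨y.1, y.2.1, le_rfl⟩)
    (fun y => isCompact_box.of_isClosed_subset (isClosed_upLev y.2.2) (upLev_subset y.2.2))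
    fun y => isClosed_upLev y.2.2
  rw [mem_iInter] at hz
  have h1 := hz ⟨(ρ, g), h⟩
  refine ⟨z.1, z.2, h1.1, fun ρ' g' h' => ?_⟩
  rcases le_total (qlow : ℝ) (q g') with h2 | h2
  · exact (hz ⟨(ρ', g'), h', h2⟩).2
  · exact h2.trans (h.2.trans h1.2)

end Pool.Agent.Lib.MP_9b2593_an.Uq
end
end
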