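import Mathlib

/-!
Definitions for the uniqueness of the circularly symmetric extremal function of the omitted
area problem.
-/

open Complex Metric Set MeasureTheory

noncomputable section

namespace Pool.Agent.Lib.MP_9b2593_an.Uq

/-- The class `S`. -/
def InS (f : ℂ → ℂ) : Prop :=
  DifferentiableOn ℂ f (ball 0 1) ∧ InjOn f (ball 0 1) ∧ f 0 = 0 ∧ deriv f 0 = 1

/-- The omitted area. -/
def om (f : ℂ → ℂ) : ENNReal := volume (ball (0 : ℂ) 1 \ f '' ball 0 1)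

/-- Circular symmetry about the positive real axis, as in the problem statement. -/
def Circ (f : ℂ → ℂ) : Prop :=
  ∀ r ∈ Ioo (0 : ℝ) 1,
    AntitoneOn (fun θ : ℝ => ‖f (r * exp (θ * I))‖) (Ioo 0 Real.pi) ∧
    AntitoneOn (fun θ : ℝ => ‖f (r * exp (-(θ * I)))‖) (Ioo 0 Real.pi)

/-- Radius of convergence at least one. -/
def Pow (g : ℕ → ℝ) : Prop := ∀ r : ℝ, 0 ≤ r → r < 1 → Summable fun n => |g n| * r ^ n

/-- The power series with real coefficients `g` at a complex point. -/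
def ev (g : ℕ → ℝ) (s : ℂ) : ℂ := ∑' n, (g n : ℂ) * s ^ n

/-- The power series with real coefficients `g` at a real point. -/
def rv (g : ℕ → ℝ) (x : ℝ) : ℝ := ∑' n, g n * x ^ n

/-- Coefficients of the derivative. -/
def der (g : ℕ → ℝ) : ℕ → ℝ := fun n => ((n : ℝ) + 1) * g (n + 1)

/-- Coefficients of `(G(s) - G(0)) / s`. -/
def shift (g : ℕ → ℝ) : ℕ → ℝ := fun n => g (n + 1)

/-- Coefficients of the product. -/
def cmul (g h : ℕ → ℝ) : ℕ → ℝ := fun n => ∑ p ∈ Finset.HasAntidiagonal.antidiagonal n, g p.1 * h p.2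

/-- Coefficients of a map of the disc into the closed disc. -/
def Schur (g : ℕ → ℝ) : Prop := Pow g ∧ ∀ s : ℂ, ‖s‖ < 1 → ‖ev g s‖ ≤ 1

/-- Finiteness of `∑ (n - 1) g n ^ 2`. -/
def D2 (g : ℕ → ℝ) : Prop := Summable fun k : ℕ => (k : ℝ) * g (k + 1) ^ 2

/-- `∑ (n - 1) g n * h n` over `n ≥ 1`. -/
def ip (g h : ℕ → ℝ) : ℝ := ∑' k : ℕ, (k : ℝ) * (g (k + 1) * h (k + 1))

/-- The seminorm of `ip`. -/
def nrm (g : ℕ → ℝ) : ℝ := Real.sqrt (ip g g)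

/-- The Hardy space norm. -/
def hn (g : ℕ → ℝ) : ℝ := Real.sqrt (∑' n, g n ^ 2)

/-- The Bergman norm of the derivative. -/
def an (g : ℕ → ℝ) : ℝ := Real.sqrt (∑' n : ℕ, (n : ℝ) * g n ^ 2)

/-- The Lorentzian area form. -/
def B (g h : ℕ → ℝ) : ℝ := g 0 * h 0 - ip g h

/-- The area of the omitted set divided by `π`. -/
def q (g : ℕ → ℝ) : ℝ := B g g

def kap (x : ℝ) : ℝ := (1 + x) / (4 * (1 - x))

def kap1 (x : ℝ) : ℝ := 1 / (2 * (1 - x) ^ 2)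

def kap2 (x : ℝ) : ℝ := 1 / (1 - x) ^ 3

/-- The relaxed feasible set. -/
structure Feas (ρ : ℝ) (g : ℕ → ℝ) : Prop where
  pos : 0 < ρ
  lt : ρ < 1
  schur : Schur g
  d2 : D2 g
  g0 : 0 < g 0
  zero : rv g ρ = 0
  slope : kap ρ ≤ -rv (der g) ρ

/-- Maximisers of the relaxed problem. -/
def IsMax (ρ : ℝ) (g : ℕ → ℝ) : Prop := Feas ρ g ∧ ∀ ρ' g', Feas ρ' g' → q g' ≤ q g

/-- The exterior map in the coordinate `s = 1 / η`. -/
def Phi (g : ℕ → ℝ) (s : ℂ) : ℂ := ev g s / s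

/-- The Koebe function. -/
def koebe (s : ℂ) : ℂ := s / (1 - s) ^ 2

/-- The disc slit along `(-1, 0]`. -/
def slit : Set ℂ := {s | ‖s‖ < 1 ∧ (0 < s.re ∨ s.im ≠ 0)}

/-- Every zero-free holomorphic function on `U` has a holomorphic logarithm. -/
def HasLog (U : Set ℂ) : Prop :=
  ∀ h : ℂ → ℂ, DifferentiableOn ℂ h U → (∀ z ∈ U, h z ≠ 0) →
    ∃ L : ℂ → ℂ, DifferentiableOn ℂ L U ∧ ∀ z ∈ U, exp (L z) = h z

/-- Circular symmetry about the negative real axis of a set. -/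
def SymK (K : Set ℂ) : Prop := ∀ w ∈ K, ∀ w' : ℂ, ‖w'‖ = ‖w‖ → w'.re ≤ w.re → w' ∈ K

/-- A circularly symmetric domain whose complement contains exactly `(-∞, -m]` of the real axis. -/
structure SymD (D : Set ℂ) (m : ℝ) : Prop where
  isOpen : IsOpen D
  pos : 0 < m
  ball_sub : ball 0 m ⊆ D
  sym : SymK Dᶜ
  posReal : ∀ t : ℝ, 0 < t → (t : ℂ) ∈ D
  negReal : ∀ t : ℝ, m ≤ t → -(t : ℂ) ∉ D

/-- The Chebyshev constant of `X` is at most `θ`. -/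
def Cheb (θ : ℝ) (X : Set ℂ) : Prop :=
  ∃ n : ℕ, 0 < n ∧ ∃ P : Polynomial ℂ, P.Monic ∧ P.natDegree = n ∧ ∀ ω ∈ X, ‖P.eval ω‖ ≤ θ ^ n

/-- The angular section of `X` at radius `t`. -/
def sec (X : Set ℂ) (t : ℝ) : Set ℝ := {θ | θ ∈ Ioc (-Real.pi) Real.pi ∧ (t : ℂ) * exp (θ * I) ∈ X}

/-- Feasible directions at `g`. -/
def Dir (g h : ℕ → ℝ) : Prop :=
  D2 h ∧ ∃ K ε₀ : ℝ, 0 < ε₀ ∧ 0 ≤ K ∧ ∀ ε, 0 < ε → ε < ε₀ → ∀ s : ℂ, ‖s‖ < 1 →
    ‖ev g s + ε * ev h s‖ ^ 2 ≤ 1 + K * ε ^ 2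

/-- First variation of the slope constraint. -/
def DS (ρ : ℝ) (g h : ℕ → ℝ) : ℝ :=
  -rv (der h) ρ - (rv (der (der g)) ρ + kap1 ρ) / kap ρ * rv h ρ

end Pool.Agent.Lib.MP_9b2593_an.Uq
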