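import Pool.Agent.Lib.MP_9b2593_an.Uq.Defs

-- part Pool.Agent.Lib.MP_9b2593_an.Uq.Seq1
section

/-!
Power series with real coefficients: calculus, Parseval, multipliers, the forms `ip` and `B`.
-/

open Complex Metric Set MeasureTheory

noncomputable section

namespace Pool.Agent.Lib.MP_9b2593_an.Uq

variable {g h u : ℕ → ℝ}

/-! ### Part 1: calculus -/

theorem Pow.of_bdd (C : ℝ) (hg : ∀ n, |g n| ≤ C) : Pow g := fun r h0 h1 =>
  ((summable_geometric_of_lt_one h0 h1).mul_left C).of_nonneg_of_le (fun _ => by positivity)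
    fun n => mul_le_mul_of_nonneg_right (hg n) (by positivity)

theorem Pow.add (hg : Pow g) (hh : Pow h) : Pow (g + h) := fun r h0 h1 =>
  ((hg r h0 h1).add (hh r h0 h1)).of_nonneg_of_le (fun _ => by positivity) fun n => by
    rw [← add_mul]
    exact mul_le_mul_of_nonneg_right (abs_add_le _ _) (by positivity)

theorem Pow.smul (hg : Pow g) (c : ℝ) : Pow (c • g) := fun r h0 h1 =>
  ((hg r h0 h1).mul_left |c|).congr fun n => by
    rw [Pi.smul_apply, smul_eq_mul, abs_mul, mul_assoc]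

theorem Pow.sub (hg : Pow g) (hh : Pow h) : Pow (g - h) := by
  have := hg.add (hh.smul (-1))
  rwa [neg_one_smul, ← sub_eq_add_neg] at this

theorem Pow.shift (hg : Pow g) : Pow (shift g) := fun r h0 h1 => by
  obtain ⟨t, h2, h3⟩ := exists_between h1
  have h4 : 0 < t := h0.trans_lt h2
  refine (((summable_nat_add_iff 1).2 (hg t h4.le h3)).mul_left t⁻¹).of_nonneg_of_le
    (fun _ => by positivity) fun n => ?_
  rw [pow_succ, show t⁻¹ * (|g (n + 1)| * (t ^ n * t)) = |g (n + 1)| * t ^ n by field_simp]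
  exact mul_le_mul_of_nonneg_left (pow_le_pow_left₀ h0 h2.le n) (abs_nonneg _)

theorem Pow.der (hg : Pow g) : Pow (der g) := fun r h0 h1 => by
  obtain ⟨t, h2, h3⟩ := exists_between h1
  have h4 : 0 < t := h0.trans_lt h2
  have h5 : ‖r / t‖ < 1 := by
    rw [Real.norm_of_nonneg (by positivity), div_lt_one h4]; exact h2
  have h6 := (summable_pow_mul_geometric_of_norm_lt_one 1 h5).add
    (summable_geometric_of_norm_lt_one h5)
  have h7 : ∀ n : ℕ, ((n : ℝ) + 1) * (r / t) ^ n ≤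
      ∑' n : ℕ, ((n : ℝ) ^ 1 * (r / t) ^ n + (r / t) ^ n) := fun n =>
    le_trans (le_of_eq (by ring)) (h6.le_tsum n fun _ _ => by positivity)
  refine ((hg.shift t h4.le h3).mul_left _).of_nonneg_of_le (fun _ => by positivity) fun n =>
    le_trans (le_of_eq ?_) (mul_le_mul_of_nonneg_right (h7 n) (by positivity))
  rw [Uq.der, Uq.shift, abs_mul, abs_of_nonneg (by positivity : (0 : ℝ) ≤ n + 1), div_pow]
  field_simp

theorem Pow.cmul (hg : Pow g) (hh : Pow h) : Pow (cmul g h) := fun r h0 h1 => by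
  have e : ∀ (g : ℕ → ℝ) n, ‖g n * r ^ n‖ = |g n| * r ^ n := fun g n => by
    rw [norm_mul, Real.norm_eq_abs, Real.norm_of_nonneg (by positivity)]
  refine (summable_norm_sum_mul_antidiagonal_of_summable_norm (f := fun n => g n * r ^ n)
    (g := fun n => h n * r ^ n) ((hg r h0 h1).congr fun n => (e g n).symm)
    ((hh r h0 h1).congr fun n => (e h n).symm)).congr fun n => ?_
  rw [← e, Uq.cmul, Finset.sum_mul]
  refine congrArg norm (Finset.sum_congr rfl fun p hp => ?_)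
  rw [← Finset.HasAntidiagonal.mem_antidiagonal.1 hp]
  ring

theorem Pow.summable_norm (hg : Pow g) {s : ℂ} (hs : ‖s‖ < 1) :
    Summable fun n => ‖(g n : ℂ) * s ^ n‖ :=
  (hg _ (norm_nonneg s) hs).congr fun n => by
    rw [norm_mul, norm_pow, Complex.norm_real, Real.norm_eq_abs]

theorem Pow.summable_ev (hg : Pow g) {s : ℂ} (hs : ‖s‖ < 1) :
    Summable fun n => (g n : ℂ) * s ^ n := (hg.summable_norm hs).of_norm

theorem Pow.summable_rv (hg : Pow g) {x : ℝ} (hx : |x| < 1) :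
    Summable fun n => g n * x ^ n :=
  Summable.of_norm ((hg _ (abs_nonneg x) hx).congr fun n => by
    rw [norm_mul, norm_pow, Real.norm_eq_abs, Real.norm_eq_abs])

theorem ev_add (hg : Pow g) (hh : Pow h) {s : ℂ} (hs : ‖s‖ < 1) :
    ev (g + h) s = ev g s + ev h s := by
  rw [ev, ev, ev, ← (hg.summable_ev hs).tsum_add (hh.summable_ev hs)]
  exact tsum_congr fun n => by rw [Pi.add_apply, ofReal_add, add_mul]

theorem ev_smul (g : ℕ → ℝ) (c : ℝ) (s : ℂ) : ev (c • g) s = c * ev g s := by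
  rw [ev, ev, ← tsum_mul_left]
  exact tsum_congr fun n => by rw [Pi.smul_apply, smul_eq_mul, ofReal_mul, mul_assoc]

theorem ev_sub (hg : Pow g) (hh : Pow h) {s : ℂ} (hs : ‖s‖ < 1) :
    ev (g - h) s = ev g s - ev h s := by
  rw [ev, ev, ev, ← (hg.summable_ev hs).tsum_sub (hh.summable_ev hs)]
  exact tsum_congr fun n => by rw [Pi.sub_apply, ofReal_sub, sub_mul]

theorem ev_cmul (hg : Pow g) (hh : Pow h) {s : ℂ} (hs : ‖s‖ < 1) :
    ev (cmul g h) s = ev g s * ev h s := by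
  rw [ev, ev, ev, tsum_mul_tsum_eq_tsum_sum_antidiagonal_of_summable_norm (hg.summable_norm hs)
    (hh.summable_norm hs)]
  refine tsum_congr fun n => ?_
  rw [cmul, ofReal_sum, Finset.sum_mul]
  refine Finset.sum_congr rfl fun p hp => ?_
  rw [← Finset.HasAntidiagonal.mem_antidiagonal.1 hp]
  push_cast
  ring

theorem ev_shift (hg : Pow g) {s : ℂ} (hs : ‖s‖ < 1) : ev g s = g 0 + s * ev (shift g) s := by
  rw [ev, ev, (hg.summable_ev hs).tsum_eq_zero_add, ← tsum_mul_left, pow_zero, mul_one]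
  exact congrArg _ (tsum_congr fun n => by rw [shift]; ring)

theorem ev_zero (g : ℕ → ℝ) : ev g 0 = g 0 := by
  rw [ev, tsum_eq_single 0 fun n hn => by rw [zero_pow hn, mul_zero], pow_zero, mul_one]

theorem ev_single (k : ℕ) (c : ℝ) (s : ℂ) : ev (Pi.single k c) s = c * s ^ k := by
  rw [ev, tsum_eq_single k fun n hn => by rw [Pi.single_eq_of_ne hn, ofReal_zero, zero_mul],
    Pi.single_eq_same]

theorem ev_conj (g : ℕ → ℝ) (s : ℂ) : ev g (starRingEnd ℂ s) = starRingEnd ℂ (ev g s) := by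
  rw [ev, ev, Complex.conj_tsum]
  exact tsum_congr fun n => by rw [map_mul, map_pow, conj_ofReal]

theorem ev_ofReal (g : ℕ → ℝ) (x : ℝ) : ev g x = (rv g x : ℂ) := by
  rw [ev, rv, Complex.ofReal_tsum]
  exact tsum_congr fun n => by rw [ofReal_mul, ofReal_pow]

theorem hasDerivAt_ev (hg : Pow g) {s : ℂ} (hs : ‖s‖ < 1) :
    HasDerivAt (ev g) (ev (der g) s) s := by
  obtain ⟨r, h2, h3⟩ := exists_between hs
  have h4 : 0 < r := (norm_nonneg s).trans_lt h2
  have hb : ∀ y ∈ ball (0 : ℂ) r, ‖y‖ < 1 := fun y hy => (mem_ball_zero_iff.1 hy).trans h3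
  have h5 := hasDerivAt_tsum_of_isPreconnected (hg.der r h4.le h3) isOpen_ball
    (convex_ball (0 : ℂ) r).isPreconnected (g := fun n y => (g (n + 1) : ℂ) * y ^ (n + 1))
    (g' := fun n y => (der g n : ℂ) * y ^ n) (y₀ := s) (y := s) (fun n y _ => by
      refine ((hasDerivAt_pow (n + 1) y).const_mul (g (n + 1) : ℂ)).congr_deriv ?_
      rw [der, Nat.add_sub_cancel]
      push_cast
      ring)
    (fun n y hy => by
      rw [norm_mul, norm_pow, Complex.norm_real, Real.norm_eq_abs]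
      exact mul_le_mul_of_nonneg_left
        (pow_le_pow_left₀ (norm_nonneg y) (mem_ball_zero_iff.1 hy).le n) (abs_nonneg _))
    (mem_ball_zero_iff.2 h2) ((summable_nat_add_iff 1).2 (hg.summable_ev hs))
    (mem_ball_zero_iff.2 h2)
  refine (h5.const_add ((g 0 : ℂ) * 1)).congr_of_eventuallyEq ?_
  filter_upwards [isOpen_ball.mem_nhds (mem_ball_zero_iff.2 h2)] with y hy
  rw [ev, (hg.summable_ev (hb y hy)).tsum_eq_zero_add, pow_zero]

theorem differentiableOn_ev (hg : Pow g) : DifferentiableOn ℂ (ev g) (ball 0 1) := fun _ hs =>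
  (hasDerivAt_ev hg (mem_ball_zero_iff.1 hs)).differentiableAt.differentiableWithinAt

theorem norm_ofReal_lt {x : ℝ} (hx : |x| < 1) : ‖(x : ℂ)‖ < 1 := by
  rwa [Complex.norm_real, Real.norm_eq_abs]

theorem hasDerivAt_rv (hg : Pow g) {x : ℝ} (hx : |x| < 1) :
    HasDerivAt (rv g) (rv (der g) x) x := by
  have := (hasDerivAt_ev hg (norm_ofReal_lt hx)).real_of_complex
  simpa only [ev_ofReal, ofReal_re] using this

theorem rv_add (hg : Pow g) (hh : Pow h) {x : ℝ} (hx : |x| < 1) :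
    rv (g + h) x = rv g x + rv h x := ofReal_injective (by
  rw [ofReal_add, ← ev_ofReal, ← ev_ofReal, ← ev_ofReal, ev_add hg hh (norm_ofReal_lt hx)])

theorem rv_smul (g : ℕ → ℝ) (c x : ℝ) : rv (c • g) x = c * rv g x := ofReal_injective (by
  rw [ofReal_mul, ← ev_ofReal, ← ev_ofReal, ev_smul])

theorem rv_sub (hg : Pow g) (hh : Pow h) {x : ℝ} (hx : |x| < 1) :
    rv (g - h) x = rv g x - rv h x := ofReal_injective (by
  rw [ofReal_sub, ← ev_ofReal, ← ev_ofReal, ← ev_ofReal, ev_sub hg hh (norm_ofReal_lt hx)])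

theorem rv_cmul (hg : Pow g) (hh : Pow h) {x : ℝ} (hx : |x| < 1) :
    rv (cmul g h) x = rv g x * rv h x := ofReal_injective (by
  rw [ofReal_mul, ← ev_ofReal, ← ev_ofReal, ← ev_ofReal, ev_cmul hg hh (norm_ofReal_lt hx)])

theorem rv_shift (hg : Pow g) {x : ℝ} (hx : |x| < 1) : rv g x = g 0 + x * rv (shift g) x :=
  ofReal_injective (by
    rw [ofReal_add, ofReal_mul, ← ev_ofReal, ← ev_ofReal, ev_shift hg (norm_ofReal_lt hx)])

theorem rv_single (k : ℕ) (c x : ℝ) : rv (Pi.single k c) x = c * x ^ k := ofReal_injective (by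
  rw [ofReal_mul, ofReal_pow, ← ev_ofReal, ev_single])

theorem der_add (g h : ℕ → ℝ) : der (g + h) = der g + der h := funext fun n => by
  simp only [der, Pi.add_apply]; ring

theorem der_sub (g h : ℕ → ℝ) : der (g - h) = der g - der h := funext fun n => by
  simp only [der, Pi.sub_apply]; ring

theorem der_smul (c : ℝ) (g : ℕ → ℝ) : der (c • g) = c • der g := funext fun n => by
  simp only [der, Pi.smul_apply, smul_eq_mul]; ring

theorem der_cmul (g h : ℕ → ℝ) : der (cmul g h) = cmul (der g) h + cmul g (der h) := by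
  funext n
  have e1 := Finset.Nat.sum_antidiagonal_succ (n := n) (f := fun p => (p.1 : ℝ) * (g p.1 * h p.2))
  have e2 := Finset.Nat.sum_antidiagonal_succ' (n := n) (f := fun p => (p.2 : ℝ) * (g p.1 * h p.2))
  simp only [Nat.cast_zero, zero_mul, zero_add, Nat.cast_add, Nat.cast_one] at e1 e2
  simp only [der, cmul, Pi.add_apply]
  rw [Finset.mul_sum, Finset.sum_congr rfl (g := fun p => (p.1 : ℝ) * (g p.1 * h p.2) +
    (p.2 : ℝ) * (g p.1 * h p.2)) fun p hp => by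
      rw [← add_mul, ← Nat.cast_add, Finset.HasAntidiagonal.mem_antidiagonal.1 hp, Nat.cast_add, Nat.cast_one],
    Finset.sum_add_distrib, e1, e2]
  exact congrArg₂ _ (Finset.sum_congr rfl fun p _ => by ring) (Finset.sum_congr rfl fun p _ => by ring)

theorem cmul_comm (g h : ℕ → ℝ) : cmul g h = cmul h g := funext fun n => by
  rw [cmul, cmul, ← Finset.Nat.sum_antidiagonal_swap]
  exact Finset.sum_congr rfl fun p _ => mul_comm _ _

theorem cmul_add (g h u : ℕ → ℝ) : cmul g (h + u) = cmul g h + cmul g u := funext fun n => by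
  simp only [cmul, Pi.add_apply, mul_add, Finset.sum_add_distrib]

theorem cmul_sub (g h u : ℕ → ℝ) : cmul g (h - u) = cmul g h - cmul g u := funext fun n => by
  simp only [cmul, Pi.sub_apply, mul_sub, Finset.sum_sub_distrib]

theorem cmul_smul (c : ℝ) (g h : ℕ → ℝ) : cmul g (c • h) = c • cmul g h := funext fun n => by
  simp only [cmul, Pi.smul_apply, smul_eq_mul, Finset.mul_sum]
  exact Finset.sum_congr rfl fun p _ => by ring

theorem exists_seq {G : ℂ → ℂ} (hG : DifferentiableOn ℂ G (ball 0 1))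
    (hs : ∀ s ∈ ball (0 : ℂ) 1, G (starRingEnd ℂ s) = starRingEnd ℂ (G s)) :
    ∃ g, Pow g ∧ ∀ s ∈ ball (0 : ℂ) 1, ev g s = G s := by
  obtain ⟨c, hc⟩ : ∃ c : ℕ → ℂ, ∀ s ∈ ball (0 : ℂ) 1, HasSum (fun n => c n * s ^ n) (G s) :=
    ⟨fun n => (n.factorial : ℂ)⁻¹ * iteratedDeriv n G 0, fun s h => by
      have := Complex.hasSum_taylorSeries_on_ball hG h
      simpa only [sub_zero, smul_eq_mul, mul_comm (s ^ _), mul_assoc] using this⟩
  have h1 : ∀ s ∈ ball (0 : ℂ) 1, HasSum (fun n => ((c n).re : ℂ) * s ^ n) (G s) := fun s h => by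
    have h2 := Complex.hasSum_conj'.2 (hc (starRingEnd ℂ s) (by simpa using h))
    rw [hs s h, conj_conj] at h2
    have h3 := ((hc s h).add h2).div_const 2
    rw [add_self_div_two] at h3
    have e : ∀ n, (c n * s ^ n + starRingEnd ℂ (c n * starRingEnd ℂ s ^ n)) / 2 =
        ((c n).re : ℂ) * s ^ n := fun n => by
      rw [re_eq_add_conj, map_mul, map_pow, conj_conj]
      ring
    simpa only [e] using h3
  refine ⟨fun n => (c n).re, fun r h0 h2 => ?_, fun s h => (h1 s h).tsum_eq⟩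
  have h3 := (h1 r (mem_ball_zero_iff.2 (norm_ofReal_lt (by rwa [abs_of_nonneg h0])))).summable
  refine (summable_norm_iff.2 h3).congr fun n => ?_
  rw [norm_mul, norm_pow, Complex.norm_real, Complex.norm_real, Real.norm_eq_abs,
    Real.norm_of_nonneg h0]

/-- A maximum principle with a boundary error that vanishes at the unit circle. -/
theorem norm_sq_le_of_boundary {G : ℂ → ℂ} (hG : DifferentiableOn ℂ G (ball 0 1)) {c C : ℝ}
    (hb : ∀ s : ℂ, 1 / 2 < ‖s‖ → ‖s‖ < 1 → ‖G s‖ ^ 2 ≤ c + C * (1 - ‖s‖ ^ 2)) {s : ℂ}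
    (hs : ‖s‖ < 1) : ‖G s‖ ^ 2 ≤ c := by
  have h1 : Filter.Tendsto (fun r : ℝ => c + C * (1 - r ^ 2)) (nhdsWithin 1 (Iio 1))
      (nhds (c + C * (1 - 1 ^ 2))) :=
    (Continuous.tendsto (by fun_prop) 1).mono_left nhdsWithin_le_nhds
  rw [one_pow, sub_self, mul_zero, add_zero] at h1
  refine ge_of_tendsto h1 ?_
  filter_upwards [Ioo_mem_nhdsLT (max_lt hs (by norm_num : (1 : ℝ) / 2 < 1))] with r hr
  obtain ⟨⟨h2, h3⟩, h4⟩ := And.intro (max_lt_iff.1 hr.1) hr.2
  have h5 : 0 < r := by linarith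
  have h6 : ∀ z ∈ frontier (ball (0 : ℂ) r), ‖G z‖ ^ 2 ≤ c + C * (1 - r ^ 2) := fun z hz => by
    rw [frontier_ball _ h5.ne', mem_sphere_zero_iff_norm] at hz
    rw [← hz] at h3 h4 ⊢
    exact hb z h3 h4
  have h7 : 0 ≤ c + C * (1 - r ^ 2) := (sq_nonneg _).trans (h6 r (by
    rw [frontier_ball _ h5.ne', mem_sphere_zero_iff_norm, Complex.norm_real,
      Real.norm_of_nonneg h5.le]))
  refine (Real.le_sqrt (norm_nonneg _) h7).1 (Complex.norm_le_of_forall_mem_frontier_norm_le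
    isBounded_ball (hG.diffContOnCl_ball (closedBall_subset_ball h4))
    (fun z hz => Real.le_sqrt_of_sq_le (h6 z hz)) (subset_closure (mem_ball_zero_iff.2 h2)))

end Pool.Agent.Lib.MP_9b2593_an.Uq
end
end

-- part Pool.Agent.Lib.MP_9b2593_an.Uq.Seq3
section

/-!
Power series with real coefficients: calculus, Parseval, multipliers, the forms `ip` and `B`.
-/

open Complex Metric Set MeasureTheory

noncomputable section

namespace Pool.Agent.Lib.MP_9b2593_an.Uq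

variable {g h u : ℕ → ℝ}

/-! ### Weighted square sums -/

theorem s3_hs_congr {f f' : ℕ → ℝ} {a a' : ℝ} (h : HasSum f a) (e1 : ∀ k, f' k = f k)
    (e2 : a' = a) : HasSum f' a' := by
  rw [funext e1, e2]
  exact h

section Weighted

variable {w a b : ℕ → ℝ}

theorem s3_wt_mul (hw : ∀ n, 0 ≤ w n) (ha : Summable fun n => w n * a n ^ 2)
    (hb : Summable fun n => w n * b n ^ 2) : Summable fun n => w n * (a n * b n) := by
  refine Summable.of_norm_bounded (ha.add hb) fun n => ?_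
  rw [Real.norm_eq_abs, abs_mul, abs_of_nonneg (hw n), ← mul_add]
  refine mul_le_mul_of_nonneg_left ?_ (hw n)
  rw [abs_le]
  constructor <;> nlinarith [sq_nonneg (a n + b n), sq_nonneg (a n - b n), sq_nonneg (a n),
    sq_nonneg (b n)]

theorem s3_wt_add (hw : ∀ n, 0 ≤ w n) (ha : Summable fun n => w n * a n ^ 2)
    (hb : Summable fun n => w n * b n ^ 2) : Summable fun n => w n * (a n + b n) ^ 2 := by
  refine ((ha.add ((s3_wt_mul hw ha hb).mul_left 2)).add hb).congr fun n => ?_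
  ring

theorem s3_wt_expand (hw : ∀ n, 0 ≤ w n) (ha : Summable fun n => w n * a n ^ 2)
    (hb : Summable fun n => w n * b n ^ 2) (t : ℝ) :
    HasSum (fun n => w n * (t * a n + b n) ^ 2)
      ((∑' n, w n * a n ^ 2) * (t * t) + (2 * ∑' n, w n * (a n * b n)) * t
        + ∑' n, w n * b n ^ 2) := by
  have h := ((ha.hasSum.mul_right (t * t)).add
    (((s3_wt_mul hw ha hb).hasSum.mul_left 2).mul_right t)).add hb.hasSum
  exact s3_hs_congr h (fun n => by ring) rfl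

theorem s3_wt_cs (hw : ∀ n, 0 ≤ w n) (ha : Summable fun n => w n * a n ^ 2)
    (hb : Summable fun n => w n * b n ^ 2) :
    |∑' n, w n * (a n * b n)| ≤
      Real.sqrt (∑' n, w n * a n ^ 2) * Real.sqrt (∑' n, w n * b n ^ 2) := by
  have hA : 0 ≤ ∑' n, w n * a n ^ 2 := tsum_nonneg fun n => mul_nonneg (hw n) (sq_nonneg _)
  have hd := discrim_le_zero fun t =>
    (s3_wt_expand hw ha hb t).nonneg fun n => mul_nonneg (hw n) (sq_nonneg _)
  rw [← Real.sqrt_mul hA]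
  apply Real.abs_le_sqrt
  unfold discrim at hd
  nlinarith

theorem s3_wt_mink (hw : ∀ n, 0 ≤ w n) (ha : Summable fun n => w n * a n ^ 2)
    (hb : Summable fun n => w n * b n ^ 2) :
    Real.sqrt (∑' n, w n * (a n + b n) ^ 2) ≤
      Real.sqrt (∑' n, w n * a n ^ 2) + Real.sqrt (∑' n, w n * b n ^ 2) := by
  have hA : 0 ≤ ∑' n, w n * a n ^ 2 := tsum_nonneg fun n => mul_nonneg (hw n) (sq_nonneg _)
  have hB : 0 ≤ ∑' n, w n * b n ^ 2 := tsum_nonneg fun n => mul_nonneg (hw n) (sq_nonneg _)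
  have h1 := (s3_wt_expand hw ha hb 1).tsum_eq
  simp only [one_mul, mul_one] at h1
  have h2 := (abs_le.1 (s3_wt_cs hw ha hb)).2
  rw [h1]
  apply Real.sqrt_le_iff.2
  refine ⟨by positivity, ?_⟩
  nlinarith [Real.sq_sqrt hA, Real.sq_sqrt hB]

theorem s3_wt_smul (w a : ℕ → ℝ) (c : ℝ) :
    Real.sqrt (∑' n, w n * (c * a n) ^ 2) = |c| * Real.sqrt (∑' n, w n * a n ^ 2) := by
  have : (fun n => w n * (c * a n) ^ 2) = fun n => c ^ 2 * (w n * a n ^ 2) := by
    funext n; ring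
  rw [this, tsum_mul_left, Real.sqrt_mul (sq_nonneg c), Real.sqrt_sq_eq_abs]

end Weighted

theorem s3_ip_self_eq (g : ℕ → ℝ) : ip g g = ∑' k : ℕ, (k : ℝ) * g (k + 1) ^ 2 := by
  unfold ip
  simp only [sq]

theorem s3_nrm_eq (g : ℕ → ℝ) : nrm g = Real.sqrt (∑' k : ℕ, (k : ℝ) * g (k + 1) ^ 2) := by
  rw [nrm, s3_ip_self_eq]

theorem s3_hn_eq (g : ℕ → ℝ) : hn g = Real.sqrt (∑' n, (1 : ℝ) * g n ^ 2) := by
  simp only [hn, one_mul]

theorem D2.s3_tail (hg : D2 g) : Summable fun k : ℕ => ((k : ℝ) + 1) * g (k + 2) ^ 2 := by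
  have h := (summable_nat_add_iff 1).2 hg
  refine h.congr fun k => ?_
  push_cast
  rfl

theorem D2.s3_ip_tail (hg : D2 g) : ip g g = ∑' k : ℕ, ((k : ℝ) + 1) * g (k + 2) ^ 2 := by
  rw [s3_ip_self_eq, Summable.tsum_eq_zero_add hg]
  simp only [Nat.cast_zero, zero_mul, zero_add]
  refine tsum_congr fun k => ?_
  push_cast
  rfl

theorem D2.s3_tail_sq (hg : D2 g) : Summable fun k : ℕ => g (k + 2) ^ 2 := by
  refine Summable.of_nonneg_of_le (fun k => sq_nonneg _) (fun k => ?_) hg.s3_tail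
  have : (0 : ℝ) ≤ k := Nat.cast_nonneg k
  nlinarith [sq_nonneg (g (k + 2))]

theorem D2.s3_tail_sq_le (hg : D2 g) : ∑' k : ℕ, g (k + 2) ^ 2 ≤ ip g g := by
  rw [hg.s3_ip_tail]
  refine hg.s3_tail_sq.tsum_le_tsum (fun k => ?_) hg.s3_tail
  have : (0 : ℝ) ≤ k := Nat.cast_nonneg k
  nlinarith [sq_nonneg (g (k + 2))]

theorem D2.s3_summable_sq_aux (hg : D2 g) : Summable fun n => g n ^ 2 :=
  (summable_nat_add_iff 2).1 hg.s3_tail_sq

/-! ### Part 3: the forms -/

theorem D2.pow (hg : D2 g) : Pow g := by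
  refine Pow.of_bdd (Real.sqrt (∑' n, g n ^ 2)) fun n => Real.abs_le_sqrt ?_
  exact hg.s3_summable_sq_aux.le_tsum n fun m _ => sq_nonneg _

theorem D2.summable_sq (hg : D2 g) : Summable fun n => g n ^ 2 := hg.s3_summable_sq_aux

theorem D2.summable_an (hg : D2 g) : Summable fun n : ℕ => (n : ℝ) * g n ^ 2 := by
  refine (summable_nat_add_iff 1).1 ?_
  refine (Summable.add hg ((summable_nat_add_iff 1).2 hg.summable_sq)).congr fun k => ?_
  push_cast
  ring

theorem D2.add (hg : D2 g) (hh : D2 h) : D2 (g + h) :=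
  s3_wt_add (w := fun k : ℕ => (k : ℝ)) (a := fun k => g (k + 1)) (b := fun k => h (k + 1))
    (fun k => Nat.cast_nonneg k) hg hh

theorem D2.smul (hg : D2 g) (c : ℝ) : D2 (c • g) := by
  refine (Summable.mul_left (c ^ 2) hg).congr fun k => ?_
  simp only [Pi.smul_apply, smul_eq_mul]
  ring

theorem D2.sub (hg : D2 g) (hh : D2 h) : D2 (g - h) := by
  have := hg.add (hh.smul (-1))
  rwa [neg_one_smul, ← sub_eq_add_neg] at this

theorem D2.shift (hg : D2 g) : D2 (shift g) := by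
  refine Summable.of_nonneg_of_le (fun k => mul_nonneg (Nat.cast_nonneg k) (sq_nonneg _))
    (fun k => ?_) hg.s3_tail
  change (k : ℝ) * g (k + 2) ^ 2 ≤ _
  nlinarith [sq_nonneg (g (k + 2))]

theorem D2.of_eventually_zero (N : ℕ) (hg : ∀ n, N ≤ n → g n = 0) : D2 g := by
  refine summable_of_ne_finset_zero (s := Finset.range N) fun k hk => ?_
  rw [Finset.mem_range, not_lt] at hk
  rw [hg (k + 1) (by omega)]
  ring

theorem D2.single (k : ℕ) (c : ℝ) : D2 (Pi.single k c) := by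
  refine D2.of_eventually_zero (k + 1) fun n hn => ?_
  exact Pi.single_eq_of_ne (M := fun _ => ℝ) (show n ≠ k by omega) c

theorem D2.summable_ip (hg : D2 g) (hh : D2 h) :
    Summable fun k : ℕ => (k : ℝ) * (g (k + 1) * h (k + 1)) :=
  s3_wt_mul (w := fun k : ℕ => (k : ℝ)) (a := fun k => g (k + 1)) (b := fun k => h (k + 1))
    (fun k => Nat.cast_nonneg k) hg hh

theorem ip_comm (g h : ℕ → ℝ) : ip g h = ip h g := by
  unfold ip
  exact tsum_congr fun k => by ring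

theorem ip_add (hg : D2 g) (hh : D2 h) (hu : D2 u) : ip g (h + u) = ip g h + ip g u := by
  unfold ip
  rw [← (hg.summable_ip hh).tsum_add (hg.summable_ip hu)]
  exact tsum_congr fun k => by simp only [Pi.add_apply]; ring

theorem ip_sub (hg : D2 g) (hh : D2 h) (hu : D2 u) : ip g (h - u) = ip g h - ip g u := by
  unfold ip
  rw [← (hg.summable_ip hh).tsum_sub (hg.summable_ip hu)]
  exact tsum_congr fun k => by simp only [Pi.sub_apply]; ring

theorem ip_smul (c : ℝ) (g h : ℕ → ℝ) : ip g (c • h) = c * ip g h := by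
  unfold ip
  rw [← tsum_mul_left]
  exact tsum_congr fun k => by simp only [Pi.smul_apply, smul_eq_mul]; ring

theorem ip_self_nonneg (g : ℕ → ℝ) : 0 ≤ ip g g := by
  rw [s3_ip_self_eq]
  exact tsum_nonneg fun k => mul_nonneg (Nat.cast_nonneg k) (sq_nonneg _)

theorem nrm_nonneg (g : ℕ → ℝ) : 0 ≤ nrm g := Real.sqrt_nonneg _

theorem nrm_sq (g : ℕ → ℝ) : nrm g ^ 2 = ip g g := Real.sq_sqrt (ip_self_nonneg g)

theorem abs_ip_le (hg : D2 g) (hh : D2 h) : |ip g h| ≤ nrm g * nrm h := by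
  rw [s3_nrm_eq, s3_nrm_eq]
  exact s3_wt_cs (w := fun k : ℕ => (k : ℝ)) (a := fun k => g (k + 1)) (b := fun k => h (k + 1))
    (fun k => Nat.cast_nonneg k) hg hh

theorem nrm_add_le (hg : D2 g) (hh : D2 h) : nrm (g + h) ≤ nrm g + nrm h := by
  rw [s3_nrm_eq, s3_nrm_eq, s3_nrm_eq]
  exact s3_wt_mink (w := fun k : ℕ => (k : ℝ)) (a := fun k => g (k + 1)) (b := fun k => h (k + 1))
    (fun k => Nat.cast_nonneg k) hg hh

theorem nrm_smul (c : ℝ) (g : ℕ → ℝ) : nrm (c • g) = |c| * nrm g := by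
  rw [s3_nrm_eq, s3_nrm_eq]
  exact s3_wt_smul (fun k : ℕ => (k : ℝ)) (fun k => g (k + 1)) c

theorem eq_zero_of_nrm (hg : D2 g) (h0 : nrm g = 0) (n : ℕ) : g (n + 2) = 0 := by
  have h1 : ip g g = 0 := by rw [← nrm_sq, h0]; ring
  have h2 : g (n + 2) ^ 2 ≤ ∑' k : ℕ, g (k + 2) ^ 2 :=
    hg.s3_tail_sq.le_tsum n fun m _ => sq_nonneg _
  have h3 := hg.s3_tail_sq_le
  exact pow_eq_zero_iff (two_ne_zero) |>.1 (le_antisymm (by linarith) (sq_nonneg _))

theorem B_comm (g h : ℕ → ℝ) : B g h = B h g := by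
  unfold B
  rw [ip_comm, mul_comm]

theorem B_add (hg : D2 g) (hh : D2 h) (hu : D2 u) : B g (h + u) = B g h + B g u := by
  unfold B
  rw [ip_add hg hh hu, Pi.add_apply]
  ring

theorem B_sub (hg : D2 g) (hh : D2 h) (hu : D2 u) : B g (h - u) = B g h - B g u := by
  unfold B
  rw [ip_sub hg hh hu, Pi.sub_apply]
  ring

theorem B_smul (c : ℝ) (g h : ℕ → ℝ) : B g (c • h) = c * B g h := by
  unfold B
  rw [ip_smul, Pi.smul_apply, smul_eq_mul]
  ring

theorem q_add_smul (hg : D2 g) (hh : D2 h) (c : ℝ) :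
    q (g + c • h) = q g + 2 * c * B g h + c ^ 2 * q h := by
  have hc := hh.smul c
  have hs := hg.add hc
  unfold q
  rw [B_add hs hg hc, B_comm (g + c • h) g, B_comm (g + c • h) (c • h), B_add hg hg hc,
    B_add hc hg hc, B_comm (c • h) g, B_smul, B_smul, B_comm (c • h) h, B_smul]
  ring

theorem q_smul (c : ℝ) (g : ℕ → ℝ) : q (c • g) = c ^ 2 * q g := by
  unfold q
  rw [B_smul, B_comm, B_smul]
  ring

/-- The reversed Cauchy-Schwarz inequality. -/
theorem reverse_cs (hg : D2 g) (hh : D2 h) (g0 : 0 < g 0) (h0 : 0 < h 0) {a b : ℝ} (ha : 0 ≤ a)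
    (hb : 0 ≤ b) (hga : a ^ 2 ≤ q g) (hhb : b ^ 2 ≤ q h) : a * b ≤ B g h := by
  have h1 := (abs_le.1 (abs_ip_le hg hh)).2
  have hG := nrm_sq g
  have hH := nrm_sq h
  have nG := nrm_nonneg g
  have nH := nrm_nonneg h
  unfold q B at hga hhb
  unfold B
  have h2 : a ^ 2 + nrm g ^ 2 ≤ g 0 ^ 2 := by nlinarith
  have h3 : b ^ 2 + nrm h ^ 2 ≤ h 0 ^ 2 := by nlinarith
  have h4 : (a * b + nrm g * nrm h) ^ 2 ≤ (g 0 * h 0) ^ 2 := by
    calc (a * b + nrm g * nrm h) ^ 2 ≤ (a ^ 2 + nrm g ^ 2) * (b ^ 2 + nrm h ^ 2) := by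
          nlinarith [sq_nonneg (a * nrm h - b * nrm g)]
      _ ≤ g 0 ^ 2 * h 0 ^ 2 := mul_le_mul h2 h3 (by positivity) (by positivity)
      _ = (g 0 * h 0) ^ 2 := by ring
  have h5 := (sq_le_sq₀ (by positivity) (by positivity)).1 h4
  linarith

theorem hn_le (hg : D2 g) : hn g ≤ |g 0| + |g 1| + nrm g := by
  have h1 := (hg.summable_sq.sum_add_tsum_nat_add 2).symm
  simp only [Finset.sum_range_succ, Finset.sum_range_zero, zero_add] at h1
  have h2 := hg.s3_tail_sq_le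
  have nG := nrm_nonneg g
  unfold hn
  apply Real.sqrt_le_iff.2
  refine ⟨by positivity, ?_⟩
  rw [h1, ← nrm_sq] at *
  nlinarith [sq_abs (g 0), sq_abs (g 1), abs_nonneg (g 0), abs_nonneg (g 1),
    mul_nonneg (abs_nonneg (g 0)) (abs_nonneg (g 1)), mul_nonneg (abs_nonneg (g 0)) nG,
    mul_nonneg (abs_nonneg (g 1)) nG]

theorem an_le (hg : D2 g) : an g ≤ |g 1| + Real.sqrt 2 * nrm g := by
  have h1 := (hg.summable_an.sum_add_tsum_nat_add 2).symm
  simp only [Finset.sum_range_succ, Finset.sum_range_zero, zero_add, Nat.cast_zero, zero_mul,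
    Nat.cast_one, one_mul] at h1
  have h2 : ∑' k : ℕ, ((k + 2 : ℕ) : ℝ) * g (k + 2) ^ 2 = ip g g + ∑' k : ℕ, g (k + 2) ^ 2 := by
    rw [hg.s3_ip_tail, ← hg.s3_tail.tsum_add hg.s3_tail_sq]
    exact tsum_congr fun k => by push_cast; ring
  have h3 := hg.s3_tail_sq_le
  have nG := nrm_nonneg g
  have hG := nrm_sq g
  have s2 : Real.sqrt 2 ^ 2 = 2 := Real.sq_sqrt (by norm_num)
  have s0 := Real.sqrt_nonneg 2
  unfold an
  apply Real.sqrt_le_iff.2
  refine ⟨by positivity, ?_⟩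
  rw [h1, h2]
  have h4 : (Real.sqrt 2 * nrm g) ^ 2 = 2 * ip g g := by rw [mul_pow, s2, hG]
  nlinarith [sq_abs (g 1), mul_nonneg (abs_nonneg (g 1)) (mul_nonneg s0 nG)]

theorem hn_add_le (hg : D2 g) (hh : D2 h) : hn (g + h) ≤ hn g + hn h := by
  rw [s3_hn_eq, s3_hn_eq, s3_hn_eq]
  exact s3_wt_mink (w := fun _ => (1 : ℝ)) (a := g) (b := h) (fun _ => zero_le_one)
    (hg.summable_sq.mul_left 1) (hh.summable_sq.mul_left 1)

theorem an_add_le (hg : D2 g) (hh : D2 h) : an (g + h) ≤ an g + an h :=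
  s3_wt_mink (w := fun k : ℕ => (k : ℝ)) (a := g) (b := h) (fun k => Nat.cast_nonneg k)
    hg.summable_an hh.summable_an

theorem hn_smul (c : ℝ) (g : ℕ → ℝ) : hn (c • g) = |c| * hn g := by
  rw [s3_hn_eq, s3_hn_eq]
  exact s3_wt_smul (fun _ => (1 : ℝ)) g c

theorem an_smul (c : ℝ) (g : ℕ → ℝ) : an (c • g) = |c| * an g := s3_wt_smul (fun k : ℕ => (k : ℝ)) g c

theorem an_shift (g : ℕ → ℝ) : an (shift g) = nrm g := (s3_nrm_eq g).symm

theorem hn_shift_le (hg : D2 g) : hn (shift g) ≤ |g 1| + nrm g := by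
  have hs : Summable fun n => g (n + 1) ^ 2 := (summable_nat_add_iff 1).2 hg.summable_sq
  have h1 : ∑' n, g (n + 1) ^ 2 = g 1 ^ 2 + ∑' k, g (k + 2) ^ 2 := hs.tsum_eq_zero_add
  have h2 := hg.s3_tail_sq_le
  have nG := nrm_nonneg g
  have hG := nrm_sq g
  change Real.sqrt (∑' n, g (n + 1) ^ 2) ≤ _
  apply Real.sqrt_le_iff.2
  refine ⟨by positivity, ?_⟩
  rw [h1]
  nlinarith [sq_abs (g 1), mul_nonneg (abs_nonneg (g 1)) nG]

theorem hn_single (k : ℕ) (c : ℝ) : hn (Pi.single k c) = |c| := by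
  unfold hn
  rw [tsum_eq_single k fun n hn => by rw [Pi.single_eq_of_ne hn]; ring, Pi.single_eq_same,
    Real.sqrt_sq_eq_abs]

theorem an_single (k : ℕ) (c : ℝ) : an (Pi.single k c) = Real.sqrt k * |c| := by
  unfold an
  rw [tsum_eq_single k fun n hn => by rw [Pi.single_eq_of_ne hn]; ring, Pi.single_eq_same,
    Real.sqrt_mul (Nat.cast_nonneg k), Real.sqrt_sq_eq_abs]

/-- A functional given by weights `w` on the coefficients of index `≥ 2`. -/
theorem abs_tsum_le {w : ℕ → ℝ} {c : ℝ} (hg : D2 g) (hc : 0 ≤ c)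
    (hw : Summable fun k : ℕ => w k ^ 2 / (k + 1)) (hle : ∑' k : ℕ, w k ^ 2 / (k + 1) ≤ c ^ 2) :
    (Summable fun k => w k * g (k + 2)) ∧ |∑' k, w k * g (k + 2)| ≤ c * nrm g := by
  have hp : ∀ k : ℕ, (0 : ℝ) < (k : ℝ) + 1 := fun k => by positivity
  have e1 : (fun k : ℕ => ((k : ℝ) + 1) * (w k / (k + 1)) ^ 2) = fun k : ℕ => w k ^ 2 / (k + 1) := by
    funext k
    have := (hp k).ne'
    field_simp
  have e2 : (fun k : ℕ => ((k : ℝ) + 1) * (w k / (k + 1) * g (k + 2))) =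
      fun k => w k * g (k + 2) := by
    funext k
    have := (hp k).ne'
    field_simp
  have ha : Summable fun k : ℕ => ((k : ℝ) + 1) * (w k / (k + 1)) ^ 2 := by rw [e1]; exact hw
  have h1 :=
  s3_wt_mul (w := fun k : ℕ => (k : ℝ) + 1) (a := fun k => w k / (k + 1))
    (b := fun k => g (k + 2)) (fun k => (hp k).le) ha hg.s3_tail
  have h2 := s3_wt_cs (w := fun k : ℕ => (k : ℝ) + 1) (a := fun k => w k / (k + 1))
    (b := fun k => g (k + 2)) (fun k => (hp k).le) ha hg.s3_tail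
  rw [e2] at h1
  rw [e2, e1, ← hg.s3_ip_tail] at h2
  refine ⟨h1, h2.trans (mul_le_mul_of_nonneg_right ?_ (Real.sqrt_nonneg _))⟩
  exact Real.sqrt_le_iff.2 ⟨hc, hle⟩

theorem s3_abs_tsum_le_of_major {w m : ℕ → ℝ} {c S : ℝ} (hg : D2 g) (hc : 0 ≤ c)
    (hm : HasSum m S) (hS : S ≤ c ^ 2) (hw : ∀ k : ℕ, w k ^ 2 / (k + 1) ≤ m k) :
    |∑' k, w k * g (k + 2)| ≤ c * nrm g := by
  have hs : Summable fun k : ℕ => w k ^ 2 / (k + 1) :=
    Summable.of_nonneg_of_le (fun k => by positivity) hw hm.summable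
  refine (abs_tsum_le hg hc hs ?_).2
  exact ((hs.tsum_le_tsum hw hm.summable).trans hm.tsum_eq.le).trans hS

theorem s3_choose_step (n k : ℕ) : (((n + (k + 1)).choose (k + 1) : ℕ) : ℝ) =
    ((n : ℝ) + k + 1) * ((n + k).choose k : ℕ) / (k + 1) := by
  have h := Nat.add_one_mul_choose_eq (n + k) k
  have h' : (((n + k + 1) * (n + k).choose k : ℕ) : ℝ) =
      (((n + k + 1).choose (k + 1) * (k + 1) : ℕ) : ℝ) := by rw [h]
  push_cast at h'
  rw [eq_div_iff (by positivity), ← add_assoc]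
  linarith

theorem s3_hasSum_ch {y : ℝ} (h0 : 0 ≤ y) (h1 : y < 1) (k : ℕ) :
    HasSum (fun n : ℕ => (((n + k).choose k : ℕ) : ℝ) * y ^ n) (1 / (1 - y) ^ (k + 1)) :=
  hasSum_choose_mul_geometric_of_norm_lt_one k (by rwa [Real.norm_eq_abs, abs_of_nonneg h0])

theorem s3_ch1 (n : ℕ) : (((n + 1).choose 1 : ℕ) : ℝ) = n + 1 := by simp

theorem s3_ch2 (n : ℕ) : (((n + 2).choose 2 : ℕ) : ℝ) = (n + 2) * (n + 1) / 2 := by
  have := s3_choose_step n 1
  rw [s3_ch1] at this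
  rw [show n + 2 = n + (1 + 1) from rfl, show (2 : ℕ) = 1 + 1 from rfl, this]
  push_cast; ring

theorem s3_ch3 (n : ℕ) : (((n + 3).choose 3 : ℕ) : ℝ) = (n + 3) * (n + 2) * (n + 1) / 6 := by
  have := s3_choose_step n 2
  rw [s3_ch2] at this
  rw [show n + 3 = n + (2 + 1) from rfl, show (3 : ℕ) = 2 + 1 from rfl, this]
  push_cast; ring

theorem s3_ch4 (n : ℕ) :
    (((n + 4).choose 4 : ℕ) : ℝ) = (n + 4) * (n + 3) * (n + 2) * (n + 1) / 24 := by
  have := s3_choose_step n 3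
  rw [s3_ch3] at this
  rw [show n + 4 = n + (3 + 1) from rfl, show (4 : ℕ) = 3 + 1 from rfl, this]
  push_cast; ring

theorem s3_ch5 (n : ℕ) :
    (((n + 5).choose 5 : ℕ) : ℝ) = (n + 5) * (n + 4) * (n + 3) * (n + 2) * (n + 1) / 120 := by
  have := s3_choose_step n 4
  rw [s3_ch4] at this
  rw [show n + 5 = n + (4 + 1) from rfl, show (5 : ℕ) = 4 + 1 from rfl, this]
  push_cast; ring

theorem s3_hasSum_c2_aux {y : ℝ} (h0 : 0 ≤ y) (h1 : y < 1) :
    HasSum (fun k : ℕ => ((k : ℝ) + 2) ^ 2 * (k + 1) * y ^ k) ((4 + 2 * y) / (1 - y) ^ 4) := by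
  have h := ((s3_hasSum_ch h0 h1 3).mul_left 6).sub ((s3_hasSum_ch h0 h1 2).mul_left 2)
  have hy : 1 - y ≠ 0 := by linarith
  refine s3_hs_congr h (fun k => ?_) ?_
  · rw [s3_ch3, s3_ch2]; ring
  · field_simp
    ring

theorem s3_hasSum_c3 {y : ℝ} (h0 : 0 ≤ y) (h1 : y < 1) :
    HasSum (fun k : ℕ => ((k : ℝ) + 3) ^ 2 * (k + 2) * (k + 1) ^ 2 * y ^ k)
      (120 / (1 - y) ^ 6 - 120 / (1 - y) ^ 5 + 18 / (1 - y) ^ 4) := by
  have h := (((s3_hasSum_ch h0 h1 5).mul_left 120).sub ((s3_hasSum_ch h0 h1 4).mul_left 120)).add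
    ((s3_hasSum_ch h0 h1 3).mul_left 18)
  refine s3_hs_congr h (fun k => ?_) ?_
  · rw [s3_ch5, s3_ch4, s3_ch3]; ring
  · ring

theorem s3_hasSum_tail1_aux {y : ℝ} (h0 : 0 ≤ y) (h1 : y < 1) (N : ℕ) :
    HasSum (fun k : ℕ => ((k : ℝ) + N + 1) * y ^ (k + N))
      (y ^ N * (N + 1 - N * y) / (1 - y) ^ 2) := by
  have h := ((s3_hasSum_ch h0 h1 1).add ((s3_hasSum_ch h0 h1 0).mul_left (N : ℝ))).mul_left (y ^ N)
  have hy : 1 - y ≠ 0 := by linarith
  refine s3_hs_congr h (fun k => ?_) ?_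
  · rw [s3_ch1, Nat.choose_zero_right]; push_cast; ring
  · field_simp
    ring

theorem s3_pow_sq_le {x b : ℝ} (hx : |x| ≤ b) (k : ℕ) : (x ^ k) ^ 2 ≤ (b ^ 2) ^ k := by
  rw [← pow_mul, mul_comm, pow_mul, ← sq_abs x]
  exact pow_le_pow_left₀ (sq_nonneg _) (pow_le_pow_left₀ (abs_nonneg x) hx 2) k

theorem bound_d0 (hg : D2 g) {x b c : ℝ} (hx : |x| ≤ b) (hb : b < 1) (hc : 0 ≤ c)
    (hle : b ^ 4 * (1 + b ^ 2 / 2 + b ^ 4 / (3 * (1 - b ^ 2))) ≤ c ^ 2) :
    |rv g x - g 0 - g 1 * x| ≤ c * nrm g := by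
  have hb0 : 0 ≤ b := (abs_nonneg x).trans hx
  have hy0 : 0 ≤ b ^ 2 := sq_nonneg b
  have hy1 : b ^ 2 < 1 := by nlinarith
  have hs := hg.pow.summable_rv (hx.trans_lt hb)
  have h1 := (hs.sum_add_tsum_nat_add 2).symm
  simp only [Finset.sum_range_succ, Finset.sum_range_zero, zero_add, pow_zero, mul_one,
    pow_one] at h1
  have e : rv g x - g 0 - g 1 * x = ∑' k, x ^ (k + 2) * g (k + 2) := by
    unfold rv
    rw [h1, tsum_congr fun k => mul_comm (x ^ (k + 2)) (g (k + 2))]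
    ring
  rw [e]
  let m : ℕ → ℝ := fun k => (b ^ 2) ^ (k + 2) / min ((k : ℝ) + 1) 3
  have hm : HasSum m (b ^ 4 * (1 + b ^ 2 / 2 + b ^ 4 / (3 * (1 - b ^ 2)))) := by
    rw [← hasSum_nat_add_iff' 2]
    have h := (hasSum_geometric_of_lt_one hy0 hy1).mul_left ((b ^ 2) ^ 4 / 3)
    have hy : 1 - b ^ 2 ≠ 0 := by linarith
    refine s3_hs_congr h (fun k => ?_) ?_
    · have hk : (3 : ℝ) ≤ ((k + 2 : ℕ) : ℝ) + 1 := by
        push_cast
        linarith [(Nat.cast_nonneg k : (0 : ℝ) ≤ k)]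
      simp only [m, min_eq_right hk]
      ring
    · simp only [m, Finset.sum_range_succ, Finset.sum_range_zero]
      norm_num
      field_simp
      ring
  refine s3_abs_tsum_le_of_major hg hc hm hle fun k => ?_
  refine div_le_div₀ (by positivity) (s3_pow_sq_le hx _) ?_ (min_le_left _ _)
  exact lt_min (by positivity) (by norm_num)

theorem bound_d1 (hg : D2 g) {x b c : ℝ} (hx : |x| ≤ b) (hb : b < 1) (hc : 0 ≤ c)
    (hle : 2 * (1 / (1 - b ^ 2) ^ 2 - 1) ≤ c ^ 2) : |rv (der g) x - g 1| ≤ c * nrm g := by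
  have hb0 : 0 ≤ b := (abs_nonneg x).trans hx
  have hy0 : 0 ≤ b ^ 2 := sq_nonneg b
  have hy1 : b ^ 2 < 1 := by nlinarith
  have hs := hg.pow.der.summable_rv (hx.trans_lt hb)
  have e : rv (der g) x - g 1 = ∑' k : ℕ, (((k : ℝ) + 2) * x ^ (k + 1)) * g (k + 2) := by
    unfold rv
    rw [hs.tsum_eq_zero_add]
    have : ∑' k : ℕ, der g (k + 1) * x ^ (k + 1) =
        ∑' k : ℕ, (((k : ℝ) + 2) * x ^ (k + 1)) * g (k + 2) :=
      tsum_congr fun k => by unfold der; push_cast; ring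
    rw [this]
    simp [der]
  rw [e]
  have hy : 1 - b ^ 2 ≠ 0 := by linarith
  refine s3_abs_tsum_le_of_major hg hc ((s3_hasSum_tail1_aux hy0 hy1 1).mul_left 2)
    (le_of_eq_of_le ?_ hle) fun k => ?_
  · field_simp
    push_cast
    ring
  · have hk : (0 : ℝ) ≤ k := Nat.cast_nonneg k
    have h2 := s3_pow_sq_le hx (k + 1)
    have h3 : 0 ≤ (b ^ 2) ^ (k + 1) := by positivity
    rw [div_le_iff₀ (by positivity), mul_pow]
    push_cast
    calc ((k : ℝ) + 2) ^ 2 * (x ^ (k + 1)) ^ 2 ≤ ((k : ℝ) + 2) ^ 2 * (b ^ 2) ^ (k + 1) :=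
          mul_le_mul_of_nonneg_left h2 (sq_nonneg _)
      _ ≤ (2 * ((k : ℝ) + 2) * (k + 1)) * (b ^ 2) ^ (k + 1) :=
          mul_le_mul_of_nonneg_right (by nlinarith) h3
      _ = _ := by ring

theorem bound_d2 (hg : D2 g) {x b c : ℝ} (hx : |x| ≤ b) (hb : b < 1) (hc : 0 ≤ c)
    (hle : (4 + 2 * b ^ 2) / (1 - b ^ 2) ^ 4 ≤ c ^ 2) : |rv (der (der g)) x| ≤ c * nrm g := by
  have hb0 : 0 ≤ b := (abs_nonneg x).trans hx
  have hy0 : 0 ≤ b ^ 2 := sq_nonneg b
  have hy1 : b ^ 2 < 1 := by nlinarith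
  have e : rv (der (der g)) x = ∑' k : ℕ, (((k : ℝ) + 1) * (k + 2) * x ^ k) * g (k + 2) := by
    unfold rv
    exact tsum_congr fun k => by unfold der; push_cast; ring
  rw [e]
  refine s3_abs_tsum_le_of_major hg hc (s3_hasSum_c2_aux hy0 hy1) hle fun k => ?_
  have h2 := s3_pow_sq_le hx k
  rw [div_le_iff₀ (by positivity), mul_pow]
  calc (((k : ℝ) + 1) * (k + 2)) ^ 2 * (x ^ k) ^ 2 ≤ (((k : ℝ) + 1) * (k + 2)) ^ 2 * (b ^ 2) ^ k :=
        mul_le_mul_of_nonneg_left h2 (sq_nonneg _)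
    _ = _ := by ring

theorem bound_d3 (hg : D2 g) {x b c : ℝ} (hx : |x| ≤ b) (hb : b < 1) (hc : 0 ≤ c)
    (hle : 120 / (1 - b ^ 2) ^ 6 - 120 / (1 - b ^ 2) ^ 5 + 18 / (1 - b ^ 2) ^ 4 ≤ c ^ 2) :
    |rv (der (der (der g))) x| ≤ c * nrm g := by
  have hb0 : 0 ≤ b := (abs_nonneg x).trans hx
  have hy0 : 0 ≤ b ^ 2 := sq_nonneg b
  have hy1 : b ^ 2 < 1 := by nlinarith
  have hs := hg.pow.der.der.der.summable_rv (hx.trans_lt hb)
  have e0 : (fun k : ℕ => der (der (der g)) k * x ^ k) = fun k : ℕ =>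
      (((k + 1 : ℕ) : ℝ) * ((k + 1 : ℕ) + 1) * ((k + 1 : ℕ) + 2) * x ^ (k + 1 - 1)) *
        g (k + 1 + 2) := by
    funext k
    unfold der
    rw [Nat.add_sub_cancel]
    push_cast
    ring
  have hs' : Summable fun k : ℕ => ((k : ℝ) * (k + 1) * (k + 2) * x ^ (k - 1)) * g (k + 2) := by
    refine (summable_nat_add_iff 1).1 ?_
    rw [e0] at hs
    exact hs
  have e : rv (der (der (der g))) x =
      ∑' k : ℕ, ((k : ℝ) * (k + 1) * (k + 2) * x ^ (k - 1)) * g (k + 2) := by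
    unfold rv
    rw [hs'.tsum_eq_zero_add, e0]
    simp only [Nat.cast_zero, zero_mul, zero_add]
  rw [e]
  have hm : HasSum (fun k : ℕ => ((k : ℝ) + 2) ^ 2 * (k + 1) * k ^ 2 * (b ^ 2) ^ (k - 1))
      (120 / (1 - b ^ 2) ^ 6 - 120 / (1 - b ^ 2) ^ 5 + 18 / (1 - b ^ 2) ^ 4) := by
    rw [← hasSum_nat_add_iff' 1]
    refine s3_hs_congr (s3_hasSum_c3 hy0 hy1) (fun k => ?_) ?_
    · rw [Nat.add_sub_cancel]
      push_cast
      ring
    · simp
  refine s3_abs_tsum_le_of_major hg hc hm hle fun k => ?_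
  have h2 := s3_pow_sq_le hx (k - 1)
  rw [div_le_iff₀ (by positivity), mul_pow]
  calc ((k : ℝ) * (k + 1) * (k + 2)) ^ 2 * (x ^ (k - 1)) ^ 2
      ≤ ((k : ℝ) * (k + 1) * (k + 2)) ^ 2 * (b ^ 2) ^ (k - 1) :=
        mul_le_mul_of_nonneg_left h2 (sq_nonneg _)
    _ = _ := by ring

theorem hasSum_c2 {y : ℝ} (h0 : 0 ≤ y) (h1 : y < 1) :
    HasSum (fun k : ℕ => ((k : ℝ) + 2) ^ 2 * (k + 1) * y ^ k) ((4 + 2 * y) / (1 - y) ^ 4) :=   s3_hasSum_c2_aux h0 h1

theorem hasSum_tail1 {y : ℝ} (h0 : 0 ≤ y) (h1 : y < 1) (N : ℕ) :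
    HasSum (fun k : ℕ => ((k : ℝ) + N + 1) * y ^ (k + N))
      (y ^ N * (N + 1 - N * y) / (1 - y) ^ 2) := s3_hasSum_tail1_aux h0 h1 N

theorem kap_hasDerivAt {x : ℝ} (hx : x < 1) : HasDerivAt kap (kap1 x) x := by
  have hy : 1 - x ≠ 0 := by linarith
  have h1 : HasDerivAt (fun x : ℝ => 1 + x) 1 x := (hasDerivAt_id x).const_add 1
  have h2 : HasDerivAt (fun x : ℝ => 4 * (1 - x)) (4 * -1) x :=
    ((hasDerivAt_id x).const_sub 1).const_mul 4
  have h := h1.div h2 (mul_ne_zero (by norm_num) hy)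
  refine h.congr_deriv ?_
  unfold kap1
  field_simp
  ring

theorem kap1_hasDerivAt {x : ℝ} (hx : x < 1) : HasDerivAt kap1 (kap2 x) x := by
  have hy : 1 - x ≠ 0 := by linarith
  have h2 : HasDerivAt (fun x : ℝ => 2 * (1 - x) ^ 2) (2 * (2 * (1 - x) * -1)) x := by
    have := (((hasDerivAt_id x).const_sub 1).pow 2).const_mul 2
    refine this.congr_deriv ?_
    simp
  have h := (hasDerivAt_const x (1 : ℝ)).div h2 (mul_ne_zero (by norm_num) (pow_ne_zero 2 hy))
  refine h.congr_deriv ?_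
  unfold kap2
  field_simp
  ring

end Pool.Agent.Lib.MP_9b2593_an.Uq
end
end

-- part Pool.Agent.Lib.MP_9b2593_an.Uq.Seq2
section

/-!
Power series with real coefficients: calculus, Parseval, multipliers, the forms `ip` and `B`.
-/

open Complex Metric Set MeasureTheory

noncomputable section

namespace Pool.Agent.Lib.MP_9b2593_an.Uq

variable {g h u : ℕ → ℝ}

/-! ### Part 2: Parseval and multipliers -/

theorem seq2_termwise {a : ℕ → ℝ} (ha : Summable fun n => |a n|) {e : ℕ → ℝ → ℂ}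
    (he : ∀ n, Continuous (e n)) {M : ℝ} (hM : ∀ n θ, ‖e n θ‖ ≤ M) :
    HasSum (fun n => (a n : ℂ) * ∫ θ in (0 : ℝ)..2 * Real.pi, e n θ)
      (∫ θ in (0 : ℝ)..2 * Real.pi, ∑' n, (a n : ℂ) * e n θ) := by
  have hb : ∀ n θ, ‖(a n : ℂ) * e n θ‖ ≤ |a n| * M := fun n θ => by
    rw [norm_mul, Complex.norm_real, Real.norm_eq_abs]
    exact mul_le_mul_of_nonneg_left (hM n θ) (abs_nonneg _)
  simp only [← intervalIntegral.integral_const_mul]
  refine intervalIntegral.hasSum_integral_of_dominated_convergence (fun n _ => |a n| * M)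
    (fun n => (continuous_const.mul (he n)).aestronglyMeasurable)
    (fun n => Filter.Eventually.of_forall fun θ _ => hb n θ)
    (Filter.Eventually.of_forall fun θ _ => ha.mul_right M) intervalIntegrable_const
    (Filter.Eventually.of_forall fun θ _ => ?_)
  exact (Summable.of_norm_bounded (ha.mul_right M) fun n => hb n θ).hasSum

theorem seq2_orth (m n : ℕ) :
    ∫ θ in (0 : ℝ)..2 * Real.pi, exp (θ * I) ^ m * exp (-(θ * I)) ^ n =
      if m = n then ((2 * Real.pi : ℝ) : ℂ) else 0 := by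
  have h1 : ∀ θ : ℝ, exp (θ * I) ^ m * exp (-(θ * I)) ^ n = exp ((((m : ℤ) - n : ℤ) : ℂ) * I * θ) :=
    fun θ => by
      rw [← Complex.exp_nat_mul, ← Complex.exp_nat_mul, ← Complex.exp_add]
      congr 1
      push_cast
      ring
  simp only [h1]
  split_ifs with hmn
  · subst hmn
    simp
  · have h2 : (((m : ℤ) - n : ℤ) : ℂ) * I ≠ 0 :=
      mul_ne_zero (Int.cast_ne_zero.2 (sub_ne_zero.2 (by exact_mod_cast hmn))) I_ne_zero
    rw [integral_exp_mul_complex h2]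
    have h3 := Complex.exp_int_mul_two_pi_mul_I ((m : ℤ) - n)
    have h4 : (((m : ℤ) - n : ℤ) : ℂ) * I * ((2 * Real.pi : ℝ) : ℂ) =
        (((m : ℤ) - n : ℤ) : ℂ) * (2 * Real.pi * I) := by
      push_cast
      ring
    rw [h4, h3]
    simp

theorem seq2_parseval {a : ℕ → ℝ} (ha : Summable fun n => |a n|) :
    HasSum (fun n => a n ^ 2) ((2 * Real.pi)⁻¹ *
      ∫ θ in (0 : ℝ)..2 * Real.pi, ‖∑' n, (a n : ℂ) * exp (θ * I) ^ n‖ ^ 2) := by
  obtain ⟨G, hG⟩ : ∃ G : ℝ → ℂ, G = fun θ : ℝ => ∑' n, (a n : ℂ) * exp (θ * I) ^ n := ⟨_, rfl⟩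
  have n1 : ∀ (θ : ℝ) (n : ℕ), ‖exp (θ * I) ^ n‖ = 1 := fun θ n => by
    rw [norm_pow, Complex.norm_exp_ofReal_mul_I, one_pow]
  have n2 : ∀ (θ : ℝ) (n : ℕ), ‖exp (-(θ * I)) ^ n‖ = 1 := fun θ n => by
    rw [Complex.exp_neg, inv_pow, norm_inv, n1, inv_one]
  have n3 : ∀ (n : ℕ) (θ : ℝ), ‖(a n : ℂ) * exp (θ * I) ^ n‖ ≤ |a n| := fun n θ => by
    rw [norm_mul, n1, mul_one, Complex.norm_real, Real.norm_eq_abs]
  have hc : Continuous G := hG ▸ continuous_tsum (fun n => by fun_prop) ha n3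
  have hb : ∀ θ, ‖G θ‖ ≤ ∑' n, |a n| := fun θ =>
    hG ▸ tsum_of_norm_bounded ha.hasSum fun n => n3 n θ
  have h1 : ∀ n : ℕ, ∫ θ in (0 : ℝ)..2 * Real.pi, exp (-(θ * I)) ^ n * G θ =
      (a n : ℂ) * ((2 * Real.pi : ℝ) : ℂ) := fun n => by
    have h2 := seq2_termwise ha (e := fun m θ => exp (θ * I) ^ m * exp (-(θ * I)) ^ n)
      (fun m => by fun_prop) (M := 1) fun m θ => by rw [norm_mul, n1, n2, mul_one]
    simp only [seq2_orth, ← mul_assoc, tsum_mul_right, mul_ite, mul_zero] at h2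
    have h3 := hasSum_single
      (f := fun m => if m = n then (a m : ℂ) * ((2 * Real.pi : ℝ) : ℂ) else 0) n
      fun m hm => if_neg hm
    rw [← if_pos (rfl : n = n) (t := (a n : ℂ) * ((2 * Real.pi : ℝ) : ℂ)) (e := 0),
      ← h2.unique h3]
    simp only [hG, mul_comm]
  have h4 := seq2_termwise ha (e := fun n θ => exp (-(θ * I)) ^ n * G θ)
    (fun m => by fun_prop) (M := ∑' n, |a n|) fun m θ => by
      rw [norm_mul, n2, one_mul]; exact hb θ
  have h5 : ∀ θ : ℝ, ∑' n, (a n : ℂ) * (exp (-(θ * I)) ^ n * G θ) = ((‖G θ‖ ^ 2 : ℝ) : ℂ) :=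
    fun θ => by
      simp only [← mul_assoc, tsum_mul_right]
      rw [Complex.ofReal_pow, ← Complex.conj_mul']
      congr 1
      rw [hG, Complex.conj_tsum]
      refine tsum_congr fun n => ?_
      rw [map_mul, map_pow, ← Complex.exp_conj, Complex.conj_ofReal, map_mul, Complex.conj_ofReal,
        Complex.conj_I, mul_neg]
  simp only [h1, h5, intervalIntegral.integral_ofReal, ← Complex.ofReal_mul] at h4
  have h6 := (Complex.hasSum_ofReal.1 h4).mul_left (2 * Real.pi)⁻¹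
  rw [hG] at h6
  have h7 : ∀ n, (2 * Real.pi)⁻¹ * (a n * (a n * (2 * Real.pi))) = a n ^ 2 := fun n => by
    have := Real.pi_pos
    field_simp
  simpa only [h7] using h6

theorem parseval (hg : Pow g) {r : ℝ} (h0 : 0 ≤ r) (h1 : r < 1) :
    HasSum (fun n => g n ^ 2 * r ^ (2 * n))
      ((2 * Real.pi)⁻¹ * ∫ θ in (0 : ℝ)..2 * Real.pi, ‖ev g (circleMap 0 r θ)‖ ^ 2) := by
  have h2 := seq2_parseval (a := fun n => g n * r ^ n) ((hg r h0 h1).congr fun n => by
    rw [abs_mul, abs_of_nonneg (pow_nonneg h0 n)])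
  simp only [mul_pow, ← pow_mul, mul_comm _ 2] at h2
  simpa only [ev, circleMap, zero_add, mul_pow, Complex.ofReal_mul, Complex.ofReal_pow,
    mul_assoc] using h2

theorem seq2_fin (hg : Schur g) (u : ℕ → ℝ) (N : ℕ) {y : ℝ} (hy : y ∈ Icc (0 : ℝ) 1) :
    ∑ n ∈ Finset.range N, cmul g u n ^ 2 * y ^ n ≤ ∑ n ∈ Finset.range N, u n ^ 2 * y ^ n := by
  rw [← closure_Ico zero_ne_one] at hy
  refine le_on_closure (f := fun y : ℝ => ∑ n ∈ Finset.range N, cmul g u n ^ 2 * y ^ n)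
    (g := fun y : ℝ => ∑ n ∈ Finset.range N, u n ^ 2 * y ^ n) (fun y hy => ?_)
    (Continuous.continuousOn (by fun_prop)) (Continuous.continuousOn (by fun_prop)) hy
  obtain ⟨v, hv⟩ : ∃ v : ℕ → ℝ, v = fun n => if n < N then u n else 0 := ⟨_, rfl⟩
  have hv1 : ∀ n < N, v n = u n := fun n hn => by simp [hv, hn]
  have hv2 : ∀ n ∉ Finset.range N, v n = 0 := fun n hn => by
    simp only [hv, if_neg (mt Finset.mem_range.2 hn)]
  have hp : Pow v := fun r _ _ => summable_of_ne_finset_zero (s := Finset.range N) fun n hn => by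
    rw [hv2 n hn, abs_zero, zero_mul]
  have r0 := Real.sqrt_nonneg y
  have r1 : √y < 1 := (Real.sqrt_lt' one_pos).2 (by simpa using hy.2)
  have h1 := parseval (hg.1.cmul hp) r0 r1
  have h2 := parseval hp r0 r1
  simp only [pow_mul, Real.sq_sqrt hy.1] at h1 h2
  have hs : ∀ θ, ‖circleMap 0 √y θ‖ < 1 := fun θ => by
    rwa [norm_circleMap_zero, abs_of_nonneg r0]
  have hc : ∀ w, Pow w → Continuous fun θ => ‖ev w (circleMap 0 √y θ)‖ ^ 2 := fun w hw =>
    (((differentiableOn_ev hw).continuousOn.comp_continuous (continuous_circleMap 0 _)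
      fun θ => mem_ball_zero_iff.2 (hs θ)).norm).pow 2
  have h3 := intervalIntegral.integral_mono_on (μ := volume) (a := 0) (b := 2 * Real.pi)
    (by positivity) ((hc _ (hg.1.cmul hp)).intervalIntegrable _ _)
    ((hc _ hp).intervalIntegrable _ _) fun θ _ => by
      rw [ev_cmul hg.1 hp (hs θ), norm_mul]
      exact pow_le_pow_left₀ (by positivity)
        (mul_le_of_le_one_left (norm_nonneg _) (hg.2 _ (hs θ))) 2
  have h4 := sum_le_hasSum (Finset.range N)
    (fun n _ => mul_nonneg (sq_nonneg _) (pow_nonneg hy.1 n)) h1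
  have h5 := h2.unique (hasSum_sum_of_ne_finset_zero (s := Finset.range N) fun n hn => by
    rw [hv2 n hn]; simp)
  have h6 := mul_le_mul_of_nonneg_left h3 (by positivity : 0 ≤ (2 * Real.pi)⁻¹)
  calc _ = ∑ n ∈ Finset.range N, cmul g v n ^ 2 * y ^ n := by
        refine Finset.sum_congr rfl fun n hn => ?_
        congr 2
        refine Finset.sum_congr rfl fun p hp => ?_
        have := Finset.HasAntidiagonal.mem_antidiagonal.1 hp
        rw [hv1 p.2 (by have := Finset.mem_range.1 hn; omega)]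
    _ ≤ ∑ n ∈ Finset.range N, v n ^ 2 * y ^ n := h4.trans (h6.trans_eq h5)
    _ = _ := Finset.sum_congr rfl fun n hn => by rw [hv1 n (Finset.mem_range.1 hn)]

theorem Schur.cmul_hardy (hg : Schur g) (hu : Summable fun n => u n ^ 2) :
    (Summable fun n => cmul g u n ^ 2) ∧ ∑' n, cmul g u n ^ 2 ≤ ∑' n, u n ^ 2 := by
  have h1 : ∀ N, ∑ n ∈ Finset.range N, cmul g u n ^ 2 ≤ ∑' n, u n ^ 2 := fun N => by
    have h2 := seq2_fin hg u N (y := 1) ⟨zero_le_one, le_rfl⟩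
    simp only [one_pow, mul_one] at h2
    exact h2.trans (hu.sum_le_tsum _ fun n _ => sq_nonneg _)
  exact ⟨summable_of_sum_range_le (fun n => sq_nonneg _) h1,
    Real.tsum_le_of_sum_range_le (fun n => sq_nonneg _) h1⟩

theorem seq2_one (hg : Schur g) : (Summable fun n => g n ^ 2) ∧ ∑' n, g n ^ 2 ≤ 1 := by
  have h1 : cmul g (Pi.single 0 1) = g := funext fun n => by
    unfold cmul
    rw [Finset.sum_eq_single (n, 0)]
    · simp
    · intro p hp hne
      have := Finset.HasAntidiagonal.mem_antidiagonal.1 hp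
      rw [Pi.single_eq_of_ne (fun h0 => hne (Prod.ext (by omega) h0)), mul_zero]
    · intro hn
      exact (hn (Finset.HasAntidiagonal.mem_antidiagonal.2 (add_zero n))).elim
  have h2 : HasSum (fun n : ℕ => (Pi.single 0 1 : ℕ → ℝ) n ^ 2) 1 := by
    have h3 := hasSum_single (f := fun n : ℕ => (Pi.single 0 1 : ℕ → ℝ) n ^ 2) 0
      fun n hn => by simp [hn]
    simpa using h3
  have h3 := hg.cmul_hardy h2.summable
  rwa [h1, h2.tsum_eq] at h3

theorem Schur.summable_sq (hg : Schur g) : Summable fun n => g n ^ 2 := (seq2_one hg).1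

theorem Schur.tsum_sq_le (hg : Schur g) : ∑' n, g n ^ 2 ≤ 1 := (seq2_one hg).2

theorem Schur.abs_le (hg : Schur g) (n : ℕ) : |g n| ≤ 1 :=
  (sq_le_one_iff_abs_le_one _).1
    ((hg.summable_sq.le_tsum n fun _ _ => sq_nonneg _).trans hg.tsum_sq_le)

theorem Schur.cmul_bergman (hg : Schur g) (hu : Summable fun n : ℕ => u n ^ 2 / (n + 1)) :
    (Summable fun n : ℕ => cmul g u n ^ 2 / (n + 1)) ∧
      ∑' n : ℕ, cmul g u n ^ 2 / (n + 1) ≤ ∑' n : ℕ, u n ^ 2 / (n + 1) := by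
  have h0 : ∀ (c : ℕ → ℝ) (N : ℕ), ∫ y in (0 : ℝ)..1, ∑ n ∈ Finset.range N, c n ^ 2 * y ^ n =
      ∑ n ∈ Finset.range N, c n ^ 2 / (n + 1) := fun c N => by
    rw [intervalIntegral.integral_finsetSum fun n _ =>
      Continuous.intervalIntegrable (by fun_prop) _ _]
    refine Finset.sum_congr rfl fun n _ => ?_
    rw [intervalIntegral.integral_const_mul, integral_pow]
    simp [div_eq_mul_inv]
  have h1 : ∀ N, ∑ n ∈ Finset.range N, cmul g u n ^ 2 / (n + 1) ≤
      ∑' n : ℕ, u n ^ 2 / (n + 1) := fun N => by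
    refine le_trans ?_ (hu.sum_le_tsum (Finset.range N) fun n _ => by positivity)
    rw [← h0, ← h0]
    exact intervalIntegral.integral_mono_on zero_le_one
      (Continuous.intervalIntegrable (by fun_prop) _ _)
      (Continuous.intervalIntegrable (by fun_prop) _ _) fun y hy => seq2_fin hg u N hy
  exact ⟨summable_of_sum_range_le (fun n => by positivity) h1,
    Real.tsum_le_of_sum_range_le (fun n => by positivity) h1⟩

theorem carleman (hh : Summable fun n => h n ^ 2) (hu : Summable fun n => u n ^ 2) :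
    (Summable fun n : ℕ => cmul h u n ^ 2 / (n + 1)) ∧
      ∑' n : ℕ, cmul h u n ^ 2 / (n + 1) ≤ (∑' n, h n ^ 2) * ∑' n, u n ^ 2 := by
  have h1 := (summable_norm_sum_mul_antidiagonal_of_summable_norm hh.norm hu.norm).of_norm
  have h2 := tsum_mul_tsum_eq_tsum_sum_antidiagonal_of_summable_norm hh.norm hu.norm
  have h3 : ∀ n : ℕ, cmul h u n ^ 2 / (n + 1) ≤
      ∑ p ∈ Finset.HasAntidiagonal.antidiagonal n, h p.1 ^ 2 * u p.2 ^ 2 := fun n => by
    have h4 := sq_sum_le_card_mul_sum_sq (s := Finset.HasAntidiagonal.antidiagonal n)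
      (f := fun p : ℕ × ℕ => h p.1 * u p.2)
    rw [Finset.Nat.card_antidiagonal] at h4
    simp only [mul_pow, Nat.cast_add, Nat.cast_one] at h4
    rw [div_le_iff₀ (by positivity), mul_comm]
    exact h4
  have h5 := Summable.of_nonneg_of_le (fun n => by positivity) h3 h1
  exact ⟨h5, h2 ▸ h5.tsum_le_tsum h3 h1⟩

theorem seq2_minkowski {a b : ℕ → ℝ} (ha : Summable fun n : ℕ => a n ^ 2 / (n + 1))
    (hb : Summable fun n : ℕ => b n ^ 2 / (n + 1)) (N : ℕ) :
    ∑ n ∈ Finset.range N, (a n + b n) ^ 2 / (n + 1) ≤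
      (√(∑' n : ℕ, a n ^ 2 / (n + 1)) + √(∑' n : ℕ, b n ^ 2 / (n + 1))) ^ 2 := by
  have h1 := ha.sum_le_tsum (Finset.range N) fun n _ => by positivity
  have h2 := hb.sum_le_tsum (Finset.range N) fun n _ => by positivity
  have h3 := Real.sum_mul_le_sqrt_mul_sqrt (Finset.range N) (fun n : ℕ => a n / √(n + 1))
    fun n : ℕ => b n / √(n + 1)
  have h4 : ∀ n : ℕ, √((n : ℝ) + 1) ^ 2 = n + 1 := fun n => Real.sq_sqrt (by positivity)
  simp only [div_pow, div_mul_div_comm, ← sq, h4] at h3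
  have h5 := h3.trans (mul_le_mul (Real.sqrt_le_sqrt h1) (Real.sqrt_le_sqrt h2)
    (Real.sqrt_nonneg _) (Real.sqrt_nonneg _))
  have h6 : ∑ n ∈ Finset.range N, (a n + b n) ^ 2 / (n + 1) =
      ∑ n ∈ Finset.range N, a n ^ 2 / (n + 1) + 2 * ∑ n ∈ Finset.range N, a n * b n / (n + 1) +
        ∑ n ∈ Finset.range N, b n ^ 2 / (n + 1) := by
    rw [Finset.mul_sum, ← Finset.sum_add_distrib, ← Finset.sum_add_distrib]
    exact Finset.sum_congr rfl fun n _ => by ring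
  rw [h6, add_sq, Real.sq_sqrt (tsum_nonneg fun n => by positivity),
    Real.sq_sqrt (tsum_nonneg fun n => by positivity)]
  linarith

theorem Schur.d2_cmul (hg : Schur g) (hg' : Summable fun n => der g n ^ 2) (hu : D2 u) :
    D2 (cmul g u) ∧ nrm (cmul g u) ≤ an u + hn (der g) * hn u := by
  have e1 : ∀ (w : ℕ → ℝ) (n : ℕ), der w n ^ 2 / (n + 1) = ((n + 1 : ℕ) : ℝ) * w (n + 1) ^ 2 :=
    fun w n => by
      unfold der
      push_cast
      field_simp
  have h1 := (summable_nat_add_iff 1).2 hu.summable_an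
  have h2 : ∑' n : ℕ, der u n ^ 2 / (n + 1) = ∑' n : ℕ, (n : ℝ) * u n ^ 2 := by
    rw [hu.summable_an.tsum_eq_zero_add]
    simp only [e1, Nat.cast_zero, zero_mul, zero_add]
  obtain ⟨a1, a2⟩ := carleman hg' hu.summable_sq
  obtain ⟨b1, b2⟩ := hg.cmul_bergman (u := der u) (h1.congr fun n => (e1 u n).symm)
  have h3 : √(∑' n : ℕ, cmul (der g) u n ^ 2 / (n + 1)) +
      √(∑' n : ℕ, cmul g (der u) n ^ 2 / (n + 1)) ≤ an u + hn (der g) * hn u := by
    have h4 := Real.sqrt_le_sqrt a2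
    have h5 := Real.sqrt_le_sqrt (b2.trans_eq h2)
    rw [Real.sqrt_mul (tsum_nonneg fun n => sq_nonneg _)] at h4
    unfold an hn
    linarith
  have h6 : ∀ N, ∑ k ∈ Finset.range N, (k : ℝ) * cmul g u (k + 1) ^ 2 ≤
      (an u + hn (der g) * hn u) ^ 2 := fun N => by
    refine le_trans (Finset.sum_le_sum fun k _ => ?_) ((seq2_minkowski a1 b1 N).trans
      (pow_le_pow_left₀ (by positivity) h3 2))
    have h7 := e1 (cmul g u) k
    rw [der_cmul, Pi.add_apply] at h7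
    rw [h7]
    exact mul_le_mul_of_nonneg_right (Nat.cast_le.2 k.le_succ) (sq_nonneg _)
  refine ⟨summable_of_sum_range_le (fun n => by positivity) h6, ?_⟩
  unfold nrm ip
  refine Real.sqrt_le_iff.2 ⟨le_trans (by positivity) h3, ?_⟩
  simp only [← sq]
  exact Real.tsum_le_of_sum_range_le (fun n => by positivity) h6

end Pool.Agent.Lib.MP_9b2593_an.Uq
end
end

-- part Pool.Agent.Lib.MP_9b2593_an.Uq.Seq
section

end
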