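import Pool.Agent.Lib.MP_9b2593_an.Uq.StarC
import Pool.Agent.Lib.MP_9b2593_an.Uq.Seq

-- part Pool.Agent.Lib.MP_9b2593_an.Uq.Jenkins
section

/-!
The Riemann map of a circularly symmetric domain is circularly symmetric.
-/

open Complex Metric Set MeasureTheory

noncomputable section

namespace Pool.Agent.Lib.MP_9b2593_an.Uq

namespace JenAux

open Filter Topology

theorem conj_mem {D : Set ℂ} {m : ℝ} (hD : SymD D m) {w : ℂ} (hw : w ∈ D) :
    starRingEnd ℂ w ∈ D := by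
  by_contra h
  exact hD.sym _ h w (by simp) (by simp) hw

theorem conj_ball {s : ℂ} (hs : s ∈ ball (0 : ℂ) 1) : starRingEnd ℂ s ∈ ball (0 : ℂ) 1 := by
  simpa using hs

/-- The Riemann map of a conjugation invariant domain commutes with conjugation. -/
theorem phi_conj {U : Set ℂ} (hU : IsOpen U) (hs : ∀ w ∈ U, starRingEnd ℂ w ∈ U) {ψ φ : ℂ → ℂ}
    (hψ : DifferentiableOn ℂ ψ U) (hφ : DifferentiableOn ℂ φ (ball 0 1))
    (mψ : MapsTo ψ U (ball 0 1)) (mφ : MapsTo φ (ball 0 1) U) (l : ∀ w ∈ U, φ (ψ w) = w)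
    (r : ∀ z ∈ ball (0 : ℂ) 1, ψ (φ z) = z) (ψ0 : ψ 0 = 0) (φ0 : φ 0 = 0) {c : ℝ}
    (hc : deriv φ 0 = c) :
    ∀ s ∈ ball (0 : ℂ) 1, φ (starRingEnd ℂ s) = starRingEnd ℂ (φ s) := by
  have b0 : (0 : ℂ) ∈ ball (0 : ℂ) 1 := mem_ball_self one_pos
  have U0 : (0 : ℂ) ∈ U := φ0 ▸ mφ b0
  set φ' : ℂ → ℂ := starRingEnd ℂ ∘ φ ∘ starRingEnd ℂ with hφ'
  have dφ' : ∀ s ∈ ball (0 : ℂ) 1, HasDerivAt φ' (starRingEnd ℂ (deriv φ (starRingEnd ℂ s))) s := by
    intro s hs'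
    have h1 := ((hφ _ (conj_ball hs')).differentiableAt
      (isOpen_ball.mem_nhds (conj_ball hs'))).hasDerivAt.conj_conj
    rwa [conj_conj] at h1
  have mφ' : MapsTo φ' (ball 0 1) U := fun s hs' => hs _ (mφ (conj_ball hs'))
  have φ'0 : φ' 0 = 0 := by simp [hφ', φ0]
  have dψ0 : HasDerivAt ψ (deriv ψ 0) 0 := ((hψ _ U0).differentiableAt (hU.mem_nhds U0)).hasDerivAt
  have dφ0 : HasDerivAt φ c 0 :=
    hc ▸ ((hφ _ b0).differentiableAt (isOpen_ball.mem_nhds b0)).hasDerivAt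
  have e1 : deriv ψ 0 * c = 1 := by
    have h1 : HasDerivAt (ψ ∘ φ) (deriv ψ 0 * c) 0 := HasDerivAt.comp 0 (φ0.symm ▸ dψ0) dφ0
    have h2 : HasDerivAt (ψ ∘ φ) 1 0 := by
      refine (hasDerivAt_id (0 : ℂ)).congr_of_eventuallyEq ?_
      filter_upwards [isOpen_ball.mem_nhds b0] with z hz using r z hz
    exact h1.unique h2
  have hτ : DifferentiableOn ℂ (ψ ∘ φ') (ball 0 1) :=
    hψ.comp (fun s hs' => (dφ' s hs').differentiableAt.differentiableWithinAt) mφ'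
  have dτ : deriv (ψ ∘ φ') 0 = 1 := by
    have h1 : HasDerivAt (ψ ∘ φ') (deriv ψ 0 * starRingEnd ℂ (deriv φ (starRingEnd ℂ 0))) 0 :=
      HasDerivAt.comp 0 (φ'0.symm ▸ dψ0) (dφ' 0 b0)
    rw [h1.deriv, map_zero, hc, conj_ofReal, e1]
  obtain ⟨-, h⟩ := schwarz_eq hτ (mψ.comp mφ') (by simp [φ'0, ψ0]) (by rw [dτ]; simp)
  intro s hs'
  have h1 := h s hs'
  rw [dτ, one_mul] at h1
  have h2 : φ' s = φ s := by
    have := l _ (mφ' hs')
    rw [← this]
    exact congrArg φ h1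
  have h3 : starRingEnd ℂ (φ (starRingEnd ℂ s)) = φ s := h2
  rw [← h3, conj_conj]

section
variable {D : Set ℂ} {m : ℝ} (hD : SymD D m) {ψ φ : ℂ → ℂ}
  (hψ : DifferentiableOn ℂ ψ D) (hφ : DifferentiableOn ℂ φ (ball 0 1))
  (mψ : MapsTo ψ D (ball 0 1)) (mφ : MapsTo φ (ball 0 1) D) (e1 : ∀ w ∈ D, φ (ψ w) = w)
  (e2 : ∀ z ∈ ball (0 : ℂ) 1, ψ (φ z) = z) (φ0 : φ 0 = 0)
  (hcj : ∀ s ∈ ball (0 : ℂ) 1, φ (starRingEnd ℂ s) = starRingEnd ℂ (φ s))

include hD hψ hφ mφ e2 in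
theorem deriv_mul_one {z : ℂ} (hz : z ∈ ball (0 : ℂ) 1) : deriv ψ (φ z) * deriv φ z = 1 := by
  have h1 : HasDerivAt (ψ ∘ φ) (deriv ψ (φ z) * deriv φ z) z :=
    HasDerivAt.comp z ((hψ _ (mφ hz)).differentiableAt (hD.isOpen.mem_nhds (mφ hz))).hasDerivAt
      ((hφ _ hz).differentiableAt (isOpen_ball.mem_nhds hz)).hasDerivAt
  have h2 : HasDerivAt (ψ ∘ φ) 1 z := by
    refine (hasDerivAt_id z).congr_of_eventuallyEq ?_
    filter_upwards [isOpen_ball.mem_nhds hz] with y hy using e2 y hy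
  exact h1.unique h2

include hD in
theorem rot_mem {e w : ℂ} (he : ‖e‖ = 1) (hi : 0 < e.im) (hw : w ∈ D)
    (h : 0 ≤ (starRingEnd ℂ e * w).im) : starRingEnd ℂ e ^ 2 * w ∈ D := by
  by_contra c
  have n : e.re ^ 2 + e.im ^ 2 = 1 := by
    have := Complex.sq_norm e
    rw [he, normSq_apply] at this
    nlinarith
  refine hD.sym _ c w (by simp [he]) ?_ hw
  simp only [mul_im, conj_re, conj_im, sq, mul_re] at h ⊢
  have : w.re = (e.re ^ 2 + e.im ^ 2) * w.re := by rw [n, one_mul]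
  nlinarith [mul_nonneg hi.le h]

include hD hψ hφ mψ mφ e2 φ0 hcj in
theorem rot_le {e z : ℂ} (he : ‖e‖ = 1) (hi : 0 < e.im) (hz : z ∈ ball (0 : ℂ) 1)
    (h : 0 < (starRingEnd ℂ e * φ z).im) : ‖ψ (starRingEnd ℂ e ^ 2 * φ z)‖ ≤ ‖z‖ := by
  have b0 : (0 : ℂ) ∈ ball (0 : ℂ) 1 := mem_ball_self one_pos
  have D0 : (0 : ℂ) ∈ D := φ0 ▸ mφ b0
  have ψ0 : ψ 0 = 0 := by simpa [φ0] using e2 0 b0
  set κ := starRingEnd ℂ e ^ 2 with hκ
  set N : ℂ → ℂ := fun y => ψ (κ * φ y) with hN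
  have N0 : N 0 = 0 := by simp [hN, φ0, ψ0]
  set W := ball (0 : ℂ) 1 ∩ (fun y => κ * φ y) ⁻¹' D with hW
  have cφ : ContinuousOn φ (ball 0 1) := hφ.continuousOn
  have oW : IsOpen W := (continuousOn_const.mul cφ).isOpen_inter_preimage isOpen_ball hD.isOpen
  have W0 : (0 : ℂ) ∈ W := ⟨b0, by simpa [φ0] using D0⟩
  have dN : DifferentiableOn ℂ N W :=
    hψ.comp ((differentiableOn_const κ).mul (hφ.mono inter_subset_left)) fun y hy => hy.2
  have dS : DifferentiableOn ℂ (dslope N 0) W := (differentiableOn_dslope (oW.mem_nhds W0)).2 dN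
  have sl : ∀ y, y ≠ 0 → ‖dslope N 0 y‖ = ‖N y‖ / ‖y‖ := fun y hy => by
    rw [dslope_of_ne _ hy, slope_def_field, N0, sub_zero, sub_zero, norm_div]
  have z0 : z ≠ 0 := by
    rintro rfl
    simp [φ0] at h
  have key : ∀ r : ℝ, ‖z‖ < r → r < 1 → ‖N z‖ * r ≤ ‖z‖ := by
    intro r r1 r2
    have r0 : 0 < r := (norm_nonneg z).trans_lt r1
    have ck : ContinuousOn (fun y => (starRingEnd ℂ e * φ y).im) (ball 0 1) :=
      continuous_im.comp_continuousOn (continuousOn_const.mul cφ)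
    have sb : closedBall (0 : ℂ) r ⊆ ball 0 1 := closedBall_subset_ball r2
    set U := ball (0 : ℂ) r ∩ (fun y => (starRingEnd ℂ e * φ y).im) ⁻¹' Ioi 0 with hU
    have oU : IsOpen U := (ck.mono (ball_subset_ball r2.le)).isOpen_inter_preimage isOpen_ball isOpen_Ioi
    have cU : closure U ⊆ closedBall (0 : ℂ) r ∩ (fun y => (starRingEnd ℂ e * φ y).im) ⁻¹' Ici 0 :=
      closure_minimal (fun y hy => ⟨ball_subset_closedBall hy.1, mem_preimage.2 (Ioi_subset_Ici_self (mem_preimage.1 hy.2))⟩)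
        ((ck.mono sb).preimage_isClosed_of_isClosed isClosed_closedBall isClosed_Ici)
    have cW : closure U ⊆ W := fun y hy => ⟨sb (cU hy).1, rot_mem hD he hi (mφ (sb (cU hy).1)) (cU hy).2⟩
    have r3 : (1 : ℝ) ≤ 1 / r := by rw [le_div_iff₀ r0]; linarith
    have := Complex.norm_le_of_forall_mem_frontier_norm_le (U := U) (isBounded_ball.subset inter_subset_left)
      (dS.mono cW).diffContOnCl (C := 1 / r) (fun y hy => ?_) (subset_closure ⟨mem_ball_zero_iff.2 r1, h⟩)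
    · rw [sl z z0, div_le_div_iff₀ (norm_pos_iff.2 z0) r0, one_mul] at this
      exact this
    rw [oU.frontier_eq] at hy
    obtain ⟨y1, y2⟩ := cU hy.1
    by_cases y0 : y = 0
    · subst y0
      have h1 : HasDerivAt N (deriv ψ 0 * (κ * deriv φ 0)) 0 :=
        HasDerivAt.comp 0 (h₂ := ψ) (h := fun y => κ * φ y)
          (by simpa [φ0] using ((hψ _ D0).differentiableAt (hD.isOpen.mem_nhds D0)).hasDerivAt)
          (((hφ _ b0).differentiableAt (isOpen_ball.mem_nhds b0)).hasDerivAt.const_mul κ)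
      have h2 := deriv_mul_one hD hψ hφ mφ e2 b0
      rw [φ0] at h2
      rw [dslope_same, h1.deriv, mul_left_comm, h2, mul_one, hκ]
      simpa [he] using r3
    rw [sl y y0]
    by_cases yr : ‖y‖ < r
    · have y3 : (starRingEnd ℂ e * φ y).im = 0 :=
        le_antisymm (not_lt.1 fun c => hy.2 ⟨mem_ball_zero_iff.2 yr, c⟩) y2
      have y4 : κ * φ y = starRingEnd ℂ (φ y) := by
        have a1 := conj_eq_iff_im.2 y3
        have a2 : starRingEnd ℂ e * e = 1 := by rw [conj_mul', he]; simp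
        rw [map_mul, conj_conj] at a1
        rw [hκ, sq, mul_assoc, ← a1, ← mul_assoc, a2, one_mul]
      have : N y = starRingEnd ℂ y := by
        simp only [hN]
        rw [y4, ← hcj y (sb y1), e2 _ (conj_ball (sb y1))]
      rw [this, norm_conj, div_self (norm_ne_zero_iff.2 y0)]
      exact r3
    · have y3 : ‖y‖ = r := le_antisymm (mem_closedBall_zero_iff.1 y1) (not_lt.1 yr)
      rw [y3]
      exact div_le_div_of_nonneg_right (mem_ball_zero_iff.1 (mψ (cW hy.1).2)).le r0.le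
  have z1 : ‖z‖ < 1 := mem_ball_zero_iff.1 hz
  have t : Tendsto (fun r : ℝ => ‖N z‖ * r) (𝓝[<] 1) (𝓝 (‖N z‖ * 1)) :=
    ((continuous_const.mul continuous_id).tendsto 1).mono_left nhdsWithin_le_nhds
  rw [mul_one] at t
  refine le_of_tendsto t ?_
  filter_upwards [Ioo_mem_nhdsLT z1] with r hr using key r hr.1 hr.2

theorem circ_deriv {f : ℂ → ℂ} {w : ℂ} {θ : ℝ} (hf : DifferentiableAt ℂ f (w * exp (θ * I))) :
    HasDerivAt (fun t : ℝ => ‖f (w * exp (t * I))‖ ^ 2)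
      (-2 * (starRingEnd ℂ (f (w * exp (θ * I))) * deriv f (w * exp (θ * I)) * (w * exp (θ * I))).im) θ := by
  have h1 : HasDerivAt (fun t : ℂ => w * exp (t * I)) (w * (exp (θ * I) * I)) θ := by
    simpa using (((hasDerivAt_id (θ : ℂ)).mul_const I).cexp).const_mul w
  have h2 := (HasDerivAt.comp (θ : ℂ) hf.hasDerivAt h1).comp_ofReal.norm_sq
  refine h2.congr_deriv ?_
  simp only [Function.comp, Complex.inner, mul_re, mul_im, conj_re, conj_im, I_re, I_im]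
  ring

include hD hψ hφ mψ mφ e1 e2 φ0 hcj in
theorem im_le {z : ℂ} (hz : z ∈ ball (0 : ℂ) 1) (h : 0 < (φ z).im) :
    0 ≤ (starRingEnd ℂ (φ z) * deriv φ z * z).im := by
  set w := φ z with hw
  have wD : w ∈ D := mφ hz
  have w0 : 0 < ‖w‖ := norm_pos_iff.2 fun c => by simp [c] at h
  have hd := circ_deriv (f := ψ) (w := w) (θ := 0)
    (by simpa using (hψ _ wD).differentiableAt (hD.isOpen.mem_nhds wD))
  have c1 : Continuous fun t : ℝ => w * exp (t * I) := by fun_prop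
  have c2 : Continuous fun t : ℝ => (w * exp ((t / 2 : ℝ) * I)).im := by fun_prop
  have v1 : ∀ᶠ t : ℝ in 𝓝 0, w * exp (t * I) ∈ D := c1.continuousAt.eventually_mem (by
    simpa using hD.isOpen.mem_nhds wD)
  have v2 : ∀ᶠ t : ℝ in 𝓝 0, 0 < (w * exp ((t / 2 : ℝ) * I)).im :=
    continuousAt_const.eventually_lt c2.continuousAt (by simpa using h)
  have ev : ∀ᶠ t : ℝ in 𝓝[>] 0, 0 ≤ slope (fun t : ℝ => ‖ψ (w * exp (t * I))‖ ^ 2) 0 t := by
    filter_upwards [nhdsWithin_le_nhds v1, nhdsWithin_le_nhds v2, Ioo_mem_nhdsGT Real.pi_pos] with t t1 t2 t3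
    set E := exp ((t / 2 : ℝ) * I) with hE
    have nE : ‖E‖ = 1 := norm_exp_ofReal_mul_I _
    have E2 : exp (t * I) = E ^ 2 := by
      rw [hE, sq, ← exp_add]
      congr 1
      push_cast
      ring
    have a1 : starRingEnd ℂ E * E = 1 := by rw [conj_mul', nE]; simp
    have a2 : starRingEnd ℂ w * w = (‖w‖ : ℂ) ^ 2 := conj_mul' w
    have a3 : (‖w‖ : ℂ) ≠ 0 := by exact_mod_cast w0.ne'
    have ce : starRingEnd ℂ (w * E / ‖w‖) = starRingEnd ℂ w * starRingEnd ℂ E / ‖w‖ := by simp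
    have p1 : φ (ψ (w * exp (t * I))) = w * E ^ 2 := by rw [e1 _ t1, E2]
    have p2 : starRingEnd ℂ (w * E / ‖w‖) * (w * E ^ 2) = ‖w‖ * E := by
      rw [ce]
      field_simp
      linear_combination (starRingEnd ℂ w * w * E) * a1 + E * a2
    have p3 : starRingEnd ℂ (w * E / ‖w‖) ^ 2 * (w * E ^ 2) = starRingEnd ℂ w := by
      rw [sq (starRingEnd ℂ _), mul_assoc, p2, ce]
      field_simp
      linear_combination (starRingEnd ℂ w) * a1
    have := rot_le hD hψ hφ mψ mφ e2 φ0 hcj (e := w * E / ‖w‖) (by simp [nE, w0.ne'])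
      (by rw [div_ofReal_im]; positivity) (mψ t1) (by
        rw [p1, p2, im_ofReal_mul, hE, exp_ofReal_mul_I_im]
        exact mul_pos w0 (Real.sin_pos_of_pos_of_lt_pi (by linarith [t3.1]) (by linarith [t3.2, t3.1])))
    rw [p1, p3, hw, ← hcj z hz, e2 _ (conj_ball hz), norm_conj, ← hw] at this
    rw [slope_def_field]
    refine div_nonneg (sub_nonneg.2 ?_) (by linarith [t3.1])
    simp only [ofReal_zero, zero_mul, exp_zero, mul_one]
    rw [hw, e2 z hz, ← hw]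
    gcongr
  have g := ge_of_tendsto (hasDerivAt_iff_tendsto_slope_left_right.1 hd).2 ev
  simp only [ofReal_zero, zero_mul, exp_zero, mul_one] at g
  rw [hw, e2 z hz, ← hw] at g
  have k := deriv_mul_one hD hψ hφ mφ e2 hz
  rw [← hw] at k
  have e : starRingEnd ℂ w * deriv φ z * z =
      (normSq (deriv φ z) : ℂ) * starRingEnd ℂ (starRingEnd ℂ z * deriv ψ w * w) := by
    have k' := congrArg (starRingEnd ℂ) k
    rw [map_mul, map_one] at k'
    rw [← mul_conj, map_mul, map_mul, conj_conj]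
    linear_combination (-(starRingEnd ℂ w * deriv φ z * z)) * k'
  rw [e, im_ofReal_mul, conj_im]
  exact mul_nonneg (normSq_nonneg _) (by linarith)

include hφ e2 φ0 hcj in
theorem im_pos {c : ℝ} (hc : 0 < c) (hφc : deriv φ 0 = c) {z : ℂ} (hz : z ∈ ball (0 : ℂ) 1) (h : 0 < z.im) :
    0 < (φ z).im := by
  have b0 : (0 : ℂ) ∈ ball (0 : ℂ) 1 := mem_ball_self one_pos
  have mb : ∀ s : ℝ, s ∈ Icc (0 : ℝ) 1 → (s : ℂ) * z ∈ ball (0 : ℂ) 1 := fun s hs => by
    rw [mem_ball_zero_iff] at hz ⊢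
    rw [norm_mul, norm_real, Real.norm_of_nonneg hs.1]
    nlinarith [norm_nonneg z, hs.1, hs.2]
  have cs : ContinuousOn (fun s : ℝ => (dslope φ 0 (s * z) * z).im) (Icc 0 1) :=
    continuous_im.comp_continuousOn (((((differentiableOn_dslope (isOpen_ball.mem_nhds b0)).2
      hφ).continuousOn).comp (by fun_prop) mb).mul continuousOn_const)
  have sl : ∀ y, y * dslope φ 0 y = φ y := fun y => by simpa [φ0] using sub_smul_dslope φ 0 y
  by_contra! c
  have : (0 : ℝ) ∈ Icc (dslope φ 0 ((1 : ℝ) * z) * z).im (dslope φ 0 ((0 : ℝ) * z) * z).im := by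
    constructor
    · rwa [ofReal_one, one_mul, mul_comm, sl]
    · rw [ofReal_zero, zero_mul, dslope_same, hφc, im_ofReal_mul]
      positivity
  obtain ⟨s, hs, e⟩ := intermediate_value_Icc' zero_le_one cs this
  rcases hs.1.eq_or_lt with rfl | s0
  · simp only [ofReal_zero, zero_mul, dslope_same, hφc, im_ofReal_mul] at e
    exact (mul_pos hc h).ne' e
  have a1 : (φ (s * z)).im = 0 := by
    rw [← sl, mul_assoc, im_ofReal_mul, mul_comm z]
    exact mul_eq_zero_of_right _ e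
  have a2 := e2 _ (conj_ball (mb s hs))
  rw [hcj _ (mb s hs), conj_eq_iff_im.2 a1, e2 _ (mb s hs)] at a2
  have a3 := conj_eq_iff_im.1 a2.symm
  rw [im_ofReal_mul] at a3
  exact (mul_pos s0 h).ne' a3

end

end JenAux

open JenAux in
theorem circ_of_symD {D : Set ℂ} {m : ℝ} (hD : SymD D m) {ψ φ : ℂ → ℂ}
    (hψ : DifferentiableOn ℂ ψ D) (hφ : DifferentiableOn ℂ φ (ball 0 1))
    (mψ : MapsTo ψ D (ball 0 1)) (mφ : MapsTo φ (ball 0 1) D) (e1 : ∀ w ∈ D, φ (ψ w) = w)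
    (e2 : ∀ z ∈ ball (0 : ℂ) 1, ψ (φ z) = z) (φ0 : φ 0 = 0) {c : ℝ} (hc : 0 < c)
    (hφc : deriv φ 0 = c) : Circ φ := by
  have ψ0 : ψ 0 = 0 := by simpa [φ0] using e2 0 (mem_ball_self one_pos)
  have hcj := phi_conj hD.isOpen (fun w => conj_mem hD) hψ hφ mψ mφ e1 e2 ψ0 φ0 hφc
  intro r hr
  have mb : ∀ θ : ℝ, (r : ℂ) * exp (θ * I) ∈ ball (0 : ℂ) 1 := fun θ => by
    rw [mem_ball_zero_iff, norm_mul, norm_exp_ofReal_mul_I, norm_real, Real.norm_of_nonneg hr.1.le, mul_one]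
    exact hr.2
  have hd := fun θ : ℝ => circ_deriv ((hφ _ (mb θ)).differentiableAt (isOpen_ball.mem_nhds (mb θ)))
  have a1 : AntitoneOn (fun θ : ℝ => ‖φ (r * exp (θ * I))‖ ^ 2) (Ioo 0 Real.pi) := by
    refine antitoneOn_of_deriv_nonpos (convex_Ioo _ _) (fun θ _ => (hd θ).continuousAt.continuousWithinAt)
      (fun θ _ => (hd θ).differentiableAt.differentiableWithinAt) fun θ hθ => ?_
    rw [interior_Ioo] at hθ
    rw [(hd θ).deriv]
    have := im_le hD hψ hφ mψ mφ e1 e2 φ0 hcj (mb θ) (im_pos hφ e2 φ0 hcj hc hφc (mb θ) (by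
      rw [im_ofReal_mul, exp_ofReal_mul_I_im]
      exact mul_pos hr.1 (Real.sin_pos_of_pos_of_lt_pi hθ.1 hθ.2)))
    linarith
  have a2 : AntitoneOn (fun θ : ℝ => ‖φ (r * exp (θ * I))‖) (Ioo 0 Real.pi) := fun x hx y hy h =>
    le_of_sq_le_sq (a1 hx hy h) (norm_nonneg _)
  refine ⟨a2, fun x hx y hy h => ?_⟩
  have e : ∀ θ : ℝ, ‖φ (r * exp (-(θ * I)))‖ = ‖φ (r * exp (θ * I))‖ := fun θ => by
    rw [← norm_conj (φ (r * exp (θ * I))), ← hcj _ (mb θ), map_mul, conj_ofReal, ← exp_conj, map_mul,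
      conj_ofReal, conj_I, mul_neg]
  simp only [e]
  exact a2 hx hy h

end Pool.Agent.Lib.MP_9b2593_an.Uq
end
end

-- part Pool.Agent.Lib.MP_9b2593_an.Uq.Var
section

/-!
First order conditions at a maximiser of the relaxed problem.
-/

open Complex Metric Set MeasureTheory Filter Topology

noncomputable section

namespace Pool.Agent.Lib.MP_9b2593_an.Uq

variable {g h u : ℕ → ℝ} {ρ ν : ℝ}

theorem var_pos_of_deriv {f : ℝ → ℝ} {d : ℝ} (hf : HasDerivAt f d 0) (h0 : f 0 = 0) (hd : 0 < d) :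
    ∀ᶠ t in 𝓝[>] (0 : ℝ), 0 < f t := by
  have h1 := (hasDerivAt_iff_tendsto_slope_zero.1 hf).mono_left
    (nhdsWithin_mono (0 : ℝ) (show Ioi (0 : ℝ) ⊆ {0}ᶜ from fun t ht => ne_of_gt ht))
  filter_upwards [h1.eventually (lt_mem_nhds hd), self_mem_nhdsWithin] with t ht ht0
  simp only [zero_add, h0, sub_zero, smul_eq_mul] at ht
  have ht1 : (0 : ℝ) < t := ht0
  exact (mul_pos_iff_of_pos_left (inv_pos.2 ht1)).1 ht

theorem Feas.abs_lt (hf : Feas ρ g) : |ρ| < 1 := by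
  rw [abs_of_pos hf.pos]; exact hf.lt

theorem var_kap_pos (h0 : 0 < ρ) (h1 : ρ < 1) : 0 < kap ρ := by
  unfold kap
  have : 0 < 1 - ρ := by linarith
  positivity

theorem var_kap1_pos (h1 : ρ < 1) : 0 < kap1 ρ := by
  unfold kap1
  have : 0 < 1 - ρ := by linarith
  positivity

theorem Feas.g0_le (hf : Feas ρ g) : g 0 ≤ ρ := by
  have hρ := hf.pos
  have h1 : HasSum (fun n => g n * ρ ^ n) 0 := by
    have := (hf.schur.1.summable_rv hf.abs_lt).hasSum
    have hz : (∑' n, g n * ρ ^ n) = 0 := hf.zero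
    rwa [hz] at this
  have h2 : HasSum (fun n => if n = 0 then g 0 else 0) (g 0) := hasSum_ite_eq 0 (g 0)
  have hy : ρ ^ 2 < 1 := by nlinarith [hf.lt]
  have h3 : HasSum (fun n : ℕ => (ρ ^ 2) ^ n) (1 - ρ ^ 2)⁻¹ :=
    hasSum_geometric_of_lt_one (by positivity) hy
  have h4 : HasSum (fun n : ℕ => if n = 0 then (1 - 2 * (1 - ρ ^ 2)) else 0)
      (1 - 2 * (1 - ρ ^ 2)) := hasSum_ite_eq 0 _
  have h5 := hf.schur.summable_sq.hasSum
  have hL := (h2.sub (h1.mul_left (1 - ρ ^ 2))).mul_left (2 * ρ)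
  have hR := (h5.mul_left (ρ ^ 2)).add (h4.add (h3.mul_left ((1 - ρ ^ 2) ^ 2)))
  have hle := hasSum_le (fun n => ?_) hL hR
  · have h6 := hf.schur.tsum_sq_le
    have h7 : (1 - ρ ^ 2) ^ 2 * (1 - ρ ^ 2)⁻¹ = 1 - ρ ^ 2 := by
      have : 1 - ρ ^ 2 ≠ 0 := by linarith
      field_simp
    rw [h7] at hle
    have h8 : ρ ^ 2 * ∑' n, g n ^ 2 ≤ ρ ^ 2 := by nlinarith [sq_nonneg ρ]
    nlinarith
  · by_cases hn : n = 0
    · subst hn
      simp only [if_true, pow_zero, mul_one]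
      nlinarith [sq_nonneg (ρ * g 0 - ρ ^ 2)]
    · simp only [hn, if_false]
      have : (ρ ^ 2) ^ n = (ρ ^ n) ^ 2 := by ring
      rw [this]
      nlinarith [sq_nonneg (ρ * g n + (1 - ρ ^ 2) * ρ ^ n)]

theorem Dir.of_schur (hg : Schur g) (hd : D2 g) (hh : Schur h) (hd' : D2 h) : Dir g (h - g) := by
  refine ⟨hd'.sub hd, 0, 1, one_pos, le_rfl, fun ε h0 h1 s hs => ?_⟩
  rw [ev_sub hh.1 hg.1 hs]
  have e : ev g s + ε * (ev h s - ev g s) = ((1 - ε : ℝ) : ℂ) * ev g s + (ε : ℂ) * ev h s := by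
    push_cast; ring
  have h2 : ‖ev g s + ε * (ev h s - ev g s)‖ ≤ 1 := by
    rw [e]
    refine (norm_add_le _ _).trans ?_
    rw [norm_mul, norm_mul, Complex.norm_real, Complex.norm_real, Real.norm_of_nonneg h0.le,
      Real.norm_of_nonneg (by linarith)]
    nlinarith [hg.2 s hs, hh.2 s hs]
  nlinarith [norm_nonneg (ev g s + ε * (ev h s - ev g s))]

theorem Dir.add_smul (hg : Pow g) (h1 : Dir g h) (h2 : Dir g u) {τ : ℝ} (hτ : 0 ≤ τ) :
    Dir g (h + τ • u) := by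
  obtain ⟨d1, K1, e1, he1, hK1, H1⟩ := h1
  obtain ⟨d2, K2, e2, he2, hK2, H2⟩ := h2
  have hp : 0 < 1 + τ := by linarith
  refine ⟨d1.add (d2.smul τ), (K1 + K2) * (1 + τ) ^ 2, min e1 e2 / (1 + τ),
    div_pos (lt_min he1 he2) hp, by positivity, fun ε h0 hε s hs => ?_⟩
  have hε' : ε * (1 + τ) < min e1 e2 := (lt_div_iff₀ hp).1 hε
  have a1 := H1 (ε * (1 + τ)) (by positivity) (hε'.trans_le (min_le_left _ _)) s hs
  have a2 := H2 (ε * (1 + τ)) (by positivity) (hε'.trans_le (min_le_right _ _)) s hs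
  rw [ev_add d1.pow (d2.pow.smul τ) hs, ev_smul]
  set X := ev g s + ((ε * (1 + τ) : ℝ) : ℂ) * ev h s with hX
  set Y := ev g s + ((ε * (1 + τ) : ℝ) : ℂ) * ev u s with hY
  have hp' : (1 + (τ : ℂ)) ≠ 0 := by exact_mod_cast hp.ne'
  have e : ev g s + ε * (ev h s + τ * ev u s) =
      ((1 / (1 + τ) : ℝ) : ℂ) * X + ((τ / (1 + τ) : ℝ) : ℂ) * Y := by
    rw [hX, hY]; push_cast; field_simp; ring
  set M := 1 + (K1 + K2) * (1 + τ) ^ 2 * ε ^ 2 with hM
  have hM0 : 0 ≤ M := by positivity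
  have b1 : ‖X‖ ≤ Real.sqrt M := by
    apply Real.le_sqrt_of_sq_le
    have : 0 ≤ K2 * (ε * (1 + τ)) ^ 2 := by positivity
    rw [hM]; nlinarith
  have b2 : ‖Y‖ ≤ Real.sqrt M := by
    apply Real.le_sqrt_of_sq_le
    have : 0 ≤ K1 * (ε * (1 + τ)) ^ 2 := by positivity
    rw [hM]; nlinarith
  have h3 : ‖ev g s + ε * (ev h s + τ * ev u s)‖ ≤ Real.sqrt M := by
    rw [e]
    refine (norm_add_le _ _).trans ?_
    rw [norm_mul, norm_mul, Complex.norm_real, Complex.norm_real,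
      Real.norm_of_nonneg (by positivity), Real.norm_of_nonneg (by positivity)]
    have c1 : 1 / (1 + τ) * ‖X‖ ≤ 1 / (1 + τ) * Real.sqrt M := by gcongr
    have c2 : τ / (1 + τ) * ‖Y‖ ≤ τ / (1 + τ) * Real.sqrt M := by gcongr
    have c3 : 1 / (1 + τ) * Real.sqrt M + τ / (1 + τ) * Real.sqrt M = Real.sqrt M := by
      field_simp
    linarith
  calc _ ≤ Real.sqrt M ^ 2 := by gcongr
    _ = M := Real.sq_sqrt hM0

theorem DS_add_smul (hh : D2 h) (hu : D2 u) (h0 : 0 < ρ) (h1 : ρ < 1) (τ : ℝ) :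
    DS ρ g (h + τ • u) = DS ρ g h + τ * DS ρ g u := by
  have hx : |ρ| < 1 := by rw [abs_of_pos h0]; exact h1
  unfold DS
  rw [der_add, der_smul, rv_add hh.pow.der (hu.pow.der.smul τ) hx, rv_smul,
    rv_add hh.pow (hu.pow.smul τ) hx, rv_smul]
  ring

theorem var_curve (hf : Feas ρ g) (hu : Pow u) :
    ∃ (x e : ℝ → ℝ) (x' e' : ℝ), x 0 = ρ ∧ e 0 = 0 ∧ HasDerivAt x x' 0 ∧ HasDerivAt e e' 0 ∧
      0 < e' ∧ rv (der g) ρ * x' + e' * rv u ρ = 0 ∧
      ∀ᶠ t in 𝓝 (0 : ℝ), rv g (x t) + e t * rv u (x t) = 0 := by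
  have hk := var_kap_pos hf.pos hf.lt
  have hs := hf.slope
  by_cases hU : rv u ρ = 0
  · refine ⟨fun _ => ρ, fun t => t, 0, 1, rfl, rfl, hasDerivAt_const _ _, hasDerivAt_id _, one_pos,
      by rw [hU]; ring, Eventually.of_forall fun t => ?_⟩
    rw [hU, hf.zero]; ring
  · set c := -rv (der g) ρ / rv u ρ with hc
    have hG' : rv (der g) ρ ≠ 0 := by linarith
    have hc0 : c ≠ 0 := div_ne_zero (neg_ne_zero.2 hG') hU
    have hx : HasDerivAt (fun t : ℝ => ρ + c * t) c 0 := by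
      simpa using ((hasDerivAt_id (0 : ℝ)).const_mul c).const_add ρ
    have hG : HasDerivAt (fun t : ℝ => rv g (ρ + c * t)) (rv (der g) ρ * c) 0 :=
      HasDerivAt.comp_of_eq (0 : ℝ) (hasDerivAt_rv hf.schur.1 hf.abs_lt) hx (by simp)
    have hU' : HasDerivAt (fun t : ℝ => rv u (ρ + c * t)) (rv (der u) ρ * c) 0 :=
      HasDerivAt.comp_of_eq (0 : ℝ) (hasDerivAt_rv hu hf.abs_lt) hx (by simp)
    have hne : rv u (ρ + c * 0) ≠ 0 := by simpa using hU
    have he := hG.fun_neg.fun_div hU' hne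
    refine ⟨fun t => ρ + c * t, fun t => -rv g (ρ + c * t) / rv u (ρ + c * t), c, c ^ 2,
      by simp, by simp [hf.zero], hx, ?_, by positivity, ?_, ?_⟩
    · refine he.congr_deriv ?_
      simp only [mul_zero, add_zero, hf.zero]
      rw [hc]; field_simp; ring
    · rw [hc]; field_simp; ring
    · filter_upwards [hU'.continuousAt.eventually_ne hne] with t ht
      field_simp
      ring

theorem IsMax.var_aux (hm : IsMax ρ g) (hd : Dir g u)
    (hs : kap ρ < -rv (der g) ρ ∨ (rv (der g) ρ = -kap ρ ∧ 0 < DS ρ g u)) : B g u ≤ 0 := by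
  obtain ⟨hf, hmax⟩ := hm
  obtain ⟨du, K, e0, he0, hK, H⟩ := hd
  obtain ⟨x, e, x', e', x0, e00, hx, he, he', hrel, hz⟩ := var_curve hf du.pow
  by_contra hB
  push Not at hB
  have hk := var_kap_pos hf.pos hf.lt
  have hG1 : HasDerivAt (fun t => rv (der g) (x t)) (rv (der (der g)) ρ * x') 0 :=
    HasDerivAt.comp_of_eq (0 : ℝ) (hasDerivAt_rv hf.schur.1.der hf.abs_lt) hx x0.symm
  have hU1 : HasDerivAt (fun t => rv (der u) (x t)) (rv (der (der u)) ρ * x') 0 :=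
    HasDerivAt.comp_of_eq (0 : ℝ) (hasDerivAt_rv du.pow.der hf.abs_lt) hx x0.symm
  have hk1 : HasDerivAt (fun t => kap (x t)) (kap1 ρ * x') 0 :=
    HasDerivAt.comp_of_eq (0 : ℝ) (kap_hasDerivAt hf.lt) hx x0.symm
  have hw : HasDerivAt (fun t => 1 + K * (e t * e t)) 0 0 := by
    have := ((he.fun_mul he).const_mul K).const_add 1
    simpa [e00] using this
  have hS : HasDerivAt
      (fun t => -rv (der g) (x t) - e t * rv (der u) (x t) - kap (x t) * (1 + K * (e t * e t)))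
      (-(rv (der (der g)) ρ * x') - e' * rv (der u) ρ - kap1 ρ * x') 0 := by
    have := (hG1.fun_neg.fun_sub (he.fun_mul hU1)).fun_sub (hk1.fun_mul hw)
    simpa [e00, x0] using this
  have ev1 : ∀ᶠ t in 𝓝[>] (0 : ℝ), 0 < -rv (der g) (x t) - e t * rv (der u) (x t) -
      kap (x t) * (1 + K * (e t * e t)) := by
    rcases hs with hs | ⟨hs, hD⟩
    · refine (hS.continuousAt.eventually (lt_mem_nhds ?_)).filter_mono nhdsWithin_le_nhds
      simp only [e00, x0]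
      linarith
    · refine var_pos_of_deriv hS (by simp [e00, x0, hs]) ?_
      have hx' : x' = e' * rv u ρ / kap ρ := by
        rw [hs] at hrel
        field_simp
        linarith
      have : -(rv (der (der g)) ρ * x') - e' * rv (der u) ρ - kap1 ρ * x' = e' * DS ρ g u := by
        rw [hx']; unfold DS; field_simp; ring
      rw [this]
      positivity
  have ev2 := var_pos_of_deriv he e00 he'
  have hQ : HasDerivAt (fun t => q g + 2 * e t * B g u + e t * e t * q u -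
      (1 + K * (e t * e t)) * (1 + K * (e t * e t)) * q g) (2 * e' * B g u) 0 := by
    have := ((((he.const_mul 2).mul_const (B g u)).const_add (q g)).fun_add
      ((he.fun_mul he).mul_const (q u))).fun_sub ((hw.fun_mul hw).mul_const (q g))
    simpa [e00] using this
  have ev3 := var_pos_of_deriv hQ (by simp [e00]) (by positivity)
  have ev4 : ∀ᶠ t in 𝓝 (0 : ℝ), e t < e0 :=
    he.continuousAt.eventually (gt_mem_nhds (by simpa [e00] using he0))
  have ev5 : ∀ᶠ t in 𝓝 (0 : ℝ), 0 < x t :=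
    hx.continuousAt.eventually (lt_mem_nhds (by simpa [x0] using hf.pos))
  have ev6 : ∀ᶠ t in 𝓝 (0 : ℝ), x t < 1 :=
    hx.continuousAt.eventually (gt_mem_nhds (by simpa [x0] using hf.lt))
  have ev7 : ∀ᶠ t in 𝓝 (0 : ℝ), 0 < g 0 + e t * u 0 :=
    ((he.mul_const (u 0)).const_add (g 0)).continuousAt.eventually
      (lt_mem_nhds (by simpa [e00] using hf.g0))
  obtain ⟨t, ⟨⟨a1, a2⟩, a3⟩, ⟨⟨⟨⟨a4, a5⟩, a6⟩, a7⟩, a8⟩⟩ := (((ev1.and ev2).and ev3).and
    (((((ev4.and ev5).and ev6).and ev7).and hz).filter_mono nhdsWithin_le_nhds)).exists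
  set ε := e t
  set y := x t
  set w := 1 + K * (ε * ε) with hwdef
  have hw1 : 1 ≤ w := by rw [hwdef]; nlinarith [mul_nonneg hK (mul_self_nonneg ε)]
  have hw0 : 0 < w := by linarith
  have hy : |y| < 1 := by rw [abs_of_pos a5]; exact a6
  have dd : D2 (g + ε • u) := hf.d2.add (du.smul ε)
  have hfe : Feas y (w⁻¹ • (g + ε • u)) := by
    refine ⟨a5, a6, ⟨(dd.smul _).pow, fun s hs => ?_⟩, dd.smul _, ?_, ?_, ?_⟩
    · rw [ev_smul, ev_add hf.schur.1 (du.pow.smul ε) hs, ev_smul, norm_mul, Complex.norm_real,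
        Real.norm_of_nonneg (inv_pos.2 hw0).le, inv_mul_le_iff₀ hw0, mul_one]
      have := H ε a2 a4 s hs
      refine le_of_sq_le_sq ?_ hw0.le
      have h9 : 1 + K * ε ^ 2 = w := by rw [hwdef]; ring
      rw [h9] at this
      nlinarith
    · simp only [Pi.smul_apply, Pi.add_apply, smul_eq_mul]
      positivity
    · rw [rv_smul, rv_add hf.schur.1 (du.pow.smul ε) hy, rv_smul, a8, mul_zero]
    · rw [der_smul, der_add, der_smul, rv_smul, rv_add hf.schur.1.der (du.pow.der.smul ε) hy,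
        rv_smul, ← mul_neg, le_inv_mul_iff₀ hw0]
      linarith
  have hq := hmax _ _ hfe
  rw [q_smul, q_add_smul hf.d2 du, inv_pow, inv_mul_le_iff₀ (by positivity)] at hq
  nlinarith

theorem var_schur_one : Schur (Pi.single 0 1 : ℕ → ℝ) :=
  ⟨(D2.single 0 1).pow, fun s _ => by rw [ev_single]; simp⟩

theorem IsMax.slope_eq (hm : IsMax ρ g) : rv (der g) ρ = -kap ρ := by
  by_contra hne
  have hf := hm.1
  have hs : kap ρ < -rv (der g) ρ := lt_of_le_of_ne hf.slope fun e => hne (by linarith)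
  have h1 := hm.var_aux (Dir.of_schur hf.schur hf.d2 var_schur_one (D2.single 0 1)) (Or.inl hs)
  rw [B_sub hf.d2 (D2.single 0 1) hf.d2] at h1
  have h2 : B g (Pi.single 0 1) = g 0 := by simp [B, ip]
  have h3 : B g g ≤ g 0 * g 0 := by
    unfold B; linarith [ip_self_nonneg g]
  have h4 := hf.g0_le
  have h5 := hf.g0
  have h6 := hf.lt
  rw [h2] at h1
  nlinarith

theorem var_tsum_eq {E : Type*} [NormedAddCommGroup E] {f f' : ℕ → E} {a b : E} (hf : HasSum f a)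
    (h1 : ∀ n, f' n = f n) (h2 : a = b) : ∑' n, f' n = b := by
  rw [funext h1, hf.tsum_eq, h2]

/-- Coefficients of the Blaschke factor vanishing at `ρ`. -/
def bla (ρ : ℝ) : ℕ → ℝ
  | 0 => ρ
  | n + 1 => -(1 - ρ ^ 2) * ρ ^ n

theorem bla_d2 (h0 : 0 < ρ) (h1 : ρ < 1) : D2 (bla ρ) := by
  have hy : ‖ρ ^ 2‖ < 1 := by rw [Real.norm_of_nonneg (by positivity)]; nlinarith
  refine ((hasSum_coe_mul_geometric_of_norm_lt_one hy).summable.mul_left
    ((1 - ρ ^ 2) ^ 2)).congr fun k => ?_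
  simp only [bla]
  ring

theorem bla_ev (h0 : 0 < ρ) (h1 : ρ < 1) {s : ℂ} (hs : ‖s‖ < 1) :
    ev (bla ρ) s = (ρ - s) / (1 - ρ * s) := by
  have hy : ‖(ρ : ℂ) * s‖ < 1 := by
    rw [norm_mul, Complex.norm_real, Real.norm_of_nonneg h0.le]
    nlinarith [norm_nonneg s]
  have hne : 1 - (ρ : ℂ) * s ≠ 0 := by
    intro e
    have : (ρ : ℂ) * s = 1 := by linear_combination -e
    rw [this] at hy; simp at hy
  have h2 : ev (shift (bla ρ)) s = -(1 - (ρ : ℂ) ^ 2) * (1 - ρ * s)⁻¹ := by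
    unfold ev
    refine var_tsum_eq ((hasSum_geometric_of_norm_lt_one hy).mul_left (-(1 - (ρ : ℂ) ^ 2)))
      (fun n => ?_) rfl
    simp only [shift, bla]
    push_cast
    ring
  rw [ev_shift (bla_d2 h0 h1).pow hs, h2]
  simp only [bla]
  field_simp
  ring

theorem bla_schur (h0 : 0 < ρ) (h1 : ρ < 1) : Schur (bla ρ) := by
  refine ⟨(bla_d2 h0 h1).pow, fun s hs => ?_⟩
  rw [bla_ev h0 h1 hs, norm_div]
  refine div_le_one_of_le₀ ?_ (norm_nonneg _)
  refine le_of_sq_le_sq ?_ (norm_nonneg _)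
  have h2 : ‖s‖ ^ 2 < 1 := by nlinarith [norm_nonneg s]
  rw [Complex.sq_norm, Complex.normSq_apply] at h2
  rw [Complex.sq_norm, Complex.sq_norm, Complex.normSq_apply, Complex.normSq_apply]
  simp only [sub_re, ofReal_re, sub_im, ofReal_im, one_re, one_im, mul_re, mul_im, zero_mul,
    sub_zero, add_zero, zero_sub]
  have h3 : 0 ≤ (1 - ρ ^ 2) * (1 - (s.re * s.re + s.im * s.im)) :=
    mul_nonneg (by nlinarith) (by linarith)
  nlinarith

theorem bla_rv (h0 : 0 < ρ) (h1 : ρ < 1) : rv (bla ρ) ρ = 0 := by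
  have h2 := bla_ev h0 h1 (s := (ρ : ℂ))
    (by rw [Complex.norm_real, Real.norm_of_nonneg h0.le]; exact h1)
  rw [ev_ofReal, sub_self, zero_div] at h2
  exact_mod_cast h2

theorem bla_rv_der (h0 : 0 < ρ) (h1 : ρ < 1) : rv (der (bla ρ)) ρ = -(1 / (1 - ρ ^ 2)) := by
  have hy : ‖ρ ^ 2‖ < 1 := by rw [Real.norm_of_nonneg (by positivity)]; nlinarith
  have hne : 1 - ρ ^ 2 ≠ 0 := by nlinarith
  unfold rv
  refine var_tsum_eq (((hasSum_coe_mul_geometric_of_norm_lt_one hy).add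
    (hasSum_geometric_of_norm_lt_one hy)).mul_left (-(1 - ρ ^ 2))) (fun n => ?_) ?_
  · simp only [der, bla]
    ring
  · field_simp
    ring

theorem bla_B (hm : IsMax ρ g) : B g (bla ρ) = g 0 / ρ - (1 + ρ) ^ 2 / 4 := by
  have hf := hm.1
  have h1 := (hf.schur.1.der.summable_rv hf.abs_lt).hasSum
  have h2 := (hf.schur.1.shift.summable_rv hf.abs_lt).hasSum
  have h3 : ip g (bla ρ) = -(1 - ρ ^ 2) * (rv (der g) ρ - rv (shift g) ρ) := by
    unfold ip
    refine var_tsum_eq ((h1.sub h2).mul_left (-(1 - ρ ^ 2))) (fun n => ?_) rfl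
    simp only [der, shift, bla]
    ring
  have h4 := rv_shift hf.schur.1 hf.abs_lt
  rw [hf.zero] at h4
  have hρ := hf.pos.ne'
  have h5 : rv (shift g) ρ = -g 0 / ρ := by
    field_simp
    linarith
  have h6 : 1 - ρ ≠ 0 := by linarith [hf.lt]
  unfold B
  rw [h3, h5, hm.slope_eq]
  simp only [bla, kap]
  field_simp
  ring

theorem IsMax.var_nu (hm : IsMax ρ g) (h0 : 0 ≤ ν)
    (hν : 2 * (q g - g 0 / ρ + (1 + ρ) ^ 2 / 4) ≤ ν * (1 / (1 - ρ ^ 2) - kap ρ)) (hd : Dir g u) :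
    2 * B g u + ν * min 0 (DS ρ g u) ≤ 0 := by
  have hf := hm.1
  have hp := hf.pos
  have hl := hf.lt
  have db := bla_d2 hp hl
  have hdir := Dir.of_schur hf.schur hf.d2 (bla_schur hp hl) db
  set D := 1 / (1 - ρ ^ 2) - kap ρ with hD
  have hD0 : 0 < D := by
    have e : D = (4 - (1 + ρ) ^ 2) / (4 * ((1 - ρ) * (1 + ρ))) := by
      have : 1 - ρ ≠ 0 := by linarith
      have : 1 + ρ ≠ 0 := by linarith
      have e2 : 1 - ρ ^ 2 = (1 - ρ) * (1 + ρ) := by ring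
      rw [hD, e2]; unfold kap; field_simp
    rw [e]
    apply div_pos (by nlinarith)
    have : 0 < 1 - ρ := by linarith
    positivity
  have hDS : DS ρ g (bla ρ - g) = D := by
    unfold DS
    rw [der_sub, rv_sub db.pow.der hf.schur.1.der hf.abs_lt, rv_sub db.pow hf.schur.1 hf.abs_lt,
      bla_rv hp hl, bla_rv_der hp hl, hf.zero, hm.slope_eq, hD]
    ring
  have hB : B g (bla ρ - g) = -(q g - g 0 / ρ + (1 + ρ) ^ 2 / 4) := by
    rw [B_sub hf.d2 db hf.d2, bla_B hm]; unfold q; ring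
  set m := min 0 (DS ρ g u) with hmdef
  have m0 : m ≤ 0 := min_le_left _ _
  have m1 : m ≤ DS ρ g u := min_le_right _ _
  refine le_of_forall_pos_le_add fun η hη => ?_
  have hν1 : 0 < ν + 1 := by linarith
  set ζ := η / (ν + 1) with hζ
  have hζ0 : 0 < ζ := div_pos hη hν1
  have hζ1 : ν * ζ ≤ η := by
    rw [hζ, ← mul_div_assoc, div_le_iff₀ hν1]; nlinarith
  set τ := (ζ - m) / D with hτ
  have hτ0 : 0 ≤ τ := div_nonneg (by linarith) hD0.le
  have hτD : τ * D = ζ - m := by rw [hτ]; field_simp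
  have h1 := hm.var_aux (Dir.add_smul hf.schur.1 hd hdir hτ0) (Or.inr ⟨hm.slope_eq, by
    rw [DS_add_smul hd.1 hdir.1 hp hl, hDS, hτD]; linarith⟩)
  rw [B_add hf.d2 hd.1 (hdir.1.smul τ), B_smul, hB] at h1
  have h2 := mul_le_mul_of_nonneg_left hν hτ0
  have h3 : τ * (ν * D) = ν * ζ - ν * m := by
    calc τ * (ν * D) = ν * (τ * D) := by ring
      _ = _ := by rw [hτD]; ring
  nlinarith

/-- Coefficients of the dilation. -/
def dil (g : ℕ → ℝ) (r : ℝ) : ℕ → ℝ := fun n => g n * r ^ n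

theorem dil_d2 (hg : D2 g) {r : ℝ} (h0 : 0 ≤ r) (h1 : r ≤ 1) : D2 (dil g r) := by
  refine Summable.of_nonneg_of_le (fun k => by positivity) (fun k => ?_) hg
  have h2 : (r ^ (k + 1)) ^ 2 ≤ 1 := pow_le_one₀ (by positivity) (pow_le_one₀ h0 h1)
  have h3 : 0 ≤ (k : ℝ) * g (k + 1) ^ 2 := by positivity
  simp only [dil, mul_pow]
  nlinarith

theorem dil_ev (g : ℕ → ℝ) (r : ℝ) (s : ℂ) : ev (dil g r) s = ev g (r * s) := by
  unfold ev
  congr 1
  funext n
  simp only [dil]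
  push_cast
  ring

theorem dil_rv (g : ℕ → ℝ) (r x : ℝ) : rv (dil g r) x = rv g (r * x) := by
  unfold rv
  congr 1
  funext n
  simp only [dil]
  ring

theorem dil_der (g : ℕ → ℝ) (r : ℝ) : der (dil g r) = r • dil (der g) r := by
  funext n
  simp only [dil, der, Pi.smul_apply, smul_eq_mul]
  ring

theorem dil_schur (hg : Schur g) (hd : D2 g) {r : ℝ} (h0 : 0 ≤ r) (h1 : r ≤ 1) :
    Schur (dil g r) := by
  refine ⟨(dil_d2 hd h0 h1).pow, fun s hs => ?_⟩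
  rw [dil_ev]
  apply hg.2
  rw [norm_mul, Complex.norm_real, Real.norm_of_nonneg h0]
  nlinarith [norm_nonneg s]

theorem IsMax.regular_aux (hm : IsMax ρ g) (h0 : 0 ≤ ν)
    (hν : 2 * (q g - g 0 / ρ + (1 + ρ) ^ 2 / 4) ≤ ν * (1 / (1 - ρ ^ 2) - kap ρ)) (N : ℕ) :
    2 * ∑ k ∈ Finset.range N, (k : ℝ) * g (k + 1) ^ 2 * (k + 1) ≤ ν * (kap ρ + ρ * kap1 ρ) := by
  have hf := hm.1
  have hk := var_kap_pos hf.pos hf.lt
  have hk1 := var_kap1_pos hf.lt
  have hp := hf.pos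
  set c := (rv (der (der g)) ρ + kap1 ρ) / kap ρ with hc
  set φ : ℝ → ℝ := fun t => -((1 - t) * rv (der g) ((1 - t) * ρ) - rv (der g) ρ) -
    c * (rv g ((1 - t) * ρ) - rv g ρ) with hφ
  have hr : HasDerivAt (fun t : ℝ => 1 - t) (-1) 0 := (hasDerivAt_id (0 : ℝ)).const_sub 1
  have hx : HasDerivAt (fun t : ℝ => (1 - t) * ρ) (-1 * ρ) 0 := hr.mul_const ρ
  have hG : HasDerivAt (fun t : ℝ => rv g ((1 - t) * ρ)) (rv (der g) ρ * (-1 * ρ)) 0 :=
    HasDerivAt.comp_of_eq (0 : ℝ) (hasDerivAt_rv hf.schur.1 hf.abs_lt) hx (by simp)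
  have hG1 : HasDerivAt (fun t : ℝ => rv (der g) ((1 - t) * ρ))
      (rv (der (der g)) ρ * (-1 * ρ)) 0 :=
    HasDerivAt.comp_of_eq (0 : ℝ) (hasDerivAt_rv hf.schur.1.der hf.abs_lt) hx (by simp)
  have hφ' : HasDerivAt φ (-(kap ρ + ρ * kap1 ρ)) 0 := by
    refine ((((hr.fun_mul hG1).sub_const (rv (der g) ρ)).fun_neg).fun_sub
      ((hG.sub_const (rv g ρ)).const_mul c)).congr_deriv ?_
    simp only [sub_zero, one_mul]
    rw [hc, hm.slope_eq]
    field_simp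
    ring
  have hφ0 : φ 0 = 0 := by simp [hφ]
  have ev1 := var_pos_of_deriv hφ'.fun_neg (by simp [hφ0]) (by
    rw [neg_neg]; positivity)
  have hP : HasDerivAt (fun t : ℝ => ∑ k ∈ Finset.range N,
      (k : ℝ) * g (k + 1) ^ 2 * (1 - (1 - t) ^ (k + 1)))
      (∑ k ∈ Finset.range N, (k : ℝ) * g (k + 1) ^ 2 * (k + 1)) 0 := by
    refine HasDerivAt.fun_sum fun k _ => ?_
    refine (((hr.fun_pow (k + 1)).const_sub 1).const_mul _).congr_deriv ?_
    simp
  by_contra hcon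
  push Not at hcon
  have ev2 := var_pos_of_deriv ((hP.const_mul 2).fun_add (hφ'.const_mul ν)) (by simp [hφ0])
    (by linarith)
  obtain ⟨t, ⟨a1, a2⟩, a3, a4⟩ := ((ev1.and ev2).and (Ioo_mem_nhdsGT (zero_lt_one' ℝ))).exists
  have r0 : 0 ≤ 1 - t := by linarith
  have r1 : 1 - t ≤ 1 := by linarith
  have dd := dil_d2 hf.d2 r0 r1
  have h1 := hm.var_nu h0 hν (Dir.of_schur hf.schur hf.d2 (dil_schur hf.schur hf.d2 r0 r1) dd)
  have h2 : DS ρ g (dil g (1 - t) - g) = φ t := by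
    unfold DS
    rw [der_sub, rv_sub dd.pow.der hf.schur.1.der hf.abs_lt, rv_sub dd.pow hf.schur.1 hf.abs_lt,
      dil_der, rv_smul, dil_rv, dil_rv]
  have h3 : ∑ k ∈ Finset.range N, (k : ℝ) * g (k + 1) ^ 2 * (1 - (1 - t) ^ (k + 1)) ≤
      B g (dil g (1 - t) - g) := by
    have s1 := (hf.d2.summable_ip (dd.sub hf.d2)).hasSum.neg
    have e1 : B g (dil g (1 - t) - g) = -ip g (dil g (1 - t) - g) := by simp [B, dil]
    rw [e1]
    refine le_trans (le_of_eq ?_) (sum_le_hasSum (Finset.range N) (fun k _ => ?_) s1)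
    · refine Finset.sum_congr rfl fun k _ => ?_
      simp only [dil, Pi.sub_apply]
      ring
    · have : (1 - t) ^ (k + 1) ≤ 1 := pow_le_one₀ r0 r1
      have h5 : 0 ≤ (k : ℝ) * g (k + 1) ^ 2 * (1 - (1 - t) ^ (k + 1)) :=
        mul_nonneg (by positivity) (by linarith)
      simp only [dil, Pi.sub_apply]
      nlinarith
  rw [h2, min_eq_right (by linarith)] at h1
  linarith

theorem IsMax.regular (hm : IsMax ρ g) (h0 : 0 ≤ ν)
    (hν : 2 * (q g - g 0 / ρ + (1 + ρ) ^ 2 / 4) ≤ ν * (1 / (1 - ρ ^ 2) - kap ρ)) :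
    (Summable fun n => der g n ^ 2) ∧
      ∑' n, der g n ^ 2 ≤ g 1 ^ 2 + ν * (kap ρ + ρ * kap1 ρ) / 2 + 2 * nrm g ^ 2 := by
  have key : ∀ N, ∑ n ∈ Finset.range N, der g n ^ 2 ≤
      g 1 ^ 2 + ν * (kap ρ + ρ * kap1 ρ) / 2 + 2 * nrm g ^ 2 := by
    intro N
    have h1 := hm.regular_aux h0 hν N
    have h2 : ∑ k ∈ Finset.range N, (k : ℝ) * g (k + 1) ^ 2 ≤ nrm g ^ 2 := by
      rw [nrm_sq]
      refine le_trans (le_of_eq ?_) (sum_le_hasSum (Finset.range N) (fun k _ => ?_)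
        (hm.1.d2.summable_ip hm.1.d2).hasSum)
      · exact Finset.sum_congr rfl fun k _ => by ring
      · exact mul_nonneg (Nat.cast_nonneg _) (mul_self_nonneg _)
    have h3 : ∑ k ∈ Finset.range N, (if k = 0 then g 1 ^ 2 else 0) ≤ g 1 ^ 2 := by
      rw [Finset.sum_ite_eq']
      split_ifs
      · exact le_rfl
      · positivity
    have h4 : ∑ n ∈ Finset.range N, der g n ^ 2 ≤ ∑ k ∈ Finset.range N,
        ((if k = 0 then g 1 ^ 2 else 0) + (k : ℝ) * g (k + 1) ^ 2 * (k + 1) +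
          2 * ((k : ℝ) * g (k + 1) ^ 2)) := by
      refine Finset.sum_le_sum fun k _ => ?_
      by_cases hk : k = 0
      · subst hk; simp [der]
      · have h5 : (1 : ℝ) ≤ k := by exact_mod_cast Nat.one_le_iff_ne_zero.2 hk
        simp only [hk, if_false, der]
        nlinarith [mul_nonneg (sub_nonneg.2 h5) (sq_nonneg (g (k + 1)))]
    rw [Finset.sum_add_distrib, Finset.sum_add_distrib, ← Finset.mul_sum] at h4
    linarith
  exact ⟨summable_of_sum_range_le (fun n => sq_nonneg _) key,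
    Real.tsum_le_of_sum_range_le (fun n => sq_nonneg _) key⟩

/-- The analytic function with real part `Re (conj (a + b s) δ) - |a + b s| ^ 2 / 2` on the circle. -/
def pp (a b : ℝ) (δ : ℕ → ℝ) : ℕ → ℝ :=
  a • δ + b • (shift δ + (Pi.single 1 (δ 0) : ℕ → ℝ)) -
    ((Pi.single 0 ((a ^ 2 + b ^ 2) / 2) : ℕ → ℝ) + (Pi.single 1 (a * b) : ℕ → ℝ))

theorem D2.pp (hh : D2 h) (a b : ℝ) : D2 (pp a b h) :=
  ((hh.smul a).add ((hh.shift.add (D2.single _ _)).smul b)).sub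
    ((D2.single _ _).add (D2.single _ _))

theorem pp_ev (hh : D2 h) (a b : ℝ) {s : ℂ} (hs : ‖s‖ < 1) :
    ev (pp a b h) s = a * ev h s + b * (ev (shift h) s + h 0 * s) -
      (((a ^ 2 + b ^ 2) / 2 : ℝ) + (a * b : ℝ) * s) := by
  unfold pp
  rw [ev_sub ((hh.smul a).add ((hh.shift.add (D2.single _ _)).smul b)).pow
      ((D2.single _ _).add (D2.single _ _)).pow hs,
    ev_add (hh.smul a).pow ((hh.shift.add (D2.single _ _)).smul b).pow hs,
    ev_add (D2.single _ _).pow (D2.single _ _).pow hs, ev_smul, ev_smul,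
    ev_add hh.shift.pow (D2.single _ _).pow hs, ev_single, ev_single, ev_single]
  ring

theorem var_re_le (a b d : ℝ) (σ s : ℂ) :
    2 * ((a : ℂ) * (d + s * σ) + b * (σ + d * s) -
      (((a ^ 2 + b ^ 2) / 2 : ℝ) + (a * b : ℝ) * s)).re ≤
      ‖(d : ℂ) + s * σ‖ ^ 2 + (2 * b * σ.re - b ^ 2) * (1 - ‖s‖ ^ 2) := by
  rw [Complex.sq_norm, Complex.sq_norm, Complex.normSq_apply, Complex.normSq_apply]
  simp only [sub_re, add_re, mul_re, ofReal_re, ofReal_im, add_im, mul_im, zero_mul, sub_zero,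
    zero_add, add_zero]
  nlinarith [sq_nonneg (d + (s.re * σ.re - s.im * σ.im) - (a + b * s.re)),
    sq_nonneg (s.re * σ.im + s.im * σ.re - b * s.im)]

theorem var_norm_id (G H p : ℂ) (e : ℝ) :
    ‖G + e * (H - G + G * p)‖ ^ 2 = (1 - e) * ‖G‖ ^ 2 + e * ‖H‖ ^ 2 - e * ‖H - G‖ ^ 2 +
      e * (‖G‖ ^ 2 * (2 * p.re)) + e ^ 2 * ‖H - G + G * p‖ ^ 2 := by
  simp only [Complex.sq_norm, Complex.normSq_apply, sub_re, add_re, mul_re, ofReal_re, ofReal_im,
    add_im, mul_im, sub_im, zero_mul, sub_zero, add_zero]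
  ring

theorem dir_pair (hg : Schur g) (hd : D2 g) (hr : Summable fun n => der g n ^ 2) (hh : Schur h)
    (hd' : D2 h) (a b : ℝ) : Dir g (h - g + cmul g (pp a b (h - g))) := by
  have dδ := hd'.sub hd
  have dp := dδ.pp a b
  have dall := dδ.add (hg.d2_cmul hr dp).1
  set P := 2 * |a| + 10 * |b| + (a ^ 2 + b ^ 2) / 2 + |a * b| with hP
  refine ⟨dall, (2 + P) ^ 2, 1, one_pos, by positivity, fun ε e0 e1 s hs => ?_⟩
  refine norm_sq_le_of_boundary
    (G := fun s => ev g s + ε * ev (h - g + cmul g (pp a b (h - g))) s) (C := ε * (16 * |b|))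
    ((differentiableOn_ev hg.1).add ((differentiableOn_ev dall.pow).const_mul _)) ?_ hs
  intro s s0 s1
  have hG := hg.2 s s1
  have hH := hh.2 s s1
  have eΔ : ev (h - g) s = ev h s - ev g s := ev_sub hh.1 hg.1 s1
  have hΔ : ‖ev (h - g) s‖ ≤ 2 := by
    rw [eΔ]; linarith [norm_sub_le (ev h s) (ev g s)]
  have hd0 : |(h - g) 0| ≤ 2 := by
    have := abs_sub (h 0) (g 0)
    simp only [Pi.sub_apply]
    linarith [hg.abs_le 0, hh.abs_le 0]
  have esh := ev_shift dδ.pow s1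
  set σ := ev (shift (h - g)) s with hσ
  set d := (h - g) 0 with hd0def
  have hσ8 : ‖σ‖ ≤ 8 := by
    have e2 : s * σ = ev (h - g) s - d := by rw [esh]; ring
    have e3 : ‖s‖ * ‖σ‖ ≤ 4 := by
      rw [← norm_mul, e2]
      have := norm_sub_le (ev (h - g) s) (d : ℂ)
      rw [Complex.norm_real, Real.norm_eq_abs] at this
      linarith
    nlinarith [norm_nonneg σ]
  have ep := pp_ev dδ a b s1
  rw [← hσ, ← hd0def] at ep
  set p := ev (pp a b (h - g)) s with hp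
  have hs2 : 0 ≤ 1 - ‖s‖ ^ 2 := by nlinarith [norm_nonneg s]
  have hre : 2 * p.re ≤ ‖ev (h - g) s‖ ^ 2 + 16 * |b| * (1 - ‖s‖ ^ 2) := by
    have h1 := var_re_le a b d σ s
    rw [← esh, ← ep] at h1
    have h2 : b * σ.re ≤ |b| * 8 := by
      refine (le_abs_self _).trans ?_
      rw [abs_mul]
      exact mul_le_mul_of_nonneg_left ((Complex.abs_re_le_norm σ).trans hσ8) (abs_nonneg _)
    have h3 : (2 * b * σ.re - b ^ 2) * (1 - ‖s‖ ^ 2) ≤ 16 * |b| * (1 - ‖s‖ ^ 2) :=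
      mul_le_mul_of_nonneg_right (by nlinarith [sq_nonneg b]) hs2
    linarith
  have hpn : ‖p‖ ≤ P := by
    rw [ep]
    have n1 : ‖(a : ℂ) * ev (h - g) s‖ ≤ |a| * 2 := by
      rw [norm_mul, Complex.norm_real, Real.norm_eq_abs]; gcongr
    have n2 : ‖(d : ℂ) * s‖ ≤ 2 := by
      rw [norm_mul, Complex.norm_real, Real.norm_eq_abs]
      nlinarith [norm_nonneg s, abs_nonneg d]
    have n3 : ‖(b : ℂ) * (σ + d * s)‖ ≤ |b| * 10 := by
      rw [norm_mul, Complex.norm_real, Real.norm_eq_abs]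
      gcongr
      linarith [norm_add_le σ (d * s)]
    have n4 : ‖(((a ^ 2 + b ^ 2) / 2 : ℝ) : ℂ)‖ = (a ^ 2 + b ^ 2) / 2 := by
      rw [Complex.norm_real, Real.norm_of_nonneg (by positivity)]
    have n5 : ‖((a * b : ℝ) : ℂ) * s‖ ≤ |a * b| := by
      rw [norm_mul, Complex.norm_real, Real.norm_eq_abs]
      nlinarith [norm_nonneg s, abs_nonneg (a * b)]
    have n6 := norm_add_le ((a : ℂ) * ev (h - g) s) ((b : ℂ) * (σ + d * s))
    have n7 := norm_add_le ((((a ^ 2 + b ^ 2) / 2 : ℝ) : ℂ)) (((a * b : ℝ) : ℂ) * s)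
    have n8 := norm_sub_le ((a : ℂ) * ev (h - g) s + (b : ℂ) * (σ + d * s))
      ((((a ^ 2 + b ^ 2) / 2 : ℝ) : ℂ) + ((a * b : ℝ) : ℂ) * s)
    rw [hP]
    linarith
  show ‖ev g s + ε * ev (h - g + cmul g (pp a b (h - g))) s‖ ^ 2 ≤ _
  rw [ev_add dδ.pow (hg.1.cmul dp.pow) s1, ev_cmul hg.1 dp.pow s1, ← hp, eΔ, var_norm_id]
  rw [eΔ] at hre hΔ
  set G := ev g s
  set H := ev h s
  have g2 : ‖G‖ ^ 2 ≤ 1 := pow_le_one₀ (norm_nonneg _) hG
  have h2 : ‖H‖ ^ 2 ≤ 1 := pow_le_one₀ (norm_nonneg _) hH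
  have t1 : ‖G‖ ^ 2 * (2 * p.re) ≤ ‖H - G‖ ^ 2 + 16 * |b| * (1 - ‖s‖ ^ 2) := by
    have t0 : 0 ≤ ‖H - G‖ ^ 2 + 16 * |b| * (1 - ‖s‖ ^ 2) := by positivity
    calc _ ≤ ‖G‖ ^ 2 * (‖H - G‖ ^ 2 + 16 * |b| * (1 - ‖s‖ ^ 2)) :=
          mul_le_mul_of_nonneg_left hre (sq_nonneg _)
      _ ≤ 1 * _ := mul_le_mul_of_nonneg_right g2 t0
      _ = _ := one_mul _
  have t2 : ‖H - G + G * p‖ ≤ 2 + P := by
    have t3 := norm_add_le (H - G) (G * p)
    rw [norm_mul] at t3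
    nlinarith [norm_nonneg G, norm_nonneg p]
  have t4 : ‖H - G + G * p‖ ^ 2 ≤ (2 + P) ^ 2 := by gcongr
  have t5 := mul_le_mul_of_nonneg_left t1 e0.le
  have t6 := mul_le_mul_of_nonneg_left t4 (sq_nonneg ε)
  have t7 := mul_le_mul_of_nonneg_left g2 (show 0 ≤ 1 - ε by linarith)
  have t8 := mul_le_mul_of_nonneg_left h2 e0.le
  nlinarith

end Pool.Agent.Lib.MP_9b2593_an.Uq
end
end

-- part Pool.Agent.Lib.MP_9b2593_an.Uq.Node
section

/-!
Dual certificates for the relaxed problem at a node, and their checker.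
-/

open Complex Metric Set MeasureTheory

namespace Pool.Agent.Lib.MP_9b2593_an.Uq

def qlow : ℚ := 0.2385811

def dot : List ℤ → List ℤ → ℤ
  | a :: as, b :: bs => a * b + dot as bs
  | _, _ => 0

def corr (v : List ℤ) : List ℤ → List ℤ
  | [] => []
  | b :: bs => dot v (b :: bs) :: corr v bs

def sq (l : List ℤ) (n : ℕ) : ℚ := (l.getD n 0 : ℤ) / 10 ^ 11

def kapq (x : ℚ) : ℚ := (1 + x) / (4 * (1 - x))

structure Sm where
  ρ : ℚ
  ν1 : ℚ
  ν2 : ℚ
  b : ℚ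
  r : ℚ
  r0 : ℚ

def yq (c : List ℤ) (s : Sm) (n : ℕ) : ℚ :=
  (c.getD n 0 : ℤ) / 10 ^ 22 + s.ν1 * s.ρ ^ n + s.ν2 * n * s.ρ ^ (n - 1)

def gtq (c : List ℤ) (s : Sm) (n : ℕ) : ℚ := yq c s n / (2 * (1 - n))

def tailq (K x : ℚ) (T : ℕ) : ℚ :=
  K ^ 2 / 2 * ((x ^ 2) ^ T * (T + 1 - T * x ^ 2) / (1 - x ^ 2) ^ 2)

def chkNode (P u v : List ℤ) (T : ℕ) (s : Sm) : Bool :=
  decide (0 < s.ρ ∧ s.ρ < 1 ∧ u.length ≤ T + 1 ∧ P.length ≤ T + 1 ∧ 1 ≤ T ∧ 0 ≤ s.r) &&
  decide (0 < gtq (corr v u) s 0 ∧ |gtq (corr v u) s 0 - sq P 0| ≤ s.r0) &&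
  decide (qlow ≤ gtq (corr v u) s 0 ^ 2 -
    (∑ k ∈ Finset.range T, (k : ℚ) * gtq (corr v u) s (k + 1) ^ 2 +
      tailq (|s.ν1| + |s.ν2|) s.ρ T)) &&
  decide (∑ k ∈ Finset.range T, (k : ℚ) * (gtq (corr v u) s (k + 1) - sq P (k + 1)) ^ 2 +
      tailq (|s.ν1| + |s.ν2|) s.ρ T ≤ s.r ^ 2) &&
  decide (((dot u u + dot v v : ℤ) : ℚ) / (2 * 10 ^ 22) + |yq (corr v u) s 1| ≤
    2 * s.b + s.ν2 * kapq s.ρ)

noncomputable section

def sr (l : List ℤ) : ℕ → ℝ := fun n => (sq l n : ℝ)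

def NodeOK (P : List ℤ) (s : Sm) : Prop :=
  0 < s.ρ ∧ s.ρ < 1 ∧ ∃ gt : ℕ → ℝ, D2 gt ∧ 0 < gt 0 ∧ (qlow : ℝ) ≤ q gt ∧
    nrm (gt - sr P) ≤ s.r ∧ |gt 0 - sr P 0| ≤ s.r0 ∧ ∀ g, Schur g → D2 g →
      2 * B gt g ≤ 2 * s.b + s.ν2 * kap s.ρ + s.ν1 * rv g s.ρ + s.ν2 * rv (der g) s.ρ

theorem kapq_cast (x : ℚ) : ((kapq x : ℚ) : ℝ) = kap x := by
  simp [kapq, kap]

theorem sr_zero {l : List ℤ} {n : ℕ} (h : l.length ≤ n) : sr l n = 0 := by
  simp only [sr, sq, List.getD_eq_default _ _ h]; simp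

theorem hs_eq {f g : ℕ → ℝ} {a b : ℝ} (h : HasSum f a) (hf : ∀ n, g n = f n) (hb : b = a) :
    HasSum g b := by
  rw [funext hf, hb]; exact h

theorem sr_d2 (l : List ℤ) : D2 (sr l) := D2.of_eventually_zero l.length fun _ h => sr_zero h

theorem sr_cons_zero (a : ℤ) (l : List ℤ) : sr (a :: l) 0 = a / 10 ^ 11 := by simp [sr, sq]

theorem shift_sr (a : ℤ) (l : List ℤ) : shift (sr (a :: l)) = sr l := by
  funext n; simp [sr, sq, shift]

theorem shift_sr' (l : List ℤ) : shift (sr l) = sr l.tail := by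
  cases l with
  | nil => funext n; simp [sr, sq, shift]
  | cons a l => exact shift_sr a l

theorem corr_length (v u : List ℤ) : (corr v u).length = u.length := by
  induction u with
  | nil => rfl
  | cons b bs ih => simp [corr, ih]

/-- Pairing of a sequence with a list. -/
def lp (g : ℕ → ℝ) : List ℤ → ℝ
  | [] => 0
  | b :: bs => g 0 * b + lp (shift g) bs

theorem lp_add (g h : ℕ → ℝ) (c : ℝ) (l : List ℤ) : lp (c • g + h) l = c * lp g l + lp h l := by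
  induction l generalizing g h with
  | nil => simp [lp]
  | cons b bs ih =>
    have : shift (c • g + h) = c • shift g + shift h := rfl
    simp only [lp, this, ih, Pi.add_apply, Pi.smul_apply, smul_eq_mul]; ring

theorem lp_sr (v u : List ℤ) : lp (sr v) u = (dot v u : ℝ) / 10 ^ 11 := by
  induction u generalizing v with
  | nil => cases v <;> simp [lp, dot]
  | cons b bs ih =>
    cases v with
    | nil =>
      have h := ih []
      have : shift (sr []) = sr [] := shift_sr' []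
      rw [lp, this, h]
      cases bs <;> simp [dot, sr, sq]
    | cons a as => rw [lp, shift_sr, ih, sr_cons_zero]; simp only [dot]; push_cast; ring

theorem shift_cmul (g h : ℕ → ℝ) : shift (cmul g h) = g 0 • shift h + cmul (shift g) h := by
  funext n
  simp only [shift, cmul, Pi.add_apply, Pi.smul_apply, smul_eq_mul]
  rw [Finset.Nat.sum_antidiagonal_succ]

theorem lp_corr (g : ℕ → ℝ) (v u : List ℤ) :
    lp g (corr v u) = 10 ^ 11 * lp (cmul g (sr v)) u := by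
  induction u generalizing g with
  | nil => simp [lp, corr]
  | cons b bs ih =>
    have h := lp_sr v (b :: bs)
    rw [lp] at h
    rw [corr, lp, lp, ih, shift_cmul, lp_add]
    have : cmul g (sr v) 0 = g 0 * sr v 0 := by simp [cmul]
    rw [this]
    have h2 : (dot v (b :: bs) : ℝ) = 10 ^ 11 * (sr v 0 * b + lp (shift (sr v)) bs) := by
      rw [h]; ring
    rw [h2]; ring

theorem hasSum_lp (g : ℕ → ℝ) (l : List ℤ) :
    HasSum (fun n => g n * (l.getD n 0 : ℤ)) (lp g l) := by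
  induction l generalizing g with
  | nil => simp [lp, hasSum_zero]
  | cons b bs ih =>
    rw [← hasSum_nat_add_iff' 1]
    simpa [lp, shift] using ih (shift g)

theorem hasSum_sr_sq (l : List ℤ) : HasSum (fun n => sr l n ^ 2) ((dot l l : ℝ) / 10 ^ 22) := by
  have h := (hasSum_lp (sr l) l).div_const (10 ^ 11)
  rw [lp_sr] at h
  exact hs_eq h (fun n => by simp only [sr, sq]; push_cast; ring) (by ring)

theorem lp_corr_le {g : ℕ → ℝ} (hg : Schur g) (u v : List ℤ) :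
    lp g (corr v u) / 10 ^ 22 ≤ ((dot u u + dot v v : ℤ) : ℝ) / (2 * 10 ^ 22) := by
  obtain ⟨h1, h2⟩ := hg.cmul_hardy (hasSum_sr_sq v).summable
  rw [(hasSum_sr_sq v).tsum_eq] at h2
  have h3 := (hasSum_lp (cmul g (sr v)) u).div_const (10 ^ 11)
  have h4 := (h1.hasSum.add (hasSum_sr_sq u)).div_const 2
  have h5 := hasSum_le (fun n => ?_) h3 h4
  · rw [lp_corr]; push_cast; linarith
  · have : sr u n = ((u.getD n 0 : ℤ) : ℝ) / 10 ^ 11 := by simp [sr, sq]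
    rw [mul_div_assoc, ← this]
    nlinarith [sq_nonneg (cmul g (sr v) n - sr u n)]

theorem ip_le_of_tail {f : ℕ → ℝ} {K x : ℝ} {T : ℕ} (hT : 1 ≤ T) (h0 : 0 ≤ x) (h1 : x < 1)
    (hf : ∀ k, T ≤ k → 2 * k * |f (k + 1)| ≤ K * ((k + 1) * x ^ k)) :
    D2 f ∧ ip f f ≤ ∑ k ∈ Finset.range T, (k : ℝ) * f (k + 1) ^ 2 +
      K ^ 2 / 2 * ((x ^ 2) ^ T * (T + 1 - T * x ^ 2) / (1 - x ^ 2) ^ 2) := by
  have hs := (hasSum_tail1 (y := x ^ 2) (by positivity) (by nlinarith) T).mul_left (K ^ 2 / 2)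
  have hle : ∀ k : ℕ, ((k + T : ℕ) : ℝ) * f (k + T + 1) ^ 2 ≤
      K ^ 2 / 2 * (((k : ℝ) + T + 1) * (x ^ 2) ^ (k + T)) := by
    intro k
    have h := hf (k + T) (by omega)
    have hk : (1 : ℝ) ≤ ((k + T : ℕ) : ℝ) := by exact_mod_cast (by omega : 1 ≤ k + T)
    push_cast at h hk ⊢
    set m : ℝ := k + T
    have h2 : (2 * m * |f (k + T + 1)|) ^ 2 ≤ (K * ((m + 1) * x ^ (k + T))) ^ 2 :=
      pow_le_pow_left₀ (by positivity) h 2
    rw [mul_pow, sq_abs] at h2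
    rw [← pow_mul, mul_comm 2 (k + T), pow_mul]
    have h3 : 0 ≤ K ^ 2 * (x ^ (k + T)) ^ 2 := by positivity
    have h4 : 4 * m * (m * f (k + T + 1) ^ 2) ≤
        4 * m * (K ^ 2 / 2 * ((m + 1) * (x ^ (k + T)) ^ 2)) := by
      nlinarith [mul_nonneg h3 (mul_nonneg (by linarith : 0 ≤ m + 1) (by linarith : 0 ≤ m - 1))]
    exact le_of_mul_le_mul_left h4 (by linarith)
  have hsum : Summable fun k : ℕ => ((k + T : ℕ) : ℝ) * f (k + T + 1) ^ 2 :=
    Summable.of_nonneg_of_le (fun k => by positivity) hle hs.summable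
  have hd : D2 f := (summable_nat_add_iff T).1 hsum
  refine ⟨hd, ?_⟩
  have : ip f f = ∑' k : ℕ, (k : ℝ) * f (k + 1) ^ 2 := by simp only [ip, pow_two]
  rw [this, ← hd.sum_add_tsum_nat_add T, ← hs.tsum_eq]
  exact add_le_add le_rfl (hsum.tsum_le_tsum hle hs.summable)

theorem hasSum_der {g : ℕ → ℝ} (hg : Pow g) {x : ℝ} (hx : |x| < 1) :
    HasSum (fun n : ℕ => g n * (n * x ^ (n - 1))) (rv (der g) x) := by
  rw [← hasSum_nat_add_iff' 1]
  exact hs_eq (hg.der.summable_rv hx).hasSum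
    (fun n => by simp only [der, Nat.add_sub_cancel]; push_cast; ring) (by simp [rv])

theorem chkNode_sound {P u v : List ℤ} {T : ℕ} {s : Sm} (h : chkNode P u v T s = true) :
    NodeOK P s := by
  simp only [chkNode, Bool.and_eq_true, decide_eq_true_eq] at h
  obtain ⟨⟨⟨⟨⟨p0, p1, lu, lP, hT, hr⟩, g0, g1⟩, hq⟩, hd⟩, hb⟩ := h
  set c := corr v u with hc
  have p0' : (0 : ℝ) < s.ρ := by exact_mod_cast p0
  have p1' : (s.ρ : ℝ) < 1 := by exact_mod_cast p1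
  have hx : |(s.ρ : ℝ)| < 1 := by rwa [abs_of_pos p0']
  let y : ℕ → ℝ := fun n => (yq c s n : ℝ)
  let gt : ℕ → ℝ := fun n => (gtq c s n : ℝ)
  have hy : ∀ n, y n = ((c.getD n 0 : ℤ) : ℝ) / 10 ^ 22 + s.ν1 * (s.ρ : ℝ) ^ n +
      s.ν2 * (n * (s.ρ : ℝ) ^ (n - 1)) := fun n => by simp only [y, yq]; push_cast; ring
  have hgt : ∀ k : ℕ, 1 ≤ k → 2 * k * gt (k + 1) = -y (k + 1) := fun k hk => by
    have : (k : ℝ) ≠ 0 := by positivity
    simp only [gt, y, gtq]; push_cast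
    rw [show (2 : ℝ) * (1 - (k + 1)) = -(2 * k) by ring]; field_simp
  have htail : ∀ k, T ≤ k → 2 * k * |gt (k + 1)| ≤
      (|(s.ν1 : ℝ)| + |(s.ν2 : ℝ)|) * ((k + 1) * (s.ρ : ℝ) ^ k) := fun k hk => by
    have h1 : 2 * k * |gt (k + 1)| = |y (k + 1)| := by
      rw [← abs_neg (y _), ← hgt k (by omega), abs_mul, abs_of_nonneg (by positivity : (0 : ℝ) ≤ 2 * k)]
    have h2 : c.getD (k + 1) 0 = 0 := List.getD_eq_default _ _ (by rw [hc, corr_length]; omega)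
    rw [h1, hy, h2]
    push_cast
    simp only [zero_div, zero_add]
    refine (abs_add_le _ _).trans ?_
    have h3 : (0 : ℝ) ≤ (s.ρ : ℝ) ^ k := by positivity
    rw [abs_mul, abs_mul, abs_of_nonneg (by positivity : (0 : ℝ) ≤ (s.ρ : ℝ) ^ (k + 1)),
      abs_of_nonneg (by positivity : (0 : ℝ) ≤ (k + 1) * (s.ρ : ℝ) ^ k), add_mul |(s.ν1 : ℝ)|, pow_succ]
    refine add_le_add (mul_le_mul_of_nonneg_left ?_ (abs_nonneg _)) le_rfl
    nlinarith [mul_nonneg h3 (Nat.cast_nonneg (α := ℝ) k)]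
  obtain ⟨d1, i1⟩ := ip_le_of_tail hT p0'.le p1' htail
  obtain ⟨-, i2⟩ := ip_le_of_tail (f := gt - sr P) hT p0'.le p1' fun k hk => by
    simpa [sr_zero (l := P) (n := k + 1) (by omega)] using htail k hk
  refine ⟨p0, p1, gt, d1, (Rat.cast_pos (K := ℝ)).2 g0, ?_, ?_, ?_, fun g hg hg2 => ?_⟩
  · have : ((qlow : ℚ) : ℝ) ≤ _ := Rat.cast_le.2 hq
    simp only [tailq] at this
    push_cast at this
    simp only [q, B]
    linarith
  · have : _ ≤ ((s.r ^ 2 : ℚ) : ℝ) := Rat.cast_le.2 hd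
    simp only [tailq] at this
    push_cast at this
    refine Real.sqrt_le_iff.2 ⟨by exact_mod_cast hr, i2.trans this⟩
  · simp only [gt, sr]; exact_mod_cast g1
  · have hb' : _ ≤ ((2 * s.b + s.ν2 * kapq s.ρ : ℚ) : ℝ) := Rat.cast_le.2 hb
    have hl := lp_corr_le hg u v
    push_cast [kapq_cast] at hb' hl
    have s1 := (((hasSum_lp g c).div_const (10 ^ 22)).add
      ((hg.1.summable_rv hx).hasSum.mul_left (s.ν1 : ℝ))).add
      ((hasSum_der hg.1 hx).mul_left (s.ν2 : ℝ))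
    have s2 : HasSum (fun n => g n * y n) _ := s1.congr_fun (fun n => by rw [hy]; ring) 
    have s3 := (hasSum_nat_add_iff' 2).2 s2
    have s4 := (hasSum_nat_add_iff' 1).2 ((d1.summable_ip hg2).hasSum.mul_left (-2))
    have s5 := s3.unique (s4.congr_fun fun n => by
      have := hgt (n + 1) (by omega)
      rw [show n + 2 = n + 1 + 1 from rfl, ← neg_neg (y _), ← this]; ring)
    have y0 : y 0 = 2 * gt 0 := by simp only [gt, y, gtq]; push_cast; ring
    have h1 : -(g 1 * y 1) ≤ |y 1| := by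
      refine (neg_le_abs _).trans ?_
      rw [abs_mul]; exact mul_le_of_le_one_left (abs_nonneg _) (hg.abs_le 1)
    simp only [Finset.sum_range_succ, Finset.sum_range_zero, y0] at s5
    simp only [B, ip, rv] at s5 ⊢
    push_cast at s5
    linarith

end

end Pool.Agent.Lib.MP_9b2593_an.Uq
end
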