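import Pool.Agent.Lib.MP_9b2593_an.Uq.Defs

-- part Pool.Agent.Lib.MP_9b2593_an.Uq.Logs
section

/-!
Holomorphic logarithms on circularly symmetric domains.
-/

open Complex Metric Set MeasureTheory

noncomputable section

namespace Pool.Agent.Lib.MP_9b2593_an.Uq

theorem HasLog.union {U V : Set ℂ} (hU : IsOpen U) (hV : IsOpen V) (h1 : HasLog U)
    (h2 : HasLog V) (hc : IsPreconnected (U ∩ V)) : HasLog (U ∪ V) := by
  classical
  intro h hd h0
  obtain ⟨L1, hL1, e1⟩ := h1 h (hd.mono subset_union_left) fun z hz => h0 z (Or.inl hz)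
  obtain ⟨L2, hL2, e2⟩ := h2 h (hd.mono subset_union_right) fun z hz => h0 z (Or.inr hz)
  have hW : IsOpen (U ∩ V) := hU.inter hV
  have hdd : DifferentiableOn ℂ (fun z => L1 z - L2 z) (U ∩ V) :=
    (hL1.mono inter_subset_left).sub (hL2.mono inter_subset_right)
  have hexp : ∀ z ∈ U ∩ V, exp (L1 z - L2 z) = 1 := by
    intro z hz
    rw [exp_sub, e1 z hz.1, e2 z hz.2, div_self (h0 z (Or.inl hz.1))]
  have hder : EqOn (deriv fun z => L1 z - L2 z) 0 (U ∩ V) := by
    intro z hz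
    have hz' : U ∩ V ∈ nhds z := hW.mem_nhds hz
    have hd1 := (hdd.differentiableAt hz').hasDerivAt
    have hd2 := hd1.cexp
    have hev : (fun z => exp (L1 z - L2 z)) =ᶠ[nhds z] fun _ => 1 := by
      filter_upwards [hz'] with w hw using hexp w hw
    have hd3 : HasDerivAt (fun z => exp (L1 z - L2 z)) 0 z :=
      (hasDerivAt_const z (1 : ℂ)).congr_of_eventuallyEq hev
    have := hd2.unique hd3
    rcases mul_eq_zero.1 this with h' | h'
    · exact absurd h' (exp_ne_zero _)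
    · exact h'
  obtain ⟨c, hc1, hc2⟩ : ∃ c : ℂ, exp c = 1 ∧ ∀ z ∈ U ∩ V, L1 z - L2 z = c := by
    rcases (U ∩ V).eq_empty_or_nonempty with he | ⟨z0, hz0⟩
    · exact ⟨0, exp_zero, fun z hz => by rw [he] at hz; exact hz.elim⟩
    · exact ⟨_, hexp z0 hz0, fun z hz => hW.is_const_of_deriv_eq_zero hc hdd hder hz hz0⟩
  refine ⟨fun z => if z ∈ U then L1 z else L2 z + c, ?_, ?_⟩
  · intro z hz
    apply DifferentiableAt.differentiableWithinAt
    rcases hz with hz | hz
    · have hz' : U ∈ nhds z := hU.mem_nhds hz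
      refine (hL1.differentiableAt hz').congr_of_eventuallyEq ?_
      filter_upwards [hz'] with w hw
      rw [if_pos hw]
    · have hz' : V ∈ nhds z := hV.mem_nhds hz
      refine ((hL2.differentiableAt hz').add_const c).congr_of_eventuallyEq ?_
      filter_upwards [hz'] with w hw
      by_cases hwU : w ∈ U
      · rw [if_pos hwU, ← hc2 w ⟨hwU, hw⟩]
        ring
      · rw [if_neg hwU]
  · intro z hz
    by_cases hzU : z ∈ U
    · simp only [if_pos hzU]
      exact e1 z hzU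
    · simp only [if_neg hzU]
      rw [exp_add, hc1, mul_one]
      exact e2 z (hz.resolve_left hzU)

/-- Open simply connected sets have holomorphic logarithms. -/
theorem hasLog_of_simplyConnected {U : Set ℂ} (hU : IsOpen U) (hc : IsSimplyConnected U) :
    HasLog U := by
  intro h hd h0
  have hn : (0 : ℂ) ∉ h '' U := by
    rintro ⟨z, hz, e⟩
    exact h0 z hz e
  obtain ⟨L, hL, e⟩ := exists_continuousOn_eqOn_exp_comp hc hU hd.continuousOn hn
  refine ⟨L, ?_, fun z hz => e hz⟩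
  intro z hz
  apply DifferentiableAt.differentiableWithinAt
  have hz' : U ∈ nhds z := hU.mem_nhds hz
  have hLc : ContinuousAt L z := hL.continuousAt hz'
  have h1 : ∀ᶠ w in nhds z, dist (L w) (L z) < Real.pi :=
    (Metric.continuousAt_iff'.1 hLc) _ Real.pi_pos
  have hda : DifferentiableAt ℂ (fun w => L z + log (h w / h z)) z := by
    refine DifferentiableAt.const_add _ (DifferentiableAt.clog ?_ ?_)
    · exact (hd.differentiableAt hz').div_const _
    · rw [div_self (h0 z hz)]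
      exact one_mem_slitPlane
  refine hda.congr_of_eventuallyEq ?_
  filter_upwards [hz', h1] with w hw hw1
  have e1 : exp (L w) = h w := e hw
  have e2 : exp (L z) = h z := e hz
  have him : |(L w - L z).im| < Real.pi := by
    rw [dist_eq_norm] at hw1
    exact (abs_im_le_norm _).trans_lt hw1
  rw [abs_lt] at him
  rw [← e1, ← e2, ← exp_sub, log_exp him.1 him.2.le]
  ring

theorem hasLog_of_convex {U : Set ℂ} (hU : IsOpen U) (hc : Convex ℝ U) : HasLog U := by
  rcases U.eq_empty_or_nonempty with he | hne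
  · intro h _ _
    refine ⟨fun _ => 0, differentiableOn_const _, fun z hz => ?_⟩
    rw [he] at hz
    exact hz.elim
  · have := hc.contractibleSpace hne
    exact hasLog_of_simplyConnected hU (SimplyConnectedSpace.ofContractible U)

theorem HasLog.of_biholo {U V : Set ℂ} (hU : HasLog U) {α β : ℂ → ℂ}
    (hα : DifferentiableOn ℂ α U) (hβ : DifferentiableOn ℂ β V) (mα : MapsTo α U V)
    (mβ : MapsTo β V U) (hi : ∀ w ∈ V, α (β w) = w) : HasLog V := by
  intro h hd h0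
  obtain ⟨L, hL, e⟩ := hU (h ∘ α) (hd.comp hα mα) fun z hz => h0 _ (mα hz)
  refine ⟨L ∘ β, hL.comp hβ mβ, fun w hw => ?_⟩
  have := e (β w) (mβ hw)
  simpa only [Function.comp_apply, hi w hw] using this

/-- The logarithmic picture of the slit part of `D`. -/
def logDom (D : Set ℂ) : Set ℂ := {z | z.im ∈ Ioo (-Real.pi) Real.pi ∧ exp z ∈ D}

theorem SymD.logDom_open {D : Set ℂ} {m : ℝ} (h : SymD D m) : IsOpen (logDom D) :=
  (isOpen_Ioo.preimage continuous_im).inter (h.isOpen.preimage continuous_exp)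

theorem SymD.real_mem_logDom {D : Set ℂ} {m : ℝ} (h : SymD D m) (x : ℝ) :
    (x : ℂ) ∈ logDom D := by
  refine ⟨?_, ?_⟩
  · rw [ofReal_im]
    exact ⟨neg_lt_zero.2 Real.pi_pos, Real.pi_pos⟩
  · rw [← ofReal_exp]
    exact h.posReal _ (Real.exp_pos x)

theorem SymD.vert_mem_logDom {D : Set ℂ} {m : ℝ} (h : SymD D m) {z : ℂ} (hz : z ∈ logDom D)
    {s : ℝ} (h0 : 0 ≤ s) (h1 : s ≤ 1) : (z.re : ℂ) + ((s * z.im : ℝ) : ℂ) * I ∈ logDom D := by
  have hy : |z.im| < Real.pi := abs_lt.2 hz.1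
  have hsy : |s * z.im| ≤ |z.im| := by
    rw [abs_mul, abs_of_nonneg h0]
    exact mul_le_of_le_one_left (abs_nonneg _) h1
  have him : ((z.re : ℂ) + ((s * z.im : ℝ) : ℂ) * I).im = s * z.im := by simp
  have hre : ((z.re : ℂ) + ((s * z.im : ℝ) : ℂ) * I).re = z.re := by simp
  refine ⟨?_, ?_⟩
  · rw [him]
    exact abs_lt.1 (hsy.trans_lt hy)
  · by_contra hn
    refine h.sym _ hn (exp z) ?_ ?_ hz.2
    · rw [norm_exp, norm_exp, hre]
    · rw [exp_re, exp_re, hre, him]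
      refine mul_le_mul_of_nonneg_left ?_ (Real.exp_pos _).le
      rw [← Real.cos_abs z.im, ← Real.cos_abs (s * z.im)]
      exact Real.cos_le_cos_of_nonneg_of_le_pi (abs_nonneg _) hy.le hsy

theorem SymD.logDom_contractible {D : Set ℂ} {m : ℝ} (h : SymD D m) :
    ContractibleSpace (logDom D) := by
  have hmem : ∀ (t : ℝ) (z : ℂ), 0 ≤ t → z ∈ logDom D →
      ((min 1 (2 - 2 * t) * z.re : ℝ) : ℂ) + ((max 0 (1 - 2 * t) * z.im : ℝ) : ℂ) * I ∈
        logDom D := by
    intro t z ht hz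
    rcases le_total t (1 / 2) with h1 | h1
    · rw [min_eq_left (by linarith), one_mul]
      exact h.vert_mem_logDom hz (le_max_left _ _) (max_le zero_le_one (by linarith))
    · rw [max_eq_left (by linarith), zero_mul, ofReal_zero, zero_mul, add_zero]
      exact h.real_mem_logDom _
  have h00 : (0 : ℂ) ∈ logDom D := by simpa using h.real_mem_logDom 0
  refine (contractible_iff_id_nullhomotopic _).2 ⟨⟨0, h00⟩,
    ⟨⟨⟨fun p => ⟨_, hmem p.1.1 p.2.1 p.1.2.1 p.2.2⟩, ?_⟩, fun x => ?_, fun x => ?_⟩⟩⟩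
  · fun_prop
  · apply Subtype.ext
    norm_num
  · apply Subtype.ext
    norm_num

theorem SymD.exp_mapsTo {D : Set ℂ} : MapsTo exp (logDom D) (D ∩ slitPlane) := fun _ hz =>
  ⟨hz.2, expOpenPartialHomeomorph.map_source hz.1⟩

theorem SymD.log_mapsTo {D : Set ℂ} : MapsTo log (D ∩ slitPlane) (logDom D) := fun w hw =>
  ⟨expOpenPartialHomeomorph.map_target hw.2, by
    rw [exp_log (slitPlane_ne_zero hw.2)]
    exact hw.1⟩

theorem SymD.eq_union {D : Set ℂ} {m : ℝ} (h : SymD D m) : D = ball 0 m ∪ D ∩ slitPlane := by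
  apply Subset.antisymm
  · intro w hw
    by_cases hs : w ∈ slitPlane
    · exact Or.inr ⟨hw, hs⟩
    · left
      rw [mem_slitPlane_iff, not_or, not_lt, not_not] at hs
      have e : w = -((-w.re : ℝ) : ℂ) := by
        apply Complex.ext <;> simp [hs.2]
      rw [mem_ball_zero_iff]
      by_contra hn
      rw [not_lt, e, norm_neg, norm_real, Real.norm_of_nonneg (by linarith [hs.1])] at hn
      apply h.negReal _ hn
      rw [← e]
      exact hw
  · rintro w (hw | hw)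
    · exact h.ball_sub hw
    · exact hw.1

theorem SymD.half_mem {D : Set ℂ} {m : ℝ} (h : SymD D m) :
    ((m / 2 : ℝ) : ℂ) ∈ ball (0 : ℂ) m ∩ slitPlane := by
  have hm := h.pos
  refine ⟨?_, ofReal_mem_slitPlane.2 (by linarith)⟩
  rw [mem_ball_zero_iff, norm_real, Real.norm_of_nonneg (by linarith)]
  linarith

theorem SymD.preconnected {D : Set ℂ} {m : ℝ} (h : SymD D m) : IsPreconnected D := by
  have := h.logDom_contractible
  have h1 : IsPreconnected (logDom D) :=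
    (isPathConnected_iff_pathConnectedSpace.2 inferInstance).isConnected.isPreconnected
  have h2 : IsPreconnected (exp '' logDom D) := h1.image _ continuous_exp.continuousOn
  have h3 : exp '' logDom D = D ∩ slitPlane := by
    apply Subset.antisymm (SymD.exp_mapsTo).image_subset
    intro w hw
    exact ⟨log w, SymD.log_mapsTo hw, exp_log (slitPlane_ne_zero hw.2)⟩
  rw [h3] at h2
  rw [h.eq_union]
  exact IsPreconnected.union _ h.half_mem.1 ⟨h.ball_sub h.half_mem.1, h.half_mem.2⟩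
    (convex_ball 0 m).isPreconnected h2

theorem SymD.hasLog {D : Set ℂ} {m : ℝ} (h : SymD D m) : HasLog D := by
  have := h.logDom_contractible
  have h1 : HasLog (logDom D) :=
    hasLog_of_simplyConnected h.logDom_open (SimplyConnectedSpace.ofContractible _)
  have h2 : HasLog (D ∩ slitPlane) :=
    h1.of_biholo differentiable_exp.differentiableOn
      (differentiableOn_id.clog fun w hw => hw.2) SymD.exp_mapsTo SymD.log_mapsTo
      fun w hw => exp_log (slitPlane_ne_zero hw.2)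
  have h3 : ball 0 m ∩ (D ∩ slitPlane) = ball 0 m ∩ slitPlane := by
    ext w
    exact ⟨fun hw => ⟨hw.1, hw.2.2⟩, fun hw => ⟨hw.1, h.ball_sub hw.1, hw.2⟩⟩
  have hm := h.pos
  have h4 : IsPreconnected (ball 0 m ∩ (D ∩ slitPlane)) := by
    rw [h3]
    exact ((((convex_ball 0 m).starConvex h.half_mem.1).inter
      (starConvex_ofReal_slitPlane (by linarith))).isPathConnected
      h.half_mem).isConnected.isPreconnected
  rw [h.eq_union]
  exact HasLog.union isOpen_ball (h.isOpen.inter isOpen_slitPlane)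
    (hasLog_of_convex isOpen_ball (convex_ball 0 m)) h2 h4

/-- The domain `D ∪ (-∞, -1) ∪ {∞}` in the coordinate `ω = 1 / (w + 1)`. -/
def extDom (D : Set ℂ) : Set ℂ := {ω | ω.re < 1 / 2 ∨ (ω ≠ 0 ∧ 1 / ω - 1 ∈ D)}

theorem SymD.extDom {D : Set ℂ} {m : ℝ} (h : SymD D m) (hm : m < 1)
    (hout : ∀ w : ℂ, 1 < ‖w‖ → (0 < w.re ∨ w.im ≠ 0) → w ∈ D) :
    IsOpen (extDom D) ∧ IsPreconnected (extDom D) ∧ HasLog (extDom D) ∧ extDom D ≠ univ := by
  set U1 : Set ℂ := {ω | ω.re < 1 / 2} with hU1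
  set U2 : Set ℂ := {ω | ω ≠ 0 ∧ 1 / ω - 1 ∈ D} with hU2
  have hE : Uq.extDom D = U1 ∪ U2 := rfl
  have o1 : IsOpen U1 := isOpen_lt continuous_re continuous_const
  have c1 : Convex ℝ U1 := convex_halfSpace_re_lt _
  have dβ : DifferentiableOn ℂ (fun ω : ℂ => 1 / ω - 1) {ω | ω ≠ 0} :=
    ((differentiableOn_const _).div differentiableOn_id fun ω hω => hω).sub_const _
  have o2 : IsOpen U2 := dβ.continuousOn.isOpen_inter_preimage isOpen_ne h.isOpen
  have hne : ∀ w ∈ D, w + 1 ≠ 0 := by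
    intro w hw e
    apply h.negReal 1 hm.le
    have : -((1 : ℝ) : ℂ) = w := by
      rw [ofReal_one]
      linear_combination -e
    rw [this]
    exact hw
  have dα : DifferentiableOn ℂ (fun w : ℂ => 1 / (w + 1)) D :=
    (differentiableOn_const _).div (differentiableOn_id.add_const _) hne
  have mα : MapsTo (fun w : ℂ => 1 / (w + 1)) D U2 := by
    intro w hw
    refine ⟨one_div_ne_zero (hne w hw), ?_⟩
    rw [one_div_one_div, add_sub_cancel_right]
    exact hw
  have mβ : MapsTo (fun ω : ℂ => 1 / ω - 1) U2 D := fun ω hω => hω.2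
  have hi : ∀ ω ∈ U2, 1 / (1 / ω - 1 + 1) = ω := by
    intro ω _
    rw [sub_add_cancel, one_div_one_div]
  have l2 : HasLog U2 := h.hasLog.of_biholo dα (dβ.mono fun ω hω => hω.1) mα mβ hi
  have p2 : IsPreconnected U2 := by
    have : (fun w : ℂ => 1 / (w + 1)) '' D = U2 := by
      apply Subset.antisymm mα.image_subset
      intro ω hω
      exact ⟨_, mβ hω, hi ω hω⟩
    rw [← this]
    exact h.preconnected.image _ dα.continuousOn
  have hI : U1 ∩ U2 = U1 ∩ slitPlane := by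
    ext ω
    constructor
    · rintro ⟨h1, h2, h3⟩
      refine ⟨h1, ?_⟩
      by_contra hs
      rw [mem_slitPlane_iff, not_or, not_lt, not_not] at hs
      have e : ω = ((ω.re : ℝ) : ℂ) := by
        apply Complex.ext <;> simp [hs.2]
      have hr : ω.re < 0 := by
        refine lt_of_le_of_ne hs.1 fun e0 => h2 ?_
        rw [e, e0, ofReal_zero]
      have hp : 0 < -(1 / ω.re) := neg_pos.2 (one_div_neg.2 hr)
      apply h.negReal (1 - 1 / ω.re) (by linarith)
      have : -((1 - 1 / ω.re : ℝ) : ℂ) = 1 / ω - 1 := by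
        conv_rhs => rw [e]
        push_cast
        ring
      rw [this]
      exact h3
    · rintro ⟨h1, h2⟩
      have h0 : ω ≠ 0 := slitPlane_ne_zero h2
      have h1' : ω.re < 1 / 2 := h1
      refine ⟨h1, h0, hout _ ?_ ?_⟩
      · have e : 1 / ω - 1 = (1 - ω) / ω := by field_simp
        rw [e, norm_div, one_lt_div (norm_pos_iff.2 h0)]
        apply lt_of_pow_lt_pow_left₀ 2 (norm_nonneg _)
        rw [Complex.sq_norm, Complex.sq_norm, normSq_apply, normSq_apply]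
        simp only [sub_re, one_re, sub_im, one_im]
        nlinarith
      · have hN : 0 < normSq ω := normSq_pos.2 h0
        by_cases him : ω.im = 0
        · left
          have hr : 0 < ω.re := (mem_slitPlane_iff.1 h2).resolve_right (not_not.2 him)
          have e : ω = ((ω.re : ℝ) : ℂ) := by
            apply Complex.ext <;> simp [him]
          have e2 : 1 / ω - 1 = ((1 / ω.re - 1 : ℝ) : ℂ) := by
            conv_lhs => rw [e]
            push_cast
            ring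
          rw [e2, ofReal_re, sub_pos, one_lt_div hr]
          linarith
        · right
          rw [sub_im, one_im, sub_zero, one_div, inv_im]
          exact div_ne_zero (neg_ne_zero.2 him) hN.ne'
  have q1 : ((1 / 4 : ℝ) : ℂ) ∈ U1 ∩ slitPlane := by
    refine ⟨?_, ofReal_mem_slitPlane.2 (by norm_num)⟩
    show ((1 / 4 : ℝ) : ℂ).re < 1 / 2
    rw [ofReal_re]
    norm_num
  have pI : IsPreconnected (U1 ∩ U2) := by
    rw [hI]
    exact (((c1.starConvex q1.1).inter
      (starConvex_ofReal_slitPlane (by norm_num))).isPathConnected q1).isConnected.isPreconnected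
  have q2 : ((1 / 4 : ℝ) : ℂ) ∈ U1 ∩ U2 := by
    rw [hI]
    exact q1
  rw [hE]
  refine ⟨o1.union o2, IsPreconnected.union _ q2.1 q2.2 c1.isPreconnected p2,
    HasLog.union o1 o2 (hasLog_of_convex o1 c1) l2 pI, ?_⟩
  intro hu
  have hm0 := h.pos
  have : ((1 / (1 - m) : ℝ) : ℂ) ∈ U1 ∪ U2 := hu ▸ mem_univ _
  rcases this with h1 | h1
  · have h1' : ((1 / (1 - m) : ℝ) : ℂ).re < 1 / 2 := h1
    rw [ofReal_re, div_lt_div_iff₀ (by linarith) (by norm_num)] at h1'
    linarith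
  · apply h.negReal m le_rfl
    have e : 1 / ((1 / (1 - m) : ℝ) : ℂ) - 1 = -(m : ℂ) := by
      push_cast
      rw [one_div_one_div]
      ring
    rw [← e]
    exact h1.2

end Pool.Agent.Lib.MP_9b2593_an.Uq
end
end

-- part Pool.Agent.Lib.MP_9b2593_an.Uq.Cheb
section

/-!
Chebyshev constants: omitted sets and contractions.
-/

open Complex Metric Set MeasureTheory

noncomputable section

namespace Pool.Agent.Lib.MP_9b2593_an.Uq

namespace ChebAux

open Filter Topology Polynomial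

/-- A uniform bound for `w / (w - f z)` over omitted values `w` and a compact disc. -/
theorem omit_bound {f : ℂ → ℂ} (hf : DifferentiableOn ℂ f (ball 0 1)) (h1 : deriv f 0 ≠ 0)
    {r : ℝ} (hr : r < 1) : ∃ M : ℝ, ∀ w ∉ f '' ball 0 1, ∀ z ∈ closedBall (0 : ℂ) r,
      ‖w / (w - f z)‖ ≤ M := by
  have hsub : closedBall (0 : ℂ) r ⊆ ball 0 1 := closedBall_subset_ball hr
  have ho : IsOpen (f '' ball 0 1) := by
    rcases (hf.analyticOnNhd isOpen_ball).is_constant_or_isOpen (convex_ball 0 1).isPreconnected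
      with ⟨c, hc⟩ | h
    · refine absurd ?_ h1
      rw [(show f =ᶠ[𝓝 0] fun _ => c from
        Filter.eventually_of_mem (ball_mem_nhds 0 one_pos) hc).deriv_eq, deriv_const]
    · exact h _ subset_rfl isOpen_ball
  have hK : IsCompact (f '' closedBall 0 r) :=
    (isCompact_closedBall 0 r).image_of_continuousOn (hf.continuousOn.mono hsub)
  obtain ⟨d, hd, hth⟩ := hK.exists_thickening_subset_open ho (image_mono hsub)
  obtain ⟨M, hM⟩ := hK.isBounded.exists_norm_le
  refine ⟨1 + M / d, fun w hw z hz => ?_⟩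
  have h2 : d ≤ ‖w - f z‖ := not_lt.1 fun h => hw (hth (mem_thickening_iff.2
    ⟨f z, mem_image_of_mem f hz, by rwa [dist_eq_norm]⟩))
  have h3 := hM _ (mem_image_of_mem f hz)
  have h4 : ‖w‖ ≤ ‖w - f z‖ + ‖f z‖ := by simpa using norm_add_le (w - f z) (f z)
  have h5 : M ≤ M / d * ‖w - f z‖ := by
    rw [div_mul_eq_mul_div, le_div_iff₀ hd]
    exact mul_le_mul_of_nonneg_left h2 ((norm_nonneg _).trans h3)
  rw [norm_div, div_le_iff₀ (hd.trans_le h2)]
  linarith

/-- The coefficient polynomials of `1 / (1 - ω f)`. -/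
theorem exists_poly {g : ℂ → ℂ} {r : ℝ} (hr : 0 < r) (hg : DifferentiableOn ℂ g (closedBall 0 r))
    (h0 : g 0 ≠ 0) (n : ℕ) : ∃ P : ℂ[X], P.Monic ∧ P.natDegree = n ∧ ∀ (w : ℂ) (M : ℝ), w ≠ 0 →
      (∀ z ∈ closedBall (0 : ℂ) r, w ≠ z * g z ∧ ‖w / (w - z * g z)‖ ≤ M) →
      ‖P.eval w⁻¹‖ * (‖g 0‖ * r) ^ n ≤ M := by
  have hz : ∀ z ∈ sphere (0 : ℂ) r, z ≠ 0 := fun z hz => ne_of_mem_sphere hz hr.ne'
  have hc : ContinuousOn g (sphere 0 r) := hg.continuousOn.mono sphere_subset_closedBall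
  let b : ℕ → ℂ := fun k => ∮ z in C(0, r), (z * g z) ^ k / z ^ (n + 1)
  have hi : ∀ k, CircleIntegrable (fun z => (z * g z) ^ k / z ^ (n + 1)) 0 r := fun k =>
    ContinuousOn.circleIntegrable hr.le (((continuousOn_id.mul hc).pow k).div
      (continuousOn_id.pow _) fun z h => pow_ne_zero _ (hz z h))
  have hb : b n = 2 * Real.pi * I * g 0 ^ n := by
    refine Eq.trans (circleIntegral.integral_congr hr.le fun z h => ?_)
      ((hg.pow n).circleIntegral_sub_inv_smul (mem_ball_self hr))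
    have := hz z h
    simp only [sub_zero, smul_eq_mul, Pi.pow_apply, mul_pow]
    field_simp
    ring
  have hb0 : b n ≠ 0 := by
    rw [hb]
    exact mul_ne_zero two_pi_I_ne_zero (pow_ne_zero _ h0)
  have hd := degree_sum_fin_lt fun k : Fin n => b k / b n
  refine ⟨X ^ n + ∑ k : Fin n, C (b k / b n) * X ^ (k : ℕ), monic_X_pow_add hd, ?_,
    fun w M hw hM => ?_⟩
  · rw [natDegree_add_eq_left_of_degree_lt (by rwa [degree_X_pow]), natDegree_X_pow]
  have hne : ∀ z ∈ closedBall (0 : ℂ) r, w - z * g z ≠ 0 := fun z h => sub_ne_zero.2 (hM z h).1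
  have hq : DifferentiableOn ℂ (fun z => w / (w - z * g z)) (closedBall 0 r) :=
    (differentiableOn_const w).div
      ((differentiableOn_const w).sub (differentiableOn_id.mul hg)) hne
  have hR : DifferentiableOn ℂ (fun z => z * (w⁻¹ * g z) ^ (n + 1) * (w / (w - z * g z)))
      (closedBall 0 r) := (differentiableOn_id.mul ((hg.const_mul _).pow _)).mul hq
  have e1 : b n * eval w⁻¹ (X ^ n + ∑ k : Fin n, C (b k / b n) * X ^ (k : ℕ)) =
      ∑ k ∈ Finset.range (n + 1), w⁻¹ ^ k * b k := by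
    rw [Finset.sum_range_succ, eval_add, eval_finsetSum, mul_add, Finset.mul_sum, add_comm,
      Finset.sum_range]
    congr 1
    · refine Finset.sum_congr rfl fun k _ => ?_
      simp only [eval_mul, eval_C, eval_pow, eval_X]
      field_simp
    · simp [mul_comm]
  have e2 : ∑ k ∈ Finset.range (n + 1), w⁻¹ ^ k * b k =
      ∮ z in C(0, r), w / (w - z * g z) / z ^ (n + 1) := by
    have i1 : CircleIntegrable (fun z => w / (w - z * g z) / z ^ (n + 1)) 0 r :=
      ContinuousOn.circleIntegrable hr.le ((hq.continuousOn.mono sphere_subset_closedBall).div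
        (continuousOn_id.pow _) fun z h => pow_ne_zero _ (hz z h))
    have i2 : CircleIntegrable (fun z => (z - 0)⁻¹ •
        (z * (w⁻¹ * g z) ^ (n + 1) * (w / (w - z * g z)))) 0 r :=
      ContinuousOn.circleIntegrable hr.le (((continuousOn_id.sub continuousOn_const).inv₀
        fun z h => by simpa using hz z h).smul (hR.continuousOn.mono sphere_subset_closedBall))
    have i3 := hR.circleIntegral_sub_inv_smul (mem_ball_self hr)
    rw [zero_mul, zero_mul, smul_zero] at i3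
    have i4 := circleIntegral.integral_sub i1 i2
    rw [i3, sub_zero] at i4
    rw [← i4]
    simp only [b, ← circleIntegral.integral_const_mul]
    rw [← circleIntegral.integral_fun_sum (c := 0) (R := r)
      (f := fun k z => w⁻¹ ^ k * ((z * g z) ^ k / z ^ (n + 1))) fun k _ =>
        show IntervalIntegrable _ _ _ _ from (hi k).const_mul (w⁻¹ ^ k)]
    refine circleIntegral.integral_congr hr.le fun z h => ?_
    have h1 := hz z h
    have h2 := hne z (sphere_subset_closedBall h)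
    have h3 := mul_neg_geom_sum (w⁻¹ * (z * g z)) (n + 1)
    have h4 : 1 - w⁻¹ * (z * g z) = (w - z * g z) / w := by field_simp
    have h5 : ∑ k ∈ Finset.range (n + 1), (w⁻¹ * (z * g z)) ^ k =
        w / (w - z * g z) * (1 - (w⁻¹ * (z * g z)) ^ (n + 1)) := by
      rw [← h3, h4]
      field_simp
    simp only [← mul_div_assoc, ← mul_pow, ← Finset.sum_div, h5, sub_zero, smul_eq_mul]
    rw [mul_left_comm w⁻¹, mul_pow]
    field_simp
  have e3 : ‖∮ z in C(0, r), w / (w - z * g z) / z ^ (n + 1)‖ ≤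
      2 * Real.pi * r * (M / r ^ (n + 1)) :=
    circleIntegral.norm_integral_le_of_norm_le_const hr.le fun z h => by
      rw [norm_div, norm_pow, mem_sphere_zero_iff_norm.1 h]
      exact div_le_div_of_nonneg_right (hM z (sphere_subset_closedBall h)).2 (by positivity)
  rw [← e2, ← e1, norm_mul] at e3
  generalize ‖eval w⁻¹ (X ^ n + ∑ k : Fin n, C (b k / b n) * X ^ (k : ℕ))‖ = E at e3 ⊢
  have e4 : ‖b n‖ = 2 * Real.pi * ‖g 0‖ ^ n := by
    simp [hb, abs_of_pos Real.pi_pos]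
  have e5 : 2 * Real.pi * r * (M / r ^ (n + 1)) = 2 * Real.pi * (M / r ^ n) := by
    field_simp
    ring
  rw [e4, e5, mul_assoc, mul_le_mul_iff_right₀ Real.two_pi_pos, le_div_iff₀ (by positivity)] at e3
  rw [mul_pow]
  linarith

/-- Leja points. -/
theorem leja {Y : Set ℂ} {θ : ℝ} (h0 : 0 < θ) (h : ¬Cheb θ Y) (N : ℕ) :
    ∃ y : Fin N → ℂ, (∀ i, y i ∈ Y) ∧
      ∏ j ∈ Finset.range N, θ ^ j ≤ ∏ i, ∏ j ∈ Finset.Ioi i, ‖y j - y i‖ := by
  have key : ∀ n, ∀ P : ℂ[X], P.Monic → P.natDegree = n → ∃ ω ∈ Y, θ ^ n ≤ ‖P.eval ω‖ := by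
    have H : ∀ n, 0 < n → ∀ P : ℂ[X], P.Monic → P.natDegree = n →
        ∃ ω ∈ Y, θ ^ n ≤ ‖P.eval ω‖ := fun n hn P h1 h2 => by
      by_contra! hc
      exact h ⟨n, hn, P, h1, h2, fun ω hω => (hc ω hω).le⟩
    intro n P h1 h2
    rcases n.eq_zero_or_pos with rfl | hn
    · obtain ⟨ω, hω, -⟩ := H 1 one_pos X monic_X natDegree_X
      exact ⟨ω, hω, by simp [h1.natDegree_eq_zero.1 h2]⟩
    · exact H n hn P h1 h2
  induction N with
  | zero => exact ⟨Fin.elim0, fun i => i.elim0, by simp⟩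
  | succ N ih =>
    obtain ⟨y, h1, h2⟩ := ih
    obtain ⟨ω, hω, h3⟩ := key N (∏ j, (X - C (y j)))
      (monic_prod_of_monic _ _ fun j _ => monic_X_sub_C _) (by simp)
    refine ⟨Fin.cons ω y, fun i => Fin.cases hω h1 i, ?_⟩
    rw [Finset.prod_range_succ, Fin.prod_univ_succ, Fin.prod_Ioi_zero, mul_comm]
    simp only [Fin.prod_Ioi_succ, Fin.cons_succ, Fin.cons_zero]
    refine mul_le_mul (h3.trans_eq ?_) h2 (by positivity) (by positivity)
    simp [eval_prod, norm_sub_rev]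

/-- The upper bound for Vandermonde products. -/
theorem vander {X₀ : Set ℂ} {θ : ℝ} (h : Cheb θ X₀) (hX : Bornology.IsBounded X₀) (h0 : 0 < θ) :
    ∃ M : ℝ, 0 < M ∧ ∀ N, ∀ x : Fin N → ℂ, (∀ i, x i ∈ X₀) →
      ∏ i, ∏ j ∈ Finset.Ioi i, ‖x j - x i‖ ≤
        N.factorial * ∏ j ∈ Finset.range N, M * θ ^ j := by
  obtain ⟨n, hn, P, h1, h2, h3⟩ := h
  obtain ⟨R, hR⟩ := hX.exists_norm_le
  have hm : 1 ≤ max 1 (R / θ) := le_max_left _ _
  refine ⟨max 1 (R / θ) ^ n, by positivity, fun N x hx => ?_⟩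
  have hb : ∀ j : ℕ, ∀ ω ∈ X₀, ‖(P ^ (j / n) * X ^ (j % n)).eval ω‖ ≤
      max 1 (R / θ) ^ n * θ ^ j := fun j ω hω => by
    have a1 : ‖ω‖ ≤ max 1 (R / θ) * θ :=
      (hR ω hω).trans ((div_le_iff₀ h0).1 (le_max_right _ _))
    rw [eval_mul, eval_pow, eval_pow, eval_X, norm_mul, norm_pow, norm_pow]
    calc ‖P.eval ω‖ ^ (j / n) * ‖ω‖ ^ (j % n)
        ≤ (θ ^ n) ^ (j / n) * (max 1 (R / θ) * θ) ^ (j % n) := by
          gcongr
          exact h3 ω hω
      _ = max 1 (R / θ) ^ (j % n) * θ ^ (n * (j / n) + j % n) := by ring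
      _ ≤ _ := by
          rw [Nat.div_add_mod]
          gcongr
          exact (Nat.mod_lt j hn).le
  have e1 : ∏ i, ∏ j ∈ Finset.Ioi i, ‖x j - x i‖ = ‖(Matrix.vandermonde x).det‖ := by
    simp [Matrix.det_vandermonde]
  rw [e1, Matrix.det_eval_matrixOfPolynomials_eq_det_vandermonde x
    (fun j => P ^ ((j : ℕ) / n) * X ^ ((j : ℕ) % n)) (fun j => by
      rw [(h1.pow _).natDegree_mul (monic_X_pow _), h1.natDegree_pow, h2, natDegree_X_pow,
        Nat.div_add_mod']) fun j => (h1.pow _).mul (monic_X_pow _), Matrix.det_apply]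
  refine (norm_sum_le _ _).trans ((Finset.sum_le_card_nsmul _ _ _ fun σ _ => ?_).trans_eq
    (by rw [Finset.card_univ, Fintype.card_perm, Fintype.card_fin, nsmul_eq_mul]))
  rw [norm_units_zsmul, norm_prod, Finset.prod_range]
  exact Finset.prod_le_prod (fun _ _ => norm_nonneg _) fun j _ => hb j _ (hx _)

end ChebAux

open ChebAux Filter Topology

theorem cheb_omitted {f : ℂ → ℂ} (hf : DifferentiableOn ℂ f (ball 0 1)) (h0 : f 0 = 0)
    (h1 : deriv f 0 ≠ 0) {θ : ℝ} (hθ : 1 / ‖deriv f 0‖ < θ) :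
    Cheb θ ((fun w => w⁻¹) '' (f '' ball 0 1)ᶜ) := by
  have ha : 0 < ‖deriv f 0‖ := norm_pos_iff.2 h1
  have h2 : 1 < θ * ‖deriv f 0‖ := (div_lt_iff₀ ha).1 hθ
  obtain ⟨r, hr1, hr2⟩ := exists_between (inv_lt_one_of_one_lt₀ h2)
  have hr : 0 < r := (inv_pos.2 (one_pos.trans h2)).trans hr1
  have h3 : 1 < θ * (‖deriv f 0‖ * r) := by
    rw [← mul_assoc]
    exact (inv_lt_iff_one_lt_mul₀' (one_pos.trans h2)).1 hr1
  have hsub : closedBall (0 : ℂ) r ⊆ ball 0 1 := closedBall_subset_ball hr2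
  have hg : ∀ z, z * dslope f 0 z = f z := fun z => by
    simpa [h0] using sub_smul_dslope f 0 z
  obtain ⟨M, hM⟩ := omit_bound hf h1 hr2
  obtain ⟨n, hn1, hn2⟩ := (((tendsto_pow_atTop_atTop_of_one_lt h3).eventually_ge_atTop M).and
    (eventually_gt_atTop 0)).exists
  obtain ⟨P, p1, p2, p3⟩ := exists_poly hr
    (((differentiableOn_dslope (ball_mem_nhds 0 one_pos)).2 hf).mono hsub) (by simpa using h1) n
  refine ⟨n, hn2, P, p1, p2, ?_⟩
  rintro _ ⟨w, hw, rfl⟩
  have h4 := p3 w M (fun h => hw ⟨0, mem_ball_self one_pos, h0.trans h.symm⟩) fun z hz => by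
    rw [hg]
    exact ⟨fun h => hw ⟨z, hsub hz, h.symm⟩, hM w hw z hz⟩
  rw [dslope_same] at h4
  rw [mul_pow] at hn1
  exact le_of_mul_le_mul_right (h4.trans hn1) (by positivity)

theorem Cheb.contract {X Y : Set ℂ} {θ θ' : ℝ} (h : Cheb θ X) (hX : Bornology.IsBounded X)
    (h0 : 0 < θ) (hθ : θ < θ') (T : ℂ → ℂ) (hT : MapsTo T Y X)
    (hc : ∀ a ∈ Y, ∀ b ∈ Y, ‖a - b‖ ≤ ‖T a - T b‖) : Cheb θ' Y := by
  by_contra hY
  have h0' := h0.trans hθ
  obtain ⟨M, hM, H⟩ := vander h hX h0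
  let u : ℕ → ℝ := fun N => N.factorial * ∏ j ∈ Finset.range N, M * (θ / θ') ^ j
  have h1 : ∀ N, 1 ≤ u N := fun N => by
    obtain ⟨y, y1, y2⟩ := leja h0' hY N
    have h2 := y2.trans ((Finset.prod_le_prod (fun _ _ => by positivity) fun i _ =>
      Finset.prod_le_prod (fun _ _ => norm_nonneg _) fun j _ => hc _ (y1 j) _ (y1 i)).trans
        (H N (fun i => T (y i)) fun i => hT (y1 i)))
    simp only [u, div_pow, ← mul_div_assoc, Finset.prod_div_distrib]
    exact (one_le_div (by positivity)).2 h2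
  have hq : ‖θ / θ'‖ < 1 := by
    rw [Real.norm_of_nonneg (by positivity)]
    exact (div_lt_one h0').2 hθ
  have h3 : Tendsto (fun N : ℕ => M * ((N : ℝ) * (θ / θ') ^ N + (θ / θ') ^ N)) atTop
      (𝓝 (M * (0 + 0))) :=
    ((summable_norm_iff.1 (by simpa using summable_norm_pow_mul_geometric_of_norm_lt_one 1 hq)
      ).tendsto_atTop_zero.add (tendsto_pow_atTop_nhds_zero_of_norm_lt_one hq)).const_mul M
  have h4 : Summable u := summable_of_ratio_norm_eventually_le (r := 1 / 2) (by norm_num) (by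
    filter_upwards [h3.eventually (ge_mem_nhds (show M * (0 + 0) < 1 / 2 by norm_num))] with N hN
    have e : u (N + 1) = M * ((N : ℝ) * (θ / θ') ^ N + (θ / θ') ^ N) * u N := by
      simp only [u, Finset.prod_range_succ, Nat.factorial_succ]
      push_cast
      ring
    rw [Real.norm_of_nonneg (zero_le_one.trans (h1 _)),
      Real.norm_of_nonneg (zero_le_one.trans (h1 _)), e]
    exact mul_le_mul_of_nonneg_right hN (zero_le_one.trans (h1 _)))
  exact absurd (ge_of_tendsto' h4.tendsto_atTop_zero h1) (by norm_num)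

end Pool.Agent.Lib.MP_9b2593_an.Uq
end
end

-- part Pool.Agent.Lib.MP_9b2593_an.Uq.Radial
section

/-!
Removal of radial gaps and circular symmetrisation of an omitted set.
-/

open Complex Metric Set MeasureTheory Filter Topology

noncomputable section

namespace Pool.Agent.Lib.MP_9b2593_an.Uq

/-- The distribution function of a set of positive reals. -/
def radF (Y : Set ℝ) (u : ℝ) : ℝ := (volume (Y ∩ Iic u)).toReal

lemma radF_fin {Y : Set ℝ} (hY : Y ⊆ Ioi 0) (u : ℝ) : volume (Y ∩ Iic u) ≠ ⊤ :=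
  ne_top_of_le_ne_top (measure_Ioc_lt_top (μ := volume) (a := (0 : ℝ)) (b := u)).ne
    (measure_mono fun _ hx => ⟨hY hx.1, hx.2⟩)

lemma radF_sub {Y : Set ℝ} (hY : Y ⊆ Ioi 0) {u v : ℝ} (h : u ≤ v) :
    radF Y v = radF Y u + (volume (Y ∩ Ioc u v)).toReal := by
  have e1 : Y ∩ Iic v ∩ Iic u = Y ∩ Iic u := by
    ext x
    exact ⟨fun hx => ⟨hx.1.1, hx.2⟩, fun hx => ⟨⟨hx.1, le_trans hx.2 h⟩, hx.2⟩⟩
  have e2 : (Y ∩ Iic v) \ Iic u = Y ∩ Ioc u v := by
    ext x
    exact ⟨fun hx => ⟨hx.1.1, not_le.1 hx.2, hx.1.2⟩, fun hx => ⟨⟨hx.1, hx.2.2⟩, not_le.2 hx.2.1⟩⟩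
  have e3 := measure_inter_add_sdiff (μ := volume) (Y ∩ Iic v) (measurableSet_Iic (a := u))
  rw [e1, e2] at e3
  have f2 : volume (Y ∩ Ioc u v) ≠ ⊤ :=
    ne_top_of_le_ne_top (radF_fin hY v) (measure_mono fun _ hx => ⟨hx.1, hx.2.2⟩)
  rw [radF, radF, ← e3, ENNReal.toReal_add (radF_fin hY u) f2]

lemma radF_le {Y : Set ℝ} {u v : ℝ} (h : u ≤ v) : (volume (Y ∩ Ioc u v)).toReal ≤ v - u := by
  refine ENNReal.toReal_le_of_le_ofReal (by linarith) ?_
  rw [← Real.volume_Ioc]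
  exact measure_mono inter_subset_right

/-- Closing the gaps of a closed set of positive reals containing `[1, ∞)`. -/
lemma rad_gap {Y : Set ℝ} (hc : IsClosed Y) {u0 : ℝ} (hu0 : 0 < u0) (hY : Y ⊆ Ici u0)
    (h1 : Ici 1 ⊆ Y) : ∃ (φ : ℝ → ℝ) (μ : ℝ), 0 < μ ∧ Continuous φ ∧
      (∀ u v, |φ u - φ v| ≤ |u - v|) ∧ (∀ u, u ≤ φ u) ∧ (∀ u, μ ≤ φ u) ∧
      (∀ s, μ ≤ s → ∃ y ∈ Y, φ y = s) ∧
      ∀ G : ℝ → ENNReal, Measurable G → ∫⁻ u in Y ∩ Ioo 0 1, G (φ u) ≤ ∫⁻ s in Ioo 0 1, G s := by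
  have hY0 : Y ⊆ Ioi 0 := fun x hx => lt_of_lt_of_le hu0 (hY hx)
  set φ : ℝ → ℝ := fun u => radF Y u + (1 - radF Y 1) with hφ
  have key : ∀ u v, u ≤ v → φ v = φ u + (volume (Y ∩ Ioc u v)).toReal := fun u v h => by
    simp only [hφ]
    rw [radF_sub hY0 h]
    ring
  have mono : Monotone φ := fun u v h => by
    rw [key u v h]
    exact le_add_of_nonneg_right ENNReal.toReal_nonneg
  have lip1 : ∀ u v, u ≤ v → φ v - φ u ≤ v - u := fun u v h => by
    have := radF_le (Y := Y) h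
    rw [key u v h]
    linarith
  have lip : ∀ u v, |φ u - φ v| ≤ |u - v| := fun u v => by
    rcases le_total u v with h | h
    · rw [abs_sub_comm, abs_sub_comm u, abs_of_nonneg (sub_nonneg.2 (mono h)),
        abs_of_nonneg (sub_nonneg.2 h)]
      exact lip1 u v h
    · rw [abs_of_nonneg (sub_nonneg.2 (mono h)), abs_of_nonneg (sub_nonneg.2 h)]
      exact lip1 v u h
  have cont : Continuous φ :=
    (LipschitzWith.of_dist_le_mul (K := 1) fun u v => by simpa [Real.dist_eq] using lip u v).continuous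
  have φ1 : φ 1 = 1 := by simp [hφ]
  have big : ∀ u, 1 ≤ u → φ u = u := fun u h => by
    have e : Y ∩ Ioc 1 u = Ioc 1 u := inter_eq_right.2 fun x hx => h1 hx.1.le
    rw [key 1 u h, φ1, e, Real.volume_Ioc, ENNReal.toReal_ofReal (by linarith)]
    ring
  have ge : ∀ u, u ≤ φ u := fun u => by
    rcases le_total u 1 with h | h
    · have := lip1 u 1 h
      linarith
    · exact (big u h).ge
  have small : ∀ u, u < u0 → φ u = 1 - radF Y 1 := fun u h => by
    have e : Y ∩ Iic u = ∅ := eq_empty_of_forall_notMem fun x hx =>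
      absurd (lt_of_le_of_lt hx.2 h) (not_lt.2 (hY hx.1))
    simp [hφ, radF, e]
  have hμ : ∀ u, 1 - radF Y 1 ≤ φ u := fun u =>
    le_add_of_nonneg_left ENNReal.toReal_nonneg
  have hμ0 : 0 < 1 - radF Y 1 := by
    have := ge (u0 / 2)
    rw [small _ (by linarith)] at this
    linarith
  have ivt : ∀ s, 1 - radF Y 1 ≤ s → ∃ u, φ u = s := fun s hs => by
    have h2 : s ≤ φ (max s 1) := (le_max_left _ _).trans (ge _)
    have h3 : φ 0 ≤ s := by rwa [small 0 hu0]
    exact mem_range_of_exists_le_of_exists_ge cont ⟨0, h3⟩ ⟨_, h2⟩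
  refine ⟨φ, 1 - radF Y 1, hμ0, cont, lip, ge, hμ, fun s hs => ?_, fun G hG => ?_⟩
  · obtain ⟨u, rfl⟩ := ivt s hs
    have hl := (hc.inter isClosed_Ici).isLeast_csInf (s := Y ∩ Ici u)
      ⟨max u 1, h1 (mem_Ici.2 (le_max_right u 1)), mem_Ici.2 (le_max_left u 1)⟩ ⟨u, fun x hx => hx.2⟩
    refine ⟨_, hl.1.1, ?_⟩
    have e : volume (Y ∩ Ioc u (sInf (Y ∩ Ici u))) = 0 :=
      measure_mono_null (t := {sInf (Y ∩ Ici u)})
        (fun x hx => le_antisymm hx.2.2 (hl.2 ⟨hx.1, hx.2.1.le⟩)) (measure_singleton _)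
    rw [key u _ hl.1.2, e]
    simp
  · set μ := 1 - radF Y 1 with hμd
    have hmap : (volume.restrict (Icc μ 1)) = Measure.map φ (volume.restrict (Y ∩ Iic 1)) := by
      refine Measure.ext_of_Iic _ _ fun s => ?_
      rw [Measure.map_apply cont.measurable measurableSet_Iic,
        Measure.restrict_apply measurableSet_Iic,
        Measure.restrict_apply (cont.measurable measurableSet_Iic)]
      have hF : ∀ u, volume (Y ∩ Iic u) = ENNReal.ofReal (φ u - μ) := fun u => by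
        simp only [hφ, add_sub_cancel_right, radF]
        rw [ENNReal.ofReal_toReal (radF_fin hY0 u)]
      rcases lt_or_ge s μ with h | h
      · have e1 : Iic s ∩ Icc μ 1 = ∅ := eq_empty_of_forall_notMem fun x hx =>
          absurd (lt_of_le_of_lt hx.1 h) (not_lt.2 hx.2.1)
        have e2 : φ ⁻¹' Iic s ∩ (Y ∩ Iic 1) = ∅ := eq_empty_of_forall_notMem fun x hx =>
          absurd (lt_of_le_of_lt hx.1 h) (not_lt.2 (hμ x))
        rw [e1, e2]
      rcases le_or_gt 1 s with h' | h'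
      · have e1 : Iic s ∩ Icc μ 1 = Icc μ 1 := inter_eq_right.2 fun x hx => le_trans hx.2 h'
        have e2 : φ ⁻¹' Iic s ∩ (Y ∩ Iic 1) = Y ∩ Iic 1 := inter_eq_right.2 fun x hx =>
          le_trans ((mono hx.2).trans φ1.le) h'
        rw [e1, e2, hF, φ1, Real.volume_Icc]
      · obtain ⟨u, hu⟩ := ivt s h
        have hb : ∀ x ∈ φ ⁻¹' Iic s, x ≤ 1 := fun x hx => by
          by_contra hx1
          have : φ x ≤ s := hx
          rw [big x (not_le.1 hx1).le] at this
          exact hx1 (by linarith)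
        have hg := (isClosed_Iic.preimage cont).isGreatest_csSup (s := φ ⁻¹' Iic s)
          ⟨u, hu.le⟩ ⟨1, hb⟩
        have e1 : Iic s ∩ Icc μ 1 = Icc μ s := by
          ext x
          exact ⟨fun hx => ⟨hx.2.1, hx.1⟩, fun hx => ⟨hx.2, hx.1, hx.2.trans h'.le⟩⟩
        have e2 : φ ⁻¹' Iic s ∩ (Y ∩ Iic 1) = Y ∩ Iic (sSup (φ ⁻¹' Iic s)) := by
          ext x
          exact ⟨fun hx => ⟨hx.2.1, hg.2 hx.1⟩, fun hx =>
            ⟨le_trans (mono hx.2) hg.1, hx.1, le_trans hx.2 (hb _ hg.1)⟩⟩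
        have e3 : φ (sSup (φ ⁻¹' Iic s)) = s := le_antisymm hg.1 (hu.ge.trans (mono (hg.2 hu.le)))
        rw [e1, e2, hF, e3, Real.volume_Icc]
    calc ∫⁻ u in Y ∩ Ioo 0 1, G (φ u) ≤ ∫⁻ u in Y ∩ Iic 1, G (φ u) :=
          lintegral_mono_set fun x hx => ⟨hx.1, hx.2.2.le⟩
      _ = ∫⁻ s in Icc μ 1, G s := by rw [hmap, lintegral_map hG cont.measurable]
      _ ≤ ∫⁻ s in Ioc 0 1, G s := lintegral_mono_set fun x hx => ⟨hμ0.trans_le hx.1, hx.2⟩
      _ = ∫⁻ s in Ioo 0 1, G s := (setLIntegral_congr Ioo_ae_eq_Ioc).symm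

lemma rad_cont : Continuous fun p : ℝ × ℝ => (p.1 : ℂ) * exp (p.2 * I) := by fun_prop

lemma rad_sec_meas {X : Set ℂ} (hX : MeasurableSet X) (t : ℝ) : MeasurableSet (sec X t) :=
  measurableSet_Ioc.inter ((rad_cont.comp (Continuous.prodMk_right t)).measurable hX)

lemma rad_sec_fun {X : Set ℂ} (hX : MeasurableSet X) : Measurable fun t => volume (sec X t) :=
  measurable_measure_prodMk_left (ν := volume)
    (s := {p : ℝ × ℝ | p.2 ∈ Ioc (-Real.pi) Real.pi ∧ (p.1 : ℂ) * exp (p.2 * I) ∈ X})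
    ((measurable_snd measurableSet_Ioc).inter (rad_cont.measurable hX))

lemma rad_sec_le (X : Set ℂ) (t : ℝ) : volume (sec X t) ≤ ENNReal.ofReal (2 * Real.pi) := by
  refine (measure_mono (t := Ioc (-Real.pi) Real.pi) fun _ hx => hx.1).trans (le_of_eq ?_)
  rw [Real.volume_Ioc]
  congr 1
  ring

lemma rad_sec_fin (X : Set ℂ) (t : ℝ) : volume (sec X t) ≠ ⊤ :=
  ne_top_of_le_ne_top ENNReal.ofReal_ne_top (rad_sec_le X t)

lemma rad_norm (t θ : ℝ) : ‖(t : ℂ) * exp (θ * I)‖ = |t| := by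
  rw [norm_mul, norm_exp_ofReal_mul_I, mul_one, norm_real, Real.norm_eq_abs]

lemma rad_re (t θ : ℝ) : ((t : ℂ) * exp (θ * I)).re = t * Real.cos θ := by
  rw [re_ofReal_mul, exp_ofReal_mul_I_re]

/-- The area in polar coordinates, in the variable `u = r ^ 2`. -/
lemma rad_area {X : Set ℂ} (hX : MeasurableSet X) :
    2 * volume (ball (0 : ℂ) 1 ∩ X) = ∫⁻ u in Ioo (0 : ℝ) 1, volume (sec X √u) := by
  have hm : MeasurableSet (ball (0 : ℂ) 1 ∩ X) := measurableSet_ball.inter hX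
  have e0 : ∀ p : ℝ × ℝ, Complex.polarCoord.symm p = (p.1 : ℂ) * exp (p.2 * I) := fun p => by
    rw [Complex.polarCoord_symm_apply, exp_mul_I, ← ofReal_cos, ← ofReal_sin]
  have e1 : volume (ball (0 : ℂ) 1 ∩ X) =
      ∫⁻ r in Ioo (0 : ℝ) 1, ENNReal.ofReal r * volume (sec X r) := by
    rw [← lintegral_indicator_one hm, ← Complex.lintegral_comp_polarCoord_symm]
    simp only [e0, smul_eq_mul]
    change ∫⁻ p in Ioi (0 : ℝ) ×ˢ Ioo (-Real.pi) Real.pi, _ ∂(volume.prod volume) = _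
    rw [setLIntegral_prod]
    · have e2 : Ioo (0 : ℝ) 1 = Iio 1 ∩ Ioi 0 := by
        ext x
        exact ⟨fun h => ⟨h.2, h.1⟩, fun h => ⟨h.2, h.1⟩⟩
      rw [e2, ← Measure.restrict_restrict measurableSet_Iio, ← lintegral_indicator measurableSet_Iio]
      refine setLIntegral_congr_fun measurableSet_Ioi fun r hr => ?_
      have hr0 : 0 < r := hr
      simp only
      rw [lintegral_const_mul' _ _ ENNReal.ofReal_ne_top, setLIntegral_congr Ioo_ae_eq_Ioc]
      by_cases h1 : r < 1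
      · rw [indicator_of_mem (show r ∈ Iio 1 from h1), ← lintegral_indicator measurableSet_Ioc,
          ← lintegral_indicator_one (rad_sec_meas hX r)]
        congr 2
        funext θ
        have hb : (r : ℂ) * exp (θ * I) ∈ ball (0 : ℂ) 1 := by
          rw [mem_ball_zero_iff, rad_norm, abs_of_pos hr0]
          exact h1
        by_cases h2 : θ ∈ Ioc (-Real.pi) Real.pi <;> by_cases h3 : (r : ℂ) * exp (θ * I) ∈ X <;>
          simp [indicator, sec, h2, h3, hb] <;> simp_all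
      · rw [indicator_of_notMem (show r ∉ Iio 1 from h1)]
        have : ∀ θ : ℝ, (ball (0 : ℂ) 1 ∩ X).indicator (1 : ℂ → ENNReal)
            ((r : ℂ) * exp (θ * I)) = 0 := fun θ => indicator_of_notMem (fun h => by
          have := h.1
          rw [mem_ball_zero_iff, rad_norm, abs_of_pos hr0] at this
          exact h1 this) _
        simp [this]
    · exact ((ENNReal.measurable_ofReal.comp measurable_fst).mul
        ((measurable_one.indicator hm).comp rad_cont.measurable)).aemeasurable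
  have e3 : (fun r : ℝ => r ^ 2) '' Ioo 0 1 = Ioo 0 1 := by
    ext u
    constructor
    · rintro ⟨r, hr, rfl⟩
      exact ⟨pow_pos hr.1 2, pow_lt_one₀ hr.1.le hr.2 two_ne_zero⟩
    · intro hu
      exact ⟨√u, ⟨Real.sqrt_pos.2 hu.1, by rw [Real.sqrt_lt' one_pos]; simpa using hu.2⟩,
        Real.sq_sqrt hu.1.le⟩
  have e4 := lintegral_image_eq_lintegral_abs_deriv_mul (f := fun r : ℝ => r ^ 2)
    (f' := fun r => 2 * r) (s := Ioo 0 1) measurableSet_Ioo
    (fun x _ => by simpa using (hasDerivAt_pow 2 x).hasDerivWithinAt)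
    (fun x hx y hy h => (sq_eq_sq₀ hx.1.le hy.1.le).1 h) fun u => volume (sec X √u)
  rw [e3] at e4
  rw [e4, e1, ← lintegral_const_mul' _ _ (by simp)]
  refine setLIntegral_congr_fun measurableSet_Ioo fun r hr => ?_
  rw [Real.sqrt_sq hr.1.le, abs_of_pos (by linarith [hr.1]), ENNReal.ofReal_mul zero_le_two,
    mul_assoc, ENNReal.ofReal_ofNat]

/-- The measure of an arc around the negative axis. -/
lemma rad_arc {α : ℝ} (h0 : 0 ≤ α) (h1 : α ≤ Real.pi) :
    volume {θ | θ ∈ Ioc (-Real.pi) Real.pi ∧ Real.cos θ ≤ -Real.cos α} =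
      ENNReal.ofReal (2 * α) := by
  have e : {θ | θ ∈ Ioc (-Real.pi) Real.pi ∧ Real.cos θ ≤ -Real.cos α} =
      Ioc (-Real.pi) Real.pi \ Ioo (-(Real.pi - α)) (Real.pi - α) := by
    ext θ
    refine and_congr_right fun hθ => ?_
    have h2 : |θ| ∈ Icc 0 Real.pi := ⟨abs_nonneg _, abs_le.2 ⟨hθ.1.le, hθ.2⟩⟩
    have h3 : Real.pi - α ∈ Icc 0 Real.pi := ⟨by linarith, by linarith⟩
    rw [← Real.cos_pi_sub, ← Real.cos_abs θ, Real.strictAntiOn_cos.le_iff_ge h2 h3, mem_Ioo,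
      ← abs_lt, not_lt]
  rw [e, measure_sdiff (Ioo_subset_Ioc_self.trans (Ioc_subset_Ioc (by linarith) (by linarith)))
    measurableSet_Ioo.nullMeasurableSet measure_Ioo_lt_top.ne, Real.volume_Ioc, Real.volume_Ioo,
    ← ENNReal.ofReal_sub _ (by linarith)]
  congr 1
  ring

/-- Upper semicontinuity of the angular measure of a closed set. -/
lemma rad_usc {K : Set ℂ} (hK : IsClosed K) {r : ℕ → ℝ} {x : ℝ} (hr : Tendsto r atTop (𝓝 x)) :
    Tendsto (fun n => max (volume (sec K (r n))).toReal (volume (sec K x)).toReal) atTop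
      (𝓝 (volume (sec K x)).toReal) := by
  set S : ℕ → Set ℝ := fun N => ⋃ n, sec K (r (n + N)) with hS
  have hm : ∀ N, MeasurableSet (S N) := fun N =>
    MeasurableSet.iUnion fun n => rad_sec_meas hK.measurableSet _
  have hsub : ∀ N, S N ⊆ Ioc (-Real.pi) Real.pi := fun N => iUnion_subset fun n _ hx => hx.1
  have hfin : ∀ N, volume (S N) ≠ ⊤ := fun N =>
    ne_top_of_le_ne_top measure_Ioc_lt_top.ne (measure_mono (hsub N))
  have hanti : Antitone S := antitone_nat_of_succ_le fun N => iUnion_subset fun n =>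
    subset_iUnion_of_subset (n + 1) (by rw [add_assoc, add_comm 1 N])
  have h1 := tendsto_measure_iInter_atTop (μ := volume) (fun N => (hm N).nullMeasurableSet) hanti
    ⟨0, hfin 0⟩
  have h2 : ⋂ N, S N ⊆ sec K x := fun θ hθ => by
    rw [mem_iInter] at hθ
    refine ⟨hsub 0 (hθ 0), ?_⟩
    have h3 : Tendsto (fun n => (r n : ℂ) * exp (θ * I)) atTop (𝓝 ((x : ℂ) * exp (θ * I))) :=
      ((continuous_ofReal.tendsto x).comp hr).mul_const _
    refine hK.mem_of_frequently_of_tendsto (frequently_atTop.2 fun N => ?_) h3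
    obtain ⟨n, hn⟩ := mem_iUnion.1 (hθ N)
    exact ⟨n + N, Nat.le_add_left _ _, hn.2⟩
  have h4 : (volume (⋂ N, S N)).toReal ≤ (volume (sec K x)).toReal :=
    ENNReal.toReal_mono (rad_sec_fin K x) (measure_mono h2)
  have h5 := ((ENNReal.tendsto_toReal (ne_top_of_le_ne_top (rad_sec_fin K x)
    (measure_mono h2))).comp h1).max (tendsto_const_nhds (x := (volume (sec K x)).toReal))
  rw [max_eq_right h4] at h5
  refine tendsto_of_tendsto_of_tendsto_of_le_of_le tendsto_const_nhds h5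
    (fun n => le_max_right _ _) fun n => max_le_max ?_ le_rfl
  exact ENNReal.toReal_mono (hfin n) (measure_mono (subset_iUnion_of_subset 0 (by rw [zero_add])))

/-- A closed set that omits a point of a circle does not have full measure on it. -/
lemma rad_lt {K : Set ℂ} (hK : IsClosed K) {w : ℂ} (hw : w ∉ K) :
    (volume (sec K ‖w‖)).toReal < 2 * Real.pi := by
  set U : Set ℝ := (fun θ : ℝ => (‖w‖ : ℂ) * exp (θ * I)) ⁻¹' Kᶜ with hU
  have hUo : IsOpen U := hK.isOpen_compl.preimage (by fun_prop)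
  have h1 : arg w ∈ U := by
    simp only [hU, mem_preimage, norm_mul_exp_arg_mul_I]
    exact hw
  have hpi := Real.pi_pos
  have h2 : arg w ∈ closure (Ioo (-Real.pi) Real.pi) := by
    rw [closure_Ioo (by linarith)]
    exact ⟨(neg_pi_lt_arg w).le, arg_le_pi w⟩
  have h3 : 0 < volume (U ∩ Ioo (-Real.pi) Real.pi) :=
    (hUo.inter isOpen_Ioo).measure_pos _ (mem_closure_iff.1 h2 U hUo h1)
  have h4 : volume (sec K ‖w‖) + volume (U ∩ Ioo (-Real.pi) Real.pi) ≤
      ENNReal.ofReal (2 * Real.pi) := by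
    rw [← measure_union (disjoint_left.2 fun θ h h' => h'.1 h.2)
      (hUo.inter isOpen_Ioo).measurableSet]
    refine (measure_mono (t := Ioc (-Real.pi) Real.pi) (union_subset (fun _ h => h.1)
      fun _ h => Ioo_subset_Ioc_self h.2)).trans (le_of_eq ?_)
    rw [Real.volume_Ioc]
    congr 1
    ring
  exact ENNReal.toReal_lt_of_lt_ofReal
    ((ENNReal.lt_add_right (rad_sec_fin K _) h3.ne').trans_le h4)

/-- Radial maps that push outwards and contract radii contract inverse distances. -/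
lemma rad_contr {a b : ℂ} (ha : a ≠ 0) (hb : b ≠ 0) {s t : ℝ} (hs : ‖a‖ ≤ s) (ht : ‖b‖ ≤ t)
    (h : |s ^ 2 - t ^ 2| ≤ |‖a‖ ^ 2 - ‖b‖ ^ 2|) :
    ‖(((s / ‖a‖ : ℝ) : ℂ) * a)⁻¹ - (((t / ‖b‖ : ℝ) : ℂ) * b)⁻¹‖ ≤ ‖a⁻¹ - b⁻¹‖ := by
  have x0 : 0 < ‖a‖ := norm_pos_iff.2 ha
  have y0 : 0 < ‖b‖ := norm_pos_iff.2 hb
  have s0 : 0 < s := x0.trans_le hs
  have t0 : 0 < t := y0.trans_le ht
  have h1 : |s - t| ≤ |‖a‖ - ‖b‖| := by
    rw [sq_sub_sq, sq_sub_sq, abs_mul, abs_mul, abs_of_pos (add_pos s0 t0),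
      abs_of_pos (add_pos x0 y0)] at h
    have := mul_le_mul_of_nonneg_right (add_le_add hs ht) (abs_nonneg (‖a‖ - ‖b‖))
    exact le_of_mul_le_mul_left (h.trans this) (add_pos s0 t0)
  have h2 : (s⁻¹ - t⁻¹) ^ 2 ≤ (‖a‖⁻¹ - ‖b‖⁻¹) ^ 2 := by
    rw [inv_sub_inv s0.ne' t0.ne', inv_sub_inv x0.ne' y0.ne', sq_le_sq, abs_div, abs_div,
      abs_sub_comm t, abs_sub_comm ‖b‖, abs_of_pos (mul_pos s0 t0), abs_of_pos (mul_pos x0 y0)]
    exact div_le_div₀ (abs_nonneg _) h1 (mul_pos x0 y0) (mul_le_mul hs ht y0.le s0.le)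
  have h3 : (a⁻¹ * (starRingEnd ℂ) b⁻¹).re ≤ ‖a‖⁻¹ * ‖b‖⁻¹ := by
    refine (re_le_norm _).trans (le_of_eq ?_)
    rw [norm_mul, Complex.norm_conj, norm_inv, norm_inv]
  have h4 : ‖a‖ / s * (‖b‖ / t) ≤ 1 :=
    mul_le_one₀ ((div_le_one s0).2 hs) (by positivity) ((div_le_one t0).2 ht)
  rw [← sq_le_sq₀ (norm_nonneg _) (norm_nonneg _), mul_inv, mul_inv, ← ofReal_inv, ← ofReal_inv,
    inv_div, inv_div, Complex.sq_norm, Complex.sq_norm, normSq_sub, normSq_sub, map_mul, map_mul,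
    map_mul, conj_ofReal, mul_mul_mul_comm, ← ofReal_mul, re_ofReal_mul, normSq_ofReal,
    normSq_ofReal, normSq_eq_norm_sq, normSq_eq_norm_sq, norm_inv, norm_inv]
  have e1 : ‖a‖ / s * (‖a‖ / s) * ‖a‖⁻¹ ^ 2 = s⁻¹ ^ 2 := by field_simp
  have e2 : ‖b‖ / t * (‖b‖ / t) * ‖b‖⁻¹ ^ 2 = t⁻¹ ^ 2 := by field_simp
  have e3 : ‖a‖ / s * (‖b‖ / t) * (‖a‖⁻¹ * ‖b‖⁻¹) = s⁻¹ * t⁻¹ := by field_simp
  have h5 := mul_le_mul_of_nonneg_right h4 (sub_nonneg.2 h3)
  rw [e1, e2]
  rw [mul_sub, e3] at h5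
  nlinarith

theorem radial {K : Set ℂ} (hK : IsClosed K) (h0 : (0 : ℂ) ∉ K)
    (hout : ∀ r : ℝ, 1 < r → ∃ w ∈ K, ‖w‖ = r)
    (hin : ∀ r : ℝ, 0 < r → r ≤ 1 → ∃ w ∉ K, ‖w‖ = r) :
    ∃ (H : ℂ → ℂ) (D : Set ℂ) (m : ℝ), SymD D m ∧
      (∀ a ∈ K, ∀ b ∈ K, ‖(H a)⁻¹ - (H b)⁻¹‖ ≤ ‖a⁻¹ - b⁻¹‖) ∧
      (∀ t, m ≤ t → (sec (H '' K) t).Nonempty ∧ volume (sec Dᶜ t) ≤ volume (sec (H '' K) t)) ∧
      volume (ball 0 1 ∩ K) ≤ volume (ball (0 : ℂ) 1 \ D) := by
  have hpi := Real.pi_pos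
  set R : Set ℝ := norm '' K with hR
  have hRc : IsClosed R := by
    have := isClosedMap_dist (0 : ℂ) K hK
    simpa only [dist_zero] using this
  obtain ⟨ε, hε, hεK⟩ := Metric.isOpen_iff.1 hK.isOpen_compl 0 h0
  have hRε : ∀ r ∈ R, ε ≤ r := by
    rintro _ ⟨w, hw, rfl⟩
    by_contra h
    exact hεK (mem_ball_zero_iff.2 (not_le.1 h)) hw
  have hR0 : ∀ r ∈ R, 0 < r := fun r hr => hε.trans_le (hRε r hr)
  have hR1 : Ici 1 ⊆ R := by
    rw [← closure_Ioi]
    exact closure_minimal (fun r hr => hout r hr) hRc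
  obtain ⟨φ, μ, hμ, hφc, hlip, hge, hμφ, hsurj, hint⟩ := rad_gap (Y := Real.sqrt ⁻¹' R)
    (hRc.preimage Real.continuous_sqrt) (pow_pos hε 2)
    (fun u hu => Real.le_sqrt' hε |>.1 (hRε _ hu)) fun u hu => hR1 (Real.one_le_sqrt.2 hu)
  have hφ0 : ∀ u, 0 ≤ φ u := fun u => hμ.le.trans (hμφ u)
  set h : ℝ → ℝ := fun r => √(φ (r ^ 2)) with hh
  have hc : Continuous h := Real.continuous_sqrt.comp (hφc.comp (continuous_pow 2))
  have hsq : ∀ r, h r ^ 2 = φ (r ^ 2) := fun r => Real.sq_sqrt (hφ0 _)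
  have hle : ∀ r, r ≤ h r := fun r => Real.le_sqrt_of_sq_le (hge _)
  have hm : ∀ r, √μ ≤ h r := fun r => Real.sqrt_le_sqrt (hμφ _)
  have hm0 : 0 < √μ := Real.sqrt_pos.2 hμ
  have hon : ∀ t, √μ ≤ t → ∃ r ∈ R, h r = t := fun t ht => by
    obtain ⟨y, hy, hyt⟩ := hsurj (t ^ 2) (Real.sqrt_le_left (hm0.le.trans ht) |>.1 ht)
    have hy0 : 0 ≤ y := (Real.sqrt_pos.1 (hR0 _ hy)).le
    refine ⟨√y, hy, ?_⟩
    simp only [hh]
    rw [Real.sq_sqrt hy0, hyt, Real.sqrt_sq (hm0.le.trans ht)]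
  set A : ℝ → ℝ := fun r => if r ≤ 1 then (volume (sec K r)).toReal else 0 with hA
  have hAle : ∀ r, A r ≤ (volume (sec K r)).toReal := fun r => by
    simp only [hA]
    split_ifs
    exacts [le_rfl, ENNReal.toReal_nonneg]
  have hA0 : ∀ r, 0 ≤ A r := fun r => by
    simp only [hA]
    split_ifs
    exacts [ENNReal.toReal_nonneg, le_rfl]
  have h2pi : ∀ (X : Set ℂ) (r : ℝ), (volume (sec X r)).toReal ≤ 2 * Real.pi := fun X r =>
    ENNReal.toReal_le_of_le_ofReal (by linarith) (rad_sec_le X r)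
  have hAlt : ∀ r, 0 < r → A r < 2 * Real.pi := fun r hr => by
    simp only [hA]
    split_ifs with h1
    · obtain ⟨w, hw, rfl⟩ := hin r hr h1
      exact rad_lt hK hw
    · linarith
  have hcos : ∀ x y, 0 ≤ x → x ≤ y → y ≤ 2 * Real.pi → Real.cos (y / 2) ≤ Real.cos (x / 2) :=
    fun x y hx hxy hy => Real.cos_le_cos_of_nonneg_of_le_pi (by linarith) (by linarith) (by linarith)
  have husc : ∀ (r : ℕ → ℝ) (x : ℝ), Tendsto r atTop (𝓝 x) →
      Tendsto (fun n => max (A (r n)) (A x)) atTop (𝓝 (A x)) := fun r x hr => by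
    by_cases hx : x ≤ 1
    · have e : A x = (volume (sec K x)).toReal := if_pos hx
      rw [e]
      exact tendsto_of_tendsto_of_tendsto_of_le_of_le tendsto_const_nhds (rad_usc hK hr)
        (fun n => le_max_right _ _) fun n => max_le_max (hAle _) le_rfl
    · refine tendsto_const_nhds.congr' ?_
      filter_upwards [hr.eventually (lt_mem_nhds (not_le.1 hx))] with n hn
      have e : A (r n) = 0 := if_neg (not_le.2 hn)
      rw [e, max_eq_right (hA0 x)]
  set E : Set ℂ := {w | ∃ r ∈ R, ‖w‖ = h r ∧ w.re ≤ -(‖w‖ * Real.cos (A r / 2))} with hE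
  have hEc : IsClosed E := by
    refine isSeqClosed_iff_isClosed.1 fun w z hw hz => ?_
    choose r hrR hrn hrr using hw
    obtain ⟨M, hM⟩ := (isBounded_range_of_tendsto w hz).exists_norm_le
    obtain ⟨x, hx, ψ, hψ, hlim⟩ := ((isCompact_Icc (a := (0 : ℝ)) (b := M)).inter_left hRc).tendsto_subseq
      (x := r) fun n => ⟨hrR n, (hR0 _ (hrR n)).le,
        (hle _).trans ((hrn n).ge.trans (hM _ ⟨n, rfl⟩))⟩
    have hz' : Tendsto (w ∘ ψ) atTop (𝓝 z) := hz.comp hψ.tendsto_atTop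
    refine ⟨x, hx.1, tendsto_nhds_unique hz'.norm (((hc.tendsto x).comp hlim).congr fun n =>
      (hrn _).symm), ?_⟩
    refine le_of_tendsto_of_tendsto' ((continuous_re.tendsto z).comp hz')
      (hz'.norm.mul ((Real.continuous_cos.tendsto _).comp
        ((husc _ x hlim).div_const 2))).neg fun n => (hrr (ψ n)).trans ?_
    refine neg_le_neg (mul_le_mul_of_nonneg_left (hcos _ _ (hA0 _) (le_max_left _ _) ?_)
      (norm_nonneg _))
    exact max_le ((hAle _).trans (h2pi _ _)) ((hAle _).trans (h2pi _ _))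
  have hsecE : ∀ t θ, 0 < t → (θ ∈ sec E t ↔ θ ∈ Ioc (-Real.pi) Real.pi ∧
      ∃ r ∈ R, t = h r ∧ Real.cos θ ≤ -Real.cos (A r / 2)) := fun t θ ht => by
    refine and_congr_right fun _ => exists_congr fun r => and_congr_right fun _ => ?_
    rw [rad_norm, rad_re, abs_of_pos ht, ← mul_neg, mul_le_mul_iff_right₀ ht]
  set H : ℂ → ℂ := fun w => ((h ‖w‖ / ‖w‖ : ℝ) : ℂ) * w with hH
  have hsecH : ∀ r, 0 < r → sec K r ⊆ sec (H '' K) (h r) := fun r hr θ hθ => by
    refine ⟨hθ.1, _, hθ.2, ?_⟩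
    simp only [hH]
    rw [rad_norm, abs_of_pos hr, ← mul_assoc, ← ofReal_mul, div_mul_cancel₀ _ hr.ne']
  refine ⟨H, Eᶜ, √μ, ⟨hEc.isOpen_compl, hm0, ?_, ?_, ?_, ?_⟩, ?_, ?_, ?_⟩
  · rintro w hw ⟨r, -, hr, -⟩
    exact absurd (mem_ball_zero_iff.1 hw) (not_lt.2 ((hm r).trans hr.ge))
  · rw [compl_compl]
    rintro w ⟨r, hrR, h1, h2⟩ w' h3 h4
    exact ⟨r, hrR, h3.trans h1, by rw [h3]; exact h4.trans h2⟩
  · rintro t ht ⟨r, hrR, -, h2⟩
    rw [norm_real, Real.norm_eq_abs, abs_of_pos ht, ofReal_re] at h2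
    have h3 : Real.cos Real.pi < Real.cos (A r / 2) :=
      Real.cos_lt_cos_of_nonneg_of_le_pi (by linarith [hA0 r]) le_rfl
        (by linarith [hAlt r (hR0 r hrR)])
    rw [Real.cos_pi] at h3
    nlinarith
  · intro t ht hE'
    obtain ⟨r, hrR, hr⟩ := hon t ht
    have ht0 : 0 < t := hm0.trans_le ht
    refine hE' ⟨r, hrR, ?_, ?_⟩
    · rw [norm_neg, norm_real, Real.norm_eq_abs, abs_of_pos ht0, hr]
    · rw [norm_neg, norm_real, Real.norm_eq_abs, abs_of_pos ht0, neg_re, ofReal_re]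
      nlinarith [Real.cos_le_one (A r / 2)]
  · intro a ha b hb
    refine rad_contr (fun e => h0 (e ▸ ha)) (fun e => h0 (e ▸ hb)) (hle _) (hle _) ?_
    rw [hsq, hsq]
    exact hlip _ _
  · intro t ht
    have ht0 : 0 < t := hm0.trans_le ht
    constructor
    · obtain ⟨_, ⟨w, hw, rfl⟩, rfl⟩ := hon t ht
      refine ⟨arg w, hsecH _ (hR0 _ ⟨w, hw, rfl⟩) ⟨⟨neg_pi_lt_arg w, arg_le_pi w⟩, ?_⟩⟩
      rwa [norm_mul_exp_arg_mul_I]
    · rw [compl_compl]
      have h1 := rad_arc (α := (volume (sec (H '' K) t)).toReal / 2) (by positivity)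
        (by linarith [h2pi (H '' K) t])
      rw [mul_div_cancel₀ _ two_ne_zero, ENNReal.ofReal_toReal (rad_sec_fin _ _)] at h1
      rw [← h1]
      refine measure_mono fun θ hθ => ?_
      obtain ⟨h2, r, hrR, rfl, h3⟩ := (hsecE t θ ht0).1 hθ
      refine ⟨h2, h3.trans (neg_le_neg (hcos _ _ (hA0 r) ((hAle r).trans ?_) (h2pi _ _)))⟩
      exact ENNReal.toReal_mono (rad_sec_fin _ _) (measure_mono (hsecH r (hR0 r hrR)))
  · rw [sdiff_compl]
    refine (ENNReal.mul_le_mul_iff_right two_ne_zero (by simp)).1 ?_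
    rw [rad_area hK.measurableSet, rad_area hEc.measurableSet]
    refine le_trans ?_ (hint _ ((rad_sec_fun hEc.measurableSet).comp
      Real.continuous_sqrt.measurable))
    have hYm : MeasurableSet (Real.sqrt ⁻¹' R) :=
      (hRc.preimage Real.continuous_sqrt).measurableSet
    rw [← Measure.restrict_restrict hYm, ← lintegral_indicator hYm]
    refine setLIntegral_mono' measurableSet_Ioo fun u hu => ?_
    have hu0 : 0 < √u := Real.sqrt_pos.2 hu.1
    by_cases hy : u ∈ Real.sqrt ⁻¹' R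
    · rw [indicator_of_mem hy]
      have e1 : √(φ u) = h √u := by simp only [hh]; rw [Real.sq_sqrt hu.1.le]
      have e2 : A √u = (volume (sec K √u)).toReal := if_pos (Real.sqrt_le_one.2 hu.2.le)
      have h1 := rad_arc (α := A √u / 2) (by linarith [hA0 √u])
        (by linarith [hAlt _ hu0])
      rw [mul_div_cancel₀ _ two_ne_zero] at h1
      rw [e1, ← ENNReal.ofReal_toReal (rad_sec_fin K √u), ← e2, ← h1]
      exact measure_mono fun θ hθ =>
        (hsecE _ θ (hu0.trans_le (hle _))).2 ⟨hθ.1, √u, hy, rfl, hθ.2⟩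
    · have e : sec K √u = ∅ := eq_empty_of_forall_notMem fun θ hθ =>
        hy ⟨_, hθ.2, by rw [rad_norm, abs_of_pos hu0]⟩
      rw [e, measure_empty]
      exact zero_le

end Pool.Agent.Lib.MP_9b2593_an.Uq
end
end
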