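import Pool.Agent.Lib.MP_9b2593_an.Uq.StarC

/-!
Baernstein star function comparison.
-/

open Complex Metric Set MeasureTheory

noncomputable section

namespace Pool.Agent.Lib.MP_9b2593_an.Uq

open Filter Topology

/-- Real coordinates. -/
def stZ (x y : ℝ) : ℂ := x + y * I

theorem stZ_cont : Continuous fun z : ℝ × ℝ => stZ z.1 z.2 := by unfold stZ; fun_prop

theorem stZ_circle (x y δ φ : ℝ) :
    stZ (x + δ * Real.cos φ) (y + δ * Real.sin φ) = circleMap (stZ x y) δ φ := by
  simp only [stZ, circleMap, exp_mul_I]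
  push_cast
  ring

theorem stZ_exp (x y : ℝ) : exp (stZ x y) = (Real.exp x : ℂ) * exp (y * I) := by
  rw [stZ, exp_add, ofReal_exp]

theorem stZ_norm (x y : ℝ) : ‖exp (stZ x y)‖ = Real.exp x := by
  rw [norm_exp]; simp [stZ]

theorem stZ_re (x y : ℝ) : (exp (stZ x y)).re = Real.exp x * Real.cos y := by
  rw [exp_re]; simp [stZ]

theorem stZ_per (x y : ℝ) : exp (stZ x (y + 2 * Real.pi)) = exp (stZ x y) := by
  have e : stZ x (y + 2 * Real.pi) = stZ x y + 2 * Real.pi * I := by
    simp only [stZ]; push_cast; ring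
  rw [e, exp_periodic]

theorem st_small {p : ℂ → Prop} (hp : ∀ᶠ w in 𝓝 (0 : ℂ), p w) :
    ∀ᶠ x in atBot, ∀ y, p (exp (stZ x y)) := by
  obtain ⟨r, hr, h⟩ := Metric.eventually_nhds_iff.1 hp
  filter_upwards [Real.tendsto_exp_atBot.eventually (gt_mem_nhds hr)] with x hx y
  exact h (by rwa [dist_zero_right, stZ_norm])

theorem st_small' {p : ℂ → Prop} (hp : ∀ᶠ w in 𝓝 (0 : ℂ), p w) :
    ∀ᶠ x in atTop, ∀ y, p (exp (stZ x y))⁻¹ := by
  filter_upwards [tendsto_neg_atTop_atBot.eventually (st_small hp)] with x hx y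
  have e : stZ (-x) (-y) = -stZ x y := by simp only [stZ]; push_cast; ring
  have := hx (-y)
  rwa [e, exp_neg] at this

theorem st_mean {g : ℂ → ℂ} {U K : Set ℂ} (hU : IsOpen U) (hg : DifferentiableOn ℂ g U)
    (h0 : ∀ z ∈ U, g z ≠ 0) (hK : IsCompact K) (hKU : K ⊆ U) :
    ∀ᶠ δ in 𝓝[>] (0 : ℝ), ∀ z ∈ K, (∀ φ, circleMap z δ φ ∈ U) ∧
      Continuous (fun φ => Real.log ‖g (circleMap z δ φ)‖) ∧
      ∫ φ in (0 : ℝ)..2 * Real.pi, Real.log ‖g (circleMap z δ φ)‖ =
        2 * Real.pi * Real.log ‖g z‖ := by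
  obtain ⟨r, hr, hsub⟩ := hK.exists_cthickening_subset_open hU hKU
  have hev : ∀ᶠ δ in 𝓝[>] (0 : ℝ), δ < r := nhdsWithin_le_nhds (gt_mem_nhds hr)
  filter_upwards [hev, self_mem_nhdsWithin] with δ hδ hδ0 z hz
  have hδ0 : 0 < δ := hδ0
  have hb : closedBall z |δ| ⊆ U := by
    rw [abs_of_pos hδ0]
    exact (closedBall_subset_closedBall hδ.le).trans
      ((closedBall_subset_cthickening hz r).trans hsub)
  have hm : ∀ φ, circleMap z δ φ ∈ U := fun φ =>
    hb (sphere_subset_closedBall (circleMap_mem_sphere' z δ φ))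
  refine ⟨hm, ?_, ?_⟩
  · exact Continuous.log
      (hg.continuousOn.comp_continuous (continuous_circleMap z δ) hm).norm
      fun φ => norm_ne_zero_iff.2 (h0 _ (hm φ))
  · have := AnalyticOnNhd.circleAverage_log_norm_of_ne_zero ((hg.analyticOnNhd hU).mono hb)
      fun u hu => h0 u (hb hu)
    rw [Real.circleAverage_def, smul_eq_mul] at this
    rw [← this, ← mul_assoc, mul_inv_cancel₀ (by positivity), one_mul]

theorem st_null {ρ : ℝ → ℝ} (hρ : AnalyticOnNhd ℝ ρ univ) (hc : ¬ ∃ c, ∀ y, ρ y = c) (c : ℝ) :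
    volume {y | ρ y = c} = 0 := by
  rcases (hρ.sub (analyticOnNhd_const (v := c))).eqOn_zero_or_eventually_ne_zero_of_preconnected
    isPreconnected_univ with h | h
  · exact absurd ⟨c, fun y => sub_eq_zero.1 (h (mem_univ y))⟩ hc
  · have := ae_restrict_le_codiscreteWithin (μ := volume) MeasurableSet.univ h
    rw [Measure.restrict_univ, mem_ae_iff] at this
    convert this using 2
    ext y
    simp [sub_eq_zero]

theorem st_h6 {f : ℂ → ℂ} (hf : Differentiable ℂ f) (x : ℝ)
    (hp : ∀ y, f (stZ x (y + 2 * Real.pi)) = f (stZ x y)) :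
    ∃ ρ : ℝ → ℝ, Continuous ρ ∧ Function.Periodic ρ (2 * Real.pi) ∧
      (∀ c, volume {y | ρ y = c} = 0) ∧
      ∀ y y', ρ y ≤ ρ y' → Real.posLog ‖f (stZ x y)‖ ≤ Real.posLog ‖f (stZ x y')‖ := by
  have a1 : ∀ y, AnalyticAt ℝ (fun y : ℝ => f (stZ x y)) y := fun y => by
    refine ((hf.analyticAt (stZ x y)).restrictScalars (𝕜 := ℝ)).comp (f := fun y => stZ x y) ?_
    exact analyticAt_const.add ((ofRealCLM.analyticAt y).mul analyticAt_const)
  have a2 : AnalyticOnNhd ℝ (fun y => ‖f (stZ x y)‖ ^ 2) univ := fun y _ => by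
    have b1 : AnalyticAt ℝ (fun y : ℝ => (f (stZ x y)).re) y := (reCLM.analyticAt _).comp (a1 y)
    have b2 : AnalyticAt ℝ (fun y : ℝ => (f (stZ x y)).im) y := (imCLM.analyticAt _).comp (a1 y)
    simp only [Complex.sq_norm, normSq_apply]
    exact (b1.mul b1).add (b2.mul b2)
  have a3 : ∀ y y', ‖f (stZ x y)‖ ^ 2 ≤ ‖f (stZ x y')‖ ^ 2 →
      Real.posLog ‖f (stZ x y)‖ ≤ Real.posLog ‖f (stZ x y')‖ := fun y y' h =>
    Real.posLog_le_posLog (norm_nonneg _) ((sq_le_sq₀ (norm_nonneg _) (norm_nonneg _)).1 h)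
  by_cases hc : ∃ c, ∀ y, ‖f (stZ x y)‖ ^ 2 = c
  · obtain ⟨c, hc⟩ := hc
    refine ⟨Real.cos, Real.continuous_cos, Real.cos_periodic,
      st_null (fun y _ => Real.analyticAt_cos) ?_, fun y y' _ => a3 y y' (by rw [hc, hc])⟩
    rintro ⟨c, hc⟩
    have b1 := hc 0
    have b2 := hc Real.pi
    rw [Real.cos_zero] at b1
    rw [Real.cos_pi] at b2
    linarith
  · exact ⟨_, continuousOn_univ.1 a2.continuousOn, fun y => by simp only [hp y], st_null a2 hc, a3⟩

open Classical in
/-- The modulus of the Riemann map, extended by one. -/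
def stNm (D : Set ℂ) (ψ : ℂ → ℂ) (w : ℂ) : ℝ := if w ∈ D then ‖ψ w‖ else 1

theorem stNm_cont {D : Set ℂ} (hD : IsOpen D) {ψ : ℂ → ℂ} (hψ : DifferentiableOn ℂ ψ D)
    (hi : InjOn ψ D) (him : ψ '' D = ball 0 1) : Continuous (stNm D ψ) := by
  have hopen : IsOpenMap (D.domRestrict ψ) := by
    refine isOpenMap_iff_nhds_le.2 fun w => ?_
    have e : map (D.domRestrict ψ) (𝓝 w) = map ψ (𝓝 (w : ℂ)) := by
      rw [← hD.isOpenEmbedding_subtypeVal.map_nhds_eq w, map_map]; rfl
    rw [e]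
    refine ((hψ.analyticOnNhd hD) w w.2).eventually_constant_or_nhds_le_map_nhds.resolve_left ?_
    intro h
    have h2 : ∀ᶠ z : ℂ in 𝓝[≠] (w : ℂ), z = (w : ℂ) := by
      refine nhdsWithin_le_nhds ?_
      filter_upwards [h, hD.mem_nhds w.2] with z hz hzD
      exact hi hzD w.2 hz
    obtain ⟨z, hz, hz'⟩ := (h2.and self_mem_nhdsWithin).exists
    exact hz' hz
  have hemb : IsOpenEmbedding (D.domRestrict ψ) :=
    .of_continuous_injective_isOpenMap hψ.continuousOn.domRestrict hi.injective hopen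
  have hle : ∀ w, stNm D ψ w ≤ 1 := fun w => by
    unfold stNm
    split_ifs with h
    · have : ψ w ∈ ball (0 : ℂ) 1 := him ▸ mem_image_of_mem ψ h
      exact (mem_ball_zero_iff.1 this).le
    · exact le_rfl
  refine continuous_iff_continuousAt.2 fun w => ?_
  by_cases hw : w ∈ D
  · refine ((hψ.continuousOn.continuousAt (hD.mem_nhds hw)).norm).congr ?_
    filter_upwards [hD.mem_nhds hw] with z hz
    simp [stNm, hz]
  · have e : stNm D ψ w = 1 := by simp [stNm, hw]
    rw [ContinuousAt, e]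
    refine tendsto_order.2 ⟨fun r hr => ?_, fun r hr => Eventually.of_forall fun z =>
      (hle z).trans_lt hr⟩
    have hK : IsCompact (Subtype.val '' (D.domRestrict ψ ⁻¹' closedBall 0 r)) := by
      refine IsCompact.image ?_ continuous_subtype_val
      refine (hemb.isInducing.isCompact_preimage_iff ?_).2 (isCompact_closedBall 0 r)
      rw [range_domRestrict, him]
      exact closedBall_subset_ball hr
    have hw' : w ∈ (Subtype.val '' (D.domRestrict ψ ⁻¹' closedBall 0 r))ᶜ := by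
      rintro ⟨z, _, rfl⟩; exact hw z.2
    filter_upwards [hK.isClosed.isOpen_compl.mem_nhds hw'] with z hz
    unfold stNm
    split_ifs with h
    · by_contra hle
      exact hz ⟨⟨z, h⟩, mem_closedBall_zero_iff.2 (not_lt.1 hle), rfl⟩
    · exact hr

theorem st_meas {v : ℝ → ℝ} (hv : Continuous v) {t : ℝ} {A B : Set ℝ}
    (hA : Ioc (-Real.pi) Real.pi \ Ioo (-t) t ⊆ A) (hAB : volume A ≤ volume B)
    (hB : B ⊆ Ioc (-Real.pi) Real.pi \ {y | v y ≠ 0}) :
    volume ({y | v y ≠ 0} ∩ Ioc (-Real.pi) Real.pi) ≤ ENNReal.ofReal (2 * t) := by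
  have hm : MeasurableSet {y | v y ≠ 0} := (isOpen_ne_fun hv continuous_const).measurableSet
  have a1 := measure_inter_add_sdiff (μ := volume) (Ioc (-Real.pi) Real.pi) hm
  have a2 := measure_inter_add_sdiff (μ := volume) (Ioc (-Real.pi) Real.pi)
    (measurableSet_Ioo (a := -t) (b := t))
  have a3 : volume (Ioc (-Real.pi) Real.pi ∩ Ioo (-t) t) ≤ ENNReal.ofReal (2 * t) := by
    refine (measure_mono inter_subset_right).trans (le_of_eq ?_)
    rw [Real.volume_Ioo]
    exact congrArg _ (by ring)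
  have a4 : volume (Ioc (-Real.pi) Real.pi \ Ioo (-t) t) ≤
      volume (Ioc (-Real.pi) Real.pi \ {y | v y ≠ 0}) :=
    (measure_mono hA).trans (hAB.trans (measure_mono hB))
  have a5 : volume (Ioc (-Real.pi) Real.pi \ {y | v y ≠ 0}) ≠ ⊤ :=
    ((measure_mono sdiff_subset).trans_lt measure_Ioc_lt_top).ne
  rw [inter_comm, ← ENNReal.add_le_add_iff_right a5, a1, ← a2]
  exact add_le_add a3 a4

theorem star {D : Set ℂ} {m : ℝ} (hD : SymD D m) {ψ : ℂ → ℂ} (hψ : DifferentiableOn ℂ ψ D)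
    (hi : InjOn ψ D) (him : ψ '' D = ball 0 1) (h0 : ψ 0 = 0) {Y : Set ℂ}
    (hY : ∀ t, m ≤ t → (sec Y t).Nonempty ∧ volume (sec Dᶜ t) ≤ volume (sec Y t))
    {θ : ℝ} (hθ : 0 < θ) (hc : Cheb θ ((fun w => w⁻¹) '' Y)) : ‖deriv ψ 0‖ ≤ θ := by
  by_contra hlt
  push Not at hlt
  obtain ⟨n, hn, P, hP, hdeg, hPX⟩ := hc
  have hn' : (0 : ℝ) < n := by exact_mod_cast hn
  have hθn : 0 < θ ^ n := by positivity
  have D0 : (0 : ℂ) ∈ D := hD.ball_sub (mem_ball_self hD.pos)
  have Dn : D ∈ 𝓝 (0 : ℂ) := hD.isOpen.mem_nhds D0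
  set f : ℂ → ℂ := fun z => P.eval (exp z)⁻¹ / (θ : ℂ) ^ n with hf
  have fd : Differentiable ℂ f := by
    refine Differentiable.div_const (P.differentiable.comp ?_) _
    exact differentiable_exp.inv fun z => exp_ne_zero z
  have fn : ∀ z, ‖f z‖ = ‖P.eval (exp z)⁻¹‖ / θ ^ n := fun z => by
    simp only [hf, norm_div, norm_pow, norm_real, Real.norm_eq_abs, abs_of_pos hθ]
  have fY : ∀ x, ∀ y ∈ sec Y (Real.exp x), ‖P.eval (exp (stZ x y))⁻¹‖ ≤ θ ^ n := fun x y hy =>
    hPX _ ⟨_, hy.2, by rw [stZ_exp]⟩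
  have uY : ∀ x, ∀ y ∈ sec Y (Real.exp x), Real.posLog ‖f (stZ x y)‖ = 0 := fun x y hy => by
    rw [Real.posLog_eq_zero_iff, abs_of_nonneg (norm_nonneg _), fn, div_le_one hθn]
    exact fY x y hy
  have ψ0 : ∀ w ∈ D, w ≠ 0 → ψ w ≠ 0 := fun w hw hw0 h => hw0 (hi hw D0 (h.trans h0.symm))
  have nm0 : ∀ z, 0 < stNm D ψ (exp z) := fun z => by
    unfold stNm
    split_ifs with h
    · exact norm_pos_iff.2 (ψ0 _ h (exp_ne_zero z))
    · exact one_pos
  have nm1 : ∀ w, stNm D ψ w ≤ 1 := fun w => by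
    unfold stNm
    split_ifs with h
    · have : ψ w ∈ ball (0 : ℂ) 1 := him ▸ mem_image_of_mem ψ h
      exact (mem_ball_zero_iff.1 this).le
    · exact le_rfl
  have nmD : ∀ w ∈ D, stNm D ψ w = ‖ψ w‖ := fun w hw => by simp [stNm, hw]
  have fp : ∀ x y, f (stZ x (y + 2 * Real.pi)) = f (stZ x y) := fun x y => by
    simp only [hf, stZ_per]
  have a0 : 0 < ‖deriv ψ 0‖ := hθ.trans hlt
  refine st_core (u := fun x y => Real.posLog ‖f (stZ x y)‖)
    (G := fun x y => -(n * Real.log (stNm D ψ (exp (stZ x y)))))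
    (β := n * (Real.log ‖deriv ψ 0‖ - Real.log θ))
    (L := fun x => -(n * x) - n * Real.log ‖deriv ψ 0‖) ?_ ?_ (fun _ _ => Real.posLog_nonneg) ?_
    (fun x y => by simp only [fp]) (fun x y => by simp only [stZ_per]) ?_ ?_ ?_ ?_ ?_
    (fun x => st_h6 fd x (fp x))
  · exact Real.continuous_posLog.comp (fd.continuous.comp stZ_cont).norm
  · exact (continuous_const.mul (((stNm_cont hD.isOpen hψ hi him).comp
      (continuous_exp.comp stZ_cont)).log fun z => (nm0 _).ne')).neg
  · intro x y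
    exact neg_nonneg.2 (mul_nonpos_of_nonneg_of_nonpos hn'.le
      (Real.log_nonpos (nm0 _).le (nm1 _)))
  · exact mul_pos hn' (sub_pos.2 (Real.log_lt_log hθ hlt))
  · intro o ho
    have R0 : P.reverse.eval 0 = 1 := by
      rw [← Polynomial.coeff_zero_eq_eval_zero, Polynomial.coeff_zero_reverse]; exact hP
    have cR : ContinuousAt (fun w => Real.log ‖P.reverse.eval w‖) 0 :=
      P.reverse.continuous.norm.continuousAt.log (by simp [R0])
    have e1 : ∀ᶠ w in 𝓝 (0 : ℂ), |Real.log ‖P.reverse.eval w‖| ≤ o := by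
      have := Metric.tendsto_nhds.1 cR o ho
      filter_upwards [this] with w hw
      simp only [R0, norm_one, Real.log_one, dist_zero_right, Real.norm_eq_abs] at hw
      exact hw.le
    have e2 : ∀ᶠ w in 𝓝 (0 : ℂ), P.reverse.eval w ≠ 0 :=
      P.reverse.continuous.continuousAt.eventually_ne (by simp [R0])
    have cS : ContinuousAt (dslope ψ 0) 0 :=
      continuousAt_dslope_same.2 (hψ.differentiableAt Dn)
    have S0 : dslope ψ 0 0 ≠ 0 := by rw [dslope_same]; exact norm_pos_iff.1 a0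
    have cS' : ContinuousAt (fun w => n * Real.log ‖dslope ψ 0 w‖) 0 :=
      continuousAt_const.mul (cS.norm.log (norm_ne_zero_iff.2 S0))
    have e3 : ∀ᶠ w in 𝓝 (0 : ℂ),
        |n * Real.log ‖dslope ψ 0 w‖ - n * Real.log ‖deriv ψ 0‖| ≤ o := by
      have := Metric.tendsto_nhds.1 cS' o ho
      filter_upwards [this] with w hw
      simp only [dslope_same, Real.dist_eq] at hw
      exact hw.le
    have e4 : ∀ᶠ w in 𝓝 (0 : ℂ), dslope ψ 0 w ≠ 0 := cS.eventually_ne S0
    filter_upwards [st_small (e1.and (e2.and (e3.and (e4.and Dn)))),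
      eventually_le_atBot (-Real.log θ - o / n)] with x hx hx2 y
    obtain ⟨b1, b2, b3, b4, b5⟩ := hx y
    have hz := exp_ne_zero (stZ x y)
    constructor
    · have c1 : P.eval (exp (stZ x y))⁻¹ =
          P.reverse.eval (exp (stZ x y)) * ((exp (stZ x y))⁻¹) ^ n := by
        let _ := invertibleOfNonzero (inv_ne_zero hz)
        have := Polynomial.eval₂_reverse_mul_pow (RingHom.id ℂ) (exp (stZ x y))⁻¹ P
        rw [invOf_eq_inv, inv_inv, hdeg] at this
        exact this.symm
      have c2 : Real.log ‖f (stZ x y)‖ =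
          Real.log ‖P.reverse.eval (exp (stZ x y))‖ - n * x - n * Real.log θ := by
        rw [fn, c1, norm_mul, norm_pow, norm_inv, stZ_norm,
          Real.log_div (mul_ne_zero (norm_ne_zero_iff.2 b2) (by positivity)) hθn.ne',
          Real.log_mul (norm_ne_zero_iff.2 b2) (by positivity), Real.log_pow, Real.log_pow,
          Real.log_inv, Real.log_exp]
        ring
      have c3 : n * x ≤ -(n * Real.log θ) - o := by
        have := mul_le_mul_of_nonneg_left hx2 hn'.le
        rwa [mul_sub, mul_div_cancel₀ _ hn'.ne', mul_neg] at this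
      have c4 : Real.posLog ‖f (stZ x y)‖ = Real.log ‖f (stZ x y)‖ := by
        rw [Real.posLog_apply]
        exact max_eq_right (by rw [c2]; linarith [(abs_le.1 b1).1])
      rw [c4, c2]
      convert b1 using 2
      ring
    · have c1 : ψ (exp (stZ x y)) = exp (stZ x y) * dslope ψ 0 (exp (stZ x y)) := by
        have := sub_smul_dslope ψ 0 (exp (stZ x y))
        rw [sub_zero, h0, sub_zero, smul_eq_mul] at this
        exact this.symm
      rw [nmD _ b5, c1, norm_mul, stZ_norm,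
        Real.log_mul (by positivity) (norm_ne_zero_iff.2 b4), Real.log_exp, abs_sub_comm]
      convert b3 using 2
      ring
  · intro o ho
    have P0 : ‖P.eval 0‖ ≤ θ ^ n := by
      by_contra hgt
      push Not at hgt
      have e1 : ∀ᶠ w in 𝓝 (0 : ℂ), θ ^ n < ‖P.eval w‖ :=
        P.continuous.norm.continuousAt.eventually (lt_mem_nhds hgt)
      obtain ⟨x, hx, hx2⟩ := ((st_small' e1).and
        (Real.tendsto_exp_atTop.eventually (eventually_ge_atTop m))).exists
      obtain ⟨y, hy⟩ := (hY _ hx2).1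
      exact absurd (fY x y hy) (not_le.2 (hx y))
    have cR : Continuous fun w => Real.posLog (‖P.eval w‖ / θ ^ n) :=
      Real.continuous_posLog.comp (P.continuous.norm.div_const _)
    have R0 : Real.posLog (‖P.eval 0‖ / θ ^ n) < o := by
      rwa [(Real.posLog_eq_zero_iff _).2]
      rwa [abs_of_nonneg (by positivity), div_le_one hθn]
    filter_upwards [st_small' (cR.continuousAt.eventually (gt_mem_nhds R0))] with x hx y
    rw [fn]
    exact (hx y).le
  · intro x
    have hK : IsCompact (stZ x '' Icc (-Real.pi) Real.pi ∩ {z | 1 ≤ ‖f z‖}) :=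
      (isCompact_Icc.image (by unfold stZ; fun_prop)).inter_right
        (isClosed_le continuous_const fd.continuous.norm)
    filter_upwards [st_mean (U := {z | f z ≠ 0}) (isOpen_ne_fun fd.continuous continuous_const)
      fd.differentiableOn (fun z hz => hz) hK fun z hz h => by
        have := hz.2
        simp only [mem_ofPred_eq, h, norm_zero] at this
        linarith] with δ hδ y hy
    simp only [stZ_circle]
    rcases le_total 1 ‖f (stZ x y)‖ with h | h
    · obtain ⟨-, b2, b3⟩ := hδ _ ⟨⟨y, hy, rfl⟩, h⟩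
      rw [Real.posLog_eq_log (by rwa [abs_of_nonneg (norm_nonneg _)]), ← b3]
      refine intervalIntegral.integral_mono (by positivity) (b2.intervalIntegrable _ _)
        (Continuous.intervalIntegrable ?_ _ _) fun φ => le_max_right _ _
      exact Real.continuous_posLog.comp (fd.continuous.comp (continuous_circleMap _ _)).norm
    · rw [(Real.posLog_eq_zero_iff _).2 (by rwa [abs_of_nonneg (norm_nonneg _)]), mul_zero]
      exact intervalIntegral.integral_nonneg (by positivity) fun φ _ => Real.posLog_nonneg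
  · intro x t ht
    by_cases hin : ∀ y ∈ Icc (-t) t, exp (stZ x y) ∈ D
    · left
      have hK : IsCompact (stZ x '' Icc (-t) t) := isCompact_Icc.image (by unfold stZ; fun_prop)
      filter_upwards [st_mean (g := fun z => ψ (exp z)) (U := exp ⁻¹' D)
        (hD.isOpen.preimage continuous_exp)
        (hψ.comp differentiable_exp.differentiableOn fun z hz => hz)
        (fun z hz => ψ0 _ hz (exp_ne_zero z)) hK (by rintro _ ⟨y, hy, rfl⟩; exact hin y hy)]
        with δ hδ y hy
      obtain ⟨b1, -, b3⟩ := hδ _ ⟨y, hy, rfl⟩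
      simp only [stZ_circle, nmD _ (b1 _), nmD _ (hin y hy)]
      rw [intervalIntegral.integral_neg, intervalIntegral.integral_const_mul, b3]
      exact le_of_eq (by ring)
    · right
      push Not at hin
      obtain ⟨y, hy, hyD⟩ := hin
      have hm : m ≤ Real.exp x := by
        by_contra h
        exact hyD (hD.ball_sub (by rw [mem_ball_zero_iff, stZ_norm]; exact not_le.1 h))
      obtain ⟨⟨y1, hy1⟩, hvol⟩ := hY _ hm
      refine ⟨⟨y1, uY x y1 hy1⟩, st_meas (Real.continuous_posLog.comp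
        (fd.continuous.comp (by unfold stZ; fun_prop)).norm) ?_ hvol ?_⟩
      · rintro y' ⟨h1, h2⟩
        refine ⟨h1, ?_⟩
        rw [← stZ_exp]
        refine hD.sym _ hyD _ (by rw [stZ_norm, stZ_norm]) ?_
        rw [stZ_re, stZ_re, ← Real.cos_abs y', ← Real.cos_abs y]
        refine mul_le_mul_of_nonneg_left (Real.cos_le_cos_of_nonneg_of_le_pi (abs_nonneg _)
          (abs_le.2 ⟨h1.1.le, h1.2⟩) ((abs_le.2 hy).trans ?_)) (Real.exp_pos x).le
        by_contra h
        exact h2 (abs_lt.1 (not_le.1 h))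
      · intro y' hy'
        exact ⟨hy'.1, fun h => h (uY x y' hy')⟩

end Pool.Agent.Lib.MP_9b2593_an.Uq
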