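import Pool.Agent.Lib.MP_9b2593_an.Uq.StarC
import Pool.Agent.Lib.MP_9b2593_an.Uq.Seq
import Pool.Agent.Shared.Brouwer.Basic
import Pool.Agent.Lib.MP_9b2593_an.Uq.Radial
import Pool.Agent.Lib.MP_9b2593_an.Uq.Star

-- part Pool.Agent.Lib.MP_9b2593_an.Uq.Koebe
section

/-!
The slit disc and the values of modulus larger than one of the exterior map.
-/

open Complex Metric Set MeasureTheory

noncomputable section

namespace Pool.Agent.Lib.MP_9b2593_an.Uq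

namespace Koebe

theorem one_sub_ne {s : ℂ} (hs : ‖s‖ < 1) : 1 - s ≠ 0 := fun h => by
  rw [← sub_eq_zero.1 h] at hs
  simp at hs

theorem one_add_ne {s : ℂ} (hs : ‖s‖ < 1) : 1 + s ≠ 0 := by
  simpa using one_sub_ne (s := -s) (by simpa using hs)

theorem sq_lt {s : ℂ} (hs : ‖s‖ < 1) : s.re ^ 2 + s.im ^ 2 < 1 := by
  have h1 : ‖s‖ ^ 2 < 1 := by nlinarith [norm_nonneg s]
  rw [Complex.sq_norm, normSq_apply] at h1
  nlinarith

/-- The Cayley transform sends the disc into the right half plane. -/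
theorem cay_re {z : ℂ} (hz : ‖z‖ < 1) : 0 < ((1 - z) / (1 + z)).re := by
  have h1 := sq_lt hz
  have h2 : 0 < normSq (1 + z) := normSq_pos.2 (one_add_ne hz)
  rw [div_re, ← add_div]
  refine div_pos ?_ h2
  simp only [sub_re, one_re, add_re, sub_im, one_im, add_im]
  nlinarith

theorem add_ne_of_re {c : ℂ} (hc : 0 < c.re) : 1 + c ≠ 0 := fun h => by
  have := congrArg re h
  simp only [add_re, one_re, zero_re] at this
  linarith

/-- The Cayley transform sends the right half plane into the disc. -/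
theorem cay_norm {c : ℂ} (hc : 0 < c.re) : ‖(1 - c) / (1 + c)‖ < 1 := by
  rw [norm_div, div_lt_one (norm_pos_iff.2 (add_ne_of_re hc))]
  refine lt_of_pow_lt_pow_left₀ 2 (norm_nonneg _) ?_
  rw [Complex.sq_norm, Complex.sq_norm, normSq_apply, normSq_apply]
  simp only [sub_re, one_re, add_re, sub_im, one_im, add_im]
  nlinarith

theorem sq_mem {c : ℂ} (hc : 0 < c.re) : c ^ 2 ∈ slitPlane := by
  rw [mem_slitPlane_iff, sq, mul_re, mul_im]
  by_cases h : c.im = 0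
  · left; rw [h]; nlinarith
  · right
    rw [mul_comm c.im, ← two_mul]
    exact mul_ne_zero two_ne_zero (mul_ne_zero hc.ne' h)

theorem eq_of_sq {a b : ℂ} (ha : 0 < a.re) (hb : 0 < b.re) (h : a ^ 2 = b ^ 2) : a = b := by
  rcases sq_eq_sq_iff_eq_or_eq_neg.1 h with h | h
  · exact h
  · rw [h, neg_re] at ha; linarith

theorem exists_sqrt : ∃ R : ℂ → ℂ, DifferentiableOn ℂ R slitPlane ∧
    ∀ w ∈ slitPlane, R w ^ 2 = w ∧ 0 < (R w).re := by
  refine ⟨fun w => exp (log w / 2), fun w hw =>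
    (((differentiableAt_log hw).div_const 2).cexp).differentiableWithinAt, fun w hw => ⟨?_, ?_⟩⟩
  · rw [← Complex.exp_nat_mul, show ((2 : ℕ) : ℂ) * (log w / 2) = log w by push_cast; ring,
      exp_log (slitPlane_ne_zero hw)]
  · rw [exp_re]
    refine mul_pos (Real.exp_pos _) (Real.cos_pos_of_mem_Ioo ?_)
    have h1 := neg_pi_lt_arg w
    have h2 := lt_of_le_of_ne (arg_le_pi w) (mem_slitPlane_iff_arg.1 hw).1
    rw [div_ofNat_im, log_im]
    constructor <;> linarith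

theorem mul_mem {k : ℝ} (hk : 0 < k) {w : ℂ} (hw : w ∈ slitPlane) : (k : ℂ) * w ∈ slitPlane := by
  rw [mem_slitPlane_iff] at hw ⊢
  rw [re_ofReal_mul, im_ofReal_mul]
  exact hw.imp (mul_pos hk) (mul_ne_zero hk.ne')

theorem koebe_ofReal (ρ : ℝ) : koebe ρ = ((ρ / (1 - ρ) ^ 2 : ℝ) : ℂ) := by
  simp [koebe]

theorem hasDerivAt_koebe {s : ℂ} (hs : ‖s‖ < 1) : HasDerivAt koebe ((1 + s) / (1 - s) ^ 3) s := by
  have h1 := one_sub_ne hs
  have h2 := (hasDerivAt_id' s).fun_div (((hasDerivAt_id' s).const_sub 1).fun_pow 2)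
    (pow_ne_zero 2 h1)
  refine h2.congr_deriv ?_
  field_simp
  ring

/-- A disc automorphism with a real parameter. -/
def mob (x : ℝ) (z : ℂ) : ℂ := (z + x) / (1 + x * z)

theorem mob_den {x : ℝ} (hx : |x| < 1) {z : ℂ} (hz : ‖z‖ < 1) : 1 + x * z ≠ 0 := by
  refine one_add_ne ?_
  rw [norm_mul, norm_real, Real.norm_eq_abs]
  nlinarith [abs_nonneg x, norm_nonneg z]

theorem mob_norm {x : ℝ} (hx : |x| < 1) {z : ℂ} (hz : ‖z‖ < 1) : ‖mob x z‖ < 1 := by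
  rw [mob, norm_div, div_lt_one (norm_pos_iff.2 (mob_den hx hz))]
  refine lt_of_pow_lt_pow_left₀ 2 (norm_nonneg _) ?_
  rw [Complex.sq_norm, Complex.sq_norm, normSq_apply, normSq_apply]
  simp only [add_re, one_re, add_im, one_im, ofReal_re, ofReal_im, re_ofReal_mul, im_ofReal_mul]
  have h1 := sq_lt hz
  have h2 : x ^ 2 < 1 := by rw [← sq_abs]; nlinarith [abs_nonneg x]
  nlinarith [mul_pos (sub_pos.2 h1) (sub_pos.2 h2)]

theorem mob_mob {x : ℝ} (hx : |x| < 1) {z : ℂ} (hz : ‖z‖ < 1) : mob (-x) (mob x z) = z := by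
  have h1 := mob_den hx hz
  have h2 := mob_den (x := -x) (by rwa [abs_neg]) (mob_norm hx hz)
  have h3 : mob x z * (1 + x * z) = z + x := div_mul_cancel₀ _ h1
  rw [mob, div_eq_iff h2]
  push_cast
  linear_combination h3

theorem mob_diff {x : ℝ} (hx : |x| < 1) : DifferentiableOn ℂ (mob x) (ball 0 1) :=
  DifferentiableOn.div (by fun_prop) (by fun_prop) fun _ hz => mob_den hx (mem_ball_zero_iff.1 hz)

theorem mob_maps {x : ℝ} (hx : |x| < 1) : MapsTo (mob x) (ball 0 1) (ball 0 1) :=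
  fun _ hz => mem_ball_zero_iff.2 (mob_norm hx (mem_ball_zero_iff.1 hz))

/-- A self map of the disc with two fixed points, one of them real, is the identity. -/
theorem eq_of_two_fixed {τ : ℂ → ℂ} (hτ : DifferentiableOn ℂ τ (ball 0 1))
    (hm : MapsTo τ (ball 0 1) (ball 0 1)) {x : ℝ} (hx : |x| < 1) (h1 : τ x = x) {s : ℂ}
    (hs : ‖s‖ < 1) (h2 : τ s = s) (hne : s ≠ x) {z : ℂ} (hz : ‖z‖ < 1) : τ z = z := by
  have hx' : |-x| < 1 := by rwa [abs_neg]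
  have hinv : ∀ {z : ℂ}, ‖z‖ < 1 → mob x (mob (-x) z) = z := fun hz => by
    simpa using mob_mob hx' hz
  have h0 : mob x 0 = x := by simp [mob]
  have hσ0 : mob (-x) (τ (mob x 0)) = 0 := by rw [h0, h1]; simp [mob]
  have hs0 : mob (-x) s ≠ 0 := fun h => hne (by rw [← hinv hs, h, h0])
  have hd : dslope (fun z => mob (-x) (τ (mob x z))) 0 (mob (-x) s) = 1 := by
    rw [dslope_of_ne _ hs0, slope_def_field, hσ0, hinv hs, h2, sub_zero, div_self hs0]
  have key := affine_of_mapsTo_ball_of_norm_dslope_eq_div (f := fun z => mob (-x) (τ (mob x z)))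
    (c := 0) (R₁ := 1) (R₂ := 1) (z₀ := mob (-x) s)
    ((mob_diff hx').comp (hτ.comp (mob_diff hx) (mob_maps hx)) (hm.comp (mob_maps hx)))
    (fun z hz => by
      rw [hσ0]
      exact ball_subset_closedBall (mob_maps hx' (hm (mob_maps hx hz))))
    (mem_ball_zero_iff.2 (mob_norm hx' hs)) (by rw [hd]; simp)
    (mem_ball_zero_iff.2 (mob_norm hx' hz))
  simp only [hd, hσ0, hinv hz, sub_zero, zero_add, smul_eq_mul, mul_one] at key
  rw [← hinv (mem_ball_zero_iff.1 (hm (mem_ball_zero_iff.2 hz))), key, hinv hz]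

end Koebe

open Koebe

theorem koebe_injOn : InjOn koebe (ball 0 1) := by
  intro a ha b hb h
  rw [mem_ball_zero_iff] at ha hb
  rw [koebe, koebe, div_eq_div_iff (pow_ne_zero 2 (one_sub_ne ha))
    (pow_ne_zero 2 (one_sub_ne hb))] at h
  have h1 : 1 - a * b ≠ 0 := one_sub_ne (by
    rw [norm_mul]; nlinarith [norm_nonneg a, norm_nonneg b])
  have h2 : (a - b) * (1 - a * b) = 0 := by linear_combination h
  exact sub_eq_zero.1 ((mul_eq_zero.1 h2).resolve_right h1)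

namespace Koebe

theorem koebe_mem {s : ℂ} (hs : s ∈ slit) : koebe s ∈ slitPlane := by
  rw [mem_slitPlane_iff]
  by_cases him : (koebe s).im = 0
  · left
    have h1 : koebe (starRingEnd ℂ s) = koebe s := by
      rw [← conj_eq_iff_im.2 him]
      simp [koebe]
    have h2 := conj_eq_iff_im.1 (koebe_injOn (by simpa using hs.1) (by simpa using hs.1) h1)
    have h3 : s = (s.re : ℂ) := Complex.ext rfl (by simpa using h2)
    have h4 : 0 < s.re := hs.2.resolve_right (not_not.2 h2)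
    have h5 : s.re < 1 := (re_le_norm s).trans_lt hs.1
    rw [h3, koebe_ofReal, ofReal_re]
    exact div_pos h4 (pow_pos (sub_pos.2 h5) 2)
  · exact Or.inr him

end Koebe

theorem exists_slit_map {ρ : ℝ} (h0 : 0 < ρ) (h1 : ρ < 1) :
    ∃ s : ℂ → ℂ, DifferentiableOn ℂ s (ball 0 1) ∧ MapsTo s (ball 0 1) slit ∧ s 0 = ρ ∧
      deriv s 0 = -(ρ / kap ρ : ℝ) := by
  obtain ⟨R, hR, hR'⟩ := exists_sqrt
  have h1' : 0 < 1 - ρ := sub_pos.2 h1
  obtain ⟨k, hk⟩ : ∃ k : ℝ, k = 4 * ρ / (1 - ρ) ^ 2 := ⟨_, rfl⟩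
  have hk0 : 0 < k := by rw [hk]; positivity
  set y : ℂ → ℂ := fun z => 1 + k * ((1 - z) / (1 + z)) ^ 2 with hy
  have hy1 : ∀ z : ℂ, ‖z‖ < 1 → 1 < (y z).re ∨ (y z).im ≠ 0 := fun z hz => by
    have := mem_slitPlane_iff.1 (mul_mem hk0 (sq_mem (cay_re hz)))
    simpa only [hy, add_re, one_re, add_im, one_im, zero_add, lt_add_iff_pos_right] using this
  have hym : MapsTo y (ball 0 1) slitPlane := fun z hz =>
    mem_slitPlane_iff.2 ((hy1 z (mem_ball_zero_iff.1 hz)).imp_left fun h => one_pos.trans h)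
  have hyd : DifferentiableOn ℂ y (ball 0 1) :=
    (((DifferentiableOn.div (by fun_prop) (by fun_prop) fun z hz =>
      one_add_ne (mem_ball_zero_iff.1 hz)).pow 2).const_mul (k : ℂ)).const_add 1
  have hrd : DifferentiableOn ℂ (fun z => R (y z)) (ball 0 1) := hR.comp hyd hym
  have hρ1 : (1 : ℂ) - ρ ≠ 0 := by exact_mod_cast h1'.ne'
  have hρ2 : (1 : ℂ) + ρ ≠ 0 := by exact_mod_cast (by linarith : 1 + ρ ≠ 0)
  have hr0 : R (y 0) = (1 + ρ) / (1 - ρ) := by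
    refine eq_of_sq (hR' _ (hym (mem_ball_self one_pos))).2 ?_ ?_
    · have : ((1 : ℂ) + ρ) / (1 - ρ) = (((1 + ρ) / (1 - ρ) : ℝ) : ℂ) := by push_cast; rfl
      rw [this, ofReal_re]
      positivity
    · rw [(hR' _ (hym (mem_ball_self one_pos))).1]
      simp only [hy, hk]
      push_cast
      field_simp
      ring
  refine ⟨fun z => -((1 - R (y z)) / (1 + R (y z))), ?_, fun z hz => ⟨?_, ?_⟩, ?_, ?_⟩
  · exact ((hrd.const_sub 1).div (hrd.const_add 1) fun z hz =>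
      add_ne_of_re (hR' _ (hym hz)).2).neg
  · rw [norm_neg]; exact cay_norm (hR' _ (hym hz)).2
  · obtain ⟨e1, e2⟩ := hR' _ (hym hz)
    have e3 := hy1 z (mem_ball_zero_iff.1 hz)
    rw [← e1] at e3
    beta_reduce
    generalize R (y z) = r at e2 e3 ⊢
    have e4 : 0 < normSq (1 + r) := normSq_pos.2 (add_ne_of_re e2)
    rw [sq, mul_re, mul_im] at e3
    rw [neg_re, neg_im, div_re, div_im, ← add_div, ← sub_div, ← neg_div, ← neg_div]
    simp only [sub_re, one_re, add_re, sub_im, one_im, add_im]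
    by_cases h : r.im = 0
    · left
      refine div_pos ?_ e4
      rw [h] at e3 ⊢
      rcases e3 with e3 | e3
      · nlinarith
      · exact absurd (by ring) e3
    · right
      refine div_ne_zero (fun h' => h ?_) e4.ne'
      linarith
  · simp only [hr0]
    field_simp
    ring
  · have hn : ball (0 : ℂ) 1 ∈ nhds (0 : ℂ) := ball_mem_nhds 0 one_pos
    have d1 := (hrd.differentiableAt hn).hasDerivAt
    generalize deriv (fun z => R (y z)) 0 = d at d1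
    have d2 : HasDerivAt y (k * (-4)) 0 := by
      have := (((((hasDerivAt_id' (0 : ℂ)).const_sub 1).fun_div
        ((hasDerivAt_id' (0 : ℂ)).const_add 1) (by simp)).fun_pow 2).const_mul (k : ℂ)).const_add 1
      refine this.congr_deriv ?_
      norm_num
    have d3 := (d1.fun_pow 2).unique (d2.congr_of_eventuallyEq (by
      filter_upwards [hn] with z hz using (hR' _ (hym hz)).1))
    have d4 := ((d1.const_sub 1).fun_div (d1.const_add 1)
      (add_ne_of_re (hR' _ (hym (mem_ball_self one_pos))).2)).fun_neg.deriv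
    rw [d4]
    simp only [hr0, hk] at d3 ⊢
    have d5 : d = -8 * ρ / ((1 - ρ) * (1 + ρ)) := by
      push_cast at d3
      field_simp at d3 ⊢
      linear_combination d3 / 2
    rw [d5, kap]
    have e : (1 : ℂ) + (1 + ρ) / (1 - ρ) = 2 / (1 - ρ) := by field_simp; ring
    rw [e]
    push_cast
    field_simp
    ring

theorem slit_schwarz {ρ : ℝ} (h0 : 0 < ρ) (h1 : ρ < 1) {s : ℂ → ℂ}
    (hs : DifferentiableOn ℂ s (ball 0 1)) (hm : MapsTo s (ball 0 1) slit) (hs0 : s 0 = ρ) :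
    ‖deriv s 0‖ ≤ ρ / kap ρ ∧ (deriv s 0 = -(ρ / kap ρ : ℝ) →
      ∀ z ∈ ball (0 : ℂ) 1, koebe (s z) = koebe ρ * ((1 - z) / (1 + z)) ^ 2) := by
  obtain ⟨R, hR, hR'⟩ := exists_sqrt
  have h1' : 0 < 1 - ρ := sub_pos.2 h1
  have hkap : 0 < kap ρ := by rw [kap]; positivity
  obtain ⟨k, hk⟩ : ∃ k : ℝ, k = (1 - ρ) ^ 2 / ρ := ⟨_, rfl⟩
  have hk0 : 0 < k := by rw [hk]; positivity
  have hρ0 : (ρ : ℂ) ≠ 0 := by exact_mod_cast h0.ne'
  have hρ1 : (1 : ℂ) - ρ ≠ 0 := by exact_mod_cast h1'.ne'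
  have hρ2 : (1 : ℂ) + ρ ≠ 0 := by exact_mod_cast (by linarith : 1 + ρ ≠ 0)
  have hkk : koebe ρ * k = 1 := by
    rw [koebe, hk]
    push_cast
    field_simp
  set u : ℂ → ℂ := fun z => k * koebe (s z) with hu
  have hum : MapsTo u (ball 0 1) slitPlane := fun z hz => mul_mem hk0 (koebe_mem (hm hz))
  have hud : DifferentiableOn ℂ u (ball 0 1) := fun z hz =>
    ((hasDerivAt_koebe (hm hz).1).differentiableAt.comp_differentiableWithinAt z
      (hs z hz)).const_mul (k : ℂ)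
  have hcd : DifferentiableOn ℂ (fun z => R (u z)) (ball 0 1) := hR.comp hud hum
  have hc0 : R (u 0) = 1 := by
    refine eq_of_sq (hR' _ (hum (mem_ball_self one_pos))).2 (by simp) ?_
    rw [(hR' _ (hum (mem_ball_self one_pos))).1]
    simp only [hu, hs0]
    rw [mul_comm, hkk, one_pow]
  set ω : ℂ → ℂ := fun z => (1 - R (u z)) / (1 + R (u z)) with hω
  have hωd : DifferentiableOn ℂ ω (ball 0 1) :=
    (hcd.const_sub 1).div (hcd.const_add 1) fun z hz => add_ne_of_re (hR' _ (hum hz)).2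
  have hωm : MapsTo ω (ball 0 1) (ball 0 1) := fun z hz =>
    mem_ball_zero_iff.2 (cay_norm (hR' _ (hum hz)).2)
  have hω0 : ω 0 = 0 := by simp [hω, hc0]
  have hn : ball (0 : ℂ) 1 ∈ nhds (0 : ℂ) := ball_mem_nhds 0 one_pos
  have hω' : deriv ω 0 = -((kap ρ / ρ : ℝ) * deriv s 0) := by
    have d0 := (hs.differentiableAt hn).hasDerivAt
    have d1 := (hcd.differentiableAt hn).hasDerivAt
    generalize deriv (fun z => R (u z)) 0 = d at d1
    generalize deriv s 0 = e at d0 ⊢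
    have d2 : HasDerivAt u (k * ((1 + s 0) / (1 - s 0) ^ 3 * e)) 0 :=
      ((hasDerivAt_koebe (hm (mem_ball_self one_pos)).1).comp 0 d0).const_mul (k : ℂ)
    have d3 := (d1.fun_pow 2).unique (d2.congr_of_eventuallyEq (by
      filter_upwards [hn] with z hz using (hR' _ (hum hz)).1))
    have d4 := ((d1.const_sub 1).fun_div (d1.const_add 1)
      (add_ne_of_re (hR' _ (hum (mem_ball_self one_pos))).2)).deriv
    rw [hω, d4]
    simp only [hc0, hk, hs0] at d3 ⊢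
    have d5 : d = (1 + ρ) / (2 * ρ * (1 - ρ)) * e := by
      push_cast at d3
      field_simp at d3 ⊢
      linear_combination d3
    rw [d5, kap]
    push_cast
    field_simp
    ring
  constructor
  · have := norm_deriv_le_one_of_mapsTo_ball hωd
      (by rw [hω0]; exact hωm.mono_right ball_subset_closedBall) one_pos
    rw [hω', norm_neg, norm_mul, norm_real, Real.norm_of_nonneg (by positivity),
      div_mul_eq_mul_div, div_le_one h0] at this
    rw [le_div_iff₀ hkap]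
    linarith
  · intro he z hz
    have e1 : deriv ω 0 = 1 := by
      rw [hω', he, mul_neg, neg_neg, ← ofReal_mul, div_mul_div_cancel₀ h0.ne', div_self hkap.ne',
        ofReal_one]
    have e2 := (schwarz_eq hωd hωm hω0 (by rw [e1, norm_one])).2 z hz
    rw [e1, one_mul] at e2
    obtain ⟨e3, e4⟩ := hR' _ (hum hz)
    have e5 : R (u z) = (1 - z) / (1 + z) := by
      simp only [hω] at e2
      rw [div_eq_iff (add_ne_of_re e4)] at e2
      rw [eq_div_iff (one_add_ne (mem_ball_zero_iff.1 hz))]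
      linear_combination -e2
    rw [← e5, e3]
    simp only [hu]
    rw [← mul_assoc, hkk, one_mul]

theorem phi_surj {g : ℕ → ℝ} (hg : Schur g) (h0 : 0 < g 0) {w : ℂ} (hw : 1 < ‖w‖) :
    w ∈ Phi g '' (ball 0 1 \ {0}) := by
  have hw0 : 0 < ‖w‖ := one_pos.trans hw
  have hsub : closedBall (0 : ℂ) ‖w‖⁻¹ ⊆ ball 0 1 :=
    closedBall_subset_ball (inv_lt_one_of_one_lt₀ hw)
  obtain ⟨s, hs, e⟩ := Pool.Agent.Shared.Brouwer.brouwer (inv_pos.2 hw0) (fun s => ev g s / w)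
    (((differentiableOn_ev hg.1).continuousOn.mono hsub).div_const w) fun s hs => by
      rw [mem_closedBall_zero_iff, norm_div, ← one_div]
      exact div_le_div_of_nonneg_right (hg.2 s (mem_ball_zero_iff.1 (hsub hs))) hw0.le
  rw [div_eq_iff (norm_pos_iff.1 hw0)] at e
  have hs0 : s ≠ 0 := by
    rintro rfl
    rw [ev_zero, zero_mul, ofReal_eq_zero] at e
    exact h0.ne' e
  exact ⟨s, ⟨hsub hs, hs0⟩, by rw [Phi, e, mul_div_cancel_left₀ _ hs0]⟩

theorem phi_omit {g : ℕ → ℝ} (hg : Schur g) (h0 : 0 < g 0) {t : ℝ} (ht : 1 < t) :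
    ∀ s ∈ slit, Phi g s ≠ -(t : ℂ) := by
  intro s hs he
  have ht0 : 0 < t := one_pos.trans ht
  have htc : (t : ℂ) ≠ 0 := by exact_mod_cast ht0.ne'
  have hs0 : s ≠ 0 := by
    rintro rfl
    simpa using hs.2
  obtain ⟨r, hr1, hr2⟩ := exists_between (inv_lt_one_of_one_lt₀ ht)
  have hr0 : 0 < r := (inv_pos.2 ht0).trans hr1
  have htr : 1 < t * r := by rwa [inv_lt_iff_one_lt_mul₀' ht0] at hr1
  have hb : ∀ x : ℝ, |x| < 1 → |rv g x| ≤ 1 := fun x hx => by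
    have := hg.2 x (by simpa using hx)
    rwa [ev_ofReal, norm_real, Real.norm_eq_abs] at this
  have hc : ContinuousOn (fun x => rv g x + t * x) (Icc (-r) 0) := fun x hx =>
    (((hasDerivAt_rv hg.1 (abs_lt.2 ⟨by linarith [hx.1], by linarith [hx.2]⟩)).continuousAt).add
      (by fun_prop)).continuousWithinAt
  have hrv0 : rv g 0 = g 0 := by
    have := ev_ofReal g 0
    rw [ofReal_zero, ev_zero] at this
    exact_mod_cast this.symm
  obtain ⟨x, hx, hx0⟩ := intermediate_value_Icc (by linarith) hc (a := -r) (b := 0)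
    (show (0 : ℝ) ∈ _ from ⟨by
      have := (abs_le.1 (hb (-r) (by rw [abs_neg, abs_of_pos hr0]; exact hr2))).2
      linarith, by simp [hrv0, h0.le]⟩)
  have hx1 : |x| < 1 := abs_lt.2 ⟨by linarith [hx.1], by linarith [hx.2]⟩
  have hle : ∀ z : ℂ, ‖z‖ < 1 → ‖-ev g z / t‖ ≤ t⁻¹ := fun z hz => by
    rw [norm_div, norm_neg, norm_real, Real.norm_of_nonneg ht0.le, ← one_div]
    exact div_le_div_of_nonneg_right (hg.2 z hz) ht0.le
  have hrn : ‖(r : ℂ)‖ = r := by rw [norm_real, Real.norm_of_nonneg hr0.le]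
  have key := eq_of_two_fixed (τ := fun z => -ev g z / t)
    ((differentiableOn_ev hg.1).neg.div_const _)
    (fun z hz => mem_ball_zero_iff.2
      ((hle z (mem_ball_zero_iff.1 hz)).trans_lt (inv_lt_one_of_one_lt₀ ht)))
    hx1 (by
      simp only [ev_ofReal]
      rw [div_eq_iff htc, show rv g x = -(t * x) by linarith]
      push_cast
      ring) hs.1 (by
      rw [Phi, div_eq_iff hs0] at he
      simp only [he]
      field_simp) (by
      rintro rfl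
      have := hs.2
      simp only [ofReal_re, ofReal_im, ne_eq, not_true_eq_false, or_false] at this
      linarith [hx.2]) (z := r) (by rwa [hrn])
  have := hle r (by rwa [hrn])
  rw [key, hrn] at this
  linarith

end Pool.Agent.Lib.MP_9b2593_an.Uq
end
end

-- part Pool.Agent.Lib.MP_9b2593_an.Uq.Area
section

/-!
The area theorem for the exterior map, in both directions.
-/

open Complex Metric Set MeasureTheory

noncomputable section

namespace Pool.Agent.Lib.MP_9b2593_an.Uq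

namespace AreaAux

/-- The open annulus `σ < |s| < 1`. -/
def ann (σ : ℝ) : Set ℂ := {s | σ < ‖s‖ ∧ ‖s‖ < 1}

theorem isOpen_ann (σ : ℝ) : IsOpen (ann σ) :=
  (isOpen_lt continuous_const continuous_norm).inter (isOpen_lt continuous_norm continuous_const)

theorem det_two (T : ℂ →ₗ[ℝ] ℂ) :
    LinearMap.det T = (T 1).re * (T I).im - (T I).re * (T 1).im := by
  rw [← LinearMap.det_toMatrix basisOneI, Matrix.det_fin_two]
  simp [LinearMap.toMatrix_apply]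

theorem det_smul_one (d : ℂ) : (d • (1 : ℂ →L[ℝ] ℂ)).det = ‖d‖ ^ 2 := by
  rw [ContinuousLinearMap.det, det_two, Complex.sq_norm, normSq_apply]
  simp

theorem polar_eq (p : ℝ × ℝ) : Complex.polarCoord.symm p = circleMap 0 p.1 p.2 := by
  rw [Complex.polarCoord_symm_apply, circleMap, zero_add, exp_mul_I]
  simp

theorem circle_mem {σ r : ℝ} (h0 : 0 < σ) (hr : r ∈ Ioo σ 1) (θ : ℝ) : circleMap 0 r θ ∈ ann σ := by
  have : 0 < r := h0.trans hr.1
  simp only [ann, mem_setOf_eq, norm_circleMap_zero, abs_of_pos this]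
  exact hr

/-- Polar coordinates on the annulus. -/
theorem lint_ann {σ : ℝ} (h0 : 0 < σ) {f : ℂ → ℝ} (hf : ContinuousOn f (ann σ))
    (hf0 : ∀ s, 0 ≤ f s) :
    ∫⁻ s in ann σ, ENNReal.ofReal (f s) =
      ∫⁻ r in Ioo σ 1, ENNReal.ofReal (r * ∫ θ in (0 : ℝ)..2 * Real.pi, f (circleMap 0 r θ)) := by
  have hm : MeasurableSet (ann σ) := (isOpen_ann σ).measurableSet
  rw [← lintegral_indicator hm, ← Complex.lintegral_comp_polarCoord_symm]
  have hR : MeasurableSet (Ioo σ 1 ×ˢ Ioo (-Real.pi) Real.pi) :=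
    measurableSet_Ioo.prod measurableSet_Ioo
  have hT : polarCoord.target = Ioi (0 : ℝ) ×ˢ Ioo (-Real.pi) Real.pi := rfl
  have e1 : ∫⁻ p in polarCoord.target, ENNReal.ofReal p.1 •
      (ann σ).indicator (fun s => ENNReal.ofReal (f s)) (Complex.polarCoord.symm p) =
      ∫⁻ p in Ioo σ 1 ×ˢ Ioo (-Real.pi) Real.pi,
        ENNReal.ofReal (p.1 * f (circleMap 0 p.1 p.2)) := by
    rw [hT, ← lintegral_indicator (measurableSet_Ioi.prod measurableSet_Ioo),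
      ← lintegral_indicator hR]
    refine lintegral_congr fun p => ?_
    by_cases hp : p ∈ Ioo σ 1 ×ˢ Ioo (-Real.pi) Real.pi
    · have hp0 : 0 < p.1 := h0.trans hp.1.1
      have hp' : p ∈ Ioi (0 : ℝ) ×ˢ Ioo (-Real.pi) Real.pi := ⟨hp0, hp.2⟩
      rw [indicator_of_mem hp, indicator_of_mem hp', polar_eq,
        indicator_of_mem (circle_mem h0 hp.1 _), ENNReal.ofReal_mul hp0.le, smul_eq_mul]
    · rw [indicator_of_notMem hp]
      by_cases hp' : p ∈ Ioi (0 : ℝ) ×ˢ Ioo (-Real.pi) Real.pi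
      · rw [indicator_of_mem hp', polar_eq, indicator_of_notMem, smul_zero]
        intro hc
        apply hp
        refine ⟨?_, hp'.2⟩
        have hp0 : 0 < p.1 := hp'.1
        simpa only [ann, mem_setOf_eq, norm_circleMap_zero, abs_of_pos hp0, mem_Ioo] using hc
      · rw [indicator_of_notMem hp']
  rw [e1, Measure.volume_eq_prod, setLIntegral_prod]
  · refine setLIntegral_congr_fun measurableSet_Ioo fun r hr => ?_
    have hr0 : 0 < r := h0.trans hr.1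
    have hc : Continuous fun θ => f (circleMap 0 r θ) :=
      hf.comp_continuous (continuous_circleMap 0 r) (circle_mem h0 hr)
    have hper : Function.Periodic (fun θ => f (circleMap 0 r θ)) (2 * Real.pi) := fun θ => by
      simp only [periodic_circleMap 0 r θ]
    have h2 := hper.intervalIntegral_add_eq 0 (-Real.pi)
    rw [zero_add, show -Real.pi + 2 * Real.pi = Real.pi by ring] at h2
    have hle : -Real.pi ≤ Real.pi := by linarith [Real.pi_pos]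
    simp only
    rw [h2, ← intervalIntegral.integral_const_mul, intervalIntegral.integral_of_le hle,
      integral_Ioc_eq_integral_Ioo, ofReal_integral_eq_lintegral_ofReal]
    · exact ((continuous_const.mul hc).integrableOn_Icc (a := -Real.pi) (b := Real.pi)).mono_set
        Ioo_subset_Icc_self
    · exact Filter.Eventually.of_forall fun θ => mul_nonneg hr0.le (hf0 _)
  · refine ContinuousOn.aemeasurable ?_ hR
    refine ENNReal.continuous_ofReal.comp_continuousOn (continuousOn_fst.mul ?_)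
    refine hf.comp (f := fun p : ℝ × ℝ => circleMap 0 p.1 p.2) ?_ fun p hp => circle_mem h0 hp.1 _
    simp only [circleMap]
    fun_prop

variable {g : ℕ → ℝ}

/-- Coefficients of `s G'(s) - G(s)`. -/
def jac (g : ℕ → ℝ) : ℕ → ℝ := fun n => ((n : ℝ) - 1) * g n

theorem pow_mul_self (hg : Pow g) : Pow fun n => (n : ℝ) * g n := by
  intro r h0 h1
  refine (summable_nat_add_iff 1).1 ?_
  refine ((hg.der r h0 h1).mul_right r).congr fun n => ?_
  simp only [der, pow_succ]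
  push_cast
  ring

theorem jac_eq (g : ℕ → ℝ) : jac g = (fun n : ℕ => (n : ℝ) * g n) - g := by
  funext n
  simp only [jac, Pi.sub_apply]
  ring

theorem pow_jac (hg : Pow g) : Pow (jac g) := by
  rw [jac_eq]
  exact (pow_mul_self hg).sub hg

theorem ev_jac (hg : Pow g) {s : ℂ} (hs : ‖s‖ < 1) :
    ev (jac g) s = ev (der g) s * s - ev g s := by
  rw [jac_eq, ev_sub (pow_mul_self hg) hg hs, ev_shift (pow_mul_self hg) hs]
  have : shift (fun n : ℕ => (n : ℝ) * g n) = der g := by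
    funext n
    simp [shift, der]
  rw [this]
  simp [mul_comm]

theorem hasDerivAt_Phi (hg : Pow g) {s : ℂ} (h0 : s ≠ 0) (hs : ‖s‖ < 1) :
    HasDerivAt (Phi g) (ev (jac g) s / s ^ 2) s := by
  have := (hasDerivAt_ev hg hs).div (hasDerivAt_id s) h0
  rw [ev_jac hg hs]
  simp only [id, mul_one] at this
  exact this

theorem hasFDeriv_Phi (hg : Pow g) {σ : ℝ} (h0 : 0 < σ) :
    ∀ s ∈ ann σ, HasFDerivWithinAt (Phi g)
      ((ev (jac g) s / s ^ 2) • (1 : ℂ →L[ℝ] ℂ)) (ann σ) s := fun s hs =>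
  (hasDerivAt_Phi hg (norm_pos_iff.1 (h0.trans hs.1)) hs.2).complexToReal_fderiv.hasFDerivWithinAt

/-- The terms of the area integral. -/
def term (g : ℕ → ℝ) (n : ℕ) (r : ℝ) : ℝ := 2 * Real.pi * (jac g n ^ 2 * r ^ (2 * n)) / r ^ 3

theorem term_nonneg (g : ℕ → ℝ) (n : ℕ) {r : ℝ} (hr : 0 < r) : 0 ≤ term g n r := by
  unfold term
  have := Real.pi_pos
  positivity

theorem hasSum_term (hg : Pow g) {r : ℝ} (h0 : 0 < r) (h1 : r < 1) :
    HasSum (fun n => term g n r) (r * ∫ θ in (0 : ℝ)..2 * Real.pi,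
      ‖ev (jac g) (circleMap 0 r θ) / circleMap 0 r θ ^ 2‖ ^ 2) := by
  have h := ((parseval (pow_jac hg) h0.le h1).mul_left (2 * Real.pi)).div_const (r ^ 3)
  have e : ∀ θ, ‖ev (jac g) (circleMap 0 r θ) / circleMap 0 r θ ^ 2‖ ^ 2 =
      (r ^ 4)⁻¹ * ‖ev (jac g) (circleMap 0 r θ)‖ ^ 2 := fun θ => by
    rw [norm_div, norm_pow, norm_circleMap_zero, abs_of_pos h0]
    field_simp
  simp only [e, intervalIntegral.integral_const_mul]
  have hpi := Real.pi_pos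
  have e2 : ∀ A : ℝ, r * ((r ^ 4)⁻¹ * A) = 2 * Real.pi * ((2 * Real.pi)⁻¹ * A) / r ^ 3 := by
    intro A
    field_simp
  rw [e2]
  exact h

theorem lint_term {σ : ℝ} (h0 : 0 < σ) (h1 : σ < 1) (g : ℕ → ℝ) (n : ℕ) {F : ℝ → ℝ}
    (hF : ∀ r, 0 < r → HasDerivAt F (term g n r) r) :
    ∫⁻ r in Ioo σ 1, ENNReal.ofReal (term g n r) = ENNReal.ofReal (F 1 - F σ) := by
  have hc : ContinuousOn (term g n) (Icc σ 1) := by
    unfold term
    refine ContinuousOn.div (by fun_prop) (by fun_prop) fun r hr => ?_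
    exact pow_ne_zero _ (h0.trans_le hr.1).ne'
  rw [← ofReal_integral_eq_lintegral_ofReal, ← integral_Ioc_eq_integral_Ioo,
    ← intervalIntegral.integral_of_le h1.le, intervalIntegral.integral_eq_sub_of_hasDerivAt]
  · intro r hr
    rw [uIcc_of_le h1.le] at hr
    exact hF r (h0.trans_le hr.1)
  · exact (hc.mono (by rw [uIcc_of_le h1.le])).intervalIntegrable
  · exact hc.integrableOn_Icc.mono_set Ioo_subset_Icc_self
  · filter_upwards [ae_restrict_mem measurableSet_Ioo] with r hr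
    exact term_nonneg g n (h0.trans hr.1)

theorem lint_term_zero {σ : ℝ} (h0 : 0 < σ) (h1 : σ < 1) (g : ℕ → ℝ) :
    ∫⁻ r in Ioo σ 1, ENNReal.ofReal (term g 0 r) =
      ENNReal.ofReal (Real.pi * g 0 ^ 2 * (σ⁻¹ ^ 2 - 1)) := by
  rw [lint_term h0 h1 g 0 (F := fun r => -(Real.pi * g 0 ^ 2) * r⁻¹ ^ 2)]
  · congr 1
    simp only [inv_one, one_pow]
    ring
  · intro r hr
    have := ((hasDerivAt_inv hr.ne').pow 2).const_mul (-(Real.pi * g 0 ^ 2))
    have e : term g 0 r = -(Real.pi * g 0 ^ 2) * (((2 : ℕ) : ℝ) * r⁻¹ ^ (2 - 1) * (-(r ^ 2)⁻¹)) := by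
      simp only [term, jac, show 2 - 1 = 1 from rfl, pow_one]
      push_cast
      field_simp
      ring
    rw [e]
    exact this

theorem lint_term_succ {σ : ℝ} (h0 : 0 < σ) (h1 : σ < 1) (g : ℕ → ℝ) (k : ℕ) :
    ∫⁻ r in Ioo σ 1, ENNReal.ofReal (term g (k + 1) r) =
      ENNReal.ofReal (Real.pi * (k * g (k + 1) ^ 2) * (1 - σ ^ (2 * k))) := by
  rw [lint_term h0 h1 g (k + 1) (F := fun r => Real.pi * (k * g (k + 1) ^ 2) * r ^ (2 * k))]
  · congr 1
    simp only [one_pow]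
    ring
  · intro r hr
    have := (hasDerivAt_pow (2 * k) r).const_mul (Real.pi * (k * g (k + 1) ^ 2))
    have e : term g (k + 1) r =
        Real.pi * (k * g (k + 1) ^ 2) * (((2 * k : ℕ) : ℝ) * r ^ (2 * k - 1)) := by
      simp only [term, jac]
      rcases k with _ | k
      · simp
      · rw [show 2 * (k + 1) - 1 = 2 * k + 1 by omega]
        push_cast
        field_simp
        ring
    rw [e]
    exact this

/-- The area of the image of the annulus, counted with multiplicity. -/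
theorem lint_jac (hg : Pow g) {σ : ℝ} (h0 : 0 < σ) (h1 : σ < 1) :
    ∫⁻ s in ann σ, ENNReal.ofReal |((ev (jac g) s / s ^ 2) • (1 : ℂ →L[ℝ] ℂ)).det| =
      ENNReal.ofReal (Real.pi * g 0 ^ 2 * (σ⁻¹ ^ 2 - 1)) +
        ∑' k : ℕ, ENNReal.ofReal (Real.pi * (k * g (k + 1) ^ 2) * (1 - σ ^ (2 * k))) := by
  simp only [det_smul_one, abs_pow, abs_norm]
  have hc : ContinuousOn (fun s => ‖ev (jac g) s / s ^ 2‖ ^ 2) (ann σ) := by
    refine (ContinuousOn.norm (ContinuousOn.div ?_ (by fun_prop) fun s hs => ?_)).pow 2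
    · exact (differentiableOn_ev (pow_jac hg)).continuousOn.mono fun s hs =>
        mem_ball_zero_iff.2 hs.2
    · exact pow_ne_zero _ (norm_pos_iff.1 (h0.trans hs.1))
  rw [lint_ann h0 hc fun s => by positivity]
  have e : ∫⁻ r in Ioo σ 1, ENNReal.ofReal (r * ∫ θ in (0 : ℝ)..2 * Real.pi,
      ‖ev (jac g) (circleMap 0 r θ) / circleMap 0 r θ ^ 2‖ ^ 2) =
      ∫⁻ r in Ioo σ 1, ∑' n, ENNReal.ofReal (term g n r) := by
    refine setLIntegral_congr_fun measurableSet_Ioo fun r hr => ?_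
    have hr0 := h0.trans hr.1
    have hs := hasSum_term hg hr0 hr.2
    rw [← hs.tsum_eq, ENNReal.ofReal_tsum_of_nonneg (fun n => term_nonneg g n hr0) hs.summable]
  rw [e, lintegral_tsum, tsum_eq_zero_add' ENNReal.summable, lint_term_zero h0 h1]
  · simp only [lint_term_succ h0 h1]
  · intro n
    refine Measurable.aemeasurable (ENNReal.measurable_ofReal.comp ?_)
    unfold term
    fun_prop

/-- The real linear map `z ↦ C z + a conj z`. -/
def ell (C a : ℝ) : ℂ →ₗ[ℝ] ℂ := C • LinearMap.id + a • conjAe.toLinearMap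

theorem ell_apply (C a : ℝ) (z : ℂ) : ell C a z = C * z + a * starRingEnd ℂ z := by
  simp [ell]

theorem det_ell (C a : ℝ) : LinearMap.det (ell C a) = C ^ 2 - a ^ 2 := by
  rw [det_two]
  simp [ell_apply]
  ring

theorem norm_ell {C a b : ℝ} (hC : 0 ≤ C) (ha : |a| ≤ b) (z : ℂ) :
    (C - b) * ‖z‖ ≤ ‖ell C a z‖ := by
  have h1 : ‖(C : ℂ) * z‖ ≤ ‖ell C a z‖ + ‖(a : ℂ) * starRingEnd ℂ z‖ := by
    rw [ell_apply]
    exact norm_le_add_norm_add _ _
  rw [norm_mul, norm_mul, norm_real, norm_real, Complex.norm_conj, Real.norm_of_nonneg hC,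
    Real.norm_eq_abs] at h1
  nlinarith [norm_nonneg z]

theorem surj_ell {C a b : ℝ} (hC : 0 ≤ C) (ha : |a| ≤ b) (hb : b < C) :
    Function.Surjective (ell C a) := by
  rw [← LinearMap.injective_iff_surjective, injective_iff_map_eq_zero]
  intro z hz
  have := norm_ell hC ha z
  rw [hz, norm_zero] at this
  have h2 : ‖z‖ ≤ 0 := by
    by_contra h
    have := mul_pos (sub_pos.2 hb) (not_le.1 h)
    linarith
  exact norm_le_zero_iff.1 h2

theorem vol_ell {C a r : ℝ} (c : ℂ) (hr : 0 ≤ r) (ha : a ^ 2 ≤ C ^ 2) {X : Set ℂ}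
    (hX : volume X = ENNReal.ofReal r ^ 2 * NNReal.pi) :
    volume ((fun w => w + -c) ⁻¹' (ell C a '' X)) =
      ENNReal.ofReal (Real.pi * ((C ^ 2 - a ^ 2) * r ^ 2)) := by
  have h : 0 ≤ C ^ 2 - a ^ 2 := sub_nonneg.2 ha
  rw [measure_preimage_add_right, Measure.addHaar_image_linearMap, det_ell, hX, abs_of_nonneg h,
    ← ENNReal.ofReal_pow hr, ← ENNReal.ofReal_coe_nnreal, NNReal.coe_real_pi,
    ← ENNReal.ofReal_mul (by positivity), ← ENNReal.ofReal_mul h]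
  congr 1
  ring

theorem norm_ev_le {h : ℕ → ℝ} (hh : ∀ n, |h n| ≤ 1) {s : ℂ} (hs : ‖s‖ ≤ 1 / 2) :
    ‖ev h s‖ ≤ 2 := by
  refine tsum_of_norm_bounded hasSum_geometric_two fun n => ?_
  rw [norm_mul, norm_pow, norm_real, Real.norm_eq_abs]
  calc |h n| * ‖s‖ ^ n ≤ 1 * (1 / 2) ^ n :=
        mul_le_mul (hh n) (pow_le_pow_left₀ (norm_nonneg _) hs n) (by positivity) zero_le_one
    _ = (1 / 2) ^ n := one_mul _

theorem norm_Phi_le (hg : Schur g) (hC : 0 < g 0) {s : ℂ} (h0 : s ≠ 0) (hs : ‖s‖ < 1) :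
    ‖Phi g s‖ ≤ g 0 * ‖s‖⁻¹ + 2 := by
  have hp : 0 < ‖s‖ := norm_pos_iff.2 h0
  rcases le_total ‖s‖ (1 / 2) with h | h
  · have e : Phi g s = g 0 * s⁻¹ + ev (shift g) s := by
      rw [Phi, ev_shift hg.1 hs]
      field_simp
    rw [e]
    refine (norm_add_le _ _).trans (add_le_add ?_ (norm_ev_le (fun n => hg.abs_le _) h))
    rw [norm_mul, norm_inv, norm_real, Real.norm_of_nonneg hC.le]
  · have h1 : ‖Phi g s‖ ≤ 2 := by
      rw [Phi, norm_div, div_le_iff₀ hp]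
      linarith [hg.2 s hs]
    have : 0 ≤ g 0 * ‖s‖⁻¹ := by positivity
    linarith

theorem abs_coef (hg : Schur g) (σ : ℝ) : |g 2 * σ ^ 2| ≤ σ ^ 2 := by
  rw [abs_mul, abs_of_nonneg (sq_nonneg σ)]
  nlinarith [hg.abs_le 2, sq_nonneg σ]

theorem close (hg : Schur g) (hC : 0 < g 0) (σ : ℝ) {s z : ℂ} (h0 : s ≠ 0) (hs : ‖s‖ ≤ 1 / 2)
    (hz : ell (g 0) (g 2 * σ ^ 2) z = Phi g s + -(g 1 : ℂ)) :
    (g 0 - σ ^ 2) * ‖z - s⁻¹‖ ≤ |‖s‖ ^ 2 - σ ^ 2| * ‖s‖⁻¹ + 2 * ‖s‖ ^ 2 := by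
  have hs1 : ‖s‖ < 1 := by linarith
  refine (norm_ell hC.le (abs_coef hg σ) _).trans ?_
  have hc : starRingEnd ℂ s ≠ 0 := by simpa using h0
  have hn : ((‖s‖ ^ 2 : ℝ) : ℂ) = s * starRingEnd ℂ s := by
    rw [mul_conj, Complex.sq_norm]
  have e : ell (g 0) (g 2 * σ ^ 2) (z - s⁻¹) =
      g 2 * ((‖s‖ ^ 2 - σ ^ 2 : ℝ) : ℂ) * (starRingEnd ℂ s)⁻¹ +
        s ^ 2 * ev (shift (shift (shift g))) s := by
    rw [map_sub, hz, ell_apply, Phi, ev_shift hg.1 hs1, ev_shift hg.1.shift hs1,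
      ev_shift hg.1.shift.shift hs1, ofReal_sub, hn, map_inv₀]
    simp only [shift]
    push_cast
    field_simp
    ring
  rw [e]
  refine (norm_add_le _ _).trans (add_le_add ?_ ?_)
  · rw [norm_mul, norm_mul, norm_inv, Complex.norm_conj, norm_real, norm_real, Real.norm_eq_abs,
      Real.norm_eq_abs]
    refine mul_le_mul_of_nonneg_right ?_ (by positivity)
    nlinarith [hg.abs_le 2, abs_nonneg (‖s‖ ^ 2 - σ ^ 2)]
  · rw [norm_mul, norm_pow]
    have := norm_ev_le (h := shift (shift (shift g))) (fun n => hg.abs_le _) hs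
    nlinarith [sq_nonneg ‖s‖]

theorem small (hg : Schur g) {σ : ℝ} (h0 : 0 < σ) (h1 : 12 * σ ≤ g 0) :
    12 * σ ≤ 1 ∧ 4 * σ ^ 2 ≤ g 0 := by
  have := (le_abs_self _).trans (hg.abs_le 0)
  constructor
  · linarith
  · nlinarith

theorem outer (hg : Schur g) {σ : ℝ} (h0 : 0 < σ) (h1 : 12 * σ ≤ g 0) {s z : ℂ} (hs0 : s ≠ 0)
    (hs : ‖s‖ ≤ σ) (hz : ell (g 0) (g 2 * σ ^ 2) z = Phi g s + -(g 1 : ℂ)) :
    σ⁻¹ - 4 * σ ^ 2 / g 0 ≤ ‖z‖ := by
  obtain ⟨h2, h3⟩ := small hg h0 h1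
  have hC : 0 < g 0 := by linarith
  have hp : 0 < ‖s‖ := norm_pos_iff.2 hs0
  have h := close hg hC σ hs0 (by linarith) hz
  have h4 : ‖s‖⁻¹ ≤ ‖z‖ + ‖z - s⁻¹‖ := by
    rw [← norm_inv]
    exact norm_le_insert _ _
  set τ := ‖s‖
  set d := ‖z - s⁻¹‖
  have hu : 0 ≤ τ⁻¹ - σ⁻¹ := sub_nonneg.2 (inv_anti₀ hp hs)
  have h5 : |τ ^ 2 - σ ^ 2| * τ⁻¹ ≤ 2 * σ ^ 2 * (τ⁻¹ - σ⁻¹) := by
    rw [abs_of_nonpos (by nlinarith)]
    have : 2 * σ ^ 2 * (τ⁻¹ - σ⁻¹) - -(τ ^ 2 - σ ^ 2) * τ⁻¹ = (σ - τ) ^ 2 * τ⁻¹ := by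
      field_simp
      ring
    have h6 : 0 ≤ (σ - τ) ^ 2 * τ⁻¹ := by positivity
    linarith
  have h7 : d - (τ⁻¹ - σ⁻¹) ≤ 4 * σ ^ 2 / g 0 := by
    rw [le_div_iff₀ hC]
    have h8 : τ ^ 2 ≤ σ ^ 2 := by nlinarith
    have h9 : (g 0 - σ ^ 2) * (d - (τ⁻¹ - σ⁻¹)) ≤ 2 * σ ^ 2 := by nlinarith
    rcases le_total (d - (τ⁻¹ - σ⁻¹)) 0 with h10 | h10
    · nlinarith [sq_nonneg σ]
    · nlinarith [sq_nonneg σ]
  linarith

theorem inner_far (hg : Schur g) {σ : ℝ} (h0 : 0 < σ) (h1 : 12 * σ ≤ g 0) {w z : ℂ}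
    (hw : ‖w‖ ≤ g 0 * (2 * σ)⁻¹ + 2) (hz : ell (g 0) (g 2 * σ ^ 2) z = w + -(g 1 : ℂ)) :
    ‖z‖ ≤ σ⁻¹ + 16 * σ ^ 2 / g 0 := by
  obtain ⟨h2, h3⟩ := small hg h0 h1
  have hC : 0 < g 0 := by linarith
  have h4 := norm_ell hC.le (abs_coef hg σ) z
  have h5 : ‖w + -(g 1 : ℂ)‖ ≤ g 0 * (2 * σ)⁻¹ + 3 := by
    refine (norm_add_le _ _).trans ?_
    rw [norm_neg, norm_real, Real.norm_eq_abs]
    linarith [hg.abs_le 1]
  rw [hz] at h4
  have h6 : ‖z‖ ≤ σ⁻¹ := by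
    have hi : 0 < σ⁻¹ := inv_pos.2 h0
    have e1 : σ * σ⁻¹ = 1 := mul_inv_cancel₀ h0.ne'
    have e2 : (2 * σ)⁻¹ = σ⁻¹ / 2 := by field_simp
    rw [e2] at h5
    have h7 : 12 ≤ g 0 * σ⁻¹ := by nlinarith
    by_contra hlt
    have hlt := not_le.1 hlt
    have h8 : 3 / 4 * g 0 * σ⁻¹ < (g 0 - σ ^ 2) * ‖z‖ := by
      have : 3 / 4 * g 0 * σ⁻¹ < 3 / 4 * g 0 * ‖z‖ := mul_lt_mul_of_pos_left hlt (by positivity)
      nlinarith [norm_nonneg z]
    linarith
  have : 0 ≤ 16 * σ ^ 2 / g 0 := by positivity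
  linarith

theorem inner (hg : Schur g) {σ : ℝ} (h0 : 0 < σ) (h1 : 12 * σ ≤ g 0) {s z : ℂ} (hs : s ∈ ann σ)
    (hz : ell (g 0) (g 2 * σ ^ 2) z = Phi g s + -(g 1 : ℂ)) :
    ‖z‖ ≤ σ⁻¹ + 16 * σ ^ 2 / g 0 := by
  obtain ⟨h2, h3⟩ := small hg h0 h1
  have hC : 0 < g 0 := by linarith
  have hp : 0 < ‖s‖ := h0.trans hs.1
  have hs0 : s ≠ 0 := norm_pos_iff.1 hp
  rcases le_total ‖s‖ (2 * σ) with hs2 | hs2
  · have h := close hg hC σ hs0 (by linarith) hz
    have h4 : ‖z‖ ≤ ‖s‖⁻¹ + ‖z - s⁻¹‖ := by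
      rw [← norm_inv]
      exact norm_le_insert' _ _
    have hs1 : σ < ‖s‖ := hs.1
    set τ := ‖s‖
    set d := ‖z - s⁻¹‖
    have hu : 0 ≤ σ⁻¹ - τ⁻¹ := sub_nonneg.2 (inv_anti₀ h0 hs1.le)
    have h5 : |τ ^ 2 - σ ^ 2| * τ⁻¹ ≤ 3 * σ ^ 2 * (σ⁻¹ - τ⁻¹) := by
      rw [abs_of_nonneg (by nlinarith)]
      have : 3 * σ ^ 2 * (σ⁻¹ - τ⁻¹) - (τ ^ 2 - σ ^ 2) * τ⁻¹ = (τ - σ) * (2 * σ - τ) * τ⁻¹ := by
        field_simp
        ring
      have h6 : 0 ≤ (τ - σ) * (2 * σ - τ) * τ⁻¹ :=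
        mul_nonneg (mul_nonneg (by linarith) (by linarith)) (by positivity)
      linarith
    have h7 : d - (σ⁻¹ - τ⁻¹) ≤ 16 * σ ^ 2 / g 0 := by
      rw [le_div_iff₀ hC]
      have h8 : τ ^ 2 ≤ 4 * σ ^ 2 := by nlinarith
      have h9 : (g 0 - σ ^ 2) * (d - (σ⁻¹ - τ⁻¹)) ≤ 8 * σ ^ 2 := by nlinarith
      rcases le_total (d - (σ⁻¹ - τ⁻¹)) 0 with h10 | h10
      · nlinarith [sq_nonneg σ]
      · nlinarith [sq_nonneg σ]
    linarith
  · refine inner_far hg h0 h1 ((norm_Phi_le hg hC hs0 hs.2).trans ?_) hz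
    have : ‖s‖⁻¹ ≤ (2 * σ)⁻¹ := inv_anti₀ (by positivity) hs2
    nlinarith

theorem ann_subset {σ : ℝ} (h0 : 0 < σ) : ann σ ⊆ ball 0 1 \ {0} := fun s hs =>
  ⟨mem_ball_zero_iff.2 hs.2, norm_pos_iff.1 (h0.trans hs.1)⟩

theorem coef_sq (hg : Schur g) {σ : ℝ} (h0 : 0 < σ) (h1 : 12 * σ ≤ g 0) :
    (g 2 * σ ^ 2) ^ 2 ≤ σ ^ 4 ∧ σ ^ 4 ≤ g 0 ^ 2 := by
  obtain ⟨h2, h3⟩ := small hg h0 h1
  constructor
  · have := sq_le_sq' (neg_le_of_abs_le (abs_coef hg σ)) (le_of_abs_le (abs_coef hg σ))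
    nlinarith
  · nlinarith [sq_nonneg σ]

theorem lim_le {x y K c : ℝ} (hc : 0 < c) (hK : 0 < K)
    (h : ∀ σ, 0 < σ → 12 * σ ≤ c → x ≤ y + K * σ) : x ≤ y := by
  refine le_of_forall_pos_le_add fun ε hε => ?_
  have h1 : 0 < min (c / 12) (ε / K) := lt_min (by positivity) (by positivity)
  have h2 : min (c / 12) (ε / K) ≤ c / 12 := min_le_left _ _
  have h3 : min (c / 12) (ε / K) ≤ ε / K := min_le_right _ _
  have h4 := h _ h1 (by linarith)
  rw [le_div_iff₀ hK] at h3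
  linarith

theorem ge_step (hg : Schur g) (hd : D2 g) {σ : ℝ} (h0 : 0 < σ) (h1 : 12 * σ ≤ g 0)
    (hfin : volume (Phi g '' (ball 0 1 \ {0}))ᶜ ≠ ⊤) :
    Real.pi * q g ≤ (volume (Phi g '' (ball 0 1 \ {0}))ᶜ).toReal + 9 * Real.pi * σ := by
  obtain ⟨h2, h3⟩ := small hg h0 h1
  obtain ⟨h4, h5⟩ := coef_sq hg h0 h1
  have hC : 0 < g 0 := by linarith
  have hC1 : g 0 ≤ 1 := (le_abs_self _).trans (hg.abs_le 0)
  have hσ1 : σ < 1 := by linarith
  have hpi := Real.pi_pos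
  have hi1 : 1 ≤ σ⁻¹ := one_le_inv_iff₀.2 ⟨h0, hσ1.le⟩
  have hr : 0 ≤ σ⁻¹ - 4 * σ ^ 2 / g 0 := by
    have : 4 * σ ^ 2 / g 0 ≤ 1 := (div_le_one hC).2 h3
    linarith
  set E := (Phi g '' (ball 0 1 \ {0}))ᶜ with hE
  have hsub : (fun w => w + -(g 1 : ℂ)) ⁻¹'
      (ell (g 0) (g 2 * σ ^ 2) '' ball 0 (σ⁻¹ - 4 * σ ^ 2 / g 0)) ⊆ E ∪ Phi g '' ann σ := by
    rintro w ⟨z, hz, hzw⟩
    by_cases hw : w ∈ E
    · exact Or.inl hw
    · obtain ⟨s, hs, rfl⟩ := not_not.1 hw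
      refine Or.inr ⟨s, ⟨?_, mem_ball_zero_iff.1 hs.1⟩, rfl⟩
      by_contra hle
      have := outer hg h0 h1 hs.2 (not_lt.1 hle) hzw
      exact absurd (mem_ball_zero_iff.1 hz) (not_lt.2 this)
  have hm := (measure_mono (μ := volume) hsub).trans (measure_union_le _ _)
  rw [vol_ell _ hr (h4.trans h5) (Complex.volume_ball _ _)] at hm
  have hI := addHaar_image_le_lintegral_abs_det_fderiv volume (isOpen_ann σ).measurableSet
    (hasFDeriv_Phi hg.1 h0)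
  rw [lint_jac hg.1 h0 hσ1] at hI
  have hs : HasSum (fun k : ℕ => Real.pi * (k * g (k + 1) ^ 2)) (Real.pi * ip g g) := by
    refine HasSum.mul_left _ ?_
    have e : ip g g = ∑' k : ℕ, (k : ℝ) * g (k + 1) ^ 2 := by simp only [ip, sq]
    rw [e]
    exact hd.hasSum
  have hS : ∑' k : ℕ, ENNReal.ofReal (Real.pi * (k * g (k + 1) ^ 2) * (1 - σ ^ (2 * k))) ≤
      ENNReal.ofReal (Real.pi * ip g g) := by
    rw [← hs.tsum_eq, ENNReal.ofReal_tsum_of_nonneg (fun k => by positivity) hs.summable]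
    refine ENNReal.tsum_le_tsum fun k => ENNReal.ofReal_le_ofReal ?_
    have h6 : 0 ≤ Real.pi * (k * g (k + 1) ^ 2) * σ ^ (2 * k) := by positivity
    linarith
  have hA : 0 ≤ Real.pi * g 0 ^ 2 * (σ⁻¹ ^ 2 - 1) :=
    mul_nonneg (by positivity) (by nlinarith)
  have hB : 0 ≤ Real.pi * ip g g := mul_nonneg hpi.le (ip_self_nonneg g)
  have hm2 := hm.trans (add_le_add le_rfl (hI.trans (add_le_add le_rfl hS)))
  rw [← ENNReal.ofReal_toReal hfin, ← ENNReal.ofReal_add hA hB,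
    ← ENNReal.ofReal_add ENNReal.toReal_nonneg (add_nonneg hA hB),
    ENNReal.ofReal_le_ofReal_iff (add_nonneg ENNReal.toReal_nonneg (add_nonneg hA hB))] at hm2
  have e1 : σ * σ⁻¹ = 1 := mul_inv_cancel₀ h0.ne'
  have h7 : σ⁻¹ ^ 2 - 8 * σ / g 0 ≤ (σ⁻¹ - 4 * σ ^ 2 / g 0) ^ 2 := by
    have : (σ⁻¹ - 4 * σ ^ 2 / g 0) ^ 2 = σ⁻¹ ^ 2 - 8 * σ / g 0 + (4 * σ ^ 2 / g 0) ^ 2 := by
      field_simp
      ring
    nlinarith [sq_nonneg (4 * σ ^ 2 / g 0)]
  have h8 : g 0 ^ 2 * σ⁻¹ ^ 2 - 9 * σ ≤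
      (g 0 ^ 2 - (g 2 * σ ^ 2) ^ 2) * (σ⁻¹ - 4 * σ ^ 2 / g 0) ^ 2 := by
    have a1 : (g 0 ^ 2 - σ ^ 4) * (σ⁻¹ ^ 2 - 8 * σ / g 0) ≤
        (g 0 ^ 2 - (g 2 * σ ^ 2) ^ 2) * (σ⁻¹ - 4 * σ ^ 2 / g 0) ^ 2 :=
      (mul_le_mul_of_nonneg_left h7 (by linarith)).trans
        (mul_le_mul_of_nonneg_right (by linarith) (sq_nonneg _))
    have a2 : (g 0 ^ 2 - σ ^ 4) * (σ⁻¹ ^ 2 - 8 * σ / g 0) =
        g 0 ^ 2 * σ⁻¹ ^ 2 - 8 * σ * g 0 - σ ^ 2 + 8 * σ ^ 5 / g 0 := by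
      field_simp
      ring
    have a3 : 0 ≤ 8 * σ ^ 5 / g 0 := by positivity
    nlinarith
  have h9 := mul_le_mul_of_nonneg_left h8 hpi.le
  simp only [q, B]
  nlinarith

theorem le_step (hg : Schur g) (hi : InjOn (Phi g) (ball 0 1 \ {0})) {σ : ℝ} (h0 : 0 < σ)
    (h1 : 12 * σ ≤ g 0) (N : ℕ) :
    volume (Phi g '' (ball 0 1 \ {0}))ᶜ ≠ ⊤ ∧
      (volume (Phi g '' (ball 0 1 \ {0}))ᶜ).toReal +
          Real.pi * ∑ k ∈ Finset.range N, (k : ℝ) * g (k + 1) ^ 2 ≤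
        Real.pi * g 0 ^ 2 +
          Real.pi * (33 + ∑ k ∈ Finset.range N, (k : ℝ) * g (k + 1) ^ 2) * σ := by
  obtain ⟨h2, h3⟩ := small hg h0 h1
  obtain ⟨h4, h5⟩ := coef_sq hg h0 h1
  have hC : 0 < g 0 := by linarith
  have hC1 : g 0 ≤ 1 := (le_abs_self _).trans (hg.abs_le 0)
  have hσ1 : σ < 1 := by linarith
  have hpi := Real.pi_pos
  have hi1 : 1 ≤ σ⁻¹ := one_le_inv_iff₀.2 ⟨h0, hσ1.le⟩
  have hr : 0 ≤ σ⁻¹ + 16 * σ ^ 2 / g 0 := by positivity
  have hsurj := surj_ell hC.le (abs_coef hg σ) (by nlinarith [sq_nonneg σ])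
  set E := (Phi g '' (ball 0 1 \ {0}))ᶜ with hE
  have hsub : E ∪ Phi g '' ann σ ⊆ (fun w => w + -(g 1 : ℂ)) ⁻¹'
      (ell (g 0) (g 2 * σ ^ 2) '' closedBall 0 (σ⁻¹ + 16 * σ ^ 2 / g 0)) := by
    intro w hw
    obtain ⟨z, hz⟩ := hsurj (w + -(g 1 : ℂ))
    refine ⟨z, mem_closedBall_zero_iff.2 ?_, hz⟩
    rcases hw with hw | ⟨s, hs, rfl⟩
    · refine inner_far hg h0 h1 ?_ hz
      have h6 : ‖w‖ ≤ 1 := by
        by_contra hlt
        exact hw (phi_surj hg hC (not_le.1 hlt))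
      have : 0 ≤ g 0 * (2 * σ)⁻¹ := by positivity
      linarith
    · exact inner hg h0 h1 hs hz
  have hm := measure_mono (μ := volume) hsub
  have hia := hi.mono (ann_subset h0)
  have hdis : Disjoint E (Phi g '' ann σ) :=
    disjoint_compl_left.mono_right (image_mono (ann_subset h0))
  rw [vol_ell _ hr (h4.trans h5) (Complex.volume_closedBall _ _), measure_union hdis
    (measurable_image_of_fderivWithin (isOpen_ann σ).measurableSet (hasFDeriv_Phi hg.1 h0) hia),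
    ← lintegral_abs_det_fderiv_eq_addHaar_image volume (isOpen_ann σ).measurableSet
      (hasFDeriv_Phi hg.1 h0) hia, lint_jac hg.1 h0 hσ1] at hm
  have hfin : volume E ≠ ⊤ := ne_top_of_le_ne_top ENNReal.ofReal_ne_top (le_self_add.trans hm)
  refine ⟨hfin, ?_⟩
  set S := ∑ k ∈ Finset.range N, (k : ℝ) * g (k + 1) ^ 2 with hS
  have hS0 : 0 ≤ S := Finset.sum_nonneg fun k _ => by positivity
  have hσ2 : 0 ≤ 1 - σ := by linarith
  have hT : ENNReal.ofReal (Real.pi * S * (1 - σ)) ≤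
      ∑' k : ℕ, ENNReal.ofReal (Real.pi * (k * g (k + 1) ^ 2) * (1 - σ ^ (2 * k))) := by
    refine le_trans ?_ (ENNReal.sum_le_tsum (Finset.range N))
    rw [hS, Finset.mul_sum, Finset.sum_mul,
      ENNReal.ofReal_sum_of_nonneg fun k _ => by positivity]
    refine Finset.sum_le_sum fun k _ => ENNReal.ofReal_le_ofReal ?_
    rcases k with _ | k
    · simp
    · refine mul_le_mul_of_nonneg_left ?_ (by positivity)
      have := pow_le_of_le_one h0.le hσ1.le (n := 2 * (k + 1)) (by omega)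
      linarith
  have hA : 0 ≤ Real.pi * g 0 ^ 2 * (σ⁻¹ ^ 2 - 1) :=
    mul_nonneg (by positivity) (by nlinarith)
  have hB : 0 ≤ Real.pi * S * (1 - σ) := by positivity
  have hm2 := (add_le_add le_rfl (add_le_add le_rfl hT)).trans hm
  have hD : 0 ≤ g 0 ^ 2 - (g 2 * σ ^ 2) ^ 2 := by linarith
  rw [← ENNReal.ofReal_toReal hfin, ← ENNReal.ofReal_add hA hB,
    ← ENNReal.ofReal_add ENNReal.toReal_nonneg (add_nonneg hA hB),
    ENNReal.ofReal_le_ofReal_iff (by positivity)] at hm2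
  have h8 : (g 0 ^ 2 - (g 2 * σ ^ 2) ^ 2) * (σ⁻¹ + 16 * σ ^ 2 / g 0) ^ 2 ≤
      g 0 ^ 2 * σ⁻¹ ^ 2 + 33 * σ := by
    have a1 : (g 0 ^ 2 - (g 2 * σ ^ 2) ^ 2) * (σ⁻¹ + 16 * σ ^ 2 / g 0) ^ 2 ≤
        g 0 ^ 2 * (σ⁻¹ + 16 * σ ^ 2 / g 0) ^ 2 :=
      mul_le_mul_of_nonneg_right (by nlinarith [sq_nonneg (g 2 * σ ^ 2)]) (sq_nonneg _)
    have a2 : g 0 ^ 2 * (σ⁻¹ + 16 * σ ^ 2 / g 0) ^ 2 =
        g 0 ^ 2 * σ⁻¹ ^ 2 + 32 * σ * g 0 + 256 * σ ^ 3 * σ := by
      field_simp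
      ring
    have a3 : 256 * σ ^ 3 ≤ 1 := by
      have : σ ^ 3 ≤ (1 / 12) ^ 3 := pow_le_pow_left₀ h0.le (by linarith) 3
      linarith
    nlinarith
  have h9 := mul_le_mul_of_nonneg_left h8 hpi.le
  nlinarith

end AreaAux

open AreaAux

theorem area_ge {g : ℕ → ℝ} (hg : Schur g) (hd : D2 g) (h0 : 0 < g 0) :
    ENNReal.ofReal (Real.pi * q g) ≤ volume (Phi g '' (ball 0 1 \ {0}))ᶜ := by
  by_cases hfin : volume (Phi g '' (ball 0 1 \ {0}))ᶜ = ⊤
  · rw [hfin]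
    exact le_top
  · refine ENNReal.ofReal_le_of_le_toReal (lim_le h0 (K := 9 * Real.pi) ?_ fun σ h1 h2 => ?_)
    · have := Real.pi_pos
      positivity
    · exact ge_step hg hd h1 h2 hfin

theorem area_le {g : ℕ → ℝ} (hg : Schur g) (h0 : 0 < g 0)
    (hi : InjOn (Phi g) (ball 0 1 \ {0})) :
    D2 g ∧ volume (Phi g '' (ball 0 1 \ {0}))ᶜ ≤ ENNReal.ofReal (Real.pi * q g) := by
  have hpi := Real.pi_pos
  have hfin := (le_step hg hi (σ := g 0 / 12) (by positivity) (by linarith) 0).1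
  have hN : ∀ N, (volume (Phi g '' (ball 0 1 \ {0}))ᶜ).toReal +
      Real.pi * ∑ k ∈ Finset.range N, (k : ℝ) * g (k + 1) ^ 2 ≤ Real.pi * g 0 ^ 2 := by
    intro N
    refine lim_le h0 ?_ fun σ h1 h2 => (le_step hg hi h1 h2 N).2
    have : 0 ≤ ∑ k ∈ Finset.range N, (k : ℝ) * g (k + 1) ^ 2 :=
      Finset.sum_nonneg fun k _ => by positivity
    positivity
  set e := (volume (Phi g '' (ball 0 1 \ {0}))ᶜ).toReal with he
  have hN' : ∀ N, ∑ k ∈ Finset.range N, (k : ℝ) * g (k + 1) ^ 2 ≤ g 0 ^ 2 - e / Real.pi := by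
    intro N
    have h1 := hN N
    have h2 : e / Real.pi ≤ g 0 ^ 2 - ∑ k ∈ Finset.range N, (k : ℝ) * g (k + 1) ^ 2 := by
      rw [div_le_iff₀ hpi]
      linarith
    linarith
  have hnn : ∀ k : ℕ, 0 ≤ (k : ℝ) * g (k + 1) ^ 2 := fun k => by positivity
  refine ⟨summable_of_sum_range_le hnn hN', ?_⟩
  have h3 := Real.tsum_le_of_sum_range_le hnn hN'
  have e1 : ip g g = ∑' k : ℕ, (k : ℝ) * g (k + 1) ^ 2 := by simp only [ip, sq]
  rw [← e1] at h3
  rw [← ENNReal.ofReal_toReal hfin]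
  refine ENNReal.ofReal_le_ofReal ?_
  have h4 : e / Real.pi ≤ q g := by
    simp only [q, B]
    linarith
  rw [div_le_iff₀ hpi] at h4
  linarith

end Pool.Agent.Lib.MP_9b2593_an.Uq
end
end

-- part Pool.Agent.Lib.MP_9b2593_an.Uq.Tight
section

/-!
The relaxation is tight.
-/

open Complex Metric Set MeasureTheory

noncomputable section

namespace Pool.Agent.Lib.MP_9b2593_an.Uq

namespace Tight

variable {f : ℂ → ℂ}

theorem isOpen_image (hf : DifferentiableOn ℂ f (ball 0 1)) (h1 : deriv f 0 ≠ 0) :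
    IsOpen (f '' ball 0 1) := by
  rcases (hf.analyticOnNhd isOpen_ball).is_constant_or_isOpen (convex_ball _ _).isPreconnected with
    ⟨w, hw⟩ | h
  · refine absurd ?_ h1
    have : f =ᶠ[nhds 0] fun _ => w := by
      filter_upwards [ball_mem_nhds (0 : ℂ) one_pos] with z hz using hw z hz
    rw [this.deriv_eq, deriv_const]
  · exact h _ subset_rfl isOpen_ball

/-- If a circle of radius at most one is omitted, the omitted area vanishes. -/
theorem om_eq_zero (hf : DifferentiableOn ℂ f (ball 0 1)) (h0 : f 0 = 0) (h1 : 1 ≤ ‖deriv f 0‖)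
    {r : ℝ} (hr : 0 < r) (hr1 : r ≤ 1) (h : ∀ z ∈ ball (0 : ℂ) 1, ‖f z‖ ≠ r) : om f = 0 := by
  have hm : MapsTo f (ball 0 1) (ball 0 1) := by
    intro z hz
    rw [mem_ball_zero_iff]
    by_contra hn
    obtain ⟨y, hy, e⟩ := (convex_ball (0 : ℂ) 1).isPreconnected.intermediate_value
      (mem_ball_self one_pos) hz hf.continuousOn.norm
      (show r ∈ Icc ‖f 0‖ ‖f z‖ from ⟨by rw [h0, norm_zero]; exact hr.le, by linarith⟩)
    exact h y hy e
  obtain ⟨h2, h3⟩ := schwarz_eq hf hm h0 h1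
  have h4 : deriv f 0 ≠ 0 := by
    rw [← norm_ne_zero_iff, h2]
    exact one_ne_zero
  rw [om, sdiff_eq_empty.2, measure_empty]
  intro w hw
  have h5 : w / deriv f 0 ∈ ball (0 : ℂ) 1 := by
    rwa [mem_ball_zero_iff, norm_div, h2, div_one, ← mem_ball_zero_iff]
  exact ⟨_, h5, by rw [h3 _ h5, mul_div_cancel₀ _ h4]⟩

theorem bounded_inv {K : Set ℂ} (hK : IsClosed K) (h0 : (0 : ℂ) ∉ K) :
    Bornology.IsBounded ((fun w : ℂ => w⁻¹) '' K) := by
  obtain ⟨ε, hε, h⟩ := Metric.isOpen_iff.1 hK.isOpen_compl 0 h0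
  refine isBounded_iff_forall_norm_le.2 ⟨ε⁻¹, ?_⟩
  rintro _ ⟨w, hw, rfl⟩
  rw [norm_inv]
  exact inv_anti₀ hε (not_lt.1 fun hn => h (mem_ball_zero_iff.2 hn) hw)

theorem cheb_image {K : Set ℂ} (hK : IsClosed K) (h0 : (0 : ℂ) ∉ K) {H : ℂ → ℂ}
    (hH : ∀ a ∈ K, ∀ b ∈ K, ‖(H a)⁻¹ - (H b)⁻¹‖ ≤ ‖a⁻¹ - b⁻¹‖) {θ θ' : ℝ} (hθ : 0 < θ)
    (hθ' : θ < θ') (h : Cheb θ ((fun w => w⁻¹) '' K)) : Cheb θ' ((fun w => w⁻¹) '' (H '' K)) := by
  have h1 : ∀ a : ℂ, ∃ w, a ∈ (fun w => w⁻¹) '' (H '' K) → w ∈ K ∧ (H w)⁻¹ = a := by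
    intro a
    by_cases ha : a ∈ (fun w => w⁻¹) '' (H '' K)
    · obtain ⟨_, ⟨w, hw, rfl⟩, e⟩ := ha
      exact ⟨w, fun _ => ⟨hw, e⟩⟩
    · exact ⟨0, fun h => absurd h ha⟩
  choose T hT using h1
  refine h.contract (bounded_inv hK h0) hθ hθ' (fun a => (T a)⁻¹)
    (fun a ha => ⟨_, (hT a ha).1, rfl⟩) fun a ha b hb => ?_
  have := hH _ (hT a ha).1 _ (hT b hb).1
  rwa [(hT a ha).2, (hT b hb).2] at this

end Tight

theorem symmetrize {f : ℂ → ℂ} (hf : DifferentiableOn ℂ f (ball 0 1)) (h0 : f 0 = 0)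
    (h1 : 1 ≤ ‖deriv f 0‖) (hout : ∀ r : ℝ, 1 < r → ∃ w ∉ f '' ball 0 1, ‖w‖ = r) :
    ∃ F, InS F ∧ om f ≤ om F := by
  by_cases hin : ∀ r : ℝ, 0 < r → r ≤ 1 → ∃ w ∉ (f '' ball 0 1)ᶜ, ‖w‖ = r
  swap
  · push Not at hin
    obtain ⟨r, hr, hr1, h⟩ := hin
    refine ⟨id, ⟨differentiableOn_id, injOn_id _, rfl, deriv_id 0⟩, ?_⟩
    rw [Tight.om_eq_zero hf h0 h1 hr hr1 fun z hz => h _ fun hn => hn ⟨z, hz, rfl⟩]
    exact zero_le
  have hd : deriv f 0 ≠ 0 := norm_pos_iff.1 (one_pos.trans_le h1)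
  have hK : IsClosed (f '' ball 0 1)ᶜ := (Tight.isOpen_image hf hd).isClosed_compl
  have hK0 : (0 : ℂ) ∉ (f '' ball 0 1)ᶜ := fun h => h ⟨0, mem_ball_self one_pos, h0⟩
  obtain ⟨H, D, m, hD, hH, hsec, hvol⟩ := radial hK hK0 hout hin
  have hD0 : (0 : ℂ) ∈ D := hD.ball_sub (mem_ball_self hD.pos)
  obtain ⟨ψ, φ, hψ, hφ, mψ, mφ, e1, e2, ψ0, φ0, c, hc, hφc⟩ := riemann hD.isOpen hD.preconnected
    (fun h => hD.negReal m le_rfl (h ▸ mem_univ _)) hD.hasLog hD0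
  have hb : ball (0 : ℂ) 1 ∈ nhds (0 : ℂ) := ball_mem_nhds _ one_pos
  have dφ : HasDerivAt φ (c : ℂ) 0 := hφc ▸ (hφ.differentiableAt hb).hasDerivAt
  have hψ1 : ‖deriv ψ 0‖ ≤ 1 := by
    refine le_of_forall_gt_imp_ge_of_dense fun θ hθ => ?_
    refine star hD hψ (fun a ha b hb e => by rw [← e1 a ha, ← e1 b hb, e])
      (mψ.image_subset.antisymm fun z hz => ⟨φ z, mφ hz, e2 z hz⟩) ψ0 hsec (by linarith)
      (Tight.cheb_image hK hK0 hH (θ := (1 + θ) / 2) (by linarith) (by linarith)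
        (cheb_omitted hf h0 hd ?_))
    have : 1 / ‖deriv f 0‖ ≤ 1 := (div_le_one (one_pos.trans_le h1)).2 h1
    linarith
  have hc1 : 1 ≤ c := by
    have h2 : HasDerivAt ψ (deriv ψ 0) (φ 0) := by
      rw [φ0]
      exact (hψ.differentiableAt (hD.isOpen.mem_nhds hD0)).hasDerivAt
    have h3 : HasDerivAt (ψ ∘ φ) 1 0 := (hasDerivAt_id (0 : ℂ)).congr_of_eventuallyEq (by
      filter_upwards [hb] with z hz using e2 z hz)
    have h4 := congrArg norm ((h2.comp 0 dφ).unique h3)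
    rw [norm_mul, norm_one, norm_real, Real.norm_of_nonneg hc.le] at h4
    nlinarith
  have hc0 : (c : ℂ) ≠ 0 := ofReal_ne_zero.2 hc.ne'
  have hm : MapsTo (fun z : ℂ => z / c) (ball 0 1) (ball 0 1) := fun z hz => by
    rw [mem_ball_zero_iff] at hz ⊢
    rw [norm_div, norm_real, Real.norm_of_nonneg hc.le]
    exact (div_le_self (norm_nonneg _) hc1).trans_lt hz
  refine ⟨fun z => φ (z / c), ⟨hφ.comp (differentiableOn_id.div_const _) hm, fun a ha b hb e => ?_,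
    by simpa using φ0, ?_⟩, hvol.trans (measure_mono (sdiff_subset_sdiff_right ?_))⟩
  · have := congrArg ψ e
    rwa [e2 _ (hm ha), e2 _ (hm hb), div_left_inj' hc0] at this
  · have h2 : HasDerivAt φ (c : ℂ) ((0 : ℂ) / c) := by rwa [zero_div]
    have h3 := (h2.comp 0 ((hasDerivAt_id (0 : ℂ)).div_const (c : ℂ))).deriv
    rwa [mul_one_div_cancel hc0] at h3
  · rintro _ ⟨z, hz, rfl⟩
    exact mφ (hm hz)

theorem tight {ρ : ℝ} {g : ℕ → ℝ} (h : Feas ρ g) :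
    ∃ F, InS F ∧ ENNReal.ofReal (Real.pi * q g) ≤ om F := by
  obtain ⟨s, hs, ms, s0, ds⟩ := exists_slit_map h.pos h.lt
  have hsub : slit ⊆ ball 0 1 \ {0} := fun z hz =>
    ⟨mem_ball_zero_iff.2 hz.1, fun e => by simpa [mem_singleton_iff.1 e] using hz.2⟩
  have hρ : (ρ : ℂ) ≠ 0 := ofReal_ne_zero.2 h.pos.ne'
  have hρ1 : ‖(ρ : ℂ)‖ < 1 := by rw [norm_real, Real.norm_of_nonneg h.pos.le]; exact h.lt
  have hz : ev g ρ = 0 := by rw [ev_ofReal, h.zero, ofReal_zero]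
  have hk : 0 < kap ρ := div_pos (by linarith [h.pos]) (by linarith [h.lt])
  have hf : DifferentiableOn ℂ (Phi g ∘ s) (ball 0 1) :=
    DifferentiableOn.comp (t := ball 0 1 \ {0}) (((differentiableOn_ev h.schur.1).mono
      sdiff_subset).div differentiableOn_id fun z hz => hz.2) hs fun z hz => hsub (ms hz)
  have hd : deriv (Phi g ∘ s) 0 = (-rv (der g) ρ / kap ρ : ℝ) := by
    have h1 : HasDerivAt (Phi g) ((ev (der g) ρ * ρ - ev g ρ * 1) / ρ ^ 2) (s 0) :=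
      s0 ▸ (hasDerivAt_ev h.schur.1 hρ1).div (hasDerivAt_id (ρ : ℂ)) hρ
    rw [(h1.comp 0 (hs.differentiableAt (ball_mem_nhds _ one_pos)).hasDerivAt).deriv, ds, hz,
      ev_ofReal]
    have : (kap ρ : ℂ) ≠ 0 := ofReal_ne_zero.2 hk.ne'
    push_cast
    field_simp
    ring
  obtain ⟨F, hF, hle⟩ := symmetrize hf (by simp [Phi, s0, hz]) (by
      rw [hd, norm_real]
      exact ((one_le_div hk).2 h.slope).trans (le_abs_self _)) fun r hr =>
    ⟨-(r : ℂ), fun ⟨z, hz, e⟩ => phi_omit h.schur h.g0 hr _ (ms hz) e, by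
      rw [norm_neg, norm_real, Real.norm_of_nonneg (by linarith)]⟩
  refine ⟨F, hF, (area_ge h.schur h.d2 h.g0).trans (le_trans ?_ hle)⟩
  have h1 : (Phi g '' (ball 0 1 \ {0}))ᶜ ⊆ (ball 0 1 \ (Phi g ∘ s) '' ball 0 1) ∪ sphere 0 1 := by
    intro w hw
    rcases (not_lt.1 fun hn => hw (phi_surj h.schur h.g0 hn)).lt_or_eq with h2 | h2
    · exact Or.inl ⟨mem_ball_zero_iff.2 h2, fun ⟨z, hz, e⟩ => hw ⟨_, hsub (ms hz), e⟩⟩
    · exact Or.inr (mem_sphere_zero_iff_norm.2 h2)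
  refine (measure_mono h1).trans ((measure_union_le _ _).trans ?_)
  rw [Measure.addHaar_sphere, add_zero]
  rfl

end Pool.Agent.Lib.MP_9b2593_an.Uq
end
end
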