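import Pool.Agent.Lib.MP_9b2593_an.Uq.Radial
import Pool.Agent.Lib.MP_9b2593_an.Uq.Tight
import Pool.Agent.Lib.MP_9b2593_an.Uq.Circ
import Pool.Agent.Lib.MP_9b2593_an.Uq.Node

-- part Pool.Agent.Lib.MP_9b2593_an.Uq.Struct
section

/-!
From a circularly symmetric domain to a feasible point of the relaxed problem.
-/

open Complex Metric Set MeasureTheory

noncomputable section

namespace Pool.Agent.Lib.MP_9b2593_an.Uq

namespace StructAux

theorem conj_mem {D : Set ℂ} {m : ℝ} (hD : SymD D m) {w : ℂ} (hw : w ∈ D) :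
    starRingEnd ℂ w ∈ D := by
  by_contra h
  exact hD.sym _ h w (by simp) (by simp) hw

theorem conj_ext {D : Set ℂ} {m : ℝ} (hD : SymD D m) {w : ℂ} (hw : w ∈ extDom D) :
    starRingEnd ℂ w ∈ extDom D := by
  rcases hw with h | ⟨h0, h⟩
  · left; simpa using h
  · right
    refine ⟨by simpa using h0, ?_⟩
    have := conj_mem hD h
    simpa using this

theorem conj_ball {s : ℂ} (hs : s ∈ ball (0 : ℂ) 1) : starRingEnd ℂ s ∈ ball (0 : ℂ) 1 := by
  simpa using hs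

/-- A real function without zeros on a segment keeps its sign. -/
theorem pos_of_ne {h : ℝ → ℝ} {x : ℝ} (hc : ContinuousOn h (uIcc 0 x)) (h0 : 0 < h 0)
    (hne : ∀ y ∈ uIcc 0 x, h y ≠ 0) : 0 < h x := by
  by_contra hx
  push Not at hx
  have : (0 : ℝ) ∈ uIcc (h 0) (h x) := by
    rw [mem_uIcc]; right; exact ⟨hx, h0.le⟩
  obtain ⟨y, hy, hy0⟩ := intermediate_value_uIcc hc this
  exact hne y hy hy0

theorem re_lt_half {ω : ℂ} (h : ‖ω‖ < ‖1 - ω‖) : ω.re < 1 / 2 := by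
  have h2 : ‖ω‖ ^ 2 < ‖1 - ω‖ ^ 2 := by gcongr
  rw [Complex.sq_norm, Complex.sq_norm, normSq_apply, normSq_apply] at h2
  simp only [sub_re, one_re, sub_im, one_im] at h2
  nlinarith

theorem norm_lt_of_re {ω : ℂ} (h : ω.re < 1 / 2) : ‖ω‖ < ‖1 - ω‖ := by
  have h2 : ‖ω‖ ^ 2 < ‖1 - ω‖ ^ 2 := by
    rw [Complex.sq_norm, Complex.sq_norm, normSq_apply, normSq_apply]
    simp only [sub_re, one_re, sub_im, one_im]
    nlinarith
  exact lt_of_pow_lt_pow_left₀ 2 (norm_nonneg _) h2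

/-- The Riemann map of a conjugation invariant domain commutes with conjugation. -/
theorem phi_conj {U : Set ℂ} (hU : IsOpen U) (hs : ∀ w ∈ U, starRingEnd ℂ w ∈ U) {ψ φ : ℂ → ℂ}
    (hψ : DifferentiableOn ℂ ψ U) (hφ : DifferentiableOn ℂ φ (ball 0 1))
    (mψ : MapsTo ψ U (ball 0 1)) (mφ : MapsTo φ (ball 0 1) U) (l : ∀ w ∈ U, φ (ψ w) = w)
    (r : ∀ z ∈ ball (0 : ℂ) 1, ψ (φ z) = z) (ψ0 : ψ 0 = 0) (φ0 : φ 0 = 0) {c : ℝ}
    (hc : deriv φ 0 = c) :
    ∀ s ∈ ball (0 : ℂ) 1, φ (starRingEnd ℂ s) = starRingEnd ℂ (φ s) := by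
  have b0 : (0 : ℂ) ∈ ball (0 : ℂ) 1 := mem_ball_self one_pos
  have U0 : (0 : ℂ) ∈ U := φ0 ▸ mφ b0
  set φ' : ℂ → ℂ := starRingEnd ℂ ∘ φ ∘ starRingEnd ℂ with hφ'
  have dφ' : ∀ s ∈ ball (0 : ℂ) 1, HasDerivAt φ' (starRingEnd ℂ (deriv φ (starRingEnd ℂ s))) s := by
    intro s hs'
    have h1 := ((hφ _ (conj_ball hs')).differentiableAt
      (isOpen_ball.mem_nhds (conj_ball hs'))).hasDerivAt.conj_conj
    rwa [conj_conj] at h1
  have mφ' : MapsTo φ' (ball 0 1) U := fun s hs' => hs _ (mφ (conj_ball hs'))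
  have φ'0 : φ' 0 = 0 := by simp [hφ', φ0]
  have dψ0 : HasDerivAt ψ (deriv ψ 0) 0 := ((hψ _ U0).differentiableAt (hU.mem_nhds U0)).hasDerivAt
  have dφ0 : HasDerivAt φ c 0 :=
    hc ▸ ((hφ _ b0).differentiableAt (isOpen_ball.mem_nhds b0)).hasDerivAt
  have e1 : deriv ψ 0 * c = 1 := by
    have h1 : HasDerivAt (ψ ∘ φ) (deriv ψ 0 * c) 0 := HasDerivAt.comp 0 (φ0.symm ▸ dψ0) dφ0
    have h2 : HasDerivAt (ψ ∘ φ) 1 0 := by
      refine (hasDerivAt_id (0 : ℂ)).congr_of_eventuallyEq ?_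
      filter_upwards [isOpen_ball.mem_nhds b0] with z hz using r z hz
    exact h1.unique h2
  have hτ : DifferentiableOn ℂ (ψ ∘ φ') (ball 0 1) :=
    hψ.comp (fun s hs' => (dφ' s hs').differentiableAt.differentiableWithinAt) mφ'
  have dτ : deriv (ψ ∘ φ') 0 = 1 := by
    have h1 : HasDerivAt (ψ ∘ φ') (deriv ψ 0 * starRingEnd ℂ (deriv φ (starRingEnd ℂ 0))) 0 :=
      HasDerivAt.comp 0 (φ'0.symm ▸ dψ0) (dφ' 0 b0)
    rw [h1.deriv, map_zero, hc, conj_ofReal, e1]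
  obtain ⟨-, h⟩ := schwarz_eq hτ (mψ.comp mφ') (by simp [φ'0, ψ0]) (by rw [dτ]; simp)
  intro s hs'
  have h1 := h s hs'
  rw [dτ, one_mul] at h1
  have h2 : φ' s = φ s := by
    have := l _ (mφ' hs')
    rw [← this]
    exact congrArg φ h1
  have h3 : starRingEnd ℂ (φ (starRingEnd ℂ s)) = φ s := h2
  rw [← h3, conj_conj]

/-- The bound of the exterior map. -/
theorem norm_G_le {U : Set ℂ} (hU : {ω : ℂ | ω.re < 1 / 2} ⊆ U) {ψ φ G : ℂ → ℂ}
    (hψ : DifferentiableOn ℂ ψ U) (mψ : MapsTo ψ U (ball 0 1))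
    (r : ∀ z ∈ ball (0 : ℂ) 1, ψ (φ z) = z) (hG : DifferentiableOn ℂ G (ball 0 1))
    (hφ0 : ∀ s ∈ ball (0 : ℂ) 1, s ≠ 0 → φ s ≠ 0)
    (e : ∀ s ∈ ball (0 : ℂ) 1, s ≠ 0 → G s = s * (1 / φ s - 1)) {s : ℂ} (hs : ‖s‖ < 1) :
    ‖G s‖ ≤ 1 := by
  refine le_of_forall_pos_le_add fun ε hε => ?_
  set C : Set ℂ := {ω | (1 + ε) * ‖ω‖ ≤ ‖1 - ω‖} with hC
  have Ccl : IsClosed C := isClosed_le (by fun_prop) (by fun_prop)
  have Cb : C ⊆ closedBall 0 (1 / ε) := by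
    intro ω hω
    have h1 : (1 + ε) * ‖ω‖ ≤ ‖1 - ω‖ := hω
    have h2 : ‖1 - ω‖ ≤ 1 + ‖ω‖ := by simpa using norm_sub_le (1 : ℂ) ω
    rw [mem_closedBall_zero_iff, le_div_iff₀ hε]
    nlinarith
  have Cc : IsCompact C := (isCompact_closedBall 0 (1 / ε)).of_isClosed_subset Ccl Cb
  have CU : C ⊆ U := by
    intro ω hω
    have h1 : (1 + ε) * ‖ω‖ ≤ ‖1 - ω‖ := hω
    apply hU
    by_cases h0 : ω = 0
    · simp [h0]
    · have : 0 < ‖ω‖ := norm_pos_iff.2 h0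
      exact re_lt_half (by nlinarith)
  have C0 : (0 : ℂ) ∈ C := by simp [hC]
  obtain ⟨ω0, hω0, hmax⟩ := Cc.exists_isMaxOn ⟨0, C0⟩
    (f := fun ω => ‖ψ ω‖) (hψ.continuousOn.mono CU).norm
  have hr : ‖ψ ω0‖ < 1 := by simpa using mψ (CU hω0)
  obtain ⟨t, ht1, ht2⟩ := exists_between (max_lt hr hs)
  have ht0 : 0 < t := lt_of_le_of_lt (le_trans (norm_nonneg _) (le_max_right _ _)) ht1
  have hsub : closedBall (0 : ℂ) t ⊆ ball 0 1 := closedBall_subset_ball ht2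
  have hd : DiffContOnCl ℂ G (ball 0 t) := by
    refine DifferentiableOn.diffContOnCl ?_
    rw [closure_ball _ ht0.ne']
    exact hG.mono hsub
  refine norm_le_of_forall_mem_frontier_norm_le isBounded_ball hd ?_ ?_
  · intro z hz
    rw [frontier_ball _ ht0.ne', mem_sphere_zero_iff_norm] at hz
    have zb : z ∈ ball (0 : ℂ) 1 := by simp [hz, ht2]
    have z0 : z ≠ 0 := by
      rintro rfl
      simp at hz
      exact ht0.ne hz
    have hn : φ z ∉ C := by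
      intro hm
      have h1 : ‖ψ (φ z)‖ ≤ ‖ψ ω0‖ := hmax hm
      rw [r z zb, hz] at h1
      exact absurd (lt_of_le_of_lt (le_max_left _ _) ht1) (not_lt.2 h1)
    have h1 : ‖1 - φ z‖ < (1 + ε) * ‖φ z‖ := by simpa [hC] using hn
    have p0 := hφ0 z zb z0
    have pp : 0 < ‖φ z‖ := norm_pos_iff.2 p0
    have h2 : ‖1 / φ z - 1‖ ≤ 1 + ε := by
      have : 1 / φ z - 1 = (1 - φ z) / φ z := by field_simp
      rw [this, norm_div, div_le_iff₀ pp]
      exact h1.le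
    rw [e z zb z0, norm_mul, hz]
    calc t * ‖1 / φ z - 1‖ ≤ 1 * (1 + ε) := by gcongr
      _ = 1 + ε := one_mul _
  · apply subset_closure
    simpa using lt_of_le_of_lt (le_max_right _ _) ht1

/-- A function positive to the left of a zero has nonpositive derivative there. -/
theorem deriv_nonpos {h : ℝ → ℝ} {ρ d : ℝ} (hρ : 0 < ρ) (hd : HasDerivAt h d ρ) (h0 : h ρ = 0)
    (hp : ∀ x, 0 < x → x < ρ → 0 < h x) : d ≤ 0 := by
  have h1 := hasDerivAt_iff_tendsto_slope_left_right.1 hd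
  refine le_of_tendsto h1.1 ?_
  filter_upwards [Ioo_mem_nhdsLT hρ] with x hx
  rw [slope_def_field, h0, sub_zero]
  exact (div_neg_of_pos_of_neg (hp x hx.1 hx.2) (sub_neg.2 hx.2)).le

end StructAux

open StructAux in
theorem struct_of_symD {D : Set ℂ} {m : ℝ} (hD : SymD D m) (hm : m < 1)
    (hout : ∀ w : ℂ, 1 < ‖w‖ → (0 < w.re ∨ w.im ≠ 0) → w ∈ D) {f : ℂ → ℂ}
    (hf : DifferentiableOn ℂ f (ball 0 1)) (h0 : f 0 = 0) (h1 : deriv f 0 = 1)
    (hsub : f '' ball 0 1 ⊆ D) :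
    ∃ ρ g, Feas ρ g ∧ volume (ball (0 : ℂ) 1 \ D) ≤ ENNReal.ofReal (Real.pi * q g) ∧
      (rv (der g) ρ = -kap ρ → ∀ z ∈ ball (0 : ℂ) 1, ∃ s ∈ ball (0 : ℂ) 1,
        koebe s = koebe ρ * ((1 - z) / (1 + z)) ^ 2 ∧ f z = Phi g s) := by
  obtain ⟨hU, hUc, hUl, hUne⟩ := hD.extDom hm hout
  have b0 : (0 : ℂ) ∈ ball (0 : ℂ) 1 := mem_ball_self one_pos
  have U0 : (0 : ℂ) ∈ extDom D := Or.inl (by simp)
  obtain ⟨ψ, φ, hψ, hφ, mψ, mφ, l, r, ψ0, φ0, c, hc0, hc⟩ := riemann hU hUc hUne hUl U0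
  have hconj := phi_conj hU (fun w hw => conj_ext hD hw) hψ hφ mψ mφ l r ψ0 φ0 hc
  have hφ0 : ∀ s ∈ ball (0 : ℂ) 1, s ≠ 0 → φ s ≠ 0 := by
    intro s hs s0 h
    apply s0
    rw [← r s hs, h, ψ0]
  have hc0' : (c : ℂ) ≠ 0 := by exact_mod_cast hc0.ne'
  -- the quotient `φ s / s`
  have hds : DifferentiableOn ℂ (dslope φ 0) (ball 0 1) :=
    (differentiableOn_dslope (isOpen_ball.mem_nhds b0)).2 hφ
  have ds0 : dslope φ 0 0 = c := by rw [dslope_same, hc]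
  have ds1 : ∀ s : ℂ, s ≠ 0 → dslope φ 0 s = φ s / s := by
    intro s s0
    rw [dslope_of_ne _ s0, slope_def_field, φ0, sub_zero, sub_zero]
  have dsne : ∀ s ∈ ball (0 : ℂ) 1, dslope φ 0 s ≠ 0 := by
    intro s hs
    by_cases s0 : s = 0
    · rw [s0, ds0]; exact hc0'
    · rw [ds1 s s0]; exact div_ne_zero (hφ0 s hs s0) s0
  set G : ℂ → ℂ := fun s => 1 / dslope φ 0 s - s with hGdef
  have hG : DifferentiableOn ℂ G (ball 0 1) :=
    ((differentiableOn_const 1).div hds dsne).sub differentiableOn_id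
  have G0 : G 0 = ((1 / c : ℝ) : ℂ) := by simp [hGdef, hc]
  have G1 : ∀ s ∈ ball (0 : ℂ) 1, s ≠ 0 → G s = s * (1 / φ s - 1) := by
    intro s hs s0
    have := hφ0 s hs s0
    simp only [hGdef, ds1 s s0]
    field_simp
  have Gc : ∀ s ∈ ball (0 : ℂ) 1, G (starRingEnd ℂ s) = starRingEnd ℂ (G s) := by
    intro s hs
    by_cases s0 : s = 0
    · rw [s0, map_zero, G0, conj_ofReal]
    · rw [G1 _ (conj_ball hs) (by simpa using s0), G1 s hs s0, hconj s hs]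
      simp
  obtain ⟨g, hg, eg⟩ := exists_seq hG Gc
  have hS : Schur g := by
    refine ⟨hg, fun s hs => ?_⟩
    rw [eg s (by simpa using hs)]
    exact norm_G_le (U := extDom D) (fun ω h => Or.inl h) hψ mψ r hG hφ0 G1 hs
  have g0 : 0 < g 0 := by
    have h2 : ((g 0 : ℝ) : ℂ) = ((1 / c : ℝ) : ℂ) := by rw [← ev_zero, eg 0 b0, G0]
    have h3 : g 0 = 1 / c := by exact_mod_cast h2
    rw [h3]; positivity
  have hPhi : ∀ s ∈ ball (0 : ℂ) 1, s ≠ 0 → Phi g s = 1 / φ s - 1 := by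
    intro s hs s0
    rw [Phi, eg s hs, G1 s hs s0]
    field_simp
  have hinj : InjOn (Phi g) (ball 0 1 \ {0}) := by
    intro s hs s' hs' h
    rw [hPhi s hs.1 hs.2, hPhi s' hs'.1 hs'.2, sub_left_inj, one_div, one_div, inv_inj] at h
    rw [← r s hs.1, h, r s' hs'.1]
  obtain ⟨hd2, harea⟩ := area_le hS g0 hinj
  have hom : ball (0 : ℂ) 1 \ D ⊆ (Phi g '' (ball 0 1 \ {0}))ᶜ := by
    rintro w ⟨hw, hwD⟩ ⟨s, hs, rfl⟩
    have p0 := hφ0 s hs.1 hs.2
    rw [hPhi s hs.1 hs.2] at hw hwD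
    rcases mφ hs.1 with h | h
    · have h2 := norm_lt_of_re h
      have h3 : 1 / φ s - 1 = (1 - φ s) / φ s := by field_simp
      rw [mem_ball_zero_iff, h3, norm_div, div_lt_one (norm_pos_iff.2 p0)] at hw
      exact absurd h2 (not_lt.2 hw.le)
    · exact hwD h.2
  -- the real function `x / φ x` is positive
  have rb : ∀ x : ℝ, |x| < 1 → (x : ℂ) ∈ ball (0 : ℂ) 1 := fun x hx => by simpa using hx
  have uI : ∀ x : ℝ, |x| < 1 → ∀ y ∈ uIcc 0 x, |y| < 1 := by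
    intro x hx y hy
    have := abs_sub_left_of_mem_uIcc hy
    simp only [sub_zero] at this
    exact lt_of_le_of_lt this hx
  have rc : ∀ x : ℝ, |x| < 1 → ContinuousOn (rv g) (uIcc 0 x) := fun x hx y hy =>
    (hasDerivAt_rv hg (uI x hx y hy)).continuousAt.continuousWithinAt
  have rv0 : rv g 0 = g 0 := by
    have h2 := ev_ofReal g 0
    rw [ofReal_zero, ev_zero] at h2
    exact_mod_cast h2.symm
  have Hpos : ∀ x : ℝ, |x| < 1 → 0 < rv g x + x := by
    intro x hx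
    refine pos_of_ne (h := fun y => rv g y + y) ((rc x hx).add continuousOn_id)
      (by simpa [rv0] using g0) ?_
    intro y hy h
    have hy1 := rb y (uI x hx y hy)
    have h2 : ((rv g y + y : ℝ) : ℂ) = 1 / dslope φ 0 y := by
      rw [ofReal_add, ← ev_ofReal, eg _ hy1]
      simp [hGdef]
    have h3 : rv g y + y = 0 := h
    rw [h3, ofReal_zero] at h2
    exact one_div_ne_zero (dsne _ hy1) h2.symm
  -- the slit map
  have hD1 : (-1 : ℂ) ∉ D := by simpa using hD.negReal 1 hm.le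
  have fD : ∀ z ∈ ball (0 : ℂ) 1, f z ∈ D := fun z hz => hsub ⟨z, hz, rfl⟩
  have fne : ∀ z ∈ ball (0 : ℂ) 1, f z + 1 ≠ 0 := by
    intro z hz h
    apply hD1
    rw [← eq_neg_of_add_eq_zero_left h]
    exact fD z hz
  have fU : MapsTo (fun z => 1 / (f z + 1)) (ball (0 : ℂ) 1) (extDom D) := by
    intro z hz
    refine Or.inr ⟨one_div_ne_zero (fne z hz), ?_⟩
    simpa using fD z hz
  set s : ℂ → ℂ := fun z => ψ (1 / (f z + 1)) with hsdef
  have hs : DifferentiableOn ℂ s (ball 0 1) :=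
    hψ.comp ((differentiableOn_const 1).div (hf.add_const 1) fne) fU
  have sb : ∀ z ∈ ball (0 : ℂ) 1, s z ∈ ball (0 : ℂ) 1 := fun z hz => mψ (fU hz)
  have φs : ∀ z ∈ ball (0 : ℂ) 1, φ (s z) = 1 / (f z + 1) := fun z hz => l _ (fU hz)
  have s0 : ∀ z ∈ ball (0 : ℂ) 1, s z ≠ 0 := by
    intro z hz h
    have := φs z hz
    rw [h, φ0] at this
    exact one_div_ne_zero (fne z hz) this.symm
  have fPhi : ∀ z ∈ ball (0 : ℂ) 1, f z = Phi g (s z) := by
    intro z hz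
    rw [hPhi _ (sb z hz) (s0 z hz), φs z hz]
    simp
  have ssl : MapsTo s (ball 0 1) slit := by
    intro z hz
    refine ⟨by simpa using sb z hz, ?_⟩
    by_contra h
    push Not at h
    set x : ℝ := (s z).re with hx
    have hsx : s z = x := Complex.ext (by simp [hx]) (by simp [h.2])
    have x1 : |x| < 1 := by simpa [hsx] using sb z hz
    have x0 : x < 0 := by
      refine lt_of_le_of_ne h.1 fun h' => s0 z hz ?_
      rw [hsx, h', ofReal_zero]
    have h2 := Hpos x x1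
    have h3 : f z = -((-(rv g x / x) : ℝ) : ℂ) := by
      rw [fPhi z hz, hsx, Phi, ev_ofReal]
      simp
    have h4 : m ≤ -(rv g x / x) := by
      have : 1 < -(rv g x / x) := by
        rw [← div_neg, lt_div_iff₀ (neg_pos.2 x0)]
        linarith
      linarith
    exact hD.negReal _ h4 (h3 ▸ fD z hz)
  set ρ : ℝ := (s 0).re with hρ
  have φ1 : φ (s 0) = 1 := by rw [φs 0 b0, h0]; simp
  have sρ : s 0 = ρ := by
    have h2 : starRingEnd ℂ (s 0) = s 0 := by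
      have h3 := hconj _ (sb 0 b0)
      rw [φ1, map_one] at h3
      rw [← r _ (conj_ball (sb 0 b0)), h3, ← φ1, r _ (sb 0 b0)]
    exact (conj_eq_iff_re.1 h2).symm
  have ρ0 : 0 < ρ := by
    rcases (ssl b0).2 with h | h
    · exact h
    · exact absurd (by rw [sρ]; simp) h
  have ρa : |ρ| < 1 := by simpa [sρ] using sb 0 b0
  have ρ1 : ρ < 1 := lt_of_abs_lt ρa
  have ρc : (ρ : ℂ) ≠ 0 := by exact_mod_cast ρ0.ne'
  have Pρ : Phi g ρ = 0 := by rw [← sρ, ← fPhi 0 b0, h0]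
  have rvρ : rv g ρ = 0 := by
    rw [Phi, div_eq_zero_iff, ev_ofReal] at Pρ
    rcases Pρ with h | h
    · exact_mod_cast h
    · exact absurd h ρc
  have dneg : rv (der g) ρ ≤ 0 := by
    refine deriv_nonpos ρ0 (hasDerivAt_rv hg ρa) rvρ fun x x0 xρ => ?_
    have x1 : |x| < 1 := by rw [abs_of_pos x0]; linarith
    refine pos_of_ne (rc x x1) (by rwa [rv0]) fun y hy h => ?_
    rw [uIcc_of_le x0.le] at hy
    rcases hy.1.eq_or_lt with y0 | y0
    · rw [← y0, rv0] at h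
      exact g0.ne' h
    · have y1 : |y| < 1 := by rw [abs_of_pos y0]; linarith [hy.2]
      have h2 : Phi g y = Phi g ρ := by rw [Pρ, Phi, ev_ofReal, h]; simp
      have h3 := hinj ⟨rb y y1, by simpa using y0.ne'⟩ ⟨rb ρ ρa, ρc⟩ h2
      have h4 : y = ρ := by exact_mod_cast h3
      linarith [hy.2]
  -- the chain rule at the origin
  have key : (ρ : ℂ) = rv (der g) ρ * deriv s 0 := by
    have ds : HasDerivAt s (deriv s 0) 0 :=
      ((hs _ b0).differentiableAt (isOpen_ball.mem_nhds b0)).hasDerivAt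
    have df : HasDerivAt f 1 0 :=
      h1 ▸ ((hf _ b0).differentiableAt (isOpen_ball.mem_nhds b0)).hasDerivAt
    have e1 : HasDerivAt (fun z => f z * s z) (1 * s 0 + f 0 * deriv s 0) 0 := df.mul ds
    have e2 : HasDerivAt (ev g ∘ s) (ev (der g) (s 0) * deriv s 0) 0 :=
      HasDerivAt.comp 0 (hasDerivAt_ev hg (by simpa using sb 0 b0)) ds
    have e3 : HasDerivAt (fun z => f z * s z) (ev (der g) (s 0) * deriv s 0) 0 := by
      refine e2.congr_of_eventuallyEq ?_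
      filter_upwards [isOpen_ball.mem_nhds b0] with z hz
      rw [fPhi z hz, Phi, Function.comp_apply, div_mul_cancel₀ _ (s0 z hz)]
    have e4 := e1.unique e3
    rw [h0, sρ, ev_ofReal] at e4
    simpa using e4
  have kpos : 0 < kap ρ := by
    unfold kap
    have : 0 < 1 - ρ := by linarith
    positivity
  obtain ⟨sw1, sw2⟩ := slit_schwarz ρ0 ρ1 hs ssl sρ
  have hslope : kap ρ ≤ -rv (der g) ρ := by
    have h2 : ρ = -rv (der g) ρ * ‖deriv s 0‖ := by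
      have h3 := congrArg norm key
      rw [norm_mul, norm_real, norm_real, Real.norm_eq_abs, Real.norm_eq_abs, abs_of_pos ρ0,
        abs_of_nonpos dneg] at h3
      exact h3
    have h3 : ρ ≤ -rv (der g) ρ * (ρ / kap ρ) := by
      calc ρ = -rv (der g) ρ * ‖deriv s 0‖ := h2
        _ ≤ _ := by gcongr; linarith
    rw [← mul_div_assoc, le_div_iff₀ kpos] at h3
    nlinarith
  refine ⟨ρ, g, ⟨ρ0, ρ1, hS, hd2, g0, rvρ, hslope⟩, (measure_mono hom).trans harea, ?_⟩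
  intro heq z hz
  refine ⟨s z, sb z hz, sw2 ?_ z hz, fPhi z hz⟩
  rw [heq] at key
  have kc : ((kap ρ : ℝ) : ℂ) ≠ 0 := by exact_mod_cast kpos.ne'
  push_cast at key ⊢
  field_simp
  linear_combination key

end Pool.Agent.Lib.MP_9b2593_an.Uq
end
end

-- part Pool.Agent.Lib.MP_9b2593_an.Uq.Exist
section

/-!
Existence of a circularly symmetric extremal function.
-/

open Complex Metric Set MeasureTheory

noncomputable section

namespace Pool.Agent.Lib.MP_9b2593_an.Uq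

namespace Exist

/-- The exterior of the closed disc without the negative axis. -/
def outer : Set ℂ := {w | 1 < ‖w‖ ∧ (0 < w.re ∨ w.im ≠ 0)}

theorem isOpen_outer : IsOpen outer :=
  (isOpen_lt continuous_const continuous_norm).inter
    ((isOpen_lt continuous_const continuous_re).union (isOpen_ne_fun continuous_im continuous_const))

theorem symD_union {D : Set ℂ} {m : ℝ} (hD : SymD D m) : SymD (D ∪ outer) m := by
  refine ⟨hD.isOpen.union isOpen_outer, hD.pos, hD.ball_sub.trans subset_union_left, ?_,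
    fun t ht => Or.inl (hD.posReal t ht), ?_⟩
  · rintro w hw w' hn hre (h | h)
    · exact hD.sym w (fun k => hw (Or.inl k)) w' hn hre h
    · refine hw (Or.inr ⟨hn ▸ h.1, ?_⟩)
      by_contra hc
      push Not at hc
      have h1 : ‖w‖ ^ 2 = w.re ^ 2 + w.im ^ 2 := by
        rw [Complex.sq_norm, Complex.normSq_apply]
        ring
      have h2 : ‖w'‖ ^ 2 = w'.re ^ 2 + w'.im ^ 2 := by
        rw [Complex.sq_norm, Complex.normSq_apply]
        ring
      rw [hn, h1, hc.2] at h2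
      rcases h.2 with k | k
      · linarith [hc.1]
      · have := sq_pos_of_ne_zero k
        nlinarith [hc.1]
  · rintro t ht (h | h)
    · exact hD.negReal t ht h
    · have := hD.pos
      rcases h.2 with k | k
      · simp only [neg_re, ofReal_re] at k
        linarith
      · simp at k

theorem annulus_preconnected {s : ℝ} (hs : 0 ≤ s) :
    IsPreconnected {z : ℂ | s ≤ ‖z‖ ∧ ‖z‖ < 1} := by
  have h := ((isPreconnected_Ico (a := s) (b := 1)).prod (isPreconnected_univ (α := ℝ))).image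
    (fun p : ℝ × ℝ => (p.1 : ℂ) * exp (p.2 * I)) (by fun_prop)
  convert h using 1
  ext z
  constructor
  · intro hz
    exact ⟨(‖z‖, arg z), ⟨hz, trivial⟩, norm_mul_exp_arg_mul_I z⟩
  · rintro ⟨⟨t, θ⟩, ⟨ht, -⟩, rfl⟩
    have : ‖(t : ℂ) * exp (θ * I)‖ = t := by
      rw [norm_mul, norm_exp_ofReal_mul_I, mul_one, norm_real,
        Real.norm_of_nonneg (hs.trans ht.1)]
    simp only [mem_ofPred_eq, this]
    exact ht

theorem exists_radius {f : ℂ → ℂ} (hf : InS f) {K : Set ℂ} (hK : IsCompact K)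
    (h : K ⊆ f '' ball 0 1) : ∃ s : ℝ, 0 < s ∧ s < 1 ∧ K ⊆ f '' ball 0 s := by
  have : Nonempty (Ioo (0 : ℝ) 1) := ⟨⟨1 / 2, by norm_num, by norm_num⟩⟩
  obtain ⟨s, hs⟩ := hK.elim_directed_cover (fun s : Ioo (0 : ℝ) 1 => f '' ball 0 s)
    (fun s => circ_isOpen hf (ball_subset_ball s.2.2.le) isOpen_ball) (fun w hw => by
      obtain ⟨z, hz, rfl⟩ := h hw
      rw [mem_ball_zero_iff] at hz
      have := norm_nonneg z
      exact mem_iUnion.2 ⟨⟨(‖z‖ + 1) / 2, by linarith, by linarith⟩, z,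
        mem_ball_zero_iff.2 (by simp only; linarith), rfl⟩)
    (Monotone.directed_le fun a b hab => image_mono (ball_subset_ball hab))
  exact ⟨s, s.2.1, s.2.2, hs⟩

end Exist

theorem symmetrize' {f : ℂ → ℂ} (hf : DifferentiableOn ℂ f (ball 0 1)) (h0 : f 0 = 0)
    (h1 : 1 ≤ ‖deriv f 0‖) (hout : ∀ r : ℝ, 1 < r → ∃ w ∉ f '' ball 0 1, ‖w‖ = r)
    (hne : om f ≠ 0) :
    ∃ (D : Set ℂ) (m : ℝ) (F : ℂ → ℂ), SymD D m ∧ m < 1 ∧
      (∀ w : ℂ, 1 < ‖w‖ → (0 < w.re ∨ w.im ≠ 0) → w ∈ D) ∧ InS F ∧ Circ F ∧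
      F '' ball 0 1 ⊆ D ∧ om f ≤ volume (ball (0 : ℂ) 1 \ D) := by
  have hin : ∀ r : ℝ, 0 < r → r ≤ 1 → ∃ w ∉ (f '' ball 0 1)ᶜ, ‖w‖ = r := by
    by_contra hin
    push Not at hin
    obtain ⟨r, hr, hr1, h⟩ := hin
    exact hne (Tight.om_eq_zero hf h0 h1 hr hr1 fun z hz => h _ fun hn => hn ⟨z, hz, rfl⟩)
  have hd : deriv f 0 ≠ 0 := norm_pos_iff.1 (one_pos.trans_le h1)
  have hK : IsClosed (f '' ball 0 1)ᶜ := (Tight.isOpen_image hf hd).isClosed_compl
  have hK0 : (0 : ℂ) ∉ (f '' ball 0 1)ᶜ := fun h => h ⟨0, mem_ball_self one_pos, h0⟩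
  obtain ⟨H, D, m, hD, hH, hsec, hvol⟩ := radial hK hK0 hout hin
  have hvol' : om f ≤ volume (ball (0 : ℂ) 1 \ D) := hvol
  have hm1 : m < 1 := by
    by_contra hm
    rw [sdiff_eq_empty.2 ((ball_subset_ball (not_lt.1 hm)).trans hD.ball_sub), measure_empty]
      at hvol'
    exact hne (le_zero_iff.1 hvol')
  have hD0 : (0 : ℂ) ∈ D := hD.ball_sub (mem_ball_self hD.pos)
  obtain ⟨ψ, φ, hψ, hφ, mψ, mφ, e1, e2, ψ0, φ0, c, hc, hφc⟩ := riemann hD.isOpen hD.preconnected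
    (fun h => hD.negReal m le_rfl (h ▸ mem_univ _)) hD.hasLog hD0
  have hcirc := circ_of_symD hD hψ hφ mψ mφ e1 e2 φ0 hc hφc
  have hb : ball (0 : ℂ) 1 ∈ nhds (0 : ℂ) := ball_mem_nhds _ one_pos
  have dφ : HasDerivAt φ (c : ℂ) 0 := hφc ▸ (hφ.differentiableAt hb).hasDerivAt
  have hψ1 : ‖deriv ψ 0‖ ≤ 1 := by
    refine le_of_forall_gt_imp_ge_of_dense fun θ hθ => ?_
    refine star hD hψ (fun a ha b hb e => by rw [← e1 a ha, ← e1 b hb, e])
      (mψ.image_subset.antisymm fun z hz => ⟨φ z, mφ hz, e2 z hz⟩) ψ0 hsec (by linarith)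
      (Tight.cheb_image hK hK0 hH (θ := (1 + θ) / 2) (by linarith) (by linarith)
        (cheb_omitted hf h0 hd ?_))
    have : 1 / ‖deriv f 0‖ ≤ 1 := (div_le_one (one_pos.trans_le h1)).2 h1
    linarith
  have hc1 : 1 ≤ c := by
    have h2 : HasDerivAt ψ (deriv ψ 0) (φ 0) := by
      rw [φ0]
      exact (hψ.differentiableAt (hD.isOpen.mem_nhds hD0)).hasDerivAt
    have h3 : HasDerivAt (ψ ∘ φ) 1 0 := (hasDerivAt_id (0 : ℂ)).congr_of_eventuallyEq (by
      filter_upwards [hb] with z hz using e2 z hz)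
    have h4 := congrArg norm ((h2.comp 0 dφ).unique h3)
    rw [norm_mul, norm_one, norm_real, Real.norm_of_nonneg hc.le] at h4
    nlinarith
  have hc0 : (c : ℂ) ≠ 0 := ofReal_ne_zero.2 hc.ne'
  have hm : MapsTo (fun z : ℂ => z / c) (ball 0 1) (ball 0 1) := fun z hz => by
    rw [mem_ball_zero_iff] at hz ⊢
    rw [norm_div, norm_real, Real.norm_of_nonneg hc.le]
    exact (div_le_self (norm_nonneg _) hc1).trans_lt hz
  refine ⟨D ∪ Exist.outer, m, fun z => φ (z / c), Exist.symD_union hD, hm1,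
    fun w k1 k2 => Or.inr ⟨k1, k2⟩, ⟨hφ.comp (differentiableOn_id.div_const _) hm,
      fun a ha b hb e => ?_, by simpa using φ0, ?_⟩, fun r hr => ?_, ?_,
    hvol'.trans (measure_mono ?_)⟩
  · have := congrArg ψ e
    rwa [e2 _ (hm ha), e2 _ (hm hb), div_left_inj' hc0] at this
  · have h2 : HasDerivAt φ (c : ℂ) ((0 : ℂ) / c) := by rwa [zero_div]
    have h3 := (h2.comp 0 ((hasDerivAt_id (0 : ℂ)).div_const (c : ℂ))).deriv
    rwa [mul_one_div_cancel hc0] at h3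
  · have e : ∀ u : ℂ, (r : ℂ) * u / c = ((r / c : ℝ) : ℂ) * u := fun u => by
      push_cast
      ring
    simp only [e]
    exact hcirc (r / c) ⟨div_pos hr.1 hc, (div_le_self hr.1.le hc1).trans_lt hr.2⟩
  · rintro _ ⟨z, hz, rfl⟩
    exact Or.inl (mφ (hm hz))
  · rintro w ⟨k1, k2⟩
    refine ⟨k1, ?_⟩
    rintro (k | k)
    · exact k2 k
    · exact absurd (mem_ball_zero_iff.1 k1) (not_lt.2 k.1.le)

theorem hout_of_inS {f : ℂ → ℂ} (hf : InS f) (hne : om f ≠ 0) :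
    ∀ r : ℝ, 1 < r → ∃ w ∉ f '' ball 0 1, ‖w‖ = r := by
  intro r hr
  by_contra hc
  push Not at hc
  have hsph : sphere (0 : ℂ) r ⊆ f '' ball 0 1 := fun w hw => by
    by_contra hn
    exact hc w hn (mem_sphere_zero_iff_norm.1 hw)
  obtain ⟨s, hs0, hs1, hs⟩ := Exist.exists_radius hf (isCompact_sphere 0 r) hsph
  have hsub : closedBall (0 : ℂ) s ⊆ ball 0 1 := closedBall_subset_ball hs1
  have hA : {z : ℂ | s ≤ ‖z‖ ∧ ‖z‖ < 1} ⊆ ball 0 1 := fun z hz => mem_ball_zero_iff.2 hz.2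
  have hne' : ∀ z ∈ {z : ℂ | s ≤ ‖z‖ ∧ ‖z‖ < 1}, ‖f z‖ ≠ r := fun z hz e => by
    obtain ⟨y, hy, k⟩ := hs (mem_sphere_zero_iff_norm.2 e)
    have := hf.2.1 (hsub (ball_subset_closedBall hy)) (hA hz) k
    rw [this, mem_ball_zero_iff] at hy
    exact absurd hy (not_lt.2 hz.1)
  have hcont : ContinuousOn f (closedBall 0 s) := hf.1.continuousOn.mono hsub
  obtain ⟨b, hb, hmax⟩ := (isCompact_sphere (0 : ℂ) s).exists_isMaxOn
    (NormedSpace.sphere_nonempty.2 hs0.le) (hcont.mono sphere_subset_closedBall).norm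
  have hbA : b ∈ {z : ℂ | s ≤ ‖z‖ ∧ ‖z‖ < 1} := by
    rw [mem_sphere_zero_iff_norm] at hb
    exact ⟨hb.ge, hb ▸ hs1⟩
  have hrb : r ≤ ‖f b‖ := by
    obtain ⟨y, hy, k⟩ := hs (show (r : ℂ) ∈ sphere (0 : ℂ) r by
      rw [mem_sphere_zero_iff_norm, norm_real, Real.norm_of_nonneg (by linarith)])
    have h1 : ‖f y‖ ≤ ‖f b‖ := norm_le_of_forall_mem_frontier_norm_le isBounded_ball
      (DifferentiableOn.diffContOnCl_ball hf.1 hsub)
      (fun z hz => hmax (by rwa [frontier_ball _ hs0.ne'] at hz)) (subset_closure hy)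
    rwa [k, norm_real, Real.norm_of_nonneg (by linarith)] at h1
  have hout : ∀ z ∈ {z : ℂ | s ≤ ‖z‖ ∧ ‖z‖ < 1}, r ≤ ‖f z‖ := fun z hz => by
    by_contra hn
    obtain ⟨y, hy, e⟩ := (Exist.annulus_preconnected hs0.le).intermediate_value hz hbA
      (hf.1.continuousOn.mono hA).norm (show r ∈ Icc ‖f z‖ ‖f b‖ from ⟨(not_le.1 hn).le, hrb⟩)
    exact hne' y hy e
  have hcl : closure (f '' ball 0 1) ⊆ f '' closedBall 0 s ∪ {w | r ≤ ‖w‖} := by
    refine closure_minimal ?_ (((isCompact_closedBall 0 s).image_of_continuousOn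
      hcont).isClosed.union (isClosed_le continuous_const continuous_norm))
    rintro _ ⟨z, hz, rfl⟩
    by_cases k : ‖z‖ ≤ s
    · exact Or.inl ⟨z, mem_closedBall_zero_iff.2 k, rfl⟩
    · exact Or.inr (hout z ⟨(not_le.1 k).le, mem_ball_zero_iff.1 hz⟩)
  have hall : ball (0 : ℂ) 1 ⊆ f '' ball 0 1 := by
    refine (convex_ball (0 : ℂ) 1).isPreconnected.subset_of_closure_inter_subset
      (circ_isOpen hf subset_rfl isOpen_ball)
      ⟨0, mem_ball_self one_pos, 0, mem_ball_self one_pos, hf.2.2.1⟩ ?_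
    rintro w ⟨k1, k2⟩
    rcases hcl k1 with k | k
    · exact image_mono hsub k
    · exact absurd ((mem_ball_zero_iff.1 k2).trans hr) (not_lt.2 k)
  exact hne (by rw [om, sdiff_eq_empty.2 hall, measure_empty])

theorem om_le_of_isMax {ρ : ℝ} {g : ℕ → ℝ} (hm : IsMax ρ g) {f : ℂ → ℂ} (hf : InS f) :
    om f ≤ ENNReal.ofReal (Real.pi * q g) := by
  by_cases hne : om f = 0
  · rw [hne]
    exact zero_le
  obtain ⟨D, m, F, hD, hm1, hout, hF, -, hsub, hle⟩ := symmetrize' hf.1 hf.2.2.1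
    (by rw [hf.2.2.2, norm_one]) (hout_of_inS hf hne) hne
  obtain ⟨ρ', g', hfe, hv, -⟩ := struct_of_symD hD hm1 hout hF.1 hF.2.2.1 hF.2.2.2 hsub
  exact hle.trans (hv.trans (ENNReal.ofReal_le_ofReal
    (mul_le_mul_of_nonneg_left (hm.2 ρ' g' hfe) Real.pi_pos.le)))

theorem exists_extremal {ρ : ℝ} {g : ℕ → ℝ} (hm : IsMax ρ g) (hq : 0 < q g) :
    ∃ F, InS F ∧ Circ F ∧ ∀ h, InS h → om h ≤ om F := by
  obtain ⟨f, hf, hle⟩ := tight hm.1
  have hne : om f ≠ 0 := fun e => by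
    rw [e, le_zero_iff, ENNReal.ofReal_eq_zero] at hle
    exact absurd (mul_pos Real.pi_pos hq) (not_lt.2 hle)
  obtain ⟨D, m, F, -, -, -, hF, hc, hsub, hv⟩ := symmetrize' hf.1 hf.2.2.1
    (by rw [hf.2.2.2, norm_one]) (hout_of_inS hf hne) hne
  exact ⟨F, hF, hc, fun h hh => (om_le_of_isMax hm hh).trans (hle.trans (hv.trans
    (measure_mono (sdiff_subset_sdiff_right hsub))))⟩

end Pool.Agent.Lib.MP_9b2593_an.Uq
end
end
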