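import Pool.Agent.Lib.MP_9b2593_an.Uq.Data0

/-!
Finite computations with the reference polynomial and bilinear error estimates.
-/

open Complex Metric Set MeasureTheory

namespace Pool.Agent.Lib.MP_9b2593_an.Uq

def jL (n : ℤ) : List ℤ → List ℤ
  | [] => []
  | a :: as => n * a :: jL (n - 1) as

def loH (a b : ℚ) : List ℤ → ℚ
  | [] => 0
  | c :: cs => c / 10 ^ 11 + (fun t => min (a * t) (b * t)) (loH a b cs)

def hiH (a b : ℚ) : List ℤ → ℚ
  | [] => 0
  | c :: cs => c / 10 ^ 11 + (fun t => max (a * t) (b * t)) (hiH a b cs)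

def dL (l : List ℤ) : List ℤ := derL 1 l.tail

def JR : List ℤ := jL 1 PR

def mR (n : ℕ) : ℚ := ((corr PR JR).getD n 0 : ℤ) / 10 ^ 22

def wR (ν : ℚ) (k : ℕ) : ℚ :=
  -ν * ((k + 1) * (k * 0.73464 ^ (k - 1))) + 2 * (-1.1 * mR (k + 1) - 1.5 * mR k) +
    0.2 * 0.73464 ^ (k + 1) - 0.26789 * ((k + 1) * 0.73464 ^ k)

def omq (ν : ℚ) : ℕ → ℚ
  | 0 => 0
  | k + 1 => wR ν k / k

def chkOm (ν O Gl Gh : ℚ) : Bool :=
  decide (0 ≤ ν ∧ ν ≤ 0.26) &&
  decide (∑ k ∈ Finset.range 70, (k : ℚ) * omq ν (k + 1) ^ 2 + tailq 9 0.8 70 ≤ O) &&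
  decide (∑ k ∈ Finset.range 70, (k : ℚ) * (sq PR (k + 1) * omq ν (k + 1)) ∈ Icc Gl Gh)

theorem om0 : chkOm 0 1.3892 (-0.3572) (-0.3571) = true := by decide +kernel

theorem om1 : chkOm 0.2503 7.9538 0.5222 0.5223 = true := by decide +kernel

theorem dat1 : PR.length = 61 ∧ sq PR 0 = 0.6804255 ∧ sq PR 1 = -0.5225244 ∧
    -0.0008176 ≤ loH rlo rhi PR ∧ hiH rlo rhi PR ≤ 0.0008176 ∧
    -3.5198 ≤ loH rlo rhi (dL (dL PR)) ∧ hiH rlo rhi (dL (dL PR)) ≤ -3.5068 ∧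
    -12.935 ≤ loH rlo rhi (dL (dL (dL PR))) := by decide +kernel

theorem dat2 : ∑ k ∈ Finset.range 70, (k : ℚ) * (sq PR (k + 1) * sq PR (k + 1)) ≤ 0.2243976 ∧
    0.23858 ≤ mR 0 ∧ mR 0 ≤ 0.23859 ∧ -0.38033 ≤ mR 1 ∧ mR 1 ≤ -0.38032 ∧
    (∀ ν ∈ [0, 0.2503], |wR ν 0| ≤ 0.00001) ∧
    ∑ k ∈ Finset.range 70, (dot (JR.drop (k + 2)) (JR.drop (k + 2)) : ℚ) / 10 ^ 22 / (k + 1) ≤
      0.907 ^ 2 := by decide +kernel

noncomputable section

variable {g h u e U δ : ℕ → ℝ}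

theorem jL_getD (l : List ℤ) (n : ℤ) (k : ℕ) : (jL n l).getD k 0 = (n - k) * l.getD k 0 := by
  induction l generalizing n k with
  | nil => simp [jL]
  | cons a l ih =>
    cases k with
    | zero => simp [jL]
    | succ k => simp only [jL, List.getD_cons_succ, ih]; push_cast; ring

theorem jL_length (l : List ℤ) (n : ℤ) : (jL n l).length = l.length := by
  induction l generalizing n with
  | nil => rfl
  | cons a l ih => simp [jL, ih]

theorem getD_eq (l : List ℤ) (n : ℕ) : ((l.getD n 0 : ℤ) : ℝ) = 10 ^ 11 * sr l n := by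
  simp only [sr, sq]; push_cast; ring

theorem B_sr (P : List ℤ) (f : ℕ → ℝ) : B (sr P) f = lp f (jL 1 P) / 10 ^ 11 := by
  have h := ((hasSum_nat_add_iff' 1).2 (hasSum_lp f (jL 1 P))).div_const (-10 ^ 11)
  have h2 : HasSum (fun k : ℕ => (k : ℝ) * (sr P (k + 1) * f (k + 1))) _ :=
    hs_eq h (fun k => by rw [jL_getD]; push_cast; rw [getD_eq]; field_simp; ring) rfl
  rw [B, ip, h2.tsum_eq, Finset.sum_range_one, jL_getD]
  push_cast; rw [getD_eq]; ring

theorem lp_single (k : ℕ) (c : ℝ) (l : List ℤ) : lp (Pi.single k c) l = c * (l.getD k 0 : ℤ) := by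
  have h := hasSum_single (f := fun n => (Pi.single k c : ℕ → ℝ) n * (l.getD n 0 : ℤ)) k
    (fun n hn => by simp [hn])
  rw [(hasSum_lp _ l).unique h]; simp

theorem lp_plus (g h : ℕ → ℝ) (l : List ℤ) : lp (g + h) l = lp g l + lp h l := by
  simpa using lp_add g h 1 l

theorem lp_smul (c : ℝ) (g : ℕ → ℝ) (l : List ℤ) : lp (c • g) l = c * lp g l :=
  (hasSum_lp _ l).unique (hs_eq ((hasSum_lp g l).mul_left c) (fun n => by simp [mul_assoc]) rfl)

theorem lp_minus (g h : ℕ → ℝ) (l : List ℤ) : lp (g - h) l = lp g l - lp h l :=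
  (hasSum_lp _ l).unique (hs_eq ((hasSum_lp g l).sub (hasSum_lp h l)) (fun n => by simp [sub_mul]) rfl)

theorem horner_mem {a b : ℚ} {x : ℝ} (h0 : (0 : ℝ) ≤ a) (ha : (a : ℝ) ≤ x) (hb : x ≤ b)
    (h1 : x < 1) (l : List ℤ) : (loH a b l : ℝ) ≤ rv (sr l) x ∧ rv (sr l) x ≤ hiH a b l := by
  have x0 := h0.trans ha
  induction l with
  | nil => simp [rv, sr, sq, loH, hiH]
  | cons c l ih =>
    rw [rv_shift (sr_d2 _).pow (by rwa [abs_of_nonneg x0]), shift_sr, sr_cons_zero, loH, hiH]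
    push_cast
    refine ⟨add_le_add le_rfl (le_trans ?_ (mul_le_mul_of_nonneg_left ih.1 x0)),
      add_le_add le_rfl ((mul_le_mul_of_nonneg_left ih.2 x0).trans ?_)⟩
    · rcases le_total 0 (loH a b l : ℝ) with h | h
      · exact (min_le_left _ _).trans (mul_le_mul_of_nonneg_right ha h)
      · exact (min_le_right _ _).trans (mul_le_mul_of_nonpos_right hb h)
    · rcases le_total 0 (hiH a b l : ℝ) with h | h
      · exact (mul_le_mul_of_nonneg_right hb h).trans (le_max_right _ _)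
      · exact (mul_le_mul_of_nonpos_right ha h).trans (le_max_left _ _)

theorem ip_sr (f : ℕ → ℝ) :
    ip (sr PR) f = ∑ k ∈ Finset.range 70, (k : ℝ) * (sr PR (k + 1) * f (k + 1)) :=
  tsum_eq_sum fun k hk => by
    rw [sr_zero (l := PR) (by rw [dat1.1]; simp at hk; omega)]; simp

theorem ipP_le : ip (sr PR) (sr PR) ≤ 0.2243976 := by
  have : _ ≤ ((0.2243976 : ℚ) : ℝ) := Rat.cast_le.2 dat2.1
  rw [ip_sr]; simp only [sr]; push_cast at this; exact this

theorem nrmP_le : nrm (sr PR) ≤ 0.47371 :=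
  Real.sqrt_le_iff.2 ⟨by norm_num, ipP_le.trans (by norm_num)⟩

theorem P0 : sr PR 0 = 0.6804255 := by simp only [sr, dat1.2.1]; norm_num

theorem P1 : sr PR 1 = -0.5225244 := by simp only [sr, dat1.2.2.1]; norm_num

theorem hasSum_lp_cmul (U : ℕ → ℝ) (l : List ℤ) (e : ℕ → ℝ) :
    HasSum (fun k => e k * lp U (l.drop k)) (lp (cmul e U) l) := by
  induction l generalizing e with
  | nil => simp [lp, hasSum_zero]
  | cons b bs ih =>
    rw [← hasSum_nat_add_iff' 1]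
    refine hs_eq (ih (shift e)) (fun k => by simp [shift]) ?_
    have : cmul e U 0 = e 0 * U 0 := by simp [cmul]
    simp only [lp, shift_cmul, lp_add, this, Finset.sum_range_one, List.drop_zero]; ring

theorem lp_sq_le (hU : D2 U) (l : List ℤ) :
    (lp U l / 10 ^ 11) ^ 2 ≤ hn U ^ 2 * ((dot l l : ℝ) / 10 ^ 22) := by
  have h1 := s3_wt_cs (w := fun _ => 1) (a := U) (b := sr l) (fun _ => zero_le_one)
    (by simpa using hU.summable_sq) (by simpa using (hasSum_sr_sq l).summable)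
  simp only [one_mul] at h1
  have h2 : HasSum (fun n => U n * sr l n) (lp U l / 10 ^ 11) :=
    hs_eq ((hasSum_lp U l).div_const _) (fun n => by rw [getD_eq]; ring) rfl
  rw [h2.tsum_eq, (hasSum_sr_sq l).tsum_eq] at h1
  have h3 := pow_le_pow_left₀ (abs_nonneg _) h1 2
  rwa [sq_abs, mul_pow, Real.sq_sqrt ((hasSum_sr_sq l).nonneg fun n => sq_nonneg _)] at h3

theorem nrm_le_an (hU : D2 U) : nrm U ≤ an U := by
  refine Real.sqrt_le_sqrt ?_
  rw [← hU.summable_an.sum_add_tsum_nat_add 1]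
  simp only [Finset.sum_range_one, Nat.cast_zero, zero_mul, zero_add, ip]
  refine (hU.summable_ip hU).tsum_le_tsum (fun k => ?_) ((summable_nat_add_iff 1).2 hU.summable_an)
  push_cast; nlinarith [sq_nonneg (U (k + 1))]

theorem an_nonneg (U : ℕ → ℝ) : 0 ≤ an U := Real.sqrt_nonneg _

theorem hn_nonneg (U : ℕ → ℝ) : 0 ≤ hn U := Real.sqrt_nonneg _

theorem abs_B_le (hg : D2 g) (hh : D2 h) : |B g h| ≤ |g 0| * |h 0| + nrm g * nrm h :=
  (abs_sub _ _).trans (add_le_add (abs_mul _ _).le (abs_ip_le hg hh))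

theorem err_bound (he : D2 e) (hU : D2 U) :
    |B (sr PR) (cmul e U)| ≤ |e 0| * (0.6804255 * |U 0| + 0.47371 * an U) +
      |e 1| * (0.47371 * an U) + 0.907 * hn U * nrm e := by
  have hs := (hasSum_lp_cmul U JR e).div_const (10 ^ 11)
  have dP := sr_d2 PR
  have c0 : |lp U JR / 10 ^ 11| ≤ 0.6804255 * |U 0| + 0.47371 * an U := by
    rw [JR, ← B_sr]
    refine (abs_B_le dP hU).trans (add_le_add (by rw [P0, abs_of_pos (by norm_num)]) ?_)
    exact mul_le_mul nrmP_le (nrm_le_an hU) (nrm_nonneg _) (by norm_num)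
  have c1 : |lp U (JR.drop 1) / 10 ^ 11| ≤ 0.47371 * an U := by
    have h1 := s3_wt_cs (w := fun n => n) (a := U) (b := shift (sr PR)) (fun n => n.cast_nonneg)
      hU.summable_an dP.shift.summable_an
    have h2 : HasSum (fun n : ℕ => (n : ℝ) * (U n * shift (sr PR) n))
        (-(lp U (JR.drop 1) / 10 ^ 11)) :=
      hs_eq ((hasSum_lp U (JR.drop 1)).div_const (-10 ^ 11)) (fun n => by
        rw [List.getD_eq_getElem?_getD, List.getElem?_drop, ← List.getD_eq_getElem?_getD, JR,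
          jL_getD, add_comm 1 n]
        push_cast; rw [getD_eq]; simp only [shift]; field_simp; ring) (by ring)
    rw [h2.tsum_eq, abs_neg] at h1
    have h3 := (an_shift (sr PR)).le.trans nrmP_le
    exact h1.trans (by rw [mul_comm]; exact mul_le_mul_of_nonneg_right h3 (an_nonneg U))
  have z : ∀ k ∉ Finset.range 70, (lp U (JR.drop (k + 2)) / 10 ^ 11) ^ 2 / (k + 1) = 0 :=
    fun k hk => by
      rw [List.drop_eq_nil_of_le (by rw [JR, jL_length, dat1.1]; simp at hk; omega)]; simp [lp]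
  obtain ⟨-, c2⟩ := abs_tsum_le (w := fun k => lp U (JR.drop (k + 2)) / 10 ^ 11)
    (c := 0.907 * hn U) he (mul_nonneg (by norm_num) (hn_nonneg U)) (summable_of_ne_finset_zero z)
    (by
      have h : _ ≤ ((0.907 ^ 2 : ℚ) : ℝ) := Rat.cast_le.2 dat2.2.2.2.2.2.2
      push_cast at h
      rw [tsum_eq_sum z, mul_pow, mul_comm]
      refine le_trans ?_ (mul_le_mul_of_nonneg_left h (sq_nonneg _))
      rw [Finset.mul_sum]
      refine Finset.sum_le_sum fun k _ => ?_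
      rw [← mul_div_assoc]
      exact div_le_div_of_nonneg_right (lp_sq_le hU _) (by positivity))
  have h3 : HasSum (fun k => lp U (JR.drop (k + 2)) / 10 ^ 11 * e (k + 2)) _ :=
    hs_eq ((hasSum_nat_add_iff' 2).2 hs) (fun k => by ring) rfl
  rw [h3.tsum_eq] at c2
  simp only [Finset.sum_range_succ, Finset.sum_range_zero, zero_add, List.drop_zero,
    mul_div_assoc] at c2
  rw [B_sr, ← JR]
  have a0 := mul_le_mul_of_nonneg_left c0 (abs_nonneg (e 0))
  have a1 := mul_le_mul_of_nonneg_left c1 (abs_nonneg (e 1))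
  rw [← abs_mul] at a0 a1
  rw [abs_le] at a0 a1 c2 ⊢
  constructor <;> linarith [a0.1, a0.2, a1.1, a1.2, c2.1, c2.2]

theorem main_term (U : ℕ → ℝ) :
    B (sr PR) (cmul (sr PR) U) = lp U (corr PR JR) / 10 ^ 22 := by
  rw [B_sr, lp_corr, cmul_comm, JR]; ring

theorem mR_cast (n : ℕ) : (((corr PR JR).getD n 0 : ℤ) : ℝ) = 10 ^ 22 * mR n := by
  simp only [mR]; push_cast; ring

theorem hilbert {p ω : ℕ → ℝ} (hδ : D2 δ) (hp : D2 p) (hω : D2 ω) (y d : ℝ) :
    4 * y * ip p δ - (4 * y ^ 2 * ip p p - 2 * (y * d) * ip p ω + d ^ 2 * ip ω ω / 4) * (40 / 39) ≤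
      39 / 40 * nrm δ ^ 2 + d * ip ω δ := by
  have d1 := hδ.smul (39 / 40)
  have d2 := hp.smul (2 * y)
  have d3 := hω.smul (d / 2)
  have d4 := (d1.sub d2).add d3
  have h := ip_self_nonneg ((39 / 40 : ℝ) • δ - (2 * y) • p + (d / 2) • ω)
  rw [ip_add d4 (d1.sub d2) d3, ip_sub d4 d1 d2, ip_smul, ip_smul, ip_smul, ip_comm _ δ,
    ip_comm _ p, ip_comm _ ω, ip_add hδ (d1.sub d2) d3, ip_sub hδ d1 d2, ip_add hp (d1.sub d2) d3,
    ip_sub hp d1 d2, ip_add hω (d1.sub d2) d3, ip_sub hω d1 d2] at h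
  simp only [ip_smul] at h
  rw [ip_comm δ p, ip_comm δ ω, ip_comm ω p] at h
  rw [nrm_sq]
  linarith

theorem chkOm_sound {ν O Gl Gh : ℚ} (hc : chkOm ν O Gl Gh = true) (hδ : D2 δ) :
    ∃ ω, D2 ω ∧ ip ω ω ≤ O ∧ (Gl : ℝ) ≤ ip (sr PR) ω ∧ ip (sr PR) ω ≤ Gh ∧
      ip ω δ = -ν * rv (der (der δ)) 0.73464 +
        2 * (-1.1 * (lp δ (corr PR JR) / 10 ^ 22 - δ 0 * mR 0) -
          1.5 * (lp (shift δ) (corr PR JR) / 10 ^ 22)) + 0.2 * (rv δ 0.73464 - δ 0) -
        0.26789 * rv (der δ) 0.73464 - wR ν 0 * δ 1 := by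
  simp only [chkOm, Bool.and_eq_true, decide_eq_true_eq] at hc
  obtain ⟨⟨⟨n0, n1⟩, h1⟩, h2, h3⟩ := hc
  have n0' : (0 : ℝ) ≤ ν := by exact_mod_cast n0
  have n1' : (ν : ℝ) ≤ 0.26 := by
    have := (Rat.cast_le (K := ℝ)).2 n1
    push_cast at this; exact this
  have hw : ∀ k : ℕ, (wR ν k : ℝ) = -ν * ((k + 1) * (k * 0.73464 ^ (k - 1))) +
      2 * (-1.1 * mR (k + 1) - 1.5 * mR k) + 0.2 * 0.73464 ^ (k + 1) -
      0.26789 * ((k + 1) * 0.73464 ^ k) := fun k => by simp only [wR]; push_cast; ring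
  have hk : ∀ k : ℕ, 1 ≤ k → (k : ℝ) * (omq ν (k + 1) : ℝ) = wR ν k := fun k hk => by
    have : (k : ℝ) ≠ 0 := by positivity
    simp only [omq]; push_cast; field_simp
  obtain ⟨d1, i1⟩ := ip_le_of_tail (f := fun n => (omq ν n : ℝ)) (K := 9) (x := 0.8) (T := 70)
    (by norm_num) (by norm_num) (by norm_num) fun k hk' => by
      have m0 : ∀ n, 61 ≤ n → (mR n : ℝ) = 0 := fun n hn => by
        rw [mR, List.getD_eq_default _ _ (by rw [corr_length, JR, jL_length, dat1.1]; exact hn)]; simp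
      have e1 : 2 * (k : ℝ) * |(omq ν (k + 1) : ℝ)| = 2 * |(wR ν k : ℝ)| := by
        rw [← hk k (by omega), abs_mul, Nat.abs_cast]; ring
      obtain ⟨j, rfl⟩ : ∃ j, k = j + 1 := ⟨k - 1, by omega⟩
      have b1 := one_add_mul_le_pow (show (-2 : ℝ) ≤ 0.088 by norm_num) (j + 1)
      have b2 : (0.73464 : ℝ) ^ (j + 1) * (1 + 0.088) ^ (j + 1) ≤ 0.8 ^ (j + 1) := by
        rw [← mul_pow]; exact pow_le_pow_left₀ (by norm_num) (by norm_num) _
      have b3 : (0 : ℝ) < 0.73464 ^ j := by positivity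
      have b4 := (mul_le_mul_of_nonneg_left b1 (by positivity)).trans b2
      rw [e1, hw, m0 _ (by omega), m0 _ (by omega), Nat.add_sub_cancel]
      rw [pow_succ] at b4
      rw [pow_succ _ (j + 1), pow_succ 0.73464 j]
      push_cast at b4 ⊢
      generalize (0.73464 : ℝ) ^ j = t at b3 b4 ⊢
      generalize (0.8 : ℝ) ^ (j + 1) = s at b4 ⊢
      have j0 : (0 : ℝ) ≤ j := j.cast_nonneg
      have b5 := mul_le_mul_of_nonneg_left b4 (by linarith : (0 : ℝ) ≤ j + 1 + 1)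
      have b6 : 0 ≤ (j + 1 + 1 : ℝ) * ((j + 1) * t) := by positivity
      have b7 := mul_le_mul_of_nonneg_right n1' b6
      have b8 := mul_nonneg n0' b6
      have b9 := mul_nonneg j0 b3.le
      have b10 := mul_nonneg j0 b9
      rw [← le_div_iff₀' two_pos, abs_le]
      constructor <;> linarith
  refine ⟨_, d1, ?_, ?_, ?_, ?_⟩
  · have : _ ≤ (O : ℝ) := Rat.cast_le.2 h1
    simp only [tailq] at this
    push_cast at this i1
    linarith
  · have : (Gl : ℝ) ≤ _ := Rat.cast_le.2 h2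
    rw [ip_sr]; simp only [sr]; push_cast at this; exact this
  · have : _ ≤ (Gh : ℝ) := Rat.cast_le.2 h3
    rw [ip_sr]; simp only [sr]; push_cast at this; exact this
  · have hx : |(0.73464 : ℝ)| < 1 := by rw [abs_of_pos] <;> norm_num
    have s1 := (hasSum_der hδ.pow.der hx).mul_left (-(ν : ℝ))
    have s2 := ((hasSum_nat_add_iff' 1).2 (hasSum_lp δ (corr PR JR))).mul_left (-2.2 / 10 ^ 22)
    have s3 := (hasSum_lp (shift δ) (corr PR JR)).mul_left (-3 / 10 ^ 22)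
    have s4 := ((hasSum_nat_add_iff' 1).2 (hδ.pow.summable_rv hx).hasSum).mul_left 0.2
    have s5 := (hδ.pow.der.summable_rv hx).hasSum.mul_left (-0.26789)
    have s6 : HasSum (fun k => (wR ν k : ℝ) * δ (k + 1)) _ :=
      hs_eq ((((s1.add s2).add s3).add s4).add s5)
        (fun k => by rw [hw, mR_cast, mR_cast]; simp only [der, shift]; ring) rfl
    have s7 := (hasSum_nat_add_iff' 1).2 (d1.summable_ip hδ).hasSum
    have s8 := s7.unique (hs_eq ((hasSum_nat_add_iff' 1).2 s6)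
      (fun k => by rw [← hk (k + 1) (by omega)]; ring) rfl)
    simp only [Finset.sum_range_one, mR_cast] at s8
    simp only [ip, rv] at s8 ⊢
    push_cast at s8
    linarith

theorem mvt {f f' : ℝ → ℝ} {lo hi a b : ℝ} (h : ∀ x ∈ Icc lo hi, HasDerivAt f (f' x) x)
    (ha : a ∈ Icc lo hi) (hb : b ∈ Icc lo hi) :
    ∃ ξ ∈ Icc lo hi, 0 ≤ (ξ - b) * (a - b) ∧ f a - f b = f' ξ * (a - b) := by
  have key : ∀ a b, a ∈ Icc lo hi → b ∈ Icc lo hi → b < a →
      ∃ ξ ∈ Ioo b a, f a - f b = f' ξ * (a - b) := fun a b ha hb hab => by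
    obtain ⟨ξ, h1, h2⟩ := exists_hasDerivAt_eq_slope f f' hab
      (fun x hx => (h x ⟨hb.1.trans hx.1, hx.2.trans ha.2⟩).continuousAt.continuousWithinAt)
      (fun x hx => h x ⟨hb.1.trans hx.1.le, hx.2.le.trans ha.2⟩)
    exact ⟨ξ, h1, by rw [h2, div_mul_cancel₀ _ (sub_pos.2 hab).ne']⟩
  rcases lt_trichotomy a b with hab | hab | hab
  · obtain ⟨ξ, h1, h2⟩ := key b a hb ha hab
    exact ⟨ξ, ⟨ha.1.trans h1.1.le, h1.2.le.trans hb.2⟩,
      mul_nonneg_of_nonpos_of_nonpos (by linarith [h1.2]) (by linarith), by linarith⟩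
  · exact ⟨a, ha, by simp [hab], by simp [hab]⟩
  · obtain ⟨ξ, h1, h2⟩ := key a b ha hb hab
    exact ⟨ξ, ⟨hb.1.trans h1.1.le, h1.2.le.trans ha.2⟩,
      mul_nonneg (by linarith [h1.1]) (by linarith), h2⟩

theorem taylor_lower {f f' f'' : ℝ → ℝ} {lo hi a b m : ℝ}
    (h1 : ∀ x ∈ Icc lo hi, HasDerivAt f (f' x) x) (h2 : ∀ x ∈ Icc lo hi, HasDerivAt f' (f'' x) x)
    (h3 : ∀ x ∈ Icc lo hi, m ≤ f'' x) (ha : a ∈ Icc lo hi) (hb : b ∈ Icc lo hi) (f0 : f a = 0)
    (f1 : f' a = 0) : m / 2 * (b - a) ^ 2 ≤ f b := by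
  obtain ⟨ξ, x1, x2, x3⟩ := mvt (f := fun x => f x - m / 2 * (x - a) ^ 2)
    (f' := fun x => f' x - m * (x - a)) (fun x hx => ((h1 x hx).sub
      ((((hasDerivAt_id' x).sub_const a).pow 2).const_mul (m / 2))).congr_deriv (by simp; ring)) hb ha
  obtain ⟨ζ, z1, -, z3⟩ := mvt h2 x1 ha
  have := mul_nonneg (sub_nonneg.2 (h3 ζ z1)) x2
  simp only [f0, f1, sub_self, sub_zero] at x3 z3
  rw [z3] at x3
  nlinarith

end

end Pool.Agent.Lib.MP_9b2593_an.Uq
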