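import Pool.Agent.Lib.MP_9b2593_an.Uq.LocA
import Pool.Agent.Lib.MP_9b2593_an.Uq.Data1
import Pool.Agent.Lib.MP_9b2593_an.Uq.Data2
import Pool.Agent.Lib.MP_9b2593_an.Uq.Data3
import Pool.Agent.Lib.MP_9b2593_an.Uq.Compact
import Pool.Agent.Lib.MP_9b2593_an.Uq.Exist

-- part Pool.Agent.Lib.MP_9b2593_an.Uq.LocB
section

/-!
Two localised maximisers of the relaxed problem coincide.
-/

open Complex Metric Set MeasureTheory

noncomputable section

namespace Pool.Agent.Lib.MP_9b2593_an.Uq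

variable {g h δ : ℕ → ℝ} {a a' ρ x : ℝ}

abbrev II : Set ℝ := Icc 0.73414 0.73514

theorem II.abs (hx : x ∈ II) : |x| ≤ 0.73514 := by
  rw [abs_of_nonneg (by linarith [hx.1])]; exact hx.2

theorem II.lt (hx : x ∈ II) : |x| < 1 := (II.abs hx).trans_lt (by norm_num)

theorem II.lt' (hx : x ∈ II) : x < 1 := hx.2.trans_lt (by norm_num)

theorem kap_bds (hx : x ∈ II) : 1.6306 ≤ kap x ∧ kap x ≤ 1.6378 ∧ 7.0739 ≤ kap1 x ∧
    kap1 x ≤ 7.1276 ∧ 53.2158 ≤ kap2 x := by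
  obtain ⟨h1, h2⟩ := hx
  have h3 : 0 < 1 - x := by linarith
  have l2 : (1 - x) ^ 2 ≤ 0.26586 ^ 2 := pow_le_pow_left₀ h3.le (by linarith) 2
  have l2' : (0.26486 : ℝ) ^ 2 ≤ (1 - x) ^ 2 := pow_le_pow_left₀ (by norm_num) (by linarith) 2
  have l3 : (1 - x) ^ 3 ≤ 0.26586 ^ 3 := pow_le_pow_left₀ h3.le (by linarith) 3
  norm_num at l2 l2' l3
  unfold kap kap1 kap2
  refine ⟨?_, ?_, ?_, ?_, ?_⟩
  all_goals first
    | rw [le_div_iff₀ (by positivity)]; linarith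
    | rw [div_le_iff₀ (by positivity)]; linarith

structure Nr (ρ : ℝ) (g : ℕ → ℝ) : Prop where
  mem : ρ ∈ II
  n : nrm (g - sr PR) ≤ 0.002
  z : |(g - sr PR) 0| ≤ 0.0012
  e1 : |(g - sr PR) 1| ≤ 0.00455
  d1 : ∀ x ∈ II, -1.6414 ≤ rv (der g) x ∧ rv (der g) x ≤ -1.627
  d2 : ∀ x ∈ II, -3.5413 ≤ rv (der (der g)) x ∧ rv (der (der g)) x ≤ -3.4854
  d3 : ∀ x ∈ II, 40.1 ≤ rv (der (der (der g))) x + kap2 x
  nu : 2 * (q g - g 0 / ρ + (1 + ρ) ^ 2 / 4) ≤ 0.2503 * (1 / (1 - ρ ^ 2) - kap ρ)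
  reg : Summable fun n => der g n ^ 2
  hg : hn (der g) ≤ 1.2615

theorem bd0 (hδ : D2 δ) (hx : x ∈ II) : |rv δ x - δ 0 - δ 1 * x| ≤ 0.658 * nrm δ :=
  bound_d0 hδ (II.abs hx) (by norm_num) (by norm_num) (by norm_num)

theorem bd2 (hδ : D2 δ) (hx : x ∈ II) : |rv (der (der δ)) x| ≤ 10.68 * nrm δ :=
  bound_d2 hδ (II.abs hx) (by norm_num) (by norm_num) (by norm_num)

theorem bd3 (hδ : D2 δ) (hx : x ∈ II) : |rv (der (der (der δ))) x| ≤ 85.4 * nrm δ :=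
  bound_d3 hδ (II.abs hx) (by norm_num) (by norm_num) (by norm_num)

theorem hor (hx : x ∈ II) (l : List ℤ) :
    (loH rlo rhi l : ℝ) ≤ rv (sr l) x ∧ rv (sr l) x ≤ hiH rlo rhi l :=
  horner_mem (by norm_num [rlo]) (by have := hx.1; norm_num [rlo] at this ⊢; exact this)
    (by have := hx.2; norm_num [rhi] at this ⊢; exact this) (II.lt' hx) l

theorem mul_abs_le {a b c d : ℝ} (h1 : |a| ≤ c) (h2 : |b| ≤ d) : |a * b| ≤ c * d := by
  rw [abs_mul]; exact mul_le_mul h1 h2 (abs_nonneg _) ((abs_nonneg _).trans h1)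

theorem nr_of_loc (hm : IsMax ρ g) (hl : Loc PR ρ g) : Nr ρ g := by
  obtain ⟨l1, l2, l3, l4, l5⟩ := hl
  have hf := hm.1
  have hρ : ρ ∈ II := ⟨by norm_num [rlo] at l1 ⊢; exact l1, by norm_num [rhi] at l2 ⊢; exact l2⟩
  have n : nrm (g - sr PR) ≤ 0.002 := by norm_num [eps] at l3 ⊢; exact l3
  have z : |(g - sr PR) 0| ≤ 0.0012 := by norm_num [eps0] at l4 ⊢; exact l4
  have u : q g ≤ 0.238582 := by norm_num [qup] at l5 ⊢; exact l5
  have dP := sr_d2 PR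
  have de := hf.d2.sub dP
  obtain ⟨-, -, -, c1, c2, c3, c4, c5⟩ := dat1
  replace c1 := (Rat.cast_le (K := ℝ)).2 c1
  replace c2 := (Rat.cast_le (K := ℝ)).2 c2
  replace c3 := (Rat.cast_le (K := ℝ)).2 c3
  replace c4 := (Rat.cast_le (K := ℝ)).2 c4
  replace c5 := (Rat.cast_le (K := ℝ)).2 c5
  push_cast at c1 c2 c3 c4 c5
  have d2 : ∀ x ∈ II, -3.5413 ≤ rv (der (der g)) x ∧ rv (der (der g)) x ≤ -3.4854 := fun x hx => by
    have h1 := abs_le.1 (bd2 de hx)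
    have h2 := hor hx (dL (dL PR))
    rw [der_sub, der_sub, rv_sub hf.schur.1.der.der dP.pow.der.der (II.lt hx), der_sr, der_sr] at h1
    simp only [dL] at h2 c3 c4
    constructor <;> linarith [h1.1, h1.2, h2.1, h2.2]
  have e1 : |(g - sr PR) 1| ≤ 0.00455 := by
    have h1 := abs_le.1 (bd0 de hρ)
    have h2 := hor hρ PR
    rw [rv_sub hf.schur.1 dP.pow (II.lt hρ), hf.zero] at h1
    have h3 : |(g - sr PR) 1 * ρ| ≤ 0.0033336 := by
      rw [abs_le] at z ⊢; constructor <;> linarith [h1.1, h1.2, h2.1, h2.2, z.1, z.2]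
    rw [abs_mul, abs_of_pos hf.pos] at h3
    linarith [mul_le_mul_of_nonneg_left hρ.1 (abs_nonneg ((g - sr PR) 1))]
  obtain ⟨k1, k2, k3, k4, k5⟩ := kap_bds hρ
  have z' := abs_le.1 z
  have e1' := abs_le.1 e1
  simp only [Pi.sub_apply, P0, P1] at z' e1'
  have nu : 2 * (q g - g 0 / ρ + (1 + ρ) ^ 2 / 4) ≤ 0.2503 * (1 / (1 - ρ ^ 2) - kap ρ) := by
    obtain ⟨r1, r2⟩ := hρ
    have h1 : 0.92394 ≤ g 0 / ρ := by rw [le_div_iff₀ hf.pos]; linarith [z'.1]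
    have h2 : (1 + ρ) ^ 2 ≤ 1.73514 ^ 2 := pow_le_pow_left₀ (by linarith) (by linarith) 2
    have h3 : 0.538 ≤ 1 / (1 - ρ ^ 2) - kap ρ := by
      have h4 : 0 < 1 - ρ := by linarith
      have h5 : 1 / (1 - ρ ^ 2) - kap ρ = (4 - (1 + ρ) ^ 2) / (4 * ((1 - ρ) * (1 + ρ))) := by
        have : 1 + ρ ≠ 0 := by linarith
        rw [show 1 - ρ ^ 2 = (1 - ρ) * (1 + ρ) by ring]
        unfold kap; field_simp
      rw [h5, le_div_iff₀ (by have := hf.pos; positivity)]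
      nlinarith [sq_nonneg (ρ - 0.73514)]
    norm_num at h2
    linarith
  obtain ⟨s1, s2⟩ := hm.regular (by norm_num) nu
  refine ⟨hρ, n, z, e1, fun x hx => ?_, d2, fun x hx => ?_, nu, s1, ?_⟩
  · obtain ⟨ξ, x1, -, x3⟩ := mvt (fun x hx => hasDerivAt_rv hf.schur.1.der (II.lt hx)) hx hρ
    have h1 : |rv (der (der g)) ξ| ≤ 3.5413 := abs_le.2 ⟨(d2 ξ x1).1, by linarith [(d2 ξ x1).2]⟩
    have h2 : |x - ρ| ≤ 0.001 := abs_le.2 ⟨by linarith [hx.1, hρ.2], by linarith [hx.2, hρ.1]⟩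
    have h3 := abs_le.1 (mul_abs_le h1 h2)
    rw [hm.slope_eq] at x3
    constructor <;> linarith [h3.1, h3.2]
  · have h1 := abs_le.1 (bd3 de hx)
    have h2 := hor hx (dL (dL (dL PR)))
    rw [der_sub, der_sub, der_sub, rv_sub hf.schur.1.der.der.der dP.pow.der.der.der (II.lt hx),
      der_sr, der_sr, der_sr] at h1
    simp only [dL] at h2 c5
    linarith [h1.1, h2.1, (kap_bds hx).2.2.2.2]
  · refine Real.sqrt_le_iff.2 ⟨by norm_num, s2.trans ?_⟩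
    have h1 : nrm g ≤ 0.47571 := by
      have := nrm_add_le de dP
      rw [sub_add_cancel] at this
      linarith [nrmP_le]
    have h2 : nrm g ^ 2 ≤ 0.47571 ^ 2 := pow_le_pow_left₀ (nrm_nonneg g) h1 2
    have h3 : g 1 ^ 2 ≤ 0.52708 ^ 2 := sq_le_sq' (by linarith [e1'.1]) (by linarith [e1'.2])
    have h4 := mul_le_mul hρ.2 k4 (by linarith) (by norm_num)
    norm_num at h2 h3 h4 ⊢
    linarith

theorem pp_norms (hδ : D2 δ) (a b : ℝ) :
    an (pp a b δ) ≤ |a| * (|δ 1| + 1.4143 * nrm δ) + |b| * (nrm δ + |δ 0|) + |a * b| ∧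
    hn (pp a b δ) ≤ |a| * (|δ 0| + |δ 1| + nrm δ) + |b| * (|δ 1| + nrm δ + |δ 0|) +
      ((a ^ 2 + b ^ 2) / 2 + |a * b|) := by
  have d1 := D2.single 1 (δ 0)
  have d2 := D2.single 0 ((a ^ 2 + b ^ 2) / 2)
  have d3 := D2.single 1 (a * b)
  have d4 := hδ.shift.add d1
  have d5 := (hδ.smul a).add (d4.smul b)
  have d6 := (d2.add d3).smul (-1)
  have r2 : Real.sqrt 2 ≤ 1.4143 := Real.sqrt_le_iff.2 (by norm_num)
  rw [pp, sub_eq_add_neg, ← neg_one_smul ℝ]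
  constructor
  · have h1 := an_add_le d5 d6
    have h2 := an_add_le (hδ.smul a) (d4.smul b)
    have h3 := an_add_le hδ.shift d1
    have h4 := an_add_le d2 d3
    have h5 := (an_le hδ).trans (add_le_add le_rfl (mul_le_mul_of_nonneg_right r2 (nrm_nonneg δ)))
    simp only [an_smul, an_single, an_shift, Nat.cast_one, Real.sqrt_one, one_mul, Nat.cast_zero,
      Real.sqrt_zero, zero_mul, abs_neg, abs_one] at h1 h2 h3 h4
    linarith [mul_le_mul_of_nonneg_left h5 (abs_nonneg a), mul_le_mul_of_nonneg_left h3 (abs_nonneg b)]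
  · have h1 := hn_add_le d5 d6
    have h2 := hn_add_le (hδ.smul a) (d4.smul b)
    have h3 := (hn_add_le hδ.shift d1).trans (add_le_add (hn_shift_le hδ) le_rfl)
    have h4 := hn_add_le d2 d3
    simp only [hn_smul, hn_single, one_mul, abs_neg, abs_one] at h1 h2 h3 h4
    rw [abs_of_nonneg (by positivity : 0 ≤ (a ^ 2 + b ^ 2) / 2)] at h4
    linarith [mul_le_mul_of_nonneg_left (hn_le hδ) (abs_nonneg a),
      mul_le_mul_of_nonneg_left h3 (abs_nonneg b)]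

theorem pp_rv (hδ : D2 δ) (a b : ℝ) (hx : |x| < 1) : rv (pp a b δ) x =
    a * rv δ x + b * (rv (shift δ) x + δ 0 * x) - ((a ^ 2 + b ^ 2) / 2 + a * b * x) := by
  have d1 := D2.single 1 (δ 0)
  have d2 := D2.single 0 ((a ^ 2 + b ^ 2) / 2)
  have d3 := D2.single 1 (a * b)
  have d4 := hδ.shift.add d1
  rw [pp, rv_sub ((hδ.smul a).add (d4.smul b)).pow (d2.add d3).pow hx,
    rv_add (hδ.smul a).pow (d4.smul b).pow hx, rv_add d2.pow d3.pow hx, rv_smul, rv_smul,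
    rv_add hδ.shift.pow d1.pow hx, rv_single, rv_single, rv_single]
  ring

theorem err_total (hm : IsMax a g) (hn' : Nr a g) {U : ℕ → ℝ} (hU : D2 U) :
    lp U (corr PR JR) / 10 ^ 22 - (0.001635 * |U 0| + 0.004725 * an U + 0.004337 * hn U) ≤
      B g (cmul g U) := by
  have hf := hm.1
  have dP := sr_d2 PR
  have de := hf.d2.sub dP
  obtain ⟨d1, b1⟩ := hf.schur.d2_cmul hn'.reg hU
  have e1 : B g (cmul g U) = B (g - sr PR) (cmul g U) + B (sr PR) (cmul g U) := by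
    rw [B_comm (g - _), B_sub d1 hf.d2 dP, B_comm _ g, B_comm _ (sr PR)]; ring
  have e2 : B (sr PR) (cmul g U) = B (sr PR) (cmul (g - sr PR) U) + B (sr PR) (cmul (sr PR) U) := by
    rw [B_sr, B_sr, B_sr, cmul_comm (g - _), cmul_sub, lp_minus, cmul_comm U, cmul_comm U]; ring
  have h1 := (abs_le.1 (err_bound de hU)).1
  have h2 := (abs_le.1 (abs_B_le de d1)).1
  have g0 : |g 0| ≤ 0.6817 := by
    have := abs_le.1 hn'.z
    simp only [Pi.sub_apply, P0] at this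
    rw [abs_le]; constructor <;> linarith [this.1, this.2]
  have c0 : |cmul g U 0| ≤ 0.6817 * |U 0| := by
    rw [show cmul g U 0 = g 0 * U 0 by simp [cmul]]; exact mul_abs_le g0 le_rfl
  have a0 := an_nonneg U
  have a1 := hn_nonneg U
  have a2 := abs_nonneg (U 0)
  have h3 := mul_le_mul hn'.z c0 (abs_nonneg _) (by norm_num)
  have h4 := mul_le_mul hn'.n (b1.trans (add_le_add le_rfl (mul_le_mul_of_nonneg_right hn'.hg a1)))
    (nrm_nonneg _) (by norm_num)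
  have h5 := mul_le_mul_of_nonneg_right hn'.z
    (by positivity : 0 ≤ 0.6804255 * |U 0| + 0.47371 * an U)
  have h6 := mul_le_mul_of_nonneg_right hn'.e1 (by positivity : 0 ≤ 0.47371 * an U)
  have h7 := mul_le_mul_of_nonneg_left hn'.n (by positivity : 0 ≤ 0.907 * hn U)
  rw [e1, e2, main_term]
  linarith

theorem near_mul {t m lo hi : ℝ} (h1 : lo ≤ m) (h2 : m ≤ hi) :
    t * lo - (hi - lo) * |t| ≤ t * m ∧ t * m ≤ t * lo + (hi - lo) * |t| := by
  have := abs_le.1 (mul_abs_le (le_refl |t|) (show |m - lo| ≤ hi - lo from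
    abs_le.2 ⟨by linarith, by linarith⟩))
  constructor <;> linarith [this.1, this.2]

/-- The first variation of the slope constraint in the test direction. -/
theorem ds_lower (hg : IsMax a g) (hh : IsMax a' h) (ng : Nr a g) (nh : Nr a' h) (hδ : δ = h - g)
    {d : ℝ} (hd : d = a - a') :
    11.464 * d ^ 2 + 1.536 * (δ 0 * d) - 0.007 * (|δ 0| * |d|) - 0.06656 * (nrm δ * |d|) -
      d * rv (der (der δ)) 0.73464 ≤ DS a g (δ + cmul g (pp (-1.1 * d) (-1.5 * d) δ)) ∧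
    d * rv δ 0.73464 ≤ -1.6251 * d ^ 2 + 0.00001 * (nrm δ * |d|) ∧
    3.5326 * d ^ 2 - 0.00534 * (nrm δ * |d|) ≤ d * rv (der δ) 0.73464 ∧
    |δ 1| ≤ 2.236 * |d| + 1.3622 * |δ 0| + 0.898 * nrm δ := by
  have pg := hg.1.schur.1
  have ph := hh.1.schur.1
  have dδ : D2 δ := hδ ▸ hh.1.d2.sub hg.1.d2
  have pδ := dδ.pow
  have ia := ng.mem
  have ia' := nh.mem
  have ic : (0.73464 : ℝ) ∈ II := ⟨by norm_num, by norm_num⟩
  have X0 := nrm_nonneg δ
  have D0 := abs_nonneg d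
  have dd : |d| * |d| = d ^ 2 := by rw [abs_mul_abs_self, pow_two]
  have r0 : ∀ x ∈ II, rv δ x = rv h x - rv g x := fun x hx => by rw [hδ, rv_sub ph pg (II.lt hx)]
  have r1 : ∀ x ∈ II, rv (der δ) x = rv (der h) x - rv (der g) x := fun x hx => by
    rw [hδ, der_sub, rv_sub ph.der pg.der (II.lt hx)]
  have w1 : ∀ x ∈ II, ∀ y ∈ II, |x - y| ≤ 0.001 := fun x hx y hy =>
    abs_le.2 ⟨by linarith [hx.1, hy.2], by linarith [hx.2, hy.1]⟩
  have w2 : ∀ y ∈ II, |0.73464 - y| ≤ 0.0005 := fun y hy =>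
    abs_le.2 ⟨by linarith [hy.2], by linarith [hy.1]⟩
  have L2 : ∀ x ∈ II, ∀ y ∈ II, ∀ w, |x - y| ≤ w →
      |d * (rv (der δ) x - rv (der δ) y)| ≤ |d| * (10.68 * nrm δ * w) := fun x hx y hy w hw => by
    obtain ⟨ξ, x1, -, x3⟩ := mvt (fun x hx => hasDerivAt_rv pδ.der (II.lt hx)) hx hy
    rw [x3]; exact mul_abs_le le_rfl (mul_abs_le (bd2 dδ x1) hw)
  obtain ⟨ξ3, m3, -, e3⟩ := mvt (f := fun x => rv (der g) x + kap x)
    (fun x hx => (hasDerivAt_rv pg.der (II.lt hx)).add (kap_hasDerivAt (II.lt' hx))) ia ia'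
  obtain ⟨ξ4, m4, -, e4⟩ := mvt (fun x hx => hasDerivAt_rv pg (II.lt hx)) ia ia'
  obtain ⟨ξ5, m5, -, e5⟩ := mvt (fun x hx => hasDerivAt_rv ph (II.lt hx)) ia ia'
  obtain ⟨ξ1, m1, -, e1⟩ := mvt (fun x hx => hasDerivAt_rv pδ (II.lt hx)) ia ia'
  obtain ⟨ξ2, m2, -, e2⟩ := mvt (fun x hx => hasDerivAt_rv pδ.der (II.lt hx)) ia ia'
  obtain ⟨ξ6, m6, -, e6⟩ := mvt (fun x hx => hasDerivAt_rv pδ (II.lt hx)) ic ia'
  obtain ⟨ξ7, m7, -, e7⟩ := mvt (fun x hx => hasDerivAt_rv pδ.der.der (II.lt hx)) ic m2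
  rw [← hd] at e1 e2 e3 e4 e5
  have Yb : ∀ x ∈ II, 3.5326 ≤ rv (der (der g)) x + kap1 x ∧ rv (der (der g)) x + kap1 x ≤ 3.6422 :=
    fun x hx => by
      obtain ⟨-, -, k3, k4, -⟩ := kap_bds hx
      constructor <;> linarith [(ng.d2 x hx).1, (ng.d2 x hx).2]
  obtain ⟨Y, hY⟩ : ∃ Y, Y = rv (der (der g)) ξ3 + kap1 ξ3 := ⟨_, rfl⟩
  have Y1 := hY ▸ Yb ξ3 m3
  have f1 : rv (der δ) a' = Y * d := by
    rw [r1 a' ia', hh.slope_eq, hY, ← e3, hg.slope_eq]; ring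
  have f0 : rv δ a' = rv (der g) ξ4 * d := by rw [r0 a' ia', hh.1.zero, ← e4, hg.1.zero]
  have f2 : rv δ a = rv (der h) ξ5 * d := by rw [r0 a ia, hg.1.zero, ← e5, hh.1.zero]
  have y1 := mul_le_mul_of_nonneg_right Y1.1 (sq_nonneg d)
  have y2 := mul_le_mul_of_nonneg_right Y1.2 (sq_nonneg d)
  obtain ⟨k1, k2, -⟩ := kap_bds ia
  refine ⟨?_, ?_, ?_, ?_⟩
  · obtain ⟨β, hβ⟩ : ∃ β, β = (rv (der (der g)) a + kap1 a) / kap a := ⟨_, rfl⟩
    have kp : 0 < kap a := by linarith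
    have β0 : 0 ≤ β := hβ ▸ div_nonneg (by linarith [(Yb a ia).1]) kp.le
    have β1 : β ≤ 2.2337 := by rw [hβ, div_le_iff₀ kp]; linarith [(Yb a ia).2]
    have t5 := taylor_lower (m := 32.18) (f := fun x => β * rv g x + (rv (der g) x + kap x))
      (f' := fun x => β * rv (der g) x + (rv (der (der g)) x + kap1 x))
      (f'' := fun x => β * rv (der (der g)) x + (rv (der (der (der g))) x + kap2 x))
      (fun x hx => ((hasDerivAt_rv pg (II.lt hx)).const_mul β).add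
        ((hasDerivAt_rv pg.der (II.lt hx)).add (kap_hasDerivAt (II.lt' hx))))
      (fun x hx => ((hasDerivAt_rv pg.der (II.lt hx)).const_mul β).add
        ((hasDerivAt_rv pg.der.der (II.lt hx)).add (kap1_hasDerivAt (II.lt' hx))))
      (fun x hx => by
        linarith [ng.d3 x hx, mul_le_mul_of_nonneg_left (ng.d2 x hx).1 β0]) ia ia'
      (by simp [hg.1.zero, hg.slope_eq]) (by rw [hg.slope_eq, hβ]; field_simp; ring)
    have t6 : β * (d * rv (der δ) ξ1) ≤ 2.2337 * (3.6422 * d ^ 2 + 0.01068 * (nrm δ * |d|)) := by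
      have := (abs_le.1 (L2 ξ1 m1 a' ia' _ (w1 _ m1 _ ia'))).2
      rw [f1] at this
      exact (mul_le_mul_of_nonneg_left (by linarith) β0).trans
        (mul_le_mul_of_nonneg_right β1 (by positivity))
    have t7 := (abs_le.1 (mul_abs_le (le_refl |d|) (mul_abs_le (bd3 dδ m7) (w2 _ m2)))).1
    rw [← e7] at t7
    have dU := dδ.pp (-1.1 * d) (-1.5 * d)
    have dc := (hg.1.schur.d2_cmul ng.reg dU).1
    have a0 := hg.1.pos
    have s1 := rv_shift pδ (II.lt ia)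
    obtain ⟨τ, hτ⟩ : ∃ τ, τ = a⁻¹ := ⟨_, rfl⟩
    have τ1 : 1.36028 ≤ τ := by rw [hτ, le_inv_comm₀ (by norm_num) a0]; linarith [ia.2]
    have τ2 : τ ≤ 1.36214 := by rw [hτ, inv_le_comm₀ a0 (by norm_num)]; linarith [ia.1]
    have s2 : rv (shift δ) a = τ * (rv (der h) ξ5 * d - δ 0) := by
      rw [← f2, s1, hτ]; field_simp; ring
    have t8 : 3.51 ≤ kap a * (-rv (der h) ξ5 * (1.1 + 1.5 * τ) - 1.73 - 1.65 * a) := by
      have h1 := mul_le_mul (show 1.627 ≤ -rv (der h) ξ5 by linarith [(nh.d1 ξ5 m5).2])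
        (show 3.14042 ≤ 1.1 + 1.5 * τ by linarith) (by norm_num) (by linarith [(nh.d1 ξ5 m5).2])
      have h2 := mul_le_mul k1 (show 2.16 ≤ -rv (der h) ξ5 * (1.1 + 1.5 * τ) - 1.73 - 1.65 * a by
        linarith [ia.2]) (by norm_num) kp.le
      linarith
    have t9 := (abs_le.1 (mul_abs_le (abs_mul (δ 0) d).le
      (show |kap a * (τ - a) - 1.024| ≤ 0.00466 from abs_le.2 ⟨by
        linarith [mul_le_mul k1 (show 0.62514 ≤ τ - a by linarith [ia.2]) (by norm_num) kp.le], by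
        linarith [mul_le_mul k2 (show τ - a ≤ 0.628 by linarith [ia.1]) (by linarith [ia.2])
          (by norm_num)]⟩))).1
    have t10 := mul_le_mul_of_nonneg_right t8 (sq_nonneg d)
    have e8 := DS_add_smul (g := g) dδ dc a0 hg.1.lt 1
    rw [one_smul] at e8
    rw [e8, DS, DS, ← hβ, der_cmul, rv_add (pg.der.cmul dU.pow) (pg.cmul dU.pow.der) (II.lt ia),
      rv_cmul pg.der dU.pow (II.lt ia), rv_cmul pg dU.pow.der (II.lt ia),
      rv_cmul pg dU.pow (II.lt ia), hg.1.zero, hg.slope_eq, pp_rv dδ _ _ (II.lt ia), s2]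
    have e9 : β * (rv δ a - rv δ a') = β * (rv (der δ) ξ1 * d) := by rw [e1]
    have e10 : β * rv δ a' = -(β * rv g a') := by rw [r0 a' ia', hh.1.zero]; ring
    have e11 := r1 a' ia'
    rw [hh.slope_eq] at e11
    have e12 : kap a * (d * rv δ a) = kap a * (d * (rv (der h) ξ5 * d)) := by rw [f2]
    rw [show (a' - a) ^ 2 = d ^ 2 by rw [hd]; ring] at t5
    linarith [mul_nonneg X0 D0, sq_nonneg d, mul_nonneg (abs_nonneg (δ 0)) D0]
  · have h1 := (abs_le.1 (L2 ξ6 m6 a' ia' _ (w1 _ m6 _ ia')))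
    rw [f1] at h1
    have h2 : |d * rv (der δ) ξ6| ≤ 3.6422 * d ^ 2 + 0.01068 * (nrm δ * |d|) :=
      abs_le.2 ⟨by linarith [h1.1, sq_nonneg d], by linarith [h1.2]⟩
    have h3 := (abs_le.1 (mul_abs_le h2 (w2 _ ia'))).2
    have h4 := mul_le_mul_of_nonneg_right (ng.d1 ξ4 m4).2 (sq_nonneg d)
    have h5 : d * (rv δ 0.73464 - rv (der g) ξ4 * d) = d * rv (der δ) ξ6 * (0.73464 - a') := by
      rw [← f0, e6]; ring
    linarith [mul_nonneg X0 D0, sq_nonneg d]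
  · have h1 := (abs_le.1 (L2 _ ic a' ia' _ (w2 _ ia'))).1
    rw [f1] at h1
    linarith
  · have h1 := abs_le.1 (bd0 dδ ia')
    have h2 := abs_le.1 (mul_abs_le (show |rv (der g) ξ4| ≤ 1.6414 from
      abs_le.2 ⟨(ng.d1 ξ4 m4).1, by linarith [(ng.d1 ξ4 m4).2]⟩) (le_refl |d|))
    rw [f0] at h1
    have h3 : |δ 1 * a'| ≤ 1.6414 * |d| + |δ 0| + 0.658 * nrm δ := abs_le.2
      ⟨by linarith [h1.2, h2.1, le_abs_self (δ 0)], by linarith [h1.1, h2.2, neg_abs_le (δ 0)]⟩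
    rw [abs_mul, abs_of_pos hh.1.pos] at h3
    linarith [mul_le_mul_of_nonneg_left ia'.1 (abs_nonneg (δ 1)), abs_nonneg (δ 0)]

theorem local_unique (hg : IsMax a g) (hh : IsMax a' h) (lg : Loc PR a g) (lh : Loc PR a' h) :
    a = a' ∧ g = h := by
  have ng := nr_of_loc hg lg
  have nh := nr_of_loc hh lh
  obtain ⟨δ, hδ⟩ : ∃ δ, δ = h - g := ⟨_, rfl⟩
  obtain ⟨d, hd⟩ : ∃ d, d = a - a' := ⟨_, rfl⟩
  obtain ⟨t1, t2, t3, t4⟩ := ds_lower hg hh ng nh hδ hd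
  have dg := hg.1.d2
  have dh := hh.1.d2
  have dP := sr_d2 PR
  have dδ : D2 δ := hδ ▸ dh.sub dg
  have dU := dδ.pp (-1.1 * d) (-1.5 * d)
  have dc := (hg.1.schur.d2_cmul ng.reg dU).1
  have hq : q h = q g := le_antisymm (hg.2 _ _ hh.1) (hh.2 _ _ hg.1)
  have v := hg.var_nu (by norm_num) ng.nu
    (dir_pair hg.1.schur dg ng.reg hh.1.schur dh (-1.1 * d) (-1.5 * d))
  rw [← hδ, B_add dg dδ dc] at v
  have q1 : 2 * B g δ = nrm δ ^ 2 - δ 0 ^ 2 := by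
    have := q_add_smul dg dδ 1
    rw [one_smul, hδ, add_sub_cancel, ← hδ, q_eq δ] at this
    linarith
  have X0 := nrm_nonneg δ
  have D0 := abs_nonneg d
  have Y0 := abs_nonneg (δ 0)
  have dd : |d| * |d| = d ^ 2 := by rw [abs_mul_abs_self, pow_two]
  have yy : |δ 0| * |δ 0| = δ 0 ^ 2 := by rw [abs_mul_abs_self, pow_two]
  have q2 : 0.6804255 * δ 0 ^ 2 - 0.002 * (nrm δ * |δ 0|) - 0.0012 * δ 0 ^ 2 ≤
      δ 0 * ip (sr PR) δ := by
    have h1 := (abs_le.1 (mul_abs_le (le_refl |δ 0|) ((abs_B_le (dg.sub dP) dδ).trans (add_le_add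
      (mul_le_mul_of_nonneg_right ng.z Y0) (mul_le_mul_of_nonneg_right ng.n X0))))).1
    have h2 := (abs_le.1 (mul_abs_le (le_refl |δ 0|) ((abs_B_le (dh.sub dP) dδ).trans (add_le_add
      (mul_le_mul_of_nonneg_right nh.z Y0) (mul_le_mul_of_nonneg_right nh.n X0))))).1
    have h3 : B δ g + B δ h = 0 := by
      have h4 : B δ h = B δ g + q δ := by
        rw [q, ← B_add dδ dg dδ, hδ, add_sub_cancel]
      rw [h4, B_comm δ g, q_eq δ]; linarith
    rw [B_comm, B_sub dδ dg dP] at h1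
    rw [B_comm, B_sub dδ dh dP] at h2
    have h5 : B δ (sr PR) = 0.6804255 * δ 0 - ip (sr PR) δ := by rw [B_comm, B, P0]
    have h6 : δ 0 * (B δ g + B δ h) = 0 := by rw [h3, mul_zero]
    rw [h5] at h1 h2
    linarith
  have e1 := err_total hg ng dU
  obtain ⟨n1, n2⟩ := pp_norms dδ (-1.1 * d) (-1.5 * d)
  have a1 : |-1.1 * d| = 1.1 * |d| := by rw [abs_mul]; norm_num
  have a2 : |-1.5 * d| = 1.5 * |d| := by rw [abs_mul]; norm_num
  rw [abs_mul (-1.1 * d), a1, a2] at n1 n2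
  have n0 : |pp (-1.1 * d) (-1.5 * d) δ 0| ≤
      1.1 * (|δ 0| * |d|) + 1.5 * (|δ 1| * |d|) + 1.73 * d ^ 2 := by
    have h1 := abs_le.1 (abs_mul (δ 0) d).le
    have h2 := abs_le.1 (abs_mul (δ 1) d).le
    have : pp (-1.1 * d) (-1.5 * d) δ 0 = -1.1 * (δ 0 * d) - 1.5 * (δ 1 * d) - 1.73 * d ^ 2 := by
      simp [pp, shift]; ring
    rw [this, abs_le]
    constructor <;> linarith [h1.1, h1.2, h2.1, h2.2, sq_nonneg d]
  have l1 : lp (pp (-1.1 * d) (-1.5 * d) δ) (corr PR JR) / 10 ^ 22 =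
      -1.1 * (d * (lp δ (corr PR JR) / 10 ^ 22)) - 1.5 * (d * (lp (shift δ) (corr PR JR) / 10 ^ 22)) -
      1.5 * (δ 0 * d * mR 1) - 1.73 * (d ^ 2 * mR 0) - 1.65 * (d ^ 2 * mR 1) := by
    rw [pp, lp_minus, lp_plus, lp_plus, lp_smul, lp_smul, lp_plus, lp_single, lp_single, lp_single,
      mR_cast, mR_cast]
    ring
  obtain ⟨-, m1, m2, m3, m4, m5, -⟩ := dat2
  replace m1 := (Rat.cast_le (K := ℝ)).2 m1
  replace m2 := (Rat.cast_le (K := ℝ)).2 m2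
  replace m3 := (Rat.cast_le (K := ℝ)).2 m3
  replace m4 := (Rat.cast_le (K := ℝ)).2 m4
  push_cast at m1 m2 m3 m4
  have p1 := (near_mul (t := δ 0 * d) m1 m2).2
  have p2 := (near_mul (t := δ 0 * d) m3 m4).2
  have p3 := mul_le_mul_of_nonneg_left m2 (sq_nonneg d)
  have p4 := mul_le_mul_of_nonneg_left m4 (sq_nonneg d)
  have p5 := mul_le_mul_of_nonneg_left ipP_le (sq_nonneg (δ 0))
  have p6 := mul_le_mul_of_nonneg_right t4 D0
  have p7 := neg_abs_le (δ 0 * d)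
  rw [abs_mul] at p1 p2 p7
  have key : ∀ ν O Gl Gh : ℚ, chkOm ν O Gl Gh = true → ν ∈ [0, 0.2503] →
      2 * (B g δ + B g (cmul g (pp (-1.1 * d) (-1.5 * d) δ))) +
        ν * DS a g (δ + cmul g (pp (-1.1 * d) (-1.5 * d) δ)) ≤ 0 →
      0.025 * nrm δ ^ 2 + 0.796 * δ 0 ^ 2 - 0.008 * (nrm δ * |δ 0|) +
        (0.81609 + 80 / 39 * Gl) * (δ 0 * d) - (0.09199 + 80 / 39 * (Gh - Gl)) * (|δ 0| * |d|) +
        (1.5655 - 10 / 39 * O) * d ^ 2 - 0.08687 * (nrm δ * |d|) +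
        ν * (11.464 * d ^ 2 + 1.536 * (δ 0 * d) - 0.007 * (|δ 0| * |d|) -
          0.06656 * (nrm δ * |d|)) ≤ 0 := by
    intro ν O Gl Gh hc hν hv
    obtain ⟨ω, dω, o1, o2, o3, o4⟩ := chkOm_sound hc dδ
    have hi := hilbert dδ dP dω (δ 0) d
    have ν0 : (0 : ℝ) ≤ ν := by
      simp only [List.mem_cons, List.not_mem_nil, or_false] at hν
      rcases hν with rfl | rfl <;> norm_num
    have w0 : |(wR ν 0 : ℝ)| ≤ 0.00001 := by
      have := (Rat.cast_le (K := ℝ)).2 (m5 ν hν)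
      push_cast at this; exact this
    have u1 := mul_le_mul_of_nonneg_left t1 ν0
    have u2 := (near_mul (t := δ 0 * d) o2 o3).1
    have u3 := mul_le_mul_of_nonneg_left o1 (sq_nonneg d)
    have u4 := (abs_le.1 (mul_abs_le w0 (abs_mul (δ 1) d).le)).1
    have u5 := congrArg (d * ·) o4
    rw [abs_mul] at u2
    linarith [mul_nonneg X0 D0, mul_nonneg Y0 D0, sq_nonneg d, sq_nonneg (δ 0)]
  have fin : nrm δ ^ 2 + δ 0 ^ 2 + d ^ 2 ≤ 0 := by
    have s1 := sq_nonneg (nrm δ - 2.59 * |d|)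
    have s2 := sq_nonneg (nrm δ - |δ 0|)
    have s3 := sq_nonneg (|δ 0| - 1.497 * |d|)
    rcases le_total 0 (DS a g (δ + cmul g (pp (-1.1 * d) (-1.5 * d) δ))) with hs | hs
    · rw [min_eq_left hs] at v
      have := key _ _ _ _ om0 (by simp) (by simpa using v)
      push_cast at this
      linarith [sq_nonneg d, sq_nonneg (δ 0), sq_nonneg (nrm δ), mul_nonneg Y0 D0]
    · rw [min_eq_right hs] at v
      have := key _ _ _ _ om1 (by simp) (by push_cast; exact v)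
      push_cast at this
      linarith [sq_nonneg d, sq_nonneg (δ 0), sq_nonneg (nrm δ), mul_nonneg Y0 D0]
  have s1 := sq_nonneg (nrm δ)
  have s2 := sq_nonneg (δ 0)
  have s3 := sq_nonneg d
  have z1 : nrm δ = 0 := pow_eq_zero_iff two_ne_zero |>.1 (by linarith only [fin, s1, s2, s3])
  have z2 : δ 0 = 0 := pow_eq_zero_iff two_ne_zero |>.1 (by linarith only [fin, s1, s2, s3])
  have z3 : d = 0 := pow_eq_zero_iff two_ne_zero |>.1 (by linarith only [fin, s1, s2, s3])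
  have z4 : δ 1 = 0 := by
    rw [z1, z2, z3] at t4
    simpa using t4
  refine ⟨by linarith only [hd, z3], (sub_eq_zero.1 (hδ.symm.trans (funext fun n => ?_))).symm⟩
  match n with
  | 0 => exact z2
  | 1 => exact z4
  | n + 2 => exact eq_zero_of_nrm dδ z1 n

end Pool.Agent.Lib.MP_9b2593_an.Uq
end
end

-- part Pool.Agent.Lib.MP_9b2593_an.Uq.Main
section

/-!
Existence and uniqueness of the circularly symmetric extremal function, and the enclosure of the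
maximal omitted area.
-/

open Complex Metric Set MeasureTheory

noncomputable section

namespace Pool.Agent.Lib.MP_9b2593_an.Uq

variable {ρ ρ' : ℝ} {g g' : ℕ → ℝ} {f f' : ℂ → ℂ}

theorem exists_feas : ∃ ρ g, Feas ρ g ∧ (qlow : ℝ) ≤ q g := chkPrimal_sound primal_ok

theorem IsMax.qlow_le (hm : IsMax ρ g) : (qlow : ℝ) ≤ q g := by
  obtain ⟨_, _, h1, h2⟩ := exists_feas
  exact h2.trans (hm.2 _ _ h1)

theorem nodes_ok : ∀ p ∈ ivs, NodeOK PR p.2 := by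
  simp only [ivs, List.forall_mem_cons, List.not_mem_nil, IsEmpty.forall_iff, implies_true,
    and_true]
  exact ⟨n1, n2, n3, n4, n5, n6, n7, n8, n9, n10, n11, n12, n13, n14, n15, n16, n17, n18, n19,
    n20, n21, n22, n23, n24, n25, n26, n27, n28, n29, n30, n31, n32, n33, n34, n35, n36, n37, n38,
    n39, n40, n41, n42, n43, n44, n45⟩

theorem IsMax.loc (hm : IsMax ρ g) : Loc PR ρ g := by
  refine chkChain_sound hm.1 hm.slope_eq hm.qlow_le ivs s0 chain_ok n0 nodes_ok ?_ ?_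
  · have := low_range hm.1 hm.qlow_le
    norm_num [s0] at this ⊢
    exact this
  · have := high_range hm.1 hm.qlow_le
    rw [show lastR s0 ivs = 0.87 from rfl]
    norm_num at this ⊢
    exact this

theorem isMax_unique (hm : IsMax ρ g) (hm' : IsMax ρ' g') : ρ = ρ' ∧ g = g' :=
  local_unique hm hm' hm.loc hm'.loc

theorem repr_of_extremal (hf : InS f) (hc : Circ f) (he : ∀ h, InS h → om h ≤ om f) :
    ∃ ρ g, IsMax ρ g ∧ ∀ z ∈ ball (0 : ℂ) 1, ∃ s ∈ ball (0 : ℂ) 1,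
      koebe s = koebe ρ * ((1 - z) / (1 + z)) ^ 2 ∧ f z = Phi g s := by
  have up : ∀ ρ g, Feas ρ g → ENNReal.ofReal (Real.pi * q g) ≤ om f := fun ρ g h => by
    obtain ⟨F, hF, h1⟩ := tight h
    exact h1.trans (he F hF)
  obtain ⟨ρ₀, g₀, f₀, q₀⟩ := exists_feas
  have p₀ : 0 < Real.pi * q g₀ := mul_pos Real.pi_pos (qlow_pos.trans_le q₀)
  have hne : om f ≠ 0 := fun e => by
    have := up _ _ f₀
    rw [e, le_zero_iff, ENNReal.ofReal_eq_zero] at this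
    exact absurd p₀ (not_lt.2 this)
  obtain ⟨D, m, hD, hm1, hout, hsub, hK⟩ := circ_symD hf hc hne
  obtain ⟨ρ, g, hfe, hv, hr⟩ := struct_of_symD hD hm1 hout hf.1 hf.2.2.1 hf.2.2.2 hsub
  have le : om f ≤ ENNReal.ofReal (Real.pi * q g) :=
    (measure_mono fun w hw => (⟨hw.1, hK hw⟩ : w ∈ ball 0 1 \ D)).trans hv
  have pos : 0 ≤ Real.pi * q g := by
    by_contra hn
    rw [ENNReal.ofReal_eq_zero.2 (not_le.1 hn).le, le_zero_iff] at le
    exact hne le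
  have hm : IsMax ρ g := ⟨hfe, fun ρ' g' h => le_of_mul_le_mul_left
    ((ENNReal.ofReal_le_ofReal_iff pos).1 ((up _ _ h).trans le)) Real.pi_pos⟩
  exact ⟨ρ, g, hm, hr hm.slope_eq⟩

theorem extremal_unique (hf : InS f) (hc : Circ f) (he : ∀ h, InS h → om h ≤ om f)
    (hf' : InS f') (hc' : Circ f') (he' : ∀ h, InS h → om h ≤ om f') : EqOn f f' (ball 0 1) := by
  obtain ⟨ρ, g, hm, hr⟩ := repr_of_extremal hf hc he
  obtain ⟨ρ', g', hm', hr'⟩ := repr_of_extremal hf' hc' he'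
  obtain ⟨rfl, rfl⟩ := isMax_unique hm hm'
  intro z hz
  obtain ⟨s, hs, k, e⟩ := hr z hz
  obtain ⟨s', hs', k', e'⟩ := hr' z hz
  rw [e, e', koebe_injOn hs hs' (k.trans k'.symm)]

theorem extremal_exists : ∃ F, InS F ∧ Circ F ∧ ∀ h, InS h → om h ≤ om F := by
  obtain ⟨ρ, g, hm⟩ := exists_isMax exists_feas
  exact exists_extremal hm (qlow_pos.trans_le hm.qlow_le)

theorem om_upper (hf : InS f) : om f ≤ ENNReal.ofReal (0.238582 * Real.pi) := by
  obtain ⟨ρ, g, hm⟩ := exists_isMax exists_feas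
  refine (om_le_of_isMax hm hf).trans (ENNReal.ofReal_le_ofReal ?_)
  have := hm.loc.2.2.2.2
  norm_num [qup] at this ⊢
  nlinarith [Real.pi_pos]

theorem om_lower : ∃ f, InS f ∧ ENNReal.ofReal (0.2385811 * Real.pi) ≤ om f := by
  obtain ⟨ρ, g, h, hq⟩ := exists_feas
  obtain ⟨F, hF, h1⟩ := tight h
  refine ⟨F, hF, le_trans (ENNReal.ofReal_le_ofReal ?_) h1⟩
  norm_num [qlow] at hq ⊢
  nlinarith [Real.pi_pos]

end Pool.Agent.Lib.MP_9b2593_an.Uq
end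
end
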