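import Pool.Agent.Lib.MP_9b2593_an.Uq.Defs

-- part Pool.Agent.Lib.MP_9b2593_an.Uq.RMT
section

/-!
The Riemann mapping theorem for domains with holomorphic logarithms.
-/

open Complex Metric Set MeasureTheory

noncomputable section

namespace Pool.Agent.Lib.MP_9b2593_an.Uq

open Filter Topology

/-- Local form of the theorem of Hurwitz. -/
theorem rmt_hurwitz {ι : Type*} {l : Filter ι} [l.NeBot] {F : ι → ℂ → ℂ} {f : ℂ → ℂ} {c : ι → ℂ}
    {V : Set ℂ} (hV : IsOpen V) {z : ℂ} (hz : z ∈ V) (hF : ∀ n, DifferentiableOn ℂ (F n) V)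
    (hne : ∀ n, ∀ w ∈ V, F n w ≠ c n) (hlim : TendstoLocallyUniformlyOn F f l V)
    (hc : Tendsto c l (𝓝 (f z))) : ∀ᶠ w in 𝓝 z, f w = f z := by
  have hf : DifferentiableOn ℂ f V := hlim.differentiableOn (Eventually.of_forall hF) hV
  have ha : AnalyticAt ℂ f z := hf.analyticAt (hV.mem_nhds hz)
  rcases ha.eventually_eq_or_eventually_ne (g := fun _ => f z) analyticAt_const with h | h
  · exact h
  exfalso
  obtain ⟨r, hr, h1⟩ := Metric.nhds_basis_closedBall.eventually_iff.1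
    ((eventually_nhdsWithin_iff.1 h).and (hV.mem_nhds hz))
  have hsub : closedBall z r ⊆ V := fun w hw => (h1 hw).2
  obtain ⟨w0, hw0, hmin⟩ := (isCompact_sphere z r).exists_isMinOn
    (NormedSpace.sphere_nonempty.2 hr.le) (f := fun w => ‖f w - f z‖)
    ((hf.continuousOn.mono (sphere_subset_closedBall.trans hsub)).sub continuousOn_const).norm
  have hδ : 0 < ‖f w0 - f z‖ := by
    refine norm_pos_iff.2 (sub_ne_zero.2 ((h1 (sphere_subset_closedBall hw0)).1 ?_))
    rintro rfl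
    simp [hr.ne] at hw0
  set δ := ‖f w0 - f z‖ with hδ'
  have hu := (tendstoLocallyUniformlyOn_iff_forall_isCompact hV).1 hlim _ hsub
    (isCompact_closedBall z r)
  obtain ⟨n, n1, n2⟩ := ((Metric.tendstoUniformlyOn_iff.1 hu (δ / 4) (by positivity)).and
    (Metric.tendsto_nhds.1 hc (δ / 4) (by positivity))).exists
  have hd : DiffContOnCl ℂ (fun w => (F n w - c n)⁻¹) (ball z r) := by
    apply DifferentiableOn.diffContOnCl
    rw [closure_ball z hr.ne']
    exact (((hF n).mono hsub).sub_const _).inv fun w hw => sub_ne_zero.2 (hne n w (hsub hw))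
  have key := norm_le_of_forall_mem_frontier_norm_le isBounded_ball hd (C := (δ / 2)⁻¹) (by
    intro w hw
    rw [frontier_ball z hr.ne'] at hw
    rw [norm_inv]
    apply inv_anti₀ (by positivity)
    have a1 : δ ≤ ‖f w - f z‖ := hmin hw
    have a2 := n1 w (sphere_subset_closedBall hw)
    rw [dist_eq_norm] at a2 n2
    have a3 : ‖f w - f z‖ ≤ ‖f w - F n w‖ + ‖F n w - c n‖ + ‖c n - f z‖ := by
      refine le_trans (le_of_eq ?_) norm_add₃_le
      congr 1; ring
    linarith) (subset_closure (mem_ball_self hr))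
  have a2 := n1 z (mem_closedBall_self hr.le)
  have a3 := dist_triangle (F n z) (f z) (c n)
  rw [dist_comm] at a2 n2
  rw [norm_inv, inv_le_inv₀ (norm_pos_iff.2 (sub_ne_zero.2 (hne n z hz))) (by positivity),
    ← dist_eq_norm] at key
  linarith

/-- The theorem of Montel along an ultrafilter. -/
theorem rmt_montel {ι : Type*} (l : Ultrafilter ι) {F : ι → ℂ → ℂ} {U : Set ℂ} (hU : IsOpen U)
    (hF : ∀ n, DifferentiableOn ℂ (F n) U) (hm : ∀ n, MapsTo (F n) U (ball 0 1)) :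
    ∃ f, TendstoLocallyUniformlyOn F f l U := by
  have : ∀ z, ∃ w, z ∈ U → Tendsto (fun n => F n z) l (𝓝 w) := by
    intro z
    by_cases hz : z ∈ U
    · obtain ⟨w, -, hw⟩ := (isCompact_closedBall (0 : ℂ) 1).ultrafilter_le_nhds
        (l.map fun n => F n z) (le_principal_iff.2 (mem_map.2 (Eventually.of_forall fun n =>
          ball_subset_closedBall (hm n hz))))
      exact ⟨w, fun _ => hw⟩
    · exact ⟨0, fun h => absurd h hz⟩
  choose f hf using this
  refine ⟨f, Metric.tendstoLocallyUniformlyOn_iff.2 fun ε hε x hx => ?_⟩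
  obtain ⟨R, hR, hsub⟩ := Metric.isOpen_iff.1 hU x hx
  have lip : ∀ n, ∀ y ∈ ball x R, dist (F n y) (F n x) ≤ 2 / R * dist y x := fun n y hy =>
    dist_le_div_mul_dist_of_mapsTo_ball ((hF n).mono hsub) (fun w hw => by
      have a1 := mem_ball.1 (hm n (hsub hw))
      have a2 := mem_ball.1 (hm n hx)
      have a3 := dist_triangle_right (F n w) (F n x) 0
      exact mem_closedBall.2 (by linarith)) hy
  refine ⟨ball x (min R (ε * R / 8)), mem_nhdsWithin_of_mem_nhds (ball_mem_nhds _ (by positivity)),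
    ?_⟩
  filter_upwards [Metric.tendsto_nhds.1 (hf x hx) (ε / 4) (by positivity)] with n hn y hy
  have y1 : y ∈ ball x R := ball_subset_ball (min_le_left _ _) hy
  have y2 : 2 / R * dist y x ≤ ε / 4 := by
    have := (mem_ball.1 hy).le.trans (min_le_right _ _)
    calc 2 / R * dist y x ≤ 2 / R * (ε * R / 8) := by gcongr
      _ = ε / 4 := by field_simp; norm_num
  have a1 : dist (f y) (f x) ≤ 2 / R * dist y x :=
    le_of_tendsto' ((hf y (hsub y1)).dist (hf x hx)) fun n => lip n y y1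
  have a2 := lip n y y1
  have a3 := dist_triangle4 (f y) (f x) (F n x) (F n y)
  rw [dist_comm] at hn a2
  linarith

/-- An automorphism of the disc. -/
def rmob (b z : ℂ) : ℂ := (z - b) / (1 - (starRingEnd ℂ) b * z)

theorem rmob_den {b z : ℂ} (hb : ‖b‖ < 1) (hz : ‖z‖ < 1) : 1 - (starRingEnd ℂ) b * z ≠ 0 := by
  intro h
  have h1 := congrArg norm (sub_eq_zero.1 h)
  rw [norm_one, norm_mul, Complex.norm_conj] at h1
  nlinarith [norm_nonneg b, norm_nonneg z]

theorem rmob_lt {b z : ℂ} (hb : ‖b‖ < 1) (hz : ‖z‖ < 1) : ‖rmob b z‖ < 1 := by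
  rw [rmob, norm_div, div_lt_one (norm_pos_iff.2 (rmob_den hb hz))]
  apply lt_of_pow_lt_pow_left₀ 2 (norm_nonneg _)
  have h1 : ‖b‖ ^ 2 < 1 := by nlinarith [norm_nonneg b]
  have h2 : ‖z‖ ^ 2 < 1 := by nlinarith [norm_nonneg z]
  have h3 := mul_pos (sub_pos.2 h1) (sub_pos.2 h2)
  simp only [Complex.sq_norm, Complex.normSq_apply, sub_re, sub_im, one_re, one_im, mul_re, mul_im,
    conj_re, conj_im] at h3 ⊢
  nlinarith

theorem rmob_inj {b z w : ℂ} (hb : ‖b‖ < 1) (hz : ‖z‖ < 1) (hw : ‖w‖ < 1)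
    (h : rmob b z = rmob b w) : z = w := by
  rw [rmob, rmob, div_eq_div_iff (rmob_den hb hz) (rmob_den hb hw)] at h
  have : (1 - (starRingEnd ℂ) b * b) * (z - w) = 0 := by linear_combination h
  exact sub_eq_zero.1 ((mul_eq_zero.1 this).resolve_left (rmob_den hb hb))

theorem rmob_deriv {b z : ℂ} (hb : ‖b‖ < 1) (hz : ‖z‖ < 1) : HasDerivAt (rmob b)
    ((1 - (starRingEnd ℂ) b * b) / (1 - (starRingEnd ℂ) b * z) ^ 2) z := by
  have := ((hasDerivAt_id z).sub_const b).div
    (((hasDerivAt_id z).const_mul ((starRingEnd ℂ) b)).const_sub 1) (rmob_den hb hz)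
  refine this.congr_deriv ?_
  simp only [id]
  congr 1
  ring

/-- Injective holomorphic maps with nonvanishing derivative. -/
structure RUni (U : Set ℂ) (ψ : ℂ → ℂ) : Prop where
  diff : DifferentiableOn ℂ ψ U
  inj : InjOn ψ U
  ne : ∀ z ∈ U, deriv ψ z ≠ 0

theorem RUni.rmob {U : Set ℂ} (hU : IsOpen U) {ψ : ℂ → ℂ} (h : RUni U ψ)
    (hm : MapsTo ψ U (ball 0 1)) {b : ℂ} (hb : ‖b‖ < 1) :
    RUni U (fun z => rmob b (ψ z)) ∧ MapsTo (fun z => rmob b (ψ z)) U (ball 0 1) ∧
      ∀ z ∈ U, deriv (fun z => rmob b (ψ z)) z =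
        (1 - (starRingEnd ℂ) b * b) / (1 - (starRingEnd ℂ) b * ψ z) ^ 2 * deriv ψ z := by
  have lt : ∀ z ∈ U, ‖ψ z‖ < 1 := fun z hz => mem_ball_zero_iff.1 (hm hz)
  have hd := fun z hz => (rmob_deriv hb (lt z hz)).comp z
    (h.diff.differentiableAt (hU.mem_nhds hz)).hasDerivAt
  refine ⟨⟨fun z hz => (hd z hz).differentiableAt.differentiableWithinAt,
    fun z hz w hw e => h.inj hz hw (rmob_inj hb (lt z hz) (lt w hw) e), fun z hz => ?_⟩,
    fun z hz => mem_ball_zero_iff.2 (rmob_lt hb (lt z hz)), fun z hz => (hd z hz).deriv⟩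
  rw [show deriv (fun z => Uq.rmob b (ψ z)) z = _ from (hd z hz).deriv]
  exact mul_ne_zero (div_ne_zero (rmob_den hb hb) (pow_ne_zero _ (rmob_den hb (lt z hz)))) (h.ne z hz)

theorem RUni.sqrt {U : Set ℂ} (hU : IsOpen U) (hlog : HasLog U) {h : ℂ → ℂ} (hh : RUni U h)
    (h0 : ∀ z ∈ U, h z ≠ 0) : ∃ g, RUni U g ∧ (∀ z ∈ U, g z ^ 2 = h z) ∧
      ∀ z ∈ U, deriv h z = 2 * g z * deriv g z := by
  obtain ⟨L, hL, e⟩ := hlog h hh.diff h0
  have hg : DifferentiableOn ℂ (fun z => exp (L z / 2)) U := (hL.div_const 2).cexp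
  have sq : ∀ z ∈ U, exp (L z / 2) ^ 2 = h z := fun z hz => by
    rw [← e z hz, ← Complex.exp_nat_mul]; congr 1; push_cast; ring
  have hd : ∀ z ∈ U, deriv h z = 2 * exp (L z / 2) * deriv (fun z => exp (L z / 2)) z := by
    intro z hz
    have a1 := ((hg.differentiableAt (hU.mem_nhds hz)).hasDerivAt.pow 2).deriv
    have a2 : h =ᶠ[𝓝 z] (fun z => exp (L z / 2)) ^ 2 := by
      filter_upwards [hU.mem_nhds hz] with w hw using (sq w hw).symm
    rw [a2.deriv_eq, a1]
    simp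
  refine ⟨_, ⟨hg, fun z hz w hw e => hh.inj hz hw ?_, fun z hz e => hh.ne z hz ?_⟩, sq, hd⟩
  · rw [← sq z hz, ← sq w hw]
    exact congrArg (· ^ 2) e
  · rw [hd z hz, e, mul_zero]

theorem RUni.strict {U : Set ℂ} (hU : IsOpen U) {ψ : ℂ → ℂ} (h : RUni U ψ) {z : ℂ} (hz : z ∈ U) :
    HasStrictDerivAt ψ (deriv ψ z) z :=
  (h.diff.analyticAt (hU.mem_nhds hz)).hasStrictDerivAt

theorem rmt_start {U : Set ℂ} (hU : IsOpen U) (hne : U ≠ univ) (hlog : HasLog U) {a : ℂ}
    (ha : a ∈ U) : ∃ ψ, RUni U ψ ∧ MapsTo ψ U (ball 0 1) := by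
  obtain ⟨w0, hw0⟩ := (ne_univ_iff_exists_notMem U).1 hne
  have h0 : ∀ z ∈ U, z - w0 ≠ 0 := fun z hz e => hw0 (sub_eq_zero.1 e ▸ hz)
  obtain ⟨g, hg, sq, -⟩ := RUni.sqrt hU hlog (h := fun z => z - w0)
    ⟨differentiableOn_id.sub_const _, fun z _ w _ e => by simpa using e, fun z _ => by simp⟩ h0
  have h1 : g '' U ∈ 𝓝 (g a) := by
    rw [← (hg.strict hU ha).map_nhds_eq (hg.ne a ha)]
    exact image_mem_map (hU.mem_nhds ha)
  obtain ⟨ε, hε, h2⟩ := Metric.mem_nhds_iff.1 h1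
  have h3 : ∀ z ∈ U, ε ≤ ‖g z + g a‖ := by
    intro z hz
    by_contra c
    obtain ⟨w, hw, e⟩ := h2 (show -g z ∈ ball (g a) ε by
      rw [mem_ball, dist_eq_norm, show -g z - g a = -(g z + g a) by ring, norm_neg]
      exact not_le.1 c)
    have e1 : w = z := by
      have := sq w hw
      rw [e, neg_sq, sq z hz] at this
      simpa using this.symm
    rw [e1] at e
    have e2 : g z = 0 := by linear_combination e / 2
    have := sq z hz
    rw [e2] at this
    exact h0 z hz (by simpa using this.symm)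
  have h4 : ∀ z ∈ U, g z + g a ≠ 0 := fun z hz => norm_pos_iff.1 (hε.trans_le (h3 z hz))
  have hε' : ((ε / 2 : ℝ) : ℂ) ≠ 0 := by exact_mod_cast (half_pos hε).ne'
  have hd := fun z hz => (hasDerivAt_const z ((ε / 2 : ℝ) : ℂ)).fun_div
    ((hg.strict hU hz).hasDerivAt.add_const (g a)) (h4 z hz)
  refine ⟨fun z => ((ε / 2 : ℝ) : ℂ) / (g z + g a),
    ⟨fun z hz => (hd z hz).differentiableAt.differentiableWithinAt, fun z hz w hw e => ?_,
      fun z hz => ?_⟩, fun z hz => ?_⟩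
  · rw [div_eq_div_iff (h4 z hz) (h4 w hw)] at e
    exact hg.inj hz hw (add_right_cancel (mul_left_cancel₀ hε' e)).symm
  · rw [(hd z hz).deriv, zero_mul, zero_sub]
    exact div_ne_zero (neg_ne_zero.2 (mul_ne_zero hε' (hg.ne z hz))) (pow_ne_zero _ (h4 z hz))
  · rw [mem_ball_zero_iff, norm_div, norm_real, Real.norm_of_nonneg (half_pos hε).le,
      div_lt_one (hε.trans_le (h3 z hz))]
    linarith [h3 z hz]

theorem rmt_koebe {U : Set ℂ} (hU : IsOpen U) (hlog : HasLog U) {a : ℂ} (ha : a ∈ U) {ψ : ℂ → ℂ}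
    (h : RUni U ψ) (hm : MapsTo ψ U (ball 0 1)) (h0 : ψ a = 0) {b : ℂ} (hb : ‖b‖ < 1)
    (hb' : b ∉ ψ '' U) : ∃ χ, (RUni U χ ∧ MapsTo χ U (ball 0 1) ∧ χ a = 0) ∧
      ‖deriv ψ a‖ < ‖deriv χ a‖ := by
  obtain ⟨a1, a2, a3⟩ := h.rmob hU hm hb
  have a4 : ∀ z ∈ U, rmob b (ψ z) ≠ 0 := fun z hz =>
    div_ne_zero (sub_ne_zero.2 fun e => hb' ⟨z, hz, e⟩) (rmob_den hb (mem_ball_zero_iff.1 (hm hz)))
  obtain ⟨g, hg, sq, hd⟩ := a1.sqrt hU hlog a4
  have gm : MapsTo g U (ball 0 1) := fun z hz => by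
    have : ‖rmob b (ψ z)‖ < 1 := mem_ball_zero_iff.1 (a2 hz)
    rw [← sq z hz, norm_pow] at this
    exact mem_ball_zero_iff.2 ((sq_lt_one_iff₀ (norm_nonneg _)).1 this)
  have ga := mem_ball_zero_iff.1 (gm ha)
  obtain ⟨b1, b2, b3⟩ := hg.rmob hU gm ga
  refine ⟨_, ⟨b1, b2, by simp [rmob]⟩, ?_⟩
  have e1 := hd a ha
  have e2 := sq a ha
  have e3 : 0 < ‖g a‖ := norm_pos_iff.2 fun e => a4 a ha (by rw [← e2, e]; simp)
  rw [a3 a ha, h0, Complex.conj_mul'] at e1
  simp only [rmob, h0, mul_zero, sub_zero, zero_sub, div_one, one_pow] at e1 e2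
  have e4 : ‖b‖ = ‖g a‖ ^ 2 := by rw [← norm_pow, e2, norm_neg]
  have e5 := congrArg norm e1
  have p1 : 0 < 1 - ‖g a‖ ^ 2 := by nlinarith
  have p2 : 0 < 1 - ‖b‖ ^ 2 := by nlinarith [norm_nonneg b]
  have n1 : ∀ x : ℝ, 0 < 1 - x ^ 2 → ‖(1 : ℂ) - (x : ℂ) ^ 2‖ = 1 - x ^ 2 := fun x hx => by
    rw [show (1 : ℂ) - (x : ℂ) ^ 2 = ((1 - x ^ 2 : ℝ) : ℂ) by push_cast; ring, norm_real,
      Real.norm_of_nonneg hx.le]
  rw [norm_mul, norm_mul, norm_mul, n1 _ p2, e4, Complex.norm_two] at e5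
  rw [b3 a ha, Complex.conj_mul', norm_mul, norm_div, norm_pow, n1 _ p1, pow_two (1 - _),
    div_mul_cancel_right₀ p1.ne', inv_mul_eq_div, lt_div_iff₀ p1]
  have p3 := norm_pos_iff.2 (h.ne a ha)
  have p4 : 0 < (1 - ‖g a‖) ^ 2 := by nlinarith
  have p5 := mul_pos (mul_pos p1 p4) p3
  apply lt_of_mul_lt_mul_left (a := 2 * ‖g a‖) _ (by positivity)
  nlinarith

theorem rmt_onto {U : Set ℂ} (hU : IsOpen U) (hc : IsPreconnected U) (hne : U ≠ univ)
    (hlog : HasLog U) {a : ℂ} (ha : a ∈ U) :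
    ∃ ψ, RUni U ψ ∧ MapsTo ψ U (ball 0 1) ∧ ψ a = 0 ∧ ball 0 1 ⊆ ψ '' U := by
  set S : Set ℝ := (fun ψ => ‖deriv ψ a‖) '' {ψ | RUni U ψ ∧ MapsTo ψ U (ball 0 1) ∧ ψ a = 0} with hS
  have hS0 : S.Nonempty := by
    obtain ⟨ψ, h1, h2⟩ := rmt_start hU hne hlog ha
    obtain ⟨a1, a2, -⟩ := h1.rmob hU h2 (mem_ball_zero_iff.1 (h2 ha))
    exact ⟨_, _, ⟨a1, a2, by simp [rmob]⟩, rfl⟩
  have hS1 : BddAbove S := by
    obtain ⟨R, hR, hsub⟩ := Metric.isOpen_iff.1 hU a ha
    refine ⟨1 / R, ?_⟩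
    rintro _ ⟨ψ, ⟨h1, h2, h3⟩, rfl⟩
    exact norm_deriv_le_div_of_mapsTo_ball (h1.diff.mono hsub)
      (fun z hz => h3 ▸ ball_subset_closedBall (h2 (hsub hz))) hR
  obtain ⟨u, -, u1, u2⟩ := exists_seq_tendsto_sSup hS0 hS1
  choose F hF hFu using u2
  obtain ⟨f, hf⟩ := rmt_montel (Ultrafilter.of (atTop : Filter ℕ)) hU (fun n => (hF n).1.diff)
    fun n => (hF n).2.1
  have fd : DifferentiableOn ℂ f U := hf.differentiableOn
    (Eventually.of_forall fun n => (hF n).1.diff) hU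
  have hf' := hf.deriv (Eventually.of_forall fun n => (hF n).1.diff) hU
  have e1 : ‖deriv f a‖ = sSup S := by
    refine tendsto_nhds_unique (hf'.tendsto_at ha).norm ?_
    simp only [Function.comp, show ∀ n, ‖deriv (F n) a‖ = u n from hFu]
    exact u1.mono_left (Ultrafilter.of_le _)
  have e2 : deriv f a ≠ 0 := by
    obtain ⟨_, ψ, hψ, rfl⟩ := hS0
    exact norm_pos_iff.1 (e1 ▸ (norm_pos_iff.2 (hψ.1.ne a ha)).trans_le (le_csSup hS1 ⟨ψ, hψ, rfl⟩))
  have e3 : f a = 0 := tendsto_nhds_unique (hf.tendsto_at ha) (by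
    simp only [fun n => (hF n).2.2]; exact tendsto_const_nhds)
  have an := fd.analyticOnNhd hU
  have nc : ∀ z ∈ U, ∀ c, ¬ ∀ᶠ w in 𝓝 z, f w = c := by
    intro z hz c h
    have := an.eqOn_of_preconnected_of_eventuallyEq (g := fun _ => c) analyticOnNhd_const hc hz h
    apply e2
    rw [(this.eventuallyEq_of_mem (hU.mem_nhds ha)).deriv_eq, deriv_const]
  have fm : MapsTo f U (ball 0 1) := by
    intro z hz
    have cl : ∀ w ∈ U, f w ∈ closedBall (0 : ℂ) 1 := fun w hw =>
      isClosed_closedBall.mem_of_tendsto (hf.tendsto_at hw)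
        (Eventually.of_forall fun n => ball_subset_closedBall ((hF n).2.1 hw))
    rw [← interior_closedBall (0 : ℂ) one_ne_zero, mem_interior_iff_mem_nhds]
    exact ((an z hz).eventually_constant_or_nhds_le_map_nhds.resolve_left (nc z hz _))
      (mem_map.2 (mem_of_superset (hU.mem_nhds hz) cl))
  have fu : RUni U f := by
    refine ⟨fd, fun z hz w hw e => ?_, fun z hz e => ?_⟩
    · by_contra c
      exact nc z hz _ (rmt_hurwitz (V := U \ {w}) (c := fun n => F n w)
        (hU.sdiff isClosed_singleton) ⟨hz, c⟩ (fun n => (hF n).1.diff.mono sdiff_subset)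
        (fun n y hy g => hy.2 ((hF n).1.inj hy.1 hw g)) (hf.mono sdiff_subset)
        (e ▸ hf.tendsto_at hw))
    · have h1 := rmt_hurwitz (c := fun _ => 0) hU hz (fun n => (hF n).1.diff.deriv hU)
        (fun n => (hF n).1.ne) hf' (e ▸ tendsto_const_nhds)
      have := an.deriv.eqOn_of_preconnected_of_eventuallyEq (g := fun _ => deriv f z)
        analyticOnNhd_const hc hz h1 ha
      exact e2 (this.trans e)
  refine ⟨f, fu, fm, e3, fun b hb => ?_⟩
  by_contra c
  obtain ⟨χ, h1, h2⟩ := rmt_koebe hU hlog ha fu fm e3 (mem_ball_zero_iff.1 hb) c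
  exact absurd (le_csSup hS1 ⟨χ, h1, rfl⟩) (not_le.2 (e1 ▸ h2))

/-- The Riemann mapping theorem. -/
theorem riemann {U : Set ℂ} (hU : IsOpen U) (hc : IsPreconnected U) (hne : U ≠ univ)
    (hlog : HasLog U) {a : ℂ} (ha : a ∈ U) :
    ∃ ψ φ : ℂ → ℂ, DifferentiableOn ℂ ψ U ∧ DifferentiableOn ℂ φ (ball 0 1) ∧
      MapsTo ψ U (ball 0 1) ∧ MapsTo φ (ball 0 1) U ∧ (∀ w ∈ U, φ (ψ w) = w) ∧
      (∀ z ∈ ball (0 : ℂ) 1, ψ (φ z) = z) ∧ ψ a = 0 ∧ φ 0 = a ∧
      ∃ c : ℝ, 0 < c ∧ deriv φ 0 = c := by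
  obtain ⟨f, fu, fm, f0, fs⟩ := rmt_onto hU hc hne hlog ha
  have p1 := norm_pos_iff.2 (fu.ne a ha)
  obtain ⟨u, u1, u2⟩ : ∃ u : ℂ, ‖u‖ = 1 ∧ u * deriv f a = ‖deriv f a‖ :=
    ⟨‖deriv f a‖ / deriv f a, by rw [norm_div, norm_real, norm_norm, div_self p1.ne'],
      div_mul_cancel₀ _ (fu.ne a ha)⟩
  have u0 : u ≠ 0 := norm_pos_iff.1 (u1 ▸ one_pos)
  have hd : ∀ z, deriv (fun z => u * f z) z = u * deriv f z := fun z => deriv_const_mul_field u
  have gu : RUni U fun z => u * f z := ⟨fu.diff.const_mul u,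
    fun z hz w hw e => fu.inj hz hw (mul_left_cancel₀ u0 e),
    fun z hz => hd z ▸ mul_ne_zero u0 (fu.ne z hz)⟩
  have gm : MapsTo (fun z => u * f z) U (ball 0 1) := fun z hz => by
    rw [mem_ball_zero_iff, norm_mul, u1, one_mul]
    exact mem_ball_zero_iff.1 (fm hz)
  have gs : ∀ z ∈ ball (0 : ℂ) 1, ∃ w ∈ U, (fun z => u * f z) w = z := by
    intro z hz
    obtain ⟨w, hw, e⟩ := fs (show z / u ∈ ball (0 : ℂ) 1 by
      rw [mem_ball_zero_iff, norm_div, u1, div_one]
      exact mem_ball_zero_iff.1 hz)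
    exact ⟨w, hw, by simp only [e, mul_div_cancel₀ _ u0]⟩
  have g0 : (fun z => u * f z) a = 0 := by simp [f0]
  have ga : deriv (fun z => u * f z) a = ‖deriv f a‖ := (hd a).trans u2
  generalize (fun z => u * f z) = ψ at gu gm g0 ga gs
  have li : ∀ w ∈ U, Function.invFunOn ψ U (ψ w) = w := fun w hw => gu.inj.leftInvOn_invFunOn hw
  have hφ : ∀ w ∈ U, HasStrictDerivAt (Function.invFunOn ψ U) (deriv ψ w)⁻¹ (ψ w) := fun w hw =>
    (gu.strict hU hw).to_local_left_inverse (gu.ne w hw) (mem_of_superset (hU.mem_nhds hw) li)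
  refine ⟨ψ, Function.invFunOn ψ U, gu.diff, fun z hz => ?_, gm,
    fun z hz => Function.invFunOn_mem (gs z hz), li, fun z hz => Function.invFunOn_eq (gs z hz), g0,
    g0 ▸ li a ha, ‖deriv f a‖⁻¹, inv_pos.2 p1, ?_⟩
  · obtain ⟨w, hw, rfl⟩ := gs z hz
    exact (hφ w hw).hasDerivAt.differentiableAt.differentiableWithinAt
  · rw [← g0, (hφ a ha).hasDerivAt.deriv, ga, ofReal_inv]

/-- The equality case of the Schwarz lemma. -/
theorem schwarz_eq {τ : ℂ → ℂ} (hτ : DifferentiableOn ℂ τ (ball 0 1))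
    (hm : MapsTo τ (ball 0 1) (ball 0 1)) (h0 : τ 0 = 0) (h1 : 1 ≤ ‖deriv τ 0‖) :
    ‖deriv τ 0‖ = 1 ∧ ∀ z ∈ ball (0 : ℂ) 1, τ z = deriv τ 0 * z := by
  have hm' : MapsTo τ (ball 0 1) (closedBall (τ 0) 1) := fun z hz => by
    rw [h0]
    exact ball_subset_closedBall (hm hz)
  have h2 := le_antisymm (norm_deriv_le_one_of_mapsTo_ball hτ hm' one_pos) h1
  refine ⟨h2, fun z hz => ?_⟩
  have := affine_of_mapsTo_ball_of_norm_dslope_eq_div hτ hm' (mem_ball_self one_pos)
    (by rw [dslope_same, h2, div_one]) hz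
  rw [this, dslope_same, h0]
  simp [mul_comm]

end Pool.Agent.Lib.MP_9b2593_an.Uq
end
end

-- part Pool.Agent.Lib.MP_9b2593_an.Uq.StarA
section

/-!
Real variable lemmas for the star function.
-/

open Complex Metric Set MeasureTheory

noncomputable section

namespace Pool.Agent.Lib.MP_9b2593_an.Uq

open Filter Topology

theorem st_int {F h : ℝ → ℝ} (hF : Measurable F) (h01 : ∀ y, F y ∈ Icc (0 : ℝ) 1)
    (hh : Continuous h) (a b : ℝ) : IntervalIntegrable (fun y => F y * h y) volume a b := by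
  have h1 := hh.intervalIntegrable (μ := volume) a b
  have hb : ∀ y, ‖F y‖ ≤ 1 := fun y => by
    rw [Real.norm_eq_abs, abs_le]; constructor <;> linarith [(h01 y).1, (h01 y).2]
  exact ⟨Integrable.bdd_mul h1.1 hF.aestronglyMeasurable (Eventually.of_forall hb),
    Integrable.bdd_mul h1.2 hF.aestronglyMeasurable (Eventually.of_forall hb)⟩

theorem st_int1 {F : ℝ → ℝ} (hF : Measurable F) (h01 : ∀ y, F y ∈ Icc (0 : ℝ) 1)
    (a b : ℝ) : IntervalIntegrable F volume a b := by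
  simpa using st_int hF h01 (continuous_const (y := (1 : ℝ))) a b

theorem st_piece {F h : ℝ → ℝ} (hF : Measurable F) (h01 : ∀ y, F y ∈ Icc (0 : ℝ) 1)
    (hh : Continuous h) {a b : ℝ} (hab : a ≤ b) (c : ℝ) :
    ∫ y in a..b, F y * h y ≤ c * (∫ y in a..b, F y) + ∫ y in a..b, max (h y - c) 0 := by
  have hm : Continuous fun y => max (h y - c) 0 := by fun_prop
  rw [← intervalIntegral.integral_const_mul, ← intervalIntegral.integral_add
    ((st_int1 hF h01 a b).const_mul c) (hm.intervalIntegrable a b)]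
  refine intervalIntegral.integral_mono hab (st_int hF h01 hh a b)
    (((st_int1 hF h01 a b).const_mul c).add (hm.intervalIntegrable a b)) fun y => ?_
  have h1 := (h01 y).1
  have h2 := (h01 y).2
  have h3 := le_max_left (h y - c) 0
  have h4 := le_max_right (h y - c) 0
  show F y * h y ≤ c * F y + max (h y - c) 0
  nlinarith [mul_nonneg h1 (sub_nonneg.2 h3), mul_nonneg (sub_nonneg.2 h2) h4]

theorem st_f {v f : ℝ → ℝ} (hv : Continuous v) (hf : Continuous f) {t : ℝ} (ht : 0 ≤ t)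
    (hm : volume ({y | v y ≠ 0} ∩ Ioc (-Real.pi) Real.pi) ≤ ENNReal.ofReal (2 * t))
    (h1 : ∀ y, f y ≤ 1) (h0 : ∀ y, v y = 0 → f y ≤ 0) :
    ∫ y in (-Real.pi)..Real.pi, f y ≤ 2 * t := by
  have hpi : -Real.pi ≤ Real.pi := by linarith [Real.pi_pos]
  have hA : MeasurableSet {y | v y ≠ 0} := (isOpen_ne_fun hv continuous_const).measurableSet
  rw [intervalIntegral.integral_of_le hpi]
  have hi : IntegrableOn f (Ioc (-Real.pi) Real.pi) volume :=
    (hf.intervalIntegrable (μ := volume) (-Real.pi) Real.pi).1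
  have h2 : ∫ y in Ioc (-Real.pi) Real.pi, f y ≤
      ∫ y in Ioc (-Real.pi) Real.pi, ({y | v y ≠ 0}.indicator (1 : ℝ → ℝ)) y := by
    refine integral_mono hi ((integrable_const (1 : ℝ)).indicator hA) fun y => ?_
    by_cases hy : v y = 0
    · rw [indicator_of_notMem (by simpa using hy)]; exact h0 y hy
    · rw [indicator_of_mem (by simpa using hy)]; exact h1 y
  refine h2.trans ?_
  rw [integral_indicator_one hA, Measure.real, Measure.restrict_apply hA]
  exact ENNReal.toReal_le_of_le_ofReal (by positivity) hm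

/-- The indicator of a superlevel set. -/
def stInd (ρ : ℝ → ℝ) (c y : ℝ) : ℝ := if c < ρ y then 1 else 0

theorem stInd_meas {ρ : ℝ → ℝ} (hρ : Continuous ρ) (c : ℝ) : Measurable (stInd ρ c) :=
  Measurable.ite (isOpen_lt continuous_const hρ).measurableSet measurable_const measurable_const

theorem stInd_mem (ρ : ℝ → ℝ) (c y : ℝ) : stInd ρ c y ∈ Icc (0 : ℝ) 1 := by
  unfold stInd; split_ifs <;> simp

theorem st_level {ρ : ℝ → ℝ} (hρ : Continuous ρ) (hn : ∀ c, volume {y | ρ y = c} = 0) {t : ℝ}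
    (ht0 : 0 < t) (ht : t < Real.pi) :
    ∃ c, (∫ y in (-Real.pi)..Real.pi, stInd ρ c y) = 2 * t ∧ (∃ p, c < ρ p) ∧ (∃ p, ρ p < c) := by
  have hpi : -Real.pi ≤ Real.pi := by linarith [Real.pi_pos]
  have hae : ∀ c, ∀ᵐ y, ρ y ≠ c := fun c => by
    rw [ae_iff]; simpa using hn c
  have hc : Continuous fun c => ∫ y in (-Real.pi)..Real.pi, stInd ρ c y := by
    refine continuous_iff_continuousAt.2 fun c0 => ?_
    refine intervalIntegral.continuousAt_of_dominated_interval (bound := fun _ => 1)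
      (Eventually.of_forall fun c => (stInd_meas hρ c).aestronglyMeasurable)
      (Eventually.of_forall fun c => Eventually.of_forall fun y _ => ?_) intervalIntegrable_const ?_
    · rw [Real.norm_eq_abs, abs_le]
      constructor <;> linarith [(stInd_mem ρ c y).1, (stInd_mem ρ c y).2]
    · filter_upwards [hae c0] with y hy _
      rcases lt_or_gt_of_ne hy with h | h
      · refine (continuousAt_const (y := (0 : ℝ))).congr ?_
        filter_upwards [lt_mem_nhds h] with c hc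
        simp [stInd, not_lt.2 hc.le]
      · refine (continuousAt_const (y := (1 : ℝ))).congr ?_
        filter_upwards [gt_mem_nhds h] with c hc
        simp [stInd, hc]
  obtain ⟨M, hM⟩ := (isCompact_Icc (a := -Real.pi) (b := Real.pi)).exists_bound_of_continuousOn
    hρ.continuousOn
  have e1 : (∫ y in (-Real.pi)..Real.pi, stInd ρ M y) = 0 := by
    rw [intervalIntegral.integral_congr (g := fun _ => 0)]
    · simp
    · intro y hy
      rw [uIcc_of_le hpi] at hy
      have := hM y hy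
      rw [Real.norm_eq_abs, abs_le] at this
      simp [stInd, not_lt.2 this.2]
  have e2 : (∫ y in (-Real.pi)..Real.pi, stInd ρ (-M - 1) y) = 2 * Real.pi := by
    rw [intervalIntegral.integral_congr (g := fun _ => 1)]
    · simp; ring
    · intro y hy
      rw [uIcc_of_le hpi] at hy
      have := hM y hy
      rw [Real.norm_eq_abs, abs_le] at this
      have h2 : -M - 1 < ρ y := by linarith [this.1]
      simp [stInd, h2]
  obtain ⟨c, hc'⟩ := intermediate_value_univ M (-M - 1) hc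
    (show 2 * t ∈ Icc _ _ by rw [e1, e2]; constructor <;> linarith)
  refine ⟨c, hc', ?_, ?_⟩
  · by_contra hne
    push Not at hne
    have : (∫ y in (-Real.pi)..Real.pi, stInd ρ c y) = 0 := by
      rw [intervalIntegral.integral_congr (g := fun _ => 0)]
      · simp
      · intro y _
        simp [stInd, not_lt.2 (hne y)]
    simp only at hc'
    linarith
  · by_contra hne
    push Not at hne
    have : (∫ y in (-Real.pi)..Real.pi, stInd ρ c y) = 2 * Real.pi := by
      rw [intervalIntegral.integral_congr_ae (g := fun _ => 1)]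
      · simp; ring
      · filter_upwards [hae c] with y hy _
        have h2 : c < ρ y := lt_of_le_of_ne (hne y) (Ne.symm hy)
        simp [stInd, h2]
    simp only at hc'
    linarith

theorem st_shift {F : ℝ → ℝ} (hF : Measurable F) (h01 : ∀ y, F y ∈ Icc (0 : ℝ) 1)
    (hp : Function.Periodic F (2 * Real.pi)) {p p' r s : ℝ} (h1 : ∀ y ∈ ball p r, F y = 1)
    (h0 : ∀ y ∈ ball p' r, F y = 0) (hs : |s| < r) :
    (∫ y in p..p', F (y - s)) + (∫ y in p'..p + 2 * Real.pi, F (y + s)) =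
      (∫ y in p..p + 2 * Real.pi, F y) + 2 * s := by
  have hI := st_int1 hF h01
  have hb : ∀ q a : ℝ, |a| < r → ∀ y ∈ uIcc q (q + a), y ∈ ball q r := by
    intro q a ha y hy
    have := abs_sub_left_of_mem_uIcc hy
    rw [mem_ball, Real.dist_eq]
    have e : q + a - q = a := by ring
    rw [e] at this
    linarith
  have hs' : |-s| < r := by rwa [abs_neg]
  have a1 : ∫ y in p..p + -s, F y = -s := by
    rw [intervalIntegral.integral_congr (g := fun _ => 1) fun y hy => h1 y (hb p (-s) hs' y hy)]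
    simp
  have a2 : ∫ y in p'..p' + -s, F y = 0 := by
    rw [intervalIntegral.integral_congr (g := fun _ => 0) fun y hy => h0 y (hb p' (-s) hs' y hy)]
    simp
  have a3 : ∫ y in p'..p' + s, F y = 0 := by
    rw [intervalIntegral.integral_congr (g := fun _ => 0) fun y hy => h0 y (hb p' s hs y hy)]
    simp
  have a4 : ∫ y in p + 2 * Real.pi..p + 2 * Real.pi + s, F y = s := by
    rw [intervalIntegral.integral_congr (g := fun _ => 1)]
    · simp
    · intro y hy
      have h2 := hb _ s hs y hy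
      have h3 : y - 2 * Real.pi ∈ ball p r := by
        rw [mem_ball, Real.dist_eq] at h2 ⊢
        have e : y - 2 * Real.pi - p = y - (p + 2 * Real.pi) := by ring
        rwa [e]
      have h4 := h1 _ h3
      rwa [hp.sub_eq] at h4
  rw [intervalIntegral.integral_comp_sub_right, intervalIntegral.integral_comp_add_right,
    sub_eq_add_neg, sub_eq_add_neg]
  have b1 := intervalIntegral.integral_add_adjacent_intervals (hI p (p + -s)) (hI (p + -s) (p' + -s))
  have b2 := intervalIntegral.integral_add_adjacent_intervals (hI p p') (hI p' (p' + -s))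
  have b3 := intervalIntegral.integral_add_adjacent_intervals (hI p' (p' + s))
    (hI (p' + s) (p + 2 * Real.pi + s))
  have b4 := intervalIntegral.integral_add_adjacent_intervals (hI p' (p + 2 * Real.pi))
    (hI (p + 2 * Real.pi) (p + 2 * Real.pi + s))
  have b5 := intervalIntegral.integral_add_adjacent_intervals (hI p p') (hI p' (p + 2 * Real.pi))
  linarith

theorem st_per {h : ℝ → ℝ} (hp : Function.Periodic h (2 * Real.pi)) (p : ℝ) :
    ∫ y in p..p + 2 * Real.pi, h y = ∫ y in (-Real.pi)..Real.pi, h y := by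
  rw [hp.intervalIntegral_add_eq p (-Real.pi)]
  have e : -Real.pi + 2 * Real.pi = Real.pi := by ring
  rw [e]

/-- The function minimised in the star function. -/
def stPhi (h : ℝ → ℝ) (t c : ℝ) : ℝ := 2 * t * c + ∫ y in (-Real.pi)..Real.pi, max (h y - c) 0

theorem st_half {F h : ℝ → ℝ} (hF : Measurable F) (h01 : ∀ y, F y ∈ Icc (0 : ℝ) 1)
    (hp : Function.Periodic F (2 * Real.pi)) (hh : Continuous h)
    (hhp : Function.Periodic h (2 * Real.pi)) {p p' r s t : ℝ} (h1 : ∀ y ∈ ball p r, F y = 1)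
    (h0 : ∀ y ∈ ball p' r, F y = 0) (hs : |s| < r) (hpp : p ≤ p') (hpp' : p' ≤ p + 2 * Real.pi)
    (ht : ∫ y in (-Real.pi)..Real.pi, F y = 2 * t) (c : ℝ) :
    (∫ y in p..p', F (y - s) * h y) + (∫ y in p'..p + 2 * Real.pi, F (y + s) * h y) ≤
      stPhi h (t + s) c := by
  have a1 := st_piece (F := fun y => F (y - s)) (hF.comp (by fun_prop)) (fun y => h01 _) hh hpp c
  have a2 := st_piece (F := fun y => F (y + s)) (hF.comp (by fun_prop)) (fun y => h01 _) hh hpp' c
  have a3 := st_shift hF h01 hp h1 h0 hs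
  rw [st_per hp, ht] at a3
  have hm : Continuous fun y => max (h y - c) 0 := by fun_prop
  have a4 := intervalIntegral.integral_add_adjacent_intervals
    (hm.intervalIntegrable (μ := volume) p p') (hm.intervalIntegrable p' (p + 2 * Real.pi))
  have a5 := st_per (h := fun y => max (h y - c) 0) (fun y => by simp only [hhp y]) p
  unfold stPhi
  have a6 : c * (∫ y in p..p', F (y - s)) + c * (∫ y in p'..p + 2 * Real.pi, F (y + s)) =
      2 * (t + s) * c := by rw [← mul_add, a3]; ring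
  linarith

theorem st_trick {F h : ℝ → ℝ} (hF : Measurable F) (h01 : ∀ y, F y ∈ Icc (0 : ℝ) 1)
    (hp : Function.Periodic F (2 * Real.pi)) (hh : Continuous h)
    (hhp : Function.Periodic h (2 * Real.pi)) {p p' r s t : ℝ} (h1 : ∀ y ∈ ball p r, F y = 1)
    (h0 : ∀ y ∈ ball p' r, F y = 0) (hs : |s| < r) (hpp : p ≤ p') (hpp' : p' ≤ p + 2 * Real.pi)
    (ht : ∫ y in (-Real.pi)..Real.pi, F y = 2 * t) (c c' : ℝ) :
    (∫ y in (-Real.pi)..Real.pi, F y * h (y + s)) + (∫ y in (-Real.pi)..Real.pi, F y * h (y + -s))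
      ≤ stPhi h (t + s) c + stPhi h (t + -s) c' := by
  have a1 := st_half hF h01 hp hh hhp h1 h0 hs hpp hpp' ht c
  have a2 := st_half hF h01 hp hh hhp h1 h0 (s := -s) (by rwa [abs_neg]) hpp hpp' ht c'
  have key : ∀ a : ℝ, (∫ y in p..p', F (y - a) * h y) +
      (∫ y in p'..p + 2 * Real.pi, F (y - a) * h y) = ∫ y in (-Real.pi)..Real.pi, F y * h (y + a) := by
    intro a
    have hI := st_int (F := fun y => F (y - a)) (hF.comp (by fun_prop)) (fun y => h01 _) hh
    rw [intervalIntegral.integral_add_adjacent_intervals (hI _ _) (hI _ _)]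
    have e := intervalIntegral.integral_comp_sub_right (fun y => F y * h (y + a)) a
      (a := p) (b := p + 2 * Real.pi)
    simp only [sub_add_cancel] at e
    rw [e]
    have e2 : p + 2 * Real.pi - a = p - a + 2 * Real.pi := by ring
    rw [e2]
    refine st_per (h := fun y => F y * h (y + a)) (fun y => ?_) _
    have e3 : y + 2 * Real.pi + a = y + a + 2 * Real.pi := by ring
    simp only [hp y, e3, hhp (y + a)]
  have b1 := key s
  have b2 := key (-s)
  simp only [sub_neg_eq_add] at a2 b2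
  simp only [← sub_eq_add_neg] at a2 b2 ⊢
  linarith

theorem st_fub {F : ℝ → ℝ} (hF : Measurable F) (h01 : ∀ y, F y ∈ Icc (0 : ℝ) 1)
    {g : ℝ → ℝ → ℝ} (hg : Continuous g.uncurry) {a b : ℝ} (hab : a ≤ b) :
    IntervalIntegrable (fun φ => ∫ y in a..b, F y * g φ y) volume 0 (2 * Real.pi) ∧
    ∫ φ in (0 : ℝ)..2 * Real.pi, ∫ y in a..b, F y * g φ y =
      ∫ y in a..b, F y * ∫ φ in (0 : ℝ)..2 * Real.pi, g φ y := by
  have hpi : (0 : ℝ) ≤ 2 * Real.pi := by positivity
  have hb : ∀ y, ‖F y‖ ≤ 1 := fun y => by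
    rw [Real.norm_eq_abs, abs_le]; constructor <;> linarith [(h01 y).1, (h01 y).2]
  have h1 : IntegrableOn g.uncurry (Icc 0 (2 * Real.pi) ×ˢ Icc a b) volume :=
    hg.continuousOn.integrableOn_compact (isCompact_Icc.prod isCompact_Icc)
  have h2 : IntegrableOn g.uncurry (Ioc 0 (2 * Real.pi) ×ˢ Ioc a b) volume :=
    h1.mono_set (prod_mono Ioc_subset_Icc_self Ioc_subset_Icc_self)
  have h3 : Integrable (Function.uncurry fun φ y => F y * g φ y)
      ((volume.restrict (Ioc 0 (2 * Real.pi))).prod (volume.restrict (Ioc a b))) := by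
    rw [Measure.prod_restrict, ← Measure.volume_eq_prod]
    exact Integrable.bdd_mul (f := fun z : ℝ × ℝ => F z.2) h2
      (hF.comp measurable_snd).aestronglyMeasurable (Eventually.of_forall fun z => hb _)
  constructor
  · rw [intervalIntegrable_iff_integrableOn_Ioc_of_le hpi]
    simp only [intervalIntegral.integral_of_le hab]
    exact h3.integral_prod_left
  · simp only [intervalIntegral.integral_of_le hab, intervalIntegral.integral_of_le hpi,
      ← integral_const_mul]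
    exact integral_integral_swap h3

end Pool.Agent.Lib.MP_9b2593_an.Uq
end
end

-- part Pool.Agent.Lib.MP_9b2593_an.Uq.StarB
section

/-!
The star function and the averaging step.
-/

open Complex Metric Set MeasureTheory

noncomputable section

namespace Pool.Agent.Lib.MP_9b2593_an.Uq

open Filter Topology

/-- The test function of the maximum principle. -/
def stT (F : ℝ → ℝ) (u G : ℝ → ℝ → ℝ) (x t k X a s : ℝ) : ℝ :=
  (∫ y in (-Real.pi)..Real.pi, F y * u (x + a) (y + s)) - (∫ y in (-t)..t, G (x + a) (y + s)) +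
    k * (x + a + X) ^ 2

theorem st_final {F : ℝ → ℝ} (hF : Measurable F) (h01 : ∀ y, F y ∈ Icc (0 : ℝ) 1)
    {u G : ℝ → ℝ → ℝ} (hu : Continuous u.uncurry) (hG : Continuous G.uncurry) {x t k X δ : ℝ}
    (ht : 0 ≤ t) (hk : 0 < k) (hδ : 0 < δ)
    (h1 : ∀ y ∈ Icc (-Real.pi) Real.pi, 2 * Real.pi * u x y ≤
      ∫ φ in (0 : ℝ)..2 * Real.pi, u (x + δ * Real.cos φ) (y + δ * Real.sin φ))
    (h2 : ∀ y ∈ Icc (-t) t, ∫ φ in (0 : ℝ)..2 * Real.pi,
      G (x + δ * Real.cos φ) (y + δ * Real.sin φ) ≤ 2 * Real.pi * G x y)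
    (hT : ∀ φ, stT F u G x t k X (δ * Real.cos φ) (δ * Real.sin φ) +
      stT F u G x t k X (δ * Real.cos φ) (-(δ * Real.sin φ)) ≤ 2 * stT F u G x t k X 0 0) :
    False := by
  have hpi : -Real.pi ≤ Real.pi := by linarith [Real.pi_pos]
  have hpi2 : (0 : ℝ) ≤ 2 * Real.pi := by positivity
  have htt : -t ≤ t := by linarith
  have cu : Continuous (Function.uncurry fun φ y => u (x + δ * Real.cos φ) (y + δ * Real.sin φ)) :=
    hu.comp (f := fun z : ℝ × ℝ => (x + δ * Real.cos z.1, z.2 + δ * Real.sin z.1)) (by fun_prop)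
  have cG : Continuous (Function.uncurry fun φ y => G (x + δ * Real.cos φ) (y + δ * Real.sin φ)) :=
    hG.comp (f := fun z : ℝ × ℝ => (x + δ * Real.cos z.1, z.2 + δ * Real.sin z.1)) (by fun_prop)
  have cu0 : Continuous (u x) := hu.comp (f := fun y => (x, y)) (by fun_prop)
  have cG0 : Continuous (G x) := hG.comp (f := fun y => (x, y)) (by fun_prop)
  obtain ⟨iA, eA⟩ := st_fub hF h01 cu hpi
  obtain ⟨iB, eB⟩ := st_fub (F := fun _ => 1) measurable_const (fun _ => by simp) cG htt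
  simp only [one_mul] at iB eB
  have cC : Continuous fun φ => k * (x + δ * Real.cos φ + X) ^ 2 := by fun_prop
  have iC := cC.intervalIntegrable (μ := volume) 0 (2 * Real.pi)
  have eC : ∫ φ in (0 : ℝ)..2 * Real.pi, k * (x + δ * Real.cos φ + X) ^ 2 =
      k * (2 * Real.pi * (x + X) ^ 2 + Real.pi * δ ^ 2) := by
    have e : ∀ φ, k * (x + δ * Real.cos φ + X) ^ 2 = k * (x + X) ^ 2 +
        (2 * k * (x + X) * δ * Real.cos φ + k * δ ^ 2 * Real.cos φ ^ 2) := fun φ => by ring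
    simp only [e]
    rw [intervalIntegral.integral_add (by simp) (Continuous.intervalIntegrable (by fun_prop) _ _),
      intervalIntegral.integral_add (Continuous.intervalIntegrable (by fun_prop) _ _)
        (Continuous.intervalIntegrable (by fun_prop) _ _),
      intervalIntegral.integral_const_mul, intervalIntegral.integral_const_mul,
      intervalIntegral.integral_const_mul, integral_cos, integral_cos_sq]
    simp
    ring
  have lA : 2 * Real.pi * ∫ y in (-Real.pi)..Real.pi, F y * u x y ≤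
      ∫ y in (-Real.pi)..Real.pi, F y *
        ∫ φ in (0 : ℝ)..2 * Real.pi, u (x + δ * Real.cos φ) (y + δ * Real.sin φ) := by
    rw [← intervalIntegral.integral_const_mul]
    refine intervalIntegral.integral_mono_on hpi ((st_int hF h01 cu0 _ _).const_mul _)
      (st_int hF h01 ?_ _ _) fun y hy => ?_
    · exact intervalIntegral.continuous_parametric_intervalIntegral_of_continuous'
        (f := fun y φ => u (x + δ * Real.cos φ) (y + δ * Real.sin φ))
        (hu.comp (f := fun z : ℝ × ℝ => (x + δ * Real.cos z.2, z.1 + δ * Real.sin z.2))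
          (by fun_prop)) _ _
    · have := mul_le_mul_of_nonneg_left (h1 y hy) (h01 y).1
      linarith
  have lB : (∫ y in (-t)..t, ∫ φ in (0 : ℝ)..2 * Real.pi,
      G (x + δ * Real.cos φ) (y + δ * Real.sin φ)) ≤ 2 * Real.pi * ∫ y in (-t)..t, G x y := by
    rw [← intervalIntegral.integral_const_mul]
    refine intervalIntegral.integral_mono_on htt (Continuous.intervalIntegrable ?_ _ _)
      ((cG0.intervalIntegrable _ _).const_mul _) h2
    exact intervalIntegral.continuous_parametric_intervalIntegral_of_continuous'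
        (f := fun y φ => G (x + δ * Real.cos φ) (y + δ * Real.sin φ))
        (hG.comp (f := fun z : ℝ × ℝ => (x + δ * Real.cos z.2, z.1 + δ * Real.sin z.2))
          (by fun_prop)) _ _
  set τ : ℝ → ℝ := fun φ => stT F u G x t k X (δ * Real.cos φ) (δ * Real.sin φ) with hτ
  have iτ : IntervalIntegrable τ volume 0 (2 * Real.pi) := (iA.sub iB).add iC
  have eτ : ∫ φ in (0 : ℝ)..2 * Real.pi, τ φ = (∫ y in (-Real.pi)..Real.pi, F y *
        ∫ φ in (0 : ℝ)..2 * Real.pi, u (x + δ * Real.cos φ) (y + δ * Real.sin φ)) -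
      (∫ y in (-t)..t, ∫ φ in (0 : ℝ)..2 * Real.pi,
        G (x + δ * Real.cos φ) (y + δ * Real.sin φ)) +
      k * (2 * Real.pi * (x + X) ^ 2 + Real.pi * δ ^ 2) := by
    simp only [hτ, stT]
    rw [intervalIntegral.integral_add (iA.sub iB) iC, intervalIntegral.integral_sub iA iB, eA, eB,
      eC]
  have iτ' : IntervalIntegrable (fun φ => τ (2 * Real.pi - φ)) volume 0 (2 * Real.pi) := by
    have := (iτ.comp_sub_left (2 * Real.pi)).symm
    simpa using this
  have eτ' : ∫ φ in (0 : ℝ)..2 * Real.pi, τ (2 * Real.pi - φ) =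
      ∫ φ in (0 : ℝ)..2 * Real.pi, τ φ := by
    rw [intervalIntegral.integral_comp_sub_left]
    simp
  have hle : ∫ φ in (0 : ℝ)..2 * Real.pi, (τ φ + τ (2 * Real.pi - φ)) ≤
      ∫ φ in (0 : ℝ)..2 * Real.pi, 2 * stT F u G x t k X 0 0 := by
    refine intervalIntegral.integral_mono hpi2 (iτ.add iτ') (by simp) fun φ => ?_
    have := hT φ
    simp only [hτ, Real.cos_two_pi_sub, Real.sin_two_pi_sub, mul_neg]
    exact this
  rw [intervalIntegral.integral_add iτ iτ', eτ', eτ, intervalIntegral.integral_const] at hle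
  simp only [stT, add_zero, sub_zero, smul_eq_mul] at hle
  have hpos : 0 < k * (Real.pi * δ ^ 2) := by have := Real.pi_pos; positivity
  nlinarith

/-- The star function. -/
def stV (h : ℝ → ℝ) (t : ℝ) : ℝ := ⨅ c : NNReal, stPhi h t c

theorem stPhi_nonneg (h : ℝ → ℝ) {t c : ℝ} (ht : 0 ≤ t) (hc : 0 ≤ c) : 0 ≤ stPhi h t c := by
  have hpi : -Real.pi ≤ Real.pi := by linarith [Real.pi_pos]
  have : 0 ≤ ∫ y in (-Real.pi)..Real.pi, max (h y - c) 0 :=
    intervalIntegral.integral_nonneg hpi fun y _ => le_max_right _ _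
  unfold stPhi
  positivity

theorem stV_bdd (h : ℝ → ℝ) {t : ℝ} (ht : 0 ≤ t) :
    BddBelow (range fun c : NNReal => stPhi h t c) :=
  ⟨0, by rintro _ ⟨c, rfl⟩; exact stPhi_nonneg h ht c.2⟩

theorem stV_le (h : ℝ → ℝ) {t c : ℝ} (ht : 0 ≤ t) (hc : 0 ≤ c) : stV h t ≤ stPhi h t c :=
  ciInf_le (stV_bdd h ht) (⟨c, hc⟩ : NNReal)

theorem le_stV {h : ℝ → ℝ} {t a : ℝ} (H : ∀ c : ℝ, 0 ≤ c → a ≤ stPhi h t c) : a ≤ stV h t :=
  le_ciInf fun c => H c c.2

theorem stV_le_of_le {h : ℝ → ℝ} {t c : ℝ} (ht : 0 ≤ t) (hc : ∀ y, h y ≤ c) (hc0 : 0 ≤ c) :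
    stV h t ≤ 2 * t * c := by
  refine (stV_le h ht hc0).trans ?_
  unfold stPhi
  rw [intervalIntegral.integral_congr (g := fun _ => 0)]
  · simp
  · intro y _
    exact max_eq_right (by linarith [hc y])

theorem stV_le_int {h : ℝ → ℝ} {t : ℝ} (ht : 0 ≤ t) (h0 : ∀ y, 0 ≤ h y) :
    stV h t ≤ ∫ y in (-Real.pi)..Real.pi, h y := by
  refine (stV_le h ht le_rfl).trans ?_
  unfold stPhi
  simp only [mul_zero, zero_add, sub_zero, max_eq_left (h0 _), le_refl]

theorem int_le_stV {F h : ℝ → ℝ} (hF : Measurable F) (h01 : ∀ y, F y ∈ Icc (0 : ℝ) 1)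
    (hh : Continuous h) {t : ℝ} (ht : ∫ y in (-Real.pi)..Real.pi, F y = 2 * t) :
    ∫ y in (-Real.pi)..Real.pi, F y * h y ≤ stV h t := by
  have hpi : -Real.pi ≤ Real.pi := by linarith [Real.pi_pos]
  refine le_stV fun c _ => ?_
  have := st_piece hF h01 hh hpi c
  rw [ht] at this
  unfold stPhi
  linarith

theorem st_outside {v : ℝ → ℝ} (hv : Continuous v) (h0 : ∀ y, 0 ≤ v y)
    (hp : Function.Periodic v (2 * Real.pi)) {t ε : ℝ} (ht : 0 < t) (hε : 0 < ε)
    (hz : ∃ y, v y = 0)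
    (hm : volume ({y | v y ≠ 0} ∩ Ioc (-Real.pi) Real.pi) ≤ ENNReal.ofReal (2 * t)) :
    ∃ t', 0 ≤ t' ∧ t' < t ∧ stV v t - ε * t < stV v t' - ε * t' := by
  have hpi : -Real.pi ≤ Real.pi := by linarith [Real.pi_pos]
  set η := ε / 4 with hη
  have hη0 : 0 < η := by positivity
  set χ : ℝ → ℝ := fun y => min 1 (v y / η) with hχ
  have cχ : Continuous χ := by fun_prop
  have χ0 : ∀ y, 0 ≤ χ y := fun y => le_min zero_le_one (div_nonneg (h0 y) hη0.le)
  have χ1 : ∀ y, χ y ≤ 1 := fun y => min_le_left _ _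
  have χz : ∀ y, v y = 0 → χ y = 0 := fun y hy => by simp [hχ, hy]
  set t' := (∫ y in (-Real.pi)..Real.pi, χ y) / 2 with ht'
  have e0 : ∫ y in (-Real.pi)..Real.pi, χ y = 2 * t' := by rw [ht']; ring
  have t0 : 0 ≤ t' := by
    have : 0 ≤ ∫ y in (-Real.pi)..Real.pi, χ y :=
      intervalIntegral.integral_nonneg hpi fun y _ => χ0 y
    positivity
  have a1 := st_f (f := fun y => χ y + χ y * (1 - χ y)) hv (by fun_prop) ht.le hm
    (fun y => by nlinarith [χ0 y, χ1 y]) (fun y hy => by simp [χz y hy])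
  have a2 := st_f (f := fun y => χ y + η⁻¹ * (v y - χ y * v y)) hv (by fun_prop) ht.le hm
    (fun y => by
      rcases le_total 1 (v y / η) with h | h
      · have : χ y = 1 := min_eq_left h
        simp [this]
      · have e : χ y = v y / η := min_eq_right h
        have e2 : η⁻¹ * (v y - χ y * v y) = (1 - χ y) * χ y := by
          conv_rhs => rw [e]
          rw [e]; field_simp
        rw [e2]
        nlinarith [χ0 y, χ1 y])
    (fun y hy => by simp [χz y hy, hy])
  rw [intervalIntegral.integral_add (cχ.intervalIntegrable _ _)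
    (Continuous.intervalIntegrable (by fun_prop) _ _), e0] at a1 a2
  rw [intervalIntegral.integral_const_mul, intervalIntegral.integral_sub (hv.intervalIntegrable _ _)
    (Continuous.intervalIntegrable (by fun_prop) _ _)] at a2
  have a3 := int_le_stV cχ.measurable (fun y => ⟨χ0 y, χ1 y⟩) hv e0
  have a4 := stV_le_int ht.le h0
  have hlt : t' < t := by
    by_contra hge
    push Not at hge
    have b1 : ∀ y ∈ Icc (-Real.pi) Real.pi, χ y * (1 - χ y) = 0 := by
      by_contra hne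
      push Not at hne
      obtain ⟨y, hy, hne⟩ := hne
      have : 0 < ∫ y in (-Real.pi)..Real.pi, χ y * (1 - χ y) :=
        intervalIntegral.integral_pos (by linarith [Real.pi_pos]) (by fun_prop)
          (fun y _ => mul_nonneg (χ0 y) (by linarith [χ1 y]))
          ⟨y, hy, lt_of_le_of_ne (mul_nonneg (χ0 y) (by linarith [χ1 y])) (Ne.symm hne)⟩
      linarith
    obtain ⟨z, hz⟩ := hz
    have hz1 : toIocMod Real.two_pi_pos (-Real.pi) z ∈ Icc (-Real.pi) Real.pi := by
      have := toIocMod_mem_Ioc Real.two_pi_pos (-Real.pi) z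
      constructor <;> linarith [this.1, this.2]
    have hz2 : χ (toIocMod Real.two_pi_pos (-Real.pi) z) = 0 := by
      apply χz
      rw [toIocMod, hp.sub_zsmul_eq]
      exact hz
    have b2 : ∀ y ∈ Icc (-Real.pi) Real.pi, χ y = 0 := by
      intro y hy
      rcases mul_eq_zero.1 (b1 y hy) with h | h
      · exact h
      · exfalso
        obtain ⟨w, hw, hw'⟩ := isPreconnected_Icc.intermediate_value hz1 hy cχ.continuousOn
          (show (1 / 2 : ℝ) ∈ Icc _ _ by rw [hz2]; constructor <;> linarith)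
        have := b1 w hw
        rw [hw'] at this
        norm_num at this
    have b3 : ∫ y in (-Real.pi)..Real.pi, χ y = 0 := by
      rw [intervalIntegral.integral_congr (g := fun _ => 0)]
      · simp
      · intro y hy
        rw [uIcc_of_le hpi] at hy
        exact b2 y hy
    linarith
  refine ⟨t', t0, hlt, ?_⟩
  have a5 : (∫ y in (-Real.pi)..Real.pi, v y) - ∫ y in (-Real.pi)..Real.pi, χ y * v y ≤
      η * (2 * t - 2 * t') := by
    have := mul_le_mul_of_nonneg_left (show η⁻¹ * ((∫ y in (-Real.pi)..Real.pi, v y) -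
      ∫ y in (-Real.pi)..Real.pi, χ y * v y) ≤ 2 * t - 2 * t' by linarith) hη0.le
    rwa [← mul_assoc, mul_inv_cancel₀ hη0.ne', one_mul] at this
  have a6 : η * (2 * t - 2 * t') < ε * (t - t') := by
    rw [hη]; nlinarith [mul_pos hε (sub_pos.2 hlt)]
  linarith

end Pool.Agent.Lib.MP_9b2593_an.Uq
end
end

-- part Pool.Agent.Lib.MP_9b2593_an.Uq.StarC
section

/-!
The maximum principle for the star function.
-/

open Complex Metric Set MeasureTheory

noncomputable section

namespace Pool.Agent.Lib.MP_9b2593_an.Uq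

open Filter Topology

/-- The comparison function. -/
def stW (u G : ℝ → ℝ → ℝ) (ε k X x t : ℝ) : ℝ :=
  stV (u x) t + (-(∫ y in (-t)..t, G x y) - ε * t + k * (x + X) ^ 2)

theorem stW_usc {u G : ℝ → ℝ → ℝ} (hu : Continuous u.uncurry) (hG : Continuous G.uncurry)
    (ε k X : ℝ) : UpperSemicontinuousOn (fun z : ℝ × ℝ => stW u G ε k X z.1 z.2)
      (Icc (-X) X ×ˢ Icc 0 Real.pi) := by
  have c1 : ∀ c : ℝ, Continuous fun z : ℝ × ℝ => stPhi (u z.1) z.2 c := fun c => by
    have : Continuous fun z : ℝ × ℝ => ∫ y in (-Real.pi)..Real.pi, max (u z.1 y - c) 0 :=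
      intervalIntegral.continuous_parametric_intervalIntegral_of_continuous'
        (f := fun (z : ℝ × ℝ) y => max (u z.1 y - c) 0)
        (((hu.comp (f := fun w : (ℝ × ℝ) × ℝ => (w.1.1, w.2)) (by fun_prop)).sub
          continuous_const).max continuous_const) _ _
    unfold stPhi
    fun_prop
  have cG : Continuous (Function.uncurry fun (z : ℝ × ℝ) y => G z.1 y) :=
    hG.comp (f := fun w : (ℝ × ℝ) × ℝ => (w.1.1, w.2)) (by fun_prop)
  have c2 : Continuous fun z : ℝ × ℝ => ∫ y in (-z.2)..z.2, G z.1 y := by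
    have a1 := intervalIntegral.continuous_parametric_intervalIntegral_of_continuous (a₀ := 0)
      (μ := volume) cG (s := fun z => z.2) continuous_snd
    have a2 := intervalIntegral.continuous_parametric_intervalIntegral_of_continuous (a₀ := 0)
      (μ := volume) cG (s := fun z => -z.2) continuous_snd.neg
    refine (a1.sub a2).congr fun z => ?_
    have cG0 : Continuous (G z.1) := hG.comp (f := fun y => (z.1, y)) (by fun_prop)
    exact intervalIntegral.integral_interval_sub_left (cG0.intervalIntegrable _ _)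
      (cG0.intervalIntegrable _ _)
  refine UpperSemicontinuousOn.add (f := fun z : ℝ × ℝ => stV (u z.1) z.2) ?_ ?_
  · exact upperSemicontinuousOn_ciInf (f := fun (c : NNReal) (z : ℝ × ℝ) => stPhi (u z.1) z.2 c)
      (fun z hz => stV_bdd _ hz.2.1) fun c => (c1 c).continuousOn.upperSemicontinuousOn
  · refine ContinuousOn.upperSemicontinuousOn (Continuous.continuousOn ?_)
    fun_prop

theorem st_gam {g : ℝ → ℝ} (hg : Continuous g) (t s : ℝ) :
    (∫ y in (-(t + s))..(t + s), g y) + (∫ y in (-(t + -s))..(t + -s), g y) =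
      (∫ y in (-t)..t, g (y + s)) + ∫ y in (-t)..t, g (y + -s) := by
  rw [intervalIntegral.integral_comp_add_right, intervalIntegral.integral_comp_add_right]
  have e : ∀ a b, ∫ y in a..b, g y = (∫ y in (0 : ℝ)..b, g y) - ∫ y in (0 : ℝ)..a, g y :=
    fun a b => (intervalIntegral.integral_interval_sub_left (hg.intervalIntegrable _ _)
      (hg.intervalIntegrable _ _)).symm
  have e1 : -(t + s) = -t + -s := by ring
  have e2 : -(t + -s) = -t + s := by ring
  rw [e1, e2, e (-t + -s), e (-t + s), e (-t + s), e (-t + -s)]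
  ring

theorem st_interior {u G : ℝ → ℝ → ℝ} (hu : Continuous u.uncurry) (hG : Continuous G.uncurry)
    (u0 : ∀ x y, 0 ≤ u x y) (up : ∀ x, Function.Periodic (u x) (2 * Real.pi))
    (Gp : ∀ x, Function.Periodic (G x) (2 * Real.pi)) {ε k X x t : ℝ} (hk : 0 < k)
    (hx : |x| < X) (ht0 : 0 < t) (ht : t ≤ Real.pi)
    (hmax : ∀ x' t', |x'| ≤ X → t' ∈ Icc 0 Real.pi → stW u G ε k X x' t' ≤ stW u G ε k X x t)
    (h4 : ∀ᶠ δ in 𝓝[>] (0 : ℝ), ∀ y ∈ Icc (-Real.pi) Real.pi, 2 * Real.pi * u x y ≤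
      ∫ φ in (0 : ℝ)..2 * Real.pi, u (x + δ * Real.cos φ) (y + δ * Real.sin φ))
    (h5 : ∀ᶠ δ in 𝓝[>] (0 : ℝ), ∀ y ∈ Icc (-t) t, ∫ φ in (0 : ℝ)..2 * Real.pi,
      G (x + δ * Real.cos φ) (y + δ * Real.sin φ) ≤ 2 * Real.pi * G x y)
    {ρ : ℝ → ℝ} (hρ : Continuous ρ) (ρp : Function.Periodic ρ (2 * Real.pi))
    (hn : ∀ c, volume {y | ρ y = c} = 0) (hm : ∀ y y', ρ y ≤ ρ y' → u x y ≤ u x y') : False := by
  have hpi : -Real.pi ≤ Real.pi := by linarith [Real.pi_pos]
  have cu : ∀ x, Continuous (u x) := fun x => hu.comp (f := fun y => (x, y)) (by fun_prop)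
  have cG : ∀ x, Continuous (G x) := fun x => hG.comp (f := fun y => (x, y)) (by fun_prop)
  have hcos : ∀ δ φ : ℝ, 0 < δ → |δ * Real.cos φ| ≤ δ := fun δ φ hδ => by
    rw [abs_mul, abs_of_pos hδ]; exact mul_le_of_le_one_right hδ.le (Real.abs_cos_le_one φ)
  have hsin : ∀ δ φ : ℝ, 0 < δ → |δ * Real.sin φ| ≤ δ := fun δ φ hδ => by
    rw [abs_mul, abs_of_pos hδ]; exact mul_le_of_le_one_right hδ.le (Real.abs_sin_le_one φ)
  have hev : ∀ r : ℝ, 0 < r → ∀ᶠ δ in 𝓝[>] (0 : ℝ), δ < r := fun r hr =>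
    nhdsWithin_le_nhds (gt_mem_nhds hr)
  have hxa : ∀ a δ : ℝ, |a| ≤ δ → δ < X - |x| → |x + a| ≤ X := fun a δ h1 h2 => by
    linarith [abs_add_le x a]
  rcases ht.eq_or_lt with rfl | ht
  · obtain ⟨δ, h4, h5, hδ, hδ0⟩ :=
      (h4.and (h5.and ((hev _ (sub_pos.2 hx)).and self_mem_nhdsWithin))).exists
    have hF : ∀ y : ℝ, (fun _ : ℝ => (1 : ℝ)) y ∈ Icc (0 : ℝ) 1 := fun _ => by simp
    have key : ∀ a s : ℝ, |a| ≤ δ → stT (fun _ => 1) u G x Real.pi k X a s ≤
        stT (fun _ => 1) u G x Real.pi k X 0 0 := by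
      intro a s ha
      have a1 := hmax (x + a) Real.pi (hxa a δ ha hδ) ⟨Real.pi_pos.le, le_rfl⟩
      have a2 := int_le_stV (F := fun _ => 1) measurable_const hF (cu (x + a)) (t := Real.pi)
        (by simp; ring)
      have a3 := stV_le_int (h := u x) Real.pi_pos.le (u0 x)
      have sh : ∀ g : ℝ → ℝ, Function.Periodic g (2 * Real.pi) →
          ∫ y in (-Real.pi)..Real.pi, g (y + s) = ∫ y in (-Real.pi)..Real.pi, g y := by
        intro g hg
        rw [intervalIntegral.integral_comp_add_right, ← st_per hg (-Real.pi + s)]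
        have e : Real.pi + s = -Real.pi + s + 2 * Real.pi := by ring
        rw [e]
      simp only [stT, stW, one_mul, add_zero] at a1 a2 ⊢
      rw [sh _ (up _), sh _ (Gp _)]
      linarith
    refine st_final (X := X) measurable_const hF hu hG Real.pi_pos.le hk hδ0 h4 h5 fun φ => ?_
    linarith [key (δ * Real.cos φ) (δ * Real.sin φ) (hcos δ φ hδ0),
      key (δ * Real.cos φ) (-(δ * Real.sin φ)) (hcos δ φ hδ0)]
  obtain ⟨c, hc, ⟨p, hp⟩, ⟨p', hp'⟩⟩ := st_level hρ hn ht0 ht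
  obtain ⟨y0, hy0⟩ := intermediate_value_univ p' p hρ ⟨hp'.le, hp.le⟩
  have hFm := stInd_meas hρ c
  have hF := stInd_mem ρ c
  have Fp : Function.Periodic (stInd ρ c) (2 * Real.pi) := fun y => by simp only [stInd, ρp y]
  set p'' := toIocMod Real.two_pi_pos p p' with hp''
  have hp2 : ρ p'' < c := by
    rw [hp'', toIocMod, ρp.sub_zsmul_eq]; exact hp'
  have hp3 := toIocMod_mem_Ioc Real.two_pi_pos p p'
  obtain ⟨r1, hr1, hb1⟩ := Metric.isOpen_iff.1 (isOpen_lt continuous_const hρ) p hp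
  obtain ⟨r2, hr2, hb2⟩ := Metric.isOpen_iff.1 (isOpen_lt hρ continuous_const) p'' hp2
  have F1 : ∀ y ∈ ball p (min r1 r2), stInd ρ c y = 1 := fun y hy => by
    have : c < ρ y := hb1 (ball_subset_ball (min_le_left _ _) hy)
    simp [stInd, this]
  have F0 : ∀ y ∈ ball p'' (min r1 r2), stInd ρ c y = 0 := fun y hy => by
    have : ρ y < c := hb2 (ball_subset_ball (min_le_right _ _) hy)
    simp [stInd, not_lt.2 this.le]
  have hV : stV (u x) t ≤ ∫ y in (-Real.pi)..Real.pi, stInd ρ c y * u x y := by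
    refine (stV_le _ ht0.le (u0 x y0)).trans (le_of_eq ?_)
    have hmx : Continuous fun y => max (u x y - u x y0) 0 := by have := cu x; fun_prop
    unfold stPhi
    rw [← hc, ← intervalIntegral.integral_mul_const, ← intervalIntegral.integral_add
      ((st_int1 hFm hF _ _).mul_const _) (hmx.intervalIntegrable _ _)]
    refine intervalIntegral.integral_congr fun y _ => ?_
    simp only [stInd]
    split_ifs with h
    · rw [max_eq_left (sub_nonneg.2 (hm y0 y (by rw [hy0]; exact h.le)))]; ring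
    · rw [max_eq_right (sub_nonpos.2 (hm y y0 (by rw [hy0]; exact not_lt.1 h)))]; ring
  obtain ⟨δ, h4, h5, hδ, hδ1, hδ2, hδ3, hδ0⟩ :=
    (h4.and (h5.and ((hev _ (sub_pos.2 hx)).and ((hev _ (lt_min hr1 hr2)).and
      ((hev _ ht0).and ((hev _ (sub_pos.2 ht)).and self_mem_nhdsWithin)))))).exists
  refine st_final (X := X) hFm hF hu hG ht0.le hk hδ0 h4 h5 fun φ => ?_
  have ha := hcos δ φ hδ0
  have hs := hsin δ φ hδ0
  generalize δ * Real.cos φ = a at ha ⊢
  generalize δ * Real.sin φ = s at hs ⊢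
  have hs' := abs_le.1 hs
  have a1 := hmax (x + a) (t + s) (hxa a δ ha hδ) ⟨by linarith, by linarith⟩
  have a2 := hmax (x + a) (t + -s) (hxa a δ ha hδ) ⟨by linarith, by linarith⟩
  have a3 : (∫ y in (-Real.pi)..Real.pi, stInd ρ c y * u (x + a) (y + s)) +
      (∫ y in (-Real.pi)..Real.pi, stInd ρ c y * u (x + a) (y + -s)) ≤
      stV (u (x + a)) (t + s) + stV (u (x + a)) (t + -s) := by
    rw [← sub_le_iff_le_add]
    refine le_stV fun c1 _ => ?_
    rw [sub_le_comm]
    refine le_stV fun c2 _ => ?_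
    have := st_trick hFm hF Fp (cu (x + a)) (up (x + a)) F1 F0 (hs.trans_lt hδ1) hp3.1.le hp3.2
      hc c1 c2
    linarith
  have a4 := st_gam (cG (x + a)) t s
  simp only [stT, stW, add_zero] at a1 a2 ⊢
  linarith

theorem st_core {u G : ℝ → ℝ → ℝ} (hu : Continuous u.uncurry) (hG : Continuous G.uncurry)
    (u0 : ∀ x y, 0 ≤ u x y) (G0 : ∀ x y, 0 ≤ G x y)
    (up : ∀ x, Function.Periodic (u x) (2 * Real.pi))
    (Gp : ∀ x, Function.Periodic (G x) (2 * Real.pi)) {β : ℝ} (hβ : 0 < β) {L : ℝ → ℝ}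
    (h1 : ∀ o, 0 < o → ∀ᶠ x in atBot, ∀ y, |u x y - (L x + β)| ≤ o ∧ |G x y - L x| ≤ o)
    (h2 : ∀ o, 0 < o → ∀ᶠ x in atTop, ∀ y, u x y ≤ o)
    (h4 : ∀ x, ∀ᶠ δ in 𝓝[>] (0 : ℝ), ∀ y ∈ Icc (-Real.pi) Real.pi, 2 * Real.pi * u x y ≤
      ∫ φ in (0 : ℝ)..2 * Real.pi, u (x + δ * Real.cos φ) (y + δ * Real.sin φ))
    (h5 : ∀ x, ∀ t ∈ Icc 0 Real.pi, (∀ᶠ δ in 𝓝[>] (0 : ℝ), ∀ y ∈ Icc (-t) t,
      ∫ φ in (0 : ℝ)..2 * Real.pi, G (x + δ * Real.cos φ) (y + δ * Real.sin φ) ≤
        2 * Real.pi * G x y) ∨ ((∃ y, u x y = 0) ∧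
        volume ({y | u x y ≠ 0} ∩ Ioc (-Real.pi) Real.pi) ≤ ENNReal.ofReal (2 * t)))
    (h6 : ∀ x, ∃ ρ : ℝ → ℝ, Continuous ρ ∧ Function.Periodic ρ (2 * Real.pi) ∧
      (∀ c, volume {y | ρ y = c} = 0) ∧ ∀ y y', ρ y ≤ ρ y' → u x y ≤ u x y') : False := by
  have hpi : -Real.pi ≤ Real.pi := by linarith [Real.pi_pos]
  have p3 := Real.pi_gt_three
  have p4 := Real.pi_lt_four
  have cu : ∀ x, Continuous (u x) := fun x => hu.comp (f := fun y => (x, y)) (by fun_prop)
  have cG : ∀ x, Continuous (G x) := fun x => hG.comp (f := fun y => (x, y)) (by fun_prop)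
  obtain ⟨o, ho⟩ : ∃ o, o = β / 200 := ⟨_, rfl⟩
  have ho0 : 0 < o := by rw [ho]; positivity
  obtain ⟨x1, hx1⟩ := eventually_atBot.1 (h1 o ho0)
  obtain ⟨x2, hx2⟩ := eventually_atTop.1 (h2 o ho0)
  obtain ⟨X, hX⟩ : ∃ X, X = 2 * (|x1| + |x2| + 1) := ⟨_, rfl⟩
  have b1 := neg_abs_le x1
  have b2 := le_abs_self x2
  have b3 := abs_nonneg x1
  have b4 := abs_nonneg x2
  have X0 : 0 < X := by rw [hX]; positivity
  obtain ⟨k, hk⟩ : ∃ k, k = β / X ^ 2 := ⟨_, rfl⟩
  have k0 : 0 < k := by rw [hk]; positivity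
  have kX : k * X ^ 2 = β := by rw [hk]; field_simp
  obtain ⟨ε, hε⟩ : ∃ ε, ε = β / 50 := ⟨_, rfl⟩
  have a7 : Real.pi * β < 4 * β := mul_lt_mul_of_pos_right p4 hβ
  have a8 : 3 * β < Real.pi * β := mul_lt_mul_of_pos_right p3 hβ
  have a9 : Real.pi * o = Real.pi * β / 200 := by rw [ho]; ring
  have a10 : ε * Real.pi = Real.pi * β / 50 := by rw [hε]; ring
  have ε0 : 0 < ε := by rw [hε]; positivity
  obtain ⟨⟨x, t⟩, ⟨hx, ht⟩, hmax⟩ := (stW_usc hu hG ε k X).exists_isMaxOn
    ⟨(0, 0), mem_prod.2 ⟨by constructor <;> linarith, by constructor <;> linarith⟩⟩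
    (isCompact_Icc.prod isCompact_Icc)
  simp only at hx ht
  have hmax' : ∀ x' t', |x'| ≤ X → t' ∈ Icc 0 Real.pi → stW u G ε k X x' t' ≤ stW u G ε k X x t :=
    fun x' t' h h' => hmax (show (x', t') ∈ _ from ⟨abs_le.1 h, h'⟩)
  have Gi : ∀ x t, 0 ≤ t → 0 ≤ ∫ y in (-t)..t, G x y := fun x t h =>
    intervalIntegral.integral_nonneg (by linarith) fun y _ => G0 x y
  have low : 2 * Real.pi * β + β / 4 - 4 * Real.pi * o - ε * Real.pi ≤ stW u G ε k X x t := by
    refine le_trans ?_ (hmax' (-X / 2) Real.pi (by rw [abs_le]; constructor <;> linarith)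
      ⟨Real.pi_pos.le, le_rfl⟩)
    have a0 := hx1 (-X / 2) (by linarith)
    have a2 := int_le_stV (F := fun _ => 1) measurable_const (fun _ => by simp) (cu (-X / 2))
      (t := Real.pi) (by simp; ring)
    simp only [one_mul] at a2
    have a3 : ∫ _ in (-Real.pi)..Real.pi, (L (-X / 2) + β - o) ≤
        ∫ y in (-Real.pi)..Real.pi, u (-X / 2) y :=
      intervalIntegral.integral_mono hpi (by simp) ((cu _).intervalIntegrable _ _) fun y => by
        linarith [(abs_le.1 (a0 y).1).1]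
    have a4 : ∫ y in (-Real.pi)..Real.pi, G (-X / 2) y ≤
        ∫ _ in (-Real.pi)..Real.pi, (L (-X / 2) + o) :=
      intervalIntegral.integral_mono hpi ((cG _).intervalIntegrable _ _) (by simp) fun y => by
        linarith [(abs_le.1 (a0 y).2).2]
    rw [intervalIntegral.integral_const, smul_eq_mul] at a3 a4
    have a5 : k * (-X / 2 + X) ^ 2 = β / 4 := by rw [← kX]; ring
    unfold stW
    linarith
  have hk4 : k * (x + X) ^ 2 ≤ 4 * β := by
    rw [← kX]
    have : (x + X) ^ 2 ≤ (2 * X) ^ 2 := pow_le_pow_left₀ (by linarith [hx.1]) (by linarith [hx.2]) 2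
    linarith [mul_le_mul_of_nonneg_left this k0.le]
  have εt : 0 ≤ ε * t := mul_nonneg ε0.le ht.1
  have n1 : x ≠ -X := by
    rintro rfl
    have a0 := hx1 (-X) (by linarith)
    have a1 := stV_le_of_le (h := u (-X)) (c := L (-X) + β + o) ht.1
      (fun y => by linarith [(abs_le.1 (a0 y).1).2])
      (by linarith [(abs_le.1 (a0 0).1).2, u0 (-X) 0])
    have a4 : ∫ _ in (-t)..t, (L (-X) - o) ≤ ∫ y in (-t)..t, G (-X) y :=
      intervalIntegral.integral_mono (by linarith [ht.1]) (by simp) ((cG _).intervalIntegrable _ _)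
        fun y => by linarith [(abs_le.1 (a0 y).2).1]
    rw [intervalIntegral.integral_const, smul_eq_mul] at a4
    unfold stW at low
    have a5 : k * (-X + X) ^ 2 = 0 := by ring
    have a6 : t * (β + 2 * o) ≤ Real.pi * (β + 2 * o) :=
      mul_le_mul_of_nonneg_right ht.2 (by positivity)
    linarith
  have n2 : x ≠ X := by
    intro e
    have a1 := stV_le_of_le (h := u x) (c := o) ht.1 (hx2 x (by linarith)) ho0.le
    have a2 := Gi x t ht.1
    have a6 : t * o ≤ Real.pi * o := mul_le_mul_of_nonneg_right ht.2 ho0.le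
    unfold stW at low
    linarith
  have n3 : t ≠ 0 := by
    rintro rfl
    obtain ⟨M, hM⟩ := (up x).isBounded_of_continuous (by positivity) (cu x) |>.bddAbove
    have a1 := stV_le_of_le (h := u x) (c := M) le_rfl (fun y => hM ⟨y, rfl⟩)
      ((u0 x 0).trans (hM ⟨0, rfl⟩))
    simp only [stW, mul_zero, zero_mul, neg_zero, intervalIntegral.integral_same] at a1 low
    linarith
  have hx' : |x| < X := abs_lt.2 ⟨lt_of_le_of_ne hx.1 (Ne.symm n1), lt_of_le_of_ne hx.2 n2⟩
  have ht0 : 0 < t := lt_of_le_of_ne ht.1 (Ne.symm n3)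
  rcases h5 x t ht with h5 | ⟨hz, hm⟩
  · obtain ⟨ρ, hρ, ρp, hn, hm⟩ := h6 x
    exact st_interior hu hG u0 up Gp k0 hx' ht0 ht.2 hmax' (h4 x) h5 hρ ρp hn hm
  · obtain ⟨t', t0, hlt, h⟩ := st_outside (cu x) (u0 x) (up x) ht0 ε0 hz hm
    have a1 := hmax' x t' hx'.le ⟨t0, hlt.le.trans ht.2⟩
    have a2 : ∫ y in (-t')..t', G x y ≤ ∫ y in (-t)..t, G x y :=
      intervalIntegral.integral_mono_interval (by linarith) (by linarith) hlt.le
        (Eventually.of_forall fun y => G0 x y) ((cG x).intervalIntegrable _ _)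
    unfold stW at a1
    linarith

end Pool.Agent.Lib.MP_9b2593_an.Uq
end
end
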